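import Mathlib

set_option autoImplicit false
set_option maxHeartbeats 4000000
set_option synthInstance.maxHeartbeats 400000

open MeasureTheory Set Real
open scoped ENNReal

namespace Pool.Agent.Helper44.Ball3

variable {δ : Type*} [Fintype δ] [DecidableEq δ] {Y : Type*} [MeasurableSpace Y]

lemma lmarginal_prod_pi (ν : δ → Measure Y) [∀ i, SigmaFinite (ν i)] {f : δ → Y → ℝ≥0∞}
    (hf : ∀ i, Measurable (f i)) (s : Finset δ) :
    (∫⋯∫⁻_s, (fun y : δ → Y => ∏ i, f i (y i)) ∂ν) =
      fun y => (∏ i ∈ s, ∫⁻ t, f i t ∂(ν i)) * ∏ i ∈ sᶜ, f i (y i) := by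
  have hm : Measurable fun y : δ → Y => ∏ i, f i (y i) :=
    Finset.measurable_fun_prod _ fun i _ => (hf i).comp (measurable_pi_apply i)
  induction s using Finset.induction_on with
  | empty => simp
  | insert i s hi ih =>
    funext y
    rw [lmarginal_insert _ hm hi, ih]
    have h1 : ∀ t, (∏ j ∈ sᶜ, f j (Function.update y i t j)) =
        f i t * ∏ j ∈ (insert i s)ᶜ, f j (y j) := by
      intro t
      have hic : i ∈ sᶜ := Finset.mem_compl.mpr hi
      rw [← Finset.mul_prod_erase _ _ hic, Function.update_self, Finset.compl_insert]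
      congr 1
      refine Finset.prod_congr rfl fun j hj => ?_
      rw [Function.update_of_ne (Finset.ne_of_mem_erase hj)]
    simp only [h1]
    rw [lintegral_const_mul, lintegral_mul_const _ (hf i), Finset.prod_insert hi]
    · ring
    · exact (hf i).mul_const _

lemma lintegral_prod_pi (ν : δ → Measure Y) [∀ i, SigmaFinite (ν i)] {f : δ → Y → ℝ≥0∞}
    (hf : ∀ i, Measurable (f i)) [Nonempty Y] :
    ∫⁻ y, ∏ i, f i (y i) ∂(Measure.pi ν) = ∏ i, ∫⁻ t, f i t ∂(ν i) := by
  obtain ⟨y0⟩ := (inferInstance : Nonempty Y)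
  rw [lintegral_eq_lmarginal_univ (fun _ => y0), lmarginal_prod_pi ν hf]
  simp

/-- Products of measures with densities. -/
lemma pi_withDensity [Nonempty Y] (ν : δ → Measure Y) [∀ i, SigmaFinite (ν i)]
    {f : δ → Y → ℝ≥0∞}
    (hf : ∀ i, Measurable (f i)) [∀ i, SigmaFinite ((ν i).withDensity (f i))] :
    Measure.pi (fun i => (ν i).withDensity (f i)) =
      (Measure.pi ν).withDensity (fun y => ∏ i, f i (y i)) := by
  refine Measure.pi_eq fun s hs => ?_
  rw [withDensity_apply _ (MeasurableSet.univ_pi hs), ← lintegral_indicator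
    (MeasurableSet.univ_pi hs)]
  have h1 : ∀ y : δ → Y, (Set.pi univ s).indicator (fun y => ∏ i, f i (y i)) y =
      ∏ i, (s i).indicator (f i) (y i) := by
    intro y
    by_cases h : y ∈ Set.pi univ s
    · rw [indicator_of_mem h]
      refine Finset.prod_congr rfl fun i _ => ?_
      rw [indicator_of_mem (h i (mem_univ i))]
    · rw [indicator_of_notMem h]
      have : ∃ i, y i ∉ s i := by
        by_contra hh
        push Not at hh
        exact h (fun i _ => hh i)
      obtain ⟨i, hi⟩ := this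
      exact (Finset.prod_eq_zero (Finset.mem_univ i) (indicator_of_notMem hi _)).symm
  simp only [h1]
  rw [lintegral_prod_pi ν (fun i => (hf i).indicator (hs i))]
  refine Finset.prod_congr rfl fun i _ => ?_
  rw [lintegral_indicator (hs i), withDensity_apply _ (hs i)]

lemma pair_int (ν : δ → Measure Y) [∀ i, IsProbabilityMeasure (ν i)] {i j : δ} (hij : i ≠ j)
    {g : Y → Y → ℝ≥0∞} (hg : Measurable (Function.uncurry g)) :
    ∫⁻ y, g (y i) (y j) ∂(Measure.pi ν) = ∫⁻ s, ∫⁻ t, g s t ∂(ν j) ∂(ν i) := by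
  have hm0 : Measurable fun y : δ → Y => (y i, y j) :=
    (measurable_pi_apply i).prodMk (measurable_pi_apply j)
  have hm1 : Measurable fun y : δ → Y => g (y i) (y j) := hg.comp hm0
  have hm2 : Measurable fun s : Y => ∫⁻ t, g s t ∂(ν j) := hg.lintegral_prod_right'
  have hm3 : Measurable fun y : δ → Y => ∫⁻ t, g (y i) t ∂(ν j) :=
    hm2.comp (measurable_pi_apply i)
  have s1 : ∫⁻ y, g (y i) (y j) ∂(Measure.pi ν) =
      ∫⁻ y, (∫⁻ t, g (y i) t ∂(ν j)) ∂(Measure.pi ν) := by
    refine lintegral_eq_of_lmarginal_eq {j} hm1 hm3 ?_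
    rw [lmarginal_singleton, lmarginal_singleton]
    funext y
    simp only [Function.update_self, Function.update_of_ne hij]
    simp
  rw [s1]
  have s2 : ∫⁻ y, (∫⁻ t, g (y i) t ∂(ν j)) ∂(Measure.pi ν) =
      ∫⁻ _y, (∫⁻ s, ∫⁻ t, g s t ∂(ν j) ∂(ν i)) ∂(Measure.pi ν) := by
    refine lintegral_eq_of_lmarginal_eq {i} hm3 measurable_const ?_
    rw [lmarginal_singleton, lmarginal_singleton]
    funext y
    simp only [Function.update_self]
    simp
  rw [s2]
  simp

/-- Jensen for a decreasing exponential. -/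
lemma jensen_neg {Z : Type*} [MeasurableSpace Z] {P : Measure Z} [IsProbabilityMeasure P]
    {G : Z → ℝ} (hG : Measurable G) {M : ℝ} (hM : 0 ≤ M)
    (h : ∫⁻ z, ENNReal.ofReal (G z) ∂P ≤ ENNReal.ofReal M) :
    ENNReal.ofReal (exp (-M)) ≤ ∫⁻ z, ENNReal.ofReal (exp (-(G z))) ∂P := by
  have h1 : ∀ z, ENNReal.ofReal (exp (-M)) + ENNReal.ofReal (exp (-M)) * ENNReal.ofReal M ≤
      ENNReal.ofReal (exp (-(G z))) + ENNReal.ofReal (exp (-M)) * ENNReal.ofReal (G z) := by
    intro z
    rw [← ENNReal.ofReal_mul (exp_pos _).le, ← ENNReal.ofReal_mul (exp_pos _).le,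
      ← ENNReal.ofReal_add (exp_pos _).le (by positivity)]
    refine le_trans (ENNReal.ofReal_le_ofReal ?_) ENNReal.ofReal_add_le
    have h2 : exp (-(G z)) = exp (-M) * exp (M - G z) := by rw [← exp_add]; congr 1; ring
    have h3 := add_one_le_exp (M - G z)
    rw [h2]
    nlinarith [exp_pos (-M), mul_le_mul_of_nonneg_left h3 (exp_pos (-M)).le]
  have h4 := lintegral_mono (μ := P) h1
  rw [lintegral_const, measure_univ, mul_one, lintegral_add_left (by fun_prop),
    lintegral_const_mul _ (by fun_prop)] at h4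
  have h5 : ENNReal.ofReal (exp (-M)) + ENNReal.ofReal (exp (-M)) * ENNReal.ofReal M ≤
      ∫⁻ z, ENNReal.ofReal (exp (-(G z))) ∂P + ENNReal.ofReal (exp (-M)) * ENNReal.ofReal M :=
    h4.trans (by gcongr)
  exact (ENNReal.add_le_add_iff_right
    (ENNReal.mul_ne_top ENNReal.ofReal_ne_top ENNReal.ofReal_ne_top)).mp h5

/-- Jensen for an increasing exponential. -/
lemma jensen_pos {Z : Type*} [MeasurableSpace Z] {P : Measure Z} [IsProbabilityMeasure P]
    {G : Z → ℝ} (hG : Measurable G) {M : ℝ} (hM : 0 ≤ M)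
    (h : ENNReal.ofReal M ≤ ∫⁻ z, ENNReal.ofReal (G z) ∂P) (hG0 : ∀ᵐ z ∂P, 0 ≤ G z) :
    ENNReal.ofReal (exp M) ≤ ∫⁻ z, ENNReal.ofReal (exp (G z)) ∂P := by
  have h1 : ∀ᵐ z ∂P, ENNReal.ofReal (exp M) + ENNReal.ofReal (exp M) * ENNReal.ofReal (G z) ≤
      ENNReal.ofReal (exp (G z)) + ENNReal.ofReal (exp M) * ENNReal.ofReal M := by
    filter_upwards [hG0] with z hz
    rw [← ENNReal.ofReal_mul (exp_pos _).le, ← ENNReal.ofReal_mul (exp_pos _).le,
      ← ENNReal.ofReal_add (exp_pos _).le (by positivity),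
      ← ENNReal.ofReal_add (exp_pos _).le (by positivity)]
    refine ENNReal.ofReal_le_ofReal ?_
    have h2 : exp (G z) = exp M * exp (G z - M) := by rw [← exp_add]; congr 1; ring
    have h3 := add_one_le_exp (G z - M)
    rw [h2]
    nlinarith [exp_pos M, mul_le_mul_of_nonneg_left h3 (exp_pos M).le]
  have h4 := lintegral_mono_ae h1
  rw [lintegral_add_left (by fun_prop), lintegral_const, measure_univ, mul_one,
    lintegral_const_mul _ (by fun_prop), lintegral_add_right _ (by fun_prop), lintegral_const,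
    measure_univ, mul_one] at h4
  have h5 : ENNReal.ofReal (exp M) + ENNReal.ofReal (exp M) * ENNReal.ofReal M ≤
      ∫⁻ z, ENNReal.ofReal (exp (G z)) ∂P + ENNReal.ofReal (exp M) * ENNReal.ofReal M :=
    le_trans (by gcongr) h4
  exact (ENNReal.add_le_add_iff_right
    (ENNReal.mul_ne_top ENNReal.ofReal_ne_top ENNReal.ofReal_ne_top)).mp h5

end Pool.Agent.Helper44.Ball3
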