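import Mathlib

set_option autoImplicit false
set_option maxHeartbeats 4000000
set_option synthInstance.maxHeartbeats 400000

open MeasureTheory Set Real
open scoped InnerProductSpace ENNReal

namespace Pool.Agent.Helper44.Ball3

/-- Three dimensional Euclidean space. -/
abbrev E3 := EuclideanSpace ℝ (Fin 3)

/-- Cylindrical parametrisation of the unit sphere. -/
noncomputable def PP (p : ℝ × ℝ) : E3 :=
  !₂[√(1 - p.1 ^ 2) * cos p.2, √(1 - p.1 ^ 2) * sin p.2, p.1]

/-- Parameter domain. -/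
def Dom : Set (ℝ × ℝ) := Ioo (-1) 1 ×ˢ Ioo (-π) π

/-- Normalised measure on the parameter domain. -/
noncomputable def mu0 : Measure (ℝ × ℝ) := ENNReal.ofReal (1 / (4 * π)) • volume.restrict Dom

/-- Uniform probability measure on the unit sphere. -/
noncomputable def sig : Measure E3 := mu0.map PP

lemma measurable_vec {α : Type*} [MeasurableSpace α] {f g h : α → ℝ} (hf : Measurable f)
    (hg : Measurable g) (hh : Measurable h) : Measurable fun a => (!₂[f a, g a, h a] : E3) := by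
  refine (WithLp.measurable_toLp 2 _).comp ?_
  refine measurable_pi_lambda _ fun i => ?_
  fin_cases i
  · exact hf
  · exact hg
  · exact hh

lemma measurable_PP : Measurable PP := by
  unfold PP
  exact measurable_vec (by fun_prop) (by fun_prop) (by fun_prop)

lemma measurableSet_Dom : MeasurableSet Dom := measurableSet_Ioo.prod measurableSet_Ioo

lemma volume_Dom : (volume : Measure (ℝ × ℝ)) Dom = ENNReal.ofReal (4 * π) := by
  unfold Dom
  rw [Measure.volume_eq_prod, Measure.prod_prod, Real.volume_Ioo, Real.volume_Ioo,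
    ← ENNReal.ofReal_mul (by norm_num)]
  congr 1
  ring

instance : IsProbabilityMeasure mu0 := by
  constructor
  unfold mu0
  rw [Measure.smul_apply, Measure.restrict_apply_univ, volume_Dom, smul_eq_mul,
    ← ENNReal.ofReal_mul (by positivity)]
  have : 1 / (4 * π) * (4 * π) = 1 := by field_simp
  rw [this, ENNReal.ofReal_one]

instance : IsProbabilityMeasure sig :=
  Measure.isProbabilityMeasure_map measurable_PP.aemeasurable

lemma lintegral_sig {F : E3 → ℝ≥0∞} (hF : Measurable F) :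
    ∫⁻ w, F w ∂sig = ENNReal.ofReal (1 / (4 * π)) *
      ∫⁻ u in Ioo (-1 : ℝ) 1, ∫⁻ φ in Ioo (-π) π, F (PP (u, φ)) := by
  unfold sig
  rw [lintegral_map hF measurable_PP]
  unfold mu0 Dom
  rw [lintegral_smul_measure, smul_eq_mul, Measure.volume_eq_prod, ← Measure.prod_restrict,
    lintegral_prod]
  exact (hF.comp measurable_PP).aemeasurable

lemma lintegral_E3 {F : E3 → ℝ≥0∞} (hF : Measurable F) :
    ∫⁻ x, F x = ∫⁻ z : ℝ, ∫⁻ p : ℝ × ℝ, F !₂[p.1, p.2, z] := by
  have h1 := (PiLp.volume_preserving_toLp (Fin 3)).lintegral_comp hF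
  rw [← h1]
  have h2 := (volume_preserving_piFinSuccAbove (fun _ : Fin 3 => ℝ) 2).symm
  have hF' : Measurable fun x : Fin 3 → ℝ => F (WithLp.toLp 2 x) :=
    hF.comp (WithLp.measurable_toLp 2 _)
  rw [← h2.lintegral_comp hF', Measure.volume_eq_prod, lintegral_prod]
  · refine lintegral_congr fun z => ?_
    have h3 := (volume_preserving_finTwoArrow ℝ).symm
    rw [← h3.lintegral_comp]
    · refine lintegral_congr fun p => ?_
      congr 1
      ext i
      fin_cases i <;> rfl
    · exact (hF'.comp (MeasurableEquiv.measurable _)).comp measurable_prodMk_left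
  · exact (hF'.comp (MeasurableEquiv.measurable _)).aemeasurable

lemma setLIntegral_prod_Ioo {a b : ℝ} {G : ℝ × ℝ → ℝ≥0∞} (hG : Measurable G) :
    ∫⁻ p in Ioi (0 : ℝ) ×ˢ Ioo a b, G p = ∫⁻ r in Ioi (0 : ℝ), ∫⁻ t in Ioo a b, G (r, t) := by
  rw [Measure.volume_eq_prod, ← Measure.prod_restrict, lintegral_prod _ hG.aemeasurable]

/-- Substitution `u = cos t`. -/
lemma lintegral_cos_sub (G : ℝ → ℝ≥0∞) :
    ∫⁻ t in Ioo 0 π, ENNReal.ofReal (sin t) * G (cos t) = ∫⁻ u in Ioo (-1 : ℝ) 1, G u := by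
  have him : cos '' (Ioo 0 π) = Ioo (-1) 1 := by
    ext u
    constructor
    · rintro ⟨t, ht, rfl⟩
      constructor
      · have := Real.cos_lt_cos_of_nonneg_of_le_pi ht.1.le le_rfl ht.2
        rwa [cos_pi] at this
      · have := Real.cos_lt_cos_of_nonneg_of_le_pi le_rfl ht.2.le ht.1
        rwa [cos_zero] at this
    · intro hu
      refine ⟨arccos u, ⟨arccos_pos.mpr hu.2, ?_⟩, cos_arccos hu.1.le hu.2.le⟩
      have h1 := arccos_le_pi u
      rcases h1.lt_or_eq with h | h
      · exact h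
      · exfalso
        have := (arccos_eq_pi.mp h)
        linarith [hu.1]
  have h := lintegral_image_eq_lintegral_abs_deriv_mul (s := Ioo 0 π) (f := cos)
    (f' := fun t => - sin t) measurableSet_Ioo
    (fun x _ => (Real.hasDerivAt_cos x).hasDerivWithinAt)
    (injOn_cos.mono Ioo_subset_Icc_self) G
  rw [← him, h]
  refine setLIntegral_congr_fun measurableSet_Ioo fun t ht => ?_
  simp only [abs_neg]
  rw [abs_of_pos (sin_pos_of_pos_of_lt_pi ht.1 ht.2)]

/-- Spherical coordinates. -/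
lemma lintegral_polar {F : E3 → ℝ≥0∞} (hF : Measurable F) :
    ∫⁻ x, F x = ∫⁻ r in Ioi (0 : ℝ), ENNReal.ofReal (4 * π * r ^ 2) * ∫⁻ w, F (r • w) ∂sig := by
  -- the integrand in cylindrical coordinates
  have hm1 : Measurable fun q : (ℝ × ℝ) × ℝ =>
      ENNReal.ofReal q.1.1 * F !₂[q.1.1 * cos q.2, q.1.1 * sin q.2, q.1.2] :=
    (by fun_prop : Measurable fun q : (ℝ × ℝ) × ℝ => ENNReal.ofReal q.1.1).mul
      (hF.comp (measurable_vec (by fun_prop) (by fun_prop) (by fun_prop)))
  have s1 : ∀ z : ℝ, ∫⁻ p : ℝ × ℝ, F !₂[p.1, p.2, z] =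
      ∫⁻ ρ in Ioi (0 : ℝ), ∫⁻ φ in Ioo (-π) π,
        ENNReal.ofReal ρ * F !₂[ρ * cos φ, ρ * sin φ, z] := by
    intro z
    rw [← lintegral_comp_polarCoord_symm, polarCoord_target, setLIntegral_prod_Ioo]
    · rfl
    · simp only [smul_eq_mul, polarCoord_symm_apply]
      exact (by fun_prop : Measurable fun q : ℝ × ℝ => ENNReal.ofReal q.1).mul
        (hF.comp (measurable_vec (by fun_prop) (by fun_prop) (by fun_prop)))
  rw [lintegral_E3 hF]
  simp only [s1]
  -- move the angle outside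
  have s2 : ∀ z : ℝ, ∫⁻ ρ in Ioi (0 : ℝ), ∫⁻ φ in Ioo (-π) π,
        ENNReal.ofReal ρ * F !₂[ρ * cos φ, ρ * sin φ, z] =
      ∫⁻ φ in Ioo (-π) π, ∫⁻ ρ in Ioi (0 : ℝ),
        ENNReal.ofReal ρ * F !₂[ρ * cos φ, ρ * sin φ, z] := by
    intro z
    rw [lintegral_lintegral_swap]
    exact ((by fun_prop : Measurable fun q : ℝ × ℝ => ENNReal.ofReal q.1).mul
        (hF.comp (measurable_vec (by fun_prop) (by fun_prop) (by fun_prop)))).aemeasurable
  simp only [s2]
  have hm3 : Measurable fun q : ℝ × ℝ => ∫⁻ ρ in Ioi (0 : ℝ),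
        ENNReal.ofReal ρ * F !₂[ρ * cos q.2, ρ * sin q.2, q.1] := by
    refine Measurable.lintegral_prod_right' (f := fun x : (ℝ × ℝ) × ℝ =>
      ENNReal.ofReal x.2 * F !₂[x.2 * cos x.1.2, x.2 * sin x.1.2, x.1.1]) ?_
    exact (by fun_prop : Measurable fun q : (ℝ × ℝ) × ℝ => ENNReal.ofReal q.2).mul
        (hF.comp (measurable_vec (by fun_prop) (by fun_prop) (by fun_prop)))
  rw [lintegral_lintegral_swap hm3.aemeasurable]
  have s3 : ∀ φ : ℝ, ∫⁻ z : ℝ, ∫⁻ ρ in Ioi (0 : ℝ),
        ENNReal.ofReal ρ * F !₂[ρ * cos φ, ρ * sin φ, z] =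
      ∫⁻ r in Ioi (0 : ℝ), ∫⁻ u in Ioo (-1 : ℝ) 1,
        ENNReal.ofReal (r ^ 2) * F (r • PP (u, φ)) := by
    intro φ
    set G : ℝ × ℝ → ℝ≥0∞ := fun q => (Ioi (0 : ℝ)).indicator
      (fun ρ => ENNReal.ofReal ρ * F !₂[ρ * cos φ, ρ * sin φ, q.1]) q.2 with hG
    have hGm : Measurable G := by
      have h0 : Measurable fun q : ℝ × ℝ =>
          ENNReal.ofReal q.2 * F !₂[q.2 * cos φ, q.2 * sin φ, q.1] :=
        (by fun_prop : Measurable fun q : ℝ × ℝ => ENNReal.ofReal q.2).mul
          (hF.comp (measurable_vec (by fun_prop) (by fun_prop) (by fun_prop)))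
      exact h0.indicator (measurable_snd measurableSet_Ioi)
    have e1 : ∫⁻ z : ℝ, ∫⁻ ρ in Ioi (0 : ℝ),
        ENNReal.ofReal ρ * F !₂[ρ * cos φ, ρ * sin φ, z] = ∫⁻ q : ℝ × ℝ, G q := by
      rw [Measure.volume_eq_prod, lintegral_prod _ hGm.aemeasurable]
      refine lintegral_congr fun z => ?_
      rw [← lintegral_indicator measurableSet_Ioi]
    rw [e1, ← lintegral_comp_polarCoord_symm, polarCoord_target, setLIntegral_prod_Ioo]
    · refine setLIntegral_congr_fun measurableSet_Ioi fun r hr => ?_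
      have hr0 : (0 : ℝ) < r := hr
      simp only [polarCoord_symm_apply, smul_eq_mul]
      have e2 : ∫⁻ t in Ioo (-π) π, ENNReal.ofReal r * G (r * cos t, r * sin t) =
          ∫⁻ t in Ioo 0 π, ENNReal.ofReal r * G (r * cos t, r * sin t) := by
        rw [← lintegral_indicator measurableSet_Ioo, ← lintegral_indicator measurableSet_Ioo]
        refine lintegral_congr fun t => ?_
        by_cases h1 : t ∈ Ioo 0 π
        · rw [indicator_of_mem h1, indicator_of_mem]
          exact ⟨by linarith [h1.1, pi_pos], h1.2⟩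
        · rw [indicator_of_notMem h1]
          by_cases h2 : t ∈ Ioo (-π) π
          · rw [indicator_of_mem h2]
            have h3 : t ≤ 0 := by
              by_contra h4
              exact h1 ⟨not_le.mp h4, h2.2⟩
            have h5 : sin t ≤ 0 := sin_nonpos_of_nonpos_of_neg_pi_le h3 h2.1.le
            have h6 : r * sin t ∉ Ioi (0 : ℝ) := by
              simp only [mem_Ioi, not_lt]
              exact mul_nonpos_of_nonneg_of_nonpos hr0.le h5
            simp only [hG]
            rw [indicator_of_notMem h6, mul_zero]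
          · rw [indicator_of_notMem h2]
      rw [e2, ← lintegral_cos_sub]
      refine setLIntegral_congr_fun measurableSet_Ioo fun t ht => ?_
      have hs : 0 < sin t := sin_pos_of_pos_of_lt_pi ht.1 ht.2
      have h6 : r * sin t ∈ Ioi (0 : ℝ) := mul_pos hr0 hs
      simp only [hG]
      rw [indicator_of_mem h6]
      have e3 : √(1 - cos t ^ 2) = sin t := by
        have : 1 - cos t ^ 2 = sin t ^ 2 := by linarith [sin_sq_add_cos_sq t]
        rw [this, sqrt_sq hs.le]
      have e4 : r • PP (cos t, φ) = !₂[r * sin t * cos φ, r * sin t * sin φ, r * cos t] := by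
        unfold PP
        simp only [e3]
        ext i
        fin_cases i
        · simp; ring
        · simp; ring
        · simp
      rw [e4, ← mul_assoc, ← mul_assoc, ← ENNReal.ofReal_mul hr0.le, ← ENNReal.ofReal_mul hs.le]
      congr 2
      ring
    · simp only [smul_eq_mul, polarCoord_symm_apply]
      exact (by fun_prop : Measurable fun q : ℝ × ℝ => ENNReal.ofReal q.1).mul
        (hGm.comp (by fun_prop))
  simp only [s3]
  have hPs : Measurable fun x : ℝ × ℝ × ℝ => x.1 • PP (x.2.1, x.2.2) := by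
    unfold PP
    have : Measurable fun x : ℝ × ℝ × ℝ =>
      (!₂[√(1 - x.2.1 ^ 2) * cos x.2.2, √(1 - x.2.1 ^ 2) * sin x.2.2, x.2.1] : E3) :=
      measurable_vec (by fun_prop) (by fun_prop) (by fun_prop)
    exact measurable_fst.smul this
  have hmall : Measurable fun x : ℝ × ℝ × ℝ =>
      ENNReal.ofReal (x.1 ^ 2) * F (x.1 • PP (x.2.1, x.2.2)) :=
    (by fun_prop : Measurable fun x : ℝ × ℝ × ℝ => ENNReal.ofReal (x.1 ^ 2)).mul (hF.comp hPs)
  rw [lintegral_lintegral_swap]
  · refine setLIntegral_congr_fun measurableSet_Ioi fun r hr => ?_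
    have hsg := lintegral_sig (F := fun w => F (r • w)) (hF.comp (measurable_const_smul r))
    rw [hsg, ← mul_assoc, ← ENNReal.ofReal_mul (by positivity)]
    have e5 : 4 * π * r ^ 2 * (1 / (4 * π)) = r ^ 2 := by field_simp
    rw [e5]
    have hmr : Measurable fun x : ℝ × ℝ => F (r • PP (x.1, x.2)) :=
      hF.comp (measurable_PP.const_smul r)
    have h7 : Measurable fun q : ℝ × ℝ => ENNReal.ofReal (r ^ 2) * F (r • PP (q.2, q.1)) := by
      have h8 : Measurable fun q : ℝ × ℝ => (q.2, q.1) := measurable_snd.prodMk measurable_fst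
      have h9 := (hmr.comp h8).const_mul (ENNReal.ofReal (r ^ 2))
      exact h9
    have h10 : ∫⁻ φ in Ioo (-π) π, ∫⁻ u in Ioo (-1 : ℝ) 1,
        ENNReal.ofReal (r ^ 2) * F (r • PP (u, φ)) =
        ∫⁻ u in Ioo (-1 : ℝ) 1, ∫⁻ φ in Ioo (-π) π,
        ENNReal.ofReal (r ^ 2) * F (r • PP (u, φ)) :=
      lintegral_lintegral_swap (f := fun φ u => ENNReal.ofReal (r ^ 2) * F (r • PP (u, φ)))
        h7.aemeasurable
    have hm6 : Measurable fun u : ℝ => ∫⁻ φ in Ioo (-π) π, F (r • PP (u, φ)) :=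
      Measurable.lintegral_prod_right' (f := fun x : ℝ × ℝ => F (r • PP (x.1, x.2))) hmr
    have h11 : ∫⁻ u in Ioo (-1 : ℝ) 1, ∫⁻ φ in Ioo (-π) π,
        ENNReal.ofReal (r ^ 2) * F (r • PP (u, φ)) =
        ENNReal.ofReal (r ^ 2) * ∫⁻ u in Ioo (-1 : ℝ) 1, ∫⁻ φ in Ioo (-π) π,
        F (r • PP (u, φ)) := by
      rw [← lintegral_const_mul _ hm6]
      refine lintegral_congr fun u => ?_
      rw [lintegral_const_mul]
      have h12 := hmr.comp (measurable_prodMk_left (x := u))
      exact h12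
    exact h10.trans h11
  · have h8 : Measurable fun x : (ℝ × ℝ) × ℝ => (x.1.2, x.2, x.1.1) := by fun_prop
    have h9 := hmall.comp h8
    have := Measurable.lintegral_prod_right' (ν := volume.restrict (Ioo (-1 : ℝ) 1)) h9
    exact this.aemeasurable

lemma norm_PP {p : ℝ × ℝ} (hp : p ∈ Dom) : ‖PP p‖ = 1 := by
  have h1 : (0 : ℝ) ≤ 1 - p.1 ^ 2 := by
    have := hp.1
    have h2 := this.1
    have h3 := this.2
    nlinarith
  have h : ‖PP p‖ ^ 2 = 1 := by
    rw [EuclideanSpace.norm_sq_eq]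
    simp only [PP, Fin.sum_univ_three, norm_eq_abs, sq_abs]
    simp only [Matrix.cons_val_zero, Matrix.cons_val_one, Matrix.cons_val]
    rw [mul_pow, mul_pow, sq_sqrt h1]
    have := sin_sq_add_cos_sq p.2
    linear_combination (1 - p.1 ^ 2) * this
  have h0 := norm_nonneg (PP p)
  nlinarith

/-- The good part of the sphere. -/
def Good : Set E3 := {w | ‖w‖ = 1 ∧ -1 < w 2 ∧ w 2 < 1}

lemma PP_good {p : ℝ × ℝ} (hp : p ∈ Dom) : PP p ∈ Good := by
  refine ⟨norm_PP hp, ?_⟩
  have : (PP p) 2 = p.1 := rfl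
  rw [this]
  exact hp.1

lemma measurableSet_Good : MeasurableSet Good := by
  have h1 : Measurable fun w : E3 => w 2 := by fun_prop
  have h2 : MeasurableSet {w : E3 | ‖w‖ = 1} := measurableSet_eq_fun (by fun_prop) (by fun_prop)
  exact h2.inter ((measurableSet_lt measurable_const h1).inter
    (measurableSet_lt h1 measurable_const))

lemma ae_good : ∀ᵐ w ∂sig, w ∈ Good := by
  unfold sig
  have h1 : ∀ᵐ p ∂mu0, PP p ∈ Good := by
    unfold mu0
    refine Measure.ae_smul_measure ?_ _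
    rw [ae_restrict_iff' measurableSet_Dom]
    exact ae_of_all _ fun p hp => PP_good hp
  exact (ae_map_iff (p := fun w => w ∈ Good) measurable_PP.aemeasurable measurableSet_Good).mpr h1

lemma ae_norm : ∀ᵐ w ∂sig, ‖w‖ = 1 := ae_good.mono fun _ h => h.1

/-- Integration over the unit ball in spherical coordinates. -/
lemma lintegral_ball {F : E3 → ℝ≥0∞} (hF : Measurable F) :
    ∫⁻ x in Metric.closedBall 0 1, F x =
      ∫⁻ r in Ioo (0 : ℝ) 1, ENNReal.ofReal (4 * π * r ^ 2) * ∫⁻ w, F (r • w) ∂sig := by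
  have hb : MeasurableSet (Metric.closedBall (0 : E3) 1) := measurableSet_closedBall
  rw [← lintegral_indicator hb, lintegral_polar (hF.indicator hb)]
  have e1 : ∀ r ∈ Ioi (0 : ℝ), ENNReal.ofReal (4 * π * r ^ 2) *
      ∫⁻ w, (Metric.closedBall (0 : E3) 1).indicator F (r • w) ∂sig =
      (Iic (1 : ℝ)).indicator (fun r => ENNReal.ofReal (4 * π * r ^ 2) *
        ∫⁻ w, F (r • w) ∂sig) r := by
    intro r hr
    have hr0 : (0 : ℝ) < r := hr
    by_cases h : r ≤ 1
    · rw [indicator_of_mem (show r ∈ Iic (1 : ℝ) from h)]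
      congr 1
      refine lintegral_congr_ae ?_
      filter_upwards [ae_norm] with w hw
      rw [indicator_of_mem]
      rw [mem_closedBall_zero_iff, norm_smul, hw, mul_one, norm_of_nonneg hr0.le]
      exact h
    · rw [indicator_of_notMem (show r ∉ Iic (1 : ℝ) from h)]
      have : ∫⁻ w, (Metric.closedBall (0 : E3) 1).indicator F (r • w) ∂sig = 0 := by
        rw [lintegral_congr_ae (g := fun _ => 0), lintegral_zero]
        filter_upwards [ae_norm] with w hw
        rw [indicator_of_notMem]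
        rw [mem_closedBall_zero_iff, norm_smul, hw, mul_one, norm_of_nonneg hr0.le]
        exact h
      rw [this, mul_zero]
  rw [setLIntegral_congr_fun measurableSet_Ioi e1, lintegral_indicator measurableSet_Iic,
    Measure.restrict_restrict measurableSet_Iic]
  have : Iic (1 : ℝ) ∩ Ioi 0 = Ioc 0 1 := by
    ext x; constructor
    · rintro ⟨h1, h2⟩; exact ⟨h2, h1⟩
    · rintro ⟨h1, h2⟩; exact ⟨h2, h1⟩
  rw [this]
  exact setLIntegral_congr Ioo_ae_eq_Ioc.symm

/-- Rotation invariance. -/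
lemma sig_rot (L : E3 ≃ₗᵢ[ℝ] E3) {F : E3 → ℝ≥0∞} (hF : Measurable F) :
    ∫⁻ w, F (L w) ∂sig = ∫⁻ w, F w ∂sig := by
  have hL : Measurable fun w => L w := L.continuous.measurable
  -- radial extension
  set Ft : E3 → ℝ≥0∞ := fun x => F (‖x‖⁻¹ • x) with hFt
  have hFtm : Measurable Ft := hF.comp (by fun_prop)
  have key : ∀ {H : E3 → ℝ≥0∞}, Measurable H →
      ∫⁻ x in Metric.closedBall 0 1, H (‖x‖⁻¹ • x) =
        ENNReal.ofReal (4 * π / 3) * ∫⁻ w, H w ∂sig := by
    intro H hH
    have hHm : Measurable fun x : E3 => H (‖x‖⁻¹ • x) := hH.comp (by fun_prop)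
    rw [lintegral_ball hHm]
    have e1 : ∀ r ∈ Ioo (0 : ℝ) 1, ENNReal.ofReal (4 * π * r ^ 2) *
        ∫⁻ w, H (‖r • w‖⁻¹ • r • w) ∂sig =
        ENNReal.ofReal (4 * π * r ^ 2) * ∫⁻ w, H w ∂sig := by
      intro r hr
      congr 1
      refine lintegral_congr_ae ?_
      filter_upwards [ae_norm] with w hw
      rw [norm_smul, hw, mul_one, norm_of_nonneg hr.1.le, smul_smul, inv_mul_cancel₀ hr.1.ne',
        one_smul]
    rw [setLIntegral_congr_fun measurableSet_Ioo e1, lintegral_mul_const]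
    · congr 1
      rw [← ofReal_integral_eq_lintegral_ofReal, ← integral_Ioc_eq_integral_Ioo,
        ← intervalIntegral.integral_of_le zero_le_one]
      · congr 1
        rw [intervalIntegral.integral_const_mul, integral_pow]
        norm_num
        ring
      · exact ((Continuous.integrableOn_Icc (by fun_prop)).mono_set Ioo_subset_Icc_self)
      · exact ae_of_all _ fun r => by positivity
    · fun_prop
  have h1 := key (H := fun w => F (L w)) (hF.comp hL)
  have h2 := key hF
  have h3 : ∫⁻ x in Metric.closedBall 0 1, F (L (‖x‖⁻¹ • x)) =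
      ∫⁻ x in Metric.closedBall 0 1, F (‖x‖⁻¹ • x) := by
    have h4 : ∀ x, L (‖x‖⁻¹ • x) = ‖L x‖⁻¹ • L x := by
      intro x
      rw [map_smul, L.norm_map]
    simp only [h4]
    have h5 := L.measurePreserving
    have h6 : L ⁻¹' (Metric.closedBall (0 : E3) 1) = Metric.closedBall 0 1 := by
      ext x
      simp
    have h7 := h5.setLIntegral_comp_preimage (s := Metric.closedBall (0 : E3) 1)
      measurableSet_closedBall (f := fun x => F (‖x‖⁻¹ • x)) (hF.comp (by fun_prop))
    rw [h6] at h7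
    exact h7
  rw [h3, h2] at h1
  have hc0 : ENNReal.ofReal (4 * π / 3) ≠ 0 := by
    rw [Ne, ENNReal.ofReal_eq_zero, not_le]
    positivity
  exact ((ENNReal.mul_right_inj hc0 ENNReal.ofReal_ne_top).mp h1).symm

/-- The third basis vector. -/
noncomputable def e3 : E3 := EuclideanSpace.single 2 1

lemma norm_e3 : ‖e3‖ = 1 := by simp [e3]

lemma inner_e3 (w : E3) : ⟪e3, w⟫_ℝ = w 2 := by
  simp [e3, EuclideanSpace.inner_single_left]

lemma exists_rot {e : E3} (he : ‖e‖ = 1) : ∃ L : E3 ≃ₗᵢ[ℝ] E3, L e = e3 := by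
  refine ⟨(ℝ ∙ (e - e3))ᗮ.reflection, ?_⟩
  exact Submodule.reflection_sub (he.trans norm_e3.symm)

/-- Zonal integration. -/
lemma zonal {e : E3} (he : ‖e‖ = 1) {h : ℝ → ℝ≥0∞} (hh : Measurable h) :
    ∫⁻ w, h ⟪e, w⟫_ℝ ∂sig = ENNReal.ofReal (1 / 2) * ∫⁻ u in Ioo (-1 : ℝ) 1, h u := by
  obtain ⟨L, hL⟩ := exists_rot he
  have h1 : ∀ w, ⟪e, w⟫_ℝ = (L w) 2 := by
    intro w
    rw [← inner_e3, ← hL, L.inner_map_map]
  simp only [h1]
  have hm : Measurable fun w : E3 => h (w 2) := hh.comp (by fun_prop)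
  rw [sig_rot L (F := fun w : E3 => h (w 2)) hm, lintegral_sig hm]
  have h2 : ∀ u, ∫⁻ φ in Ioo (-π) π, h ((PP (u, φ)) 2) = ENNReal.ofReal (2 * π) * h u := by
    intro u
    have : ∀ φ, (PP (u, φ)) 2 = u := fun φ => rfl
    simp only [this]
    rw [setLIntegral_const, Real.volume_Ioo, mul_comm]
    congr 2
    ring
  simp only [h2]
  rw [lintegral_const_mul _ hh, ← mul_assoc, ← ENNReal.ofReal_mul (by positivity)]
  congr 2
  field_simp
  norm_num

end Pool.Agent.Helper44.Ball3
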