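import Mathlib

set_option autoImplicit false
set_option maxHeartbeats 4000000
set_option synthInstance.maxHeartbeats 400000

open MeasureTheory Set Real
open scoped ENNReal

namespace Pool.Agent.Helper44.Ball3

/-- The Beta integral at natural arguments. -/
lemma beta_nat (a b : ℕ) : ∫ x in (0 : ℝ)..1, x ^ a * (1 - x) ^ b =
    (a.factorial * b.factorial : ℝ) / ((a + b + 1).factorial : ℝ) := by
  induction b generalizing a with
  | zero =>
    simp only [pow_zero, mul_one, integral_pow, Nat.factorial_zero, Nat.cast_one, add_zero]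
    rw [Nat.factorial_succ]
    have : (a.factorial : ℝ) ≠ 0 := by positivity
    push_cast
    field_simp
    simp
  | succ b ih =>
    have hd : ∀ x : ℝ, HasDerivAt (fun x : ℝ => x ^ (a + 1) * (1 - x) ^ (b + 1))
        (((a + 1 : ℕ) : ℝ) * x ^ a * (1 - x) ^ (b + 1) +
          x ^ (a + 1) * (((b + 1 : ℕ) : ℝ) * (1 - x) ^ b * (-1))) x := by
      intro x
      have h1 : HasDerivAt (fun x : ℝ => x ^ (a + 1)) (((a + 1 : ℕ) : ℝ) * x ^ a) x := by
        simpa using hasDerivAt_pow (a + 1) x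
      have h2 : HasDerivAt (fun x : ℝ => (1 - x) ^ (b + 1))
          (((b + 1 : ℕ) : ℝ) * (1 - x) ^ b * (-1)) x := by
        have h3 : HasDerivAt (fun x : ℝ => 1 - x) (-1) x := by
          simpa using (hasDerivAt_id x).const_sub 1
        simpa using h3.fun_pow (b + 1)
      exact h1.mul h2
    have hi : ∫ x in (0 : ℝ)..1, (((a + 1 : ℕ) : ℝ) * x ^ a * (1 - x) ^ (b + 1) +
          x ^ (a + 1) * (((b + 1 : ℕ) : ℝ) * (1 - x) ^ b * (-1))) = 0 := by
      rw [intervalIntegral.integral_eq_sub_of_hasDerivAt (fun x _ => hd x)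
        (Continuous.intervalIntegrable (by fun_prop) _ _)]
      simp
    have hs : ∀ x : ℝ, (((a + 1 : ℕ) : ℝ) * x ^ a * (1 - x) ^ (b + 1) +
          x ^ (a + 1) * (((b + 1 : ℕ) : ℝ) * (1 - x) ^ b * (-1))) =
        ((a + 1 : ℕ) : ℝ) * (x ^ a * (1 - x) ^ (b + 1)) -
          ((b + 1 : ℕ) : ℝ) * (x ^ (a + 1) * (1 - x) ^ b) := fun x => by ring
    simp only [hs] at hi
    rw [intervalIntegral.integral_sub (Continuous.intervalIntegrable (by fun_prop) _ _)
      (Continuous.intervalIntegrable (by fun_prop) _ _),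
      intervalIntegral.integral_const_mul, intervalIntegral.integral_const_mul, ih (a + 1)] at hi
    have hf1 : ((a + 1 + b + 1).factorial : ℝ) = ((a + (b + 1) + 1).factorial : ℝ) := by
      congr 2; ring
    rw [hf1, Nat.factorial_succ a] at hi
    rw [Nat.factorial_succ b]
    have hne : ((a : ℝ) + 1) ≠ 0 := by positivity
    have hne2 : ((a + (b + 1) + 1).factorial : ℝ) ≠ 0 := by positivity
    have h0 : ((a : ℝ) + 1) * ((∫ x in (0 : ℝ)..1, x ^ a * (1 - x) ^ (b + 1)) -
        (a.factorial * (((b + 1 : ℕ) : ℝ) * b.factorial)) / ((a + (b + 1) + 1).factorial : ℝ)) = 0 := by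
      push_cast at hi ⊢
      linear_combination hi
    have h9 := (mul_eq_zero.mp h0).resolve_left hne
    push_cast at h9 ⊢
    linarith

lemma lintegral_beta (a b : ℕ) : ∫⁻ x in Ioo (0 : ℝ) 1, ENNReal.ofReal (x ^ a * (1 - x) ^ b) =
    ENNReal.ofReal ((a.factorial * b.factorial : ℝ) / ((a + b + 1).factorial : ℝ)) := by
  rw [← beta_nat, intervalIntegral.integral_of_le zero_le_one, integral_Ioc_eq_integral_Ioo,
    ofReal_integral_eq_lintegral_ofReal]
  · exact (Continuous.integrableOn_Icc (by fun_prop)).mono_set Ioo_subset_Icc_self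
  · rw [Filter.EventuallyLE, ae_restrict_iff' measurableSet_Ioo]
    refine ae_of_all _ fun x hx => ?_
    have h1 := hx.1.le
    have h2 : 0 ≤ 1 - x := by linarith [hx.2]
    simp only [Pi.zero_apply]
    positivity

/-- Beta integral over the symmetric interval. -/
lemma beta_sym (a b : ℕ) : ∫ t in (-1 : ℝ)..1, ((1 - t) / 2) ^ a * ((1 + t) / 2) ^ b =
    2 * ((a.factorial * b.factorial : ℝ) / ((a + b + 1).factorial : ℝ)) := by
  have h := intervalIntegral.integral_comp_mul_add (a := (-1 : ℝ)) (b := 1)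
    (f := fun x : ℝ => x ^ b * (1 - x) ^ a) (c := (1 / 2 : ℝ)) (by norm_num) (1 / 2)
  norm_num at h
  rw [beta_nat] at h
  have h2 : ∀ t : ℝ, ((1 - t) / 2) ^ a * ((1 + t) / 2) ^ b =
      (1 / 2 * t + 1 / 2) ^ b * (1 - (1 / 2 * t + 1 / 2)) ^ a := by
    intro t
    rw [mul_comm]
    congr 2 <;> ring
  simp only [h2]
  rw [h, show b + a + 1 = a + b + 1 by ring]
  ring

/-- Parseval for trigonometric polynomials. -/
lemma parseval_trig {n : ℕ} (g : Fin n → ℂ) :
    ∫ φ in (-π)..π, ‖∑ k, g k * Complex.exp ((k.1 : ℂ) * φ * Complex.I)‖ ^ 2 =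
      2 * π * ∑ k, ‖g k‖ ^ 2 := by
  have hc : ((∫ φ in (-π)..π, ‖∑ k, g k * Complex.exp ((k.1 : ℂ) * φ * Complex.I)‖ ^ 2 : ℝ) : ℂ) =
      ((2 * π * ∑ k, ‖g k‖ ^ 2 : ℝ) : ℂ) := by
    rw [← intervalIntegral.integral_ofReal]
    have e1 : ∀ φ : ℝ, ((‖∑ k, g k * Complex.exp ((k.1 : ℂ) * φ * Complex.I)‖ ^ 2 : ℝ) : ℂ) =
        ∑ k : Fin n, ∑ l : Fin n, (g k * (starRingEnd ℂ) (g l)) *
          Complex.exp ((((k.1 : ℝ) - (l.1 : ℝ) : ℝ) : ℂ) * Complex.I * φ) := by
      intro φ
      rw [← Complex.normSq_eq_norm_sq, ← Complex.mul_conj, map_sum, Finset.sum_mul_sum]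
      refine Finset.sum_congr rfl fun k _ => Finset.sum_congr rfl fun l _ => ?_
      rw [map_mul, ← Complex.exp_conj]
      have : (starRingEnd ℂ) ((l.1 : ℂ) * φ * Complex.I) = - ((l.1 : ℂ) * φ * Complex.I) := by
        simp [map_mul, Complex.conj_I]
      rw [this]
      have h2 : Complex.exp ((((k.1 : ℝ) - (l.1 : ℝ) : ℝ) : ℂ) * Complex.I * φ) =
          Complex.exp ((k.1 : ℂ) * φ * Complex.I) * Complex.exp (-((l.1 : ℂ) * φ * Complex.I)) := by
        rw [← Complex.exp_add]
        congr 1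
        push_cast
        ring
      rw [h2]
      ring
    simp only [e1]
    have e2 : ∀ k l : Fin n, ∫ φ in (-π)..π, (g k * (starRingEnd ℂ) (g l)) *
          Complex.exp ((((k.1 : ℝ) - (l.1 : ℝ) : ℝ) : ℂ) * Complex.I * (φ : ℂ)) =
        if k = l then ((2 * π * ‖g k‖ ^ 2 : ℝ) : ℂ) else 0 := by
      intro k l
      rw [intervalIntegral.integral_const_mul]
      split_ifs with h
      · subst h
        have h3 : g k * (starRingEnd ℂ) (g k) = ((‖g k‖ ^ 2 : ℝ) : ℂ) := by
          rw [Complex.mul_conj, Complex.normSq_eq_norm_sq]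
        rw [h3]
        simp
        ring
      · have hne : (k.1 : ℝ) - (l.1 : ℝ) ≠ 0 := by
          intro h0
          apply h
          have : (k.1 : ℝ) = (l.1 : ℝ) := by linarith
          exact Fin.ext (by exact_mod_cast this)
        have hc : (((k.1 : ℝ) - (l.1 : ℝ) : ℝ) : ℂ) * Complex.I ≠ 0 :=
          mul_ne_zero (by exact_mod_cast hne) Complex.I_ne_zero
        rw [integral_exp_mul_complex hc]
        have h4 : Complex.exp ((((k.1 : ℝ) - (l.1 : ℝ) : ℝ) : ℂ) * Complex.I * (π : ℝ)) =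
            Complex.exp ((((k.1 : ℝ) - (l.1 : ℝ) : ℝ) : ℂ) * Complex.I * ((-π : ℝ) : ℂ)) := by
          rw [Complex.exp_eq_exp_iff_exists_int]
          refine ⟨(k.1 : ℤ) - (l.1 : ℤ), ?_⟩
          push_cast
          ring
        rw [h4, sub_self, zero_div, mul_zero]
    have hint : ∀ k l : Fin n, IntervalIntegrable (fun φ : ℝ => (g k * (starRingEnd ℂ) (g l)) *
          Complex.exp ((((k.1 : ℝ) - (l.1 : ℝ) : ℝ) : ℂ) * Complex.I * (φ : ℂ))) volume (-π) π :=
      fun k l => Continuous.intervalIntegrable (by fun_prop) _ _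
    rw [intervalIntegral.integral_finsetSum]
    · have e3 : ∀ k : Fin n, ∫ φ in (-π)..π, ∑ l : Fin n, (g k * (starRingEnd ℂ) (g l)) *
          Complex.exp ((((k.1 : ℝ) - (l.1 : ℝ) : ℝ) : ℂ) * Complex.I * (φ : ℂ)) =
          ((2 * π * ‖g k‖ ^ 2 : ℝ) : ℂ) := by
        intro k
        rw [intervalIntegral.integral_finsetSum (fun l _ => hint k l)]
        simp only [e2]
        simp
      simp only [e3]
      rw [← Complex.ofReal_sum, Finset.mul_sum]
    · intro k _
      exact Continuous.intervalIntegrable (by fun_prop) _ _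
  exact_mod_cast hc

end Pool.Agent.Helper44.Ball3
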