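import Mathlib

set_option autoImplicit false

open Matrix Finset
open scoped InnerProductSpace ComplexOrder

set_option maxHeartbeats 4000000
set_option synthInstance.maxHeartbeats 400000

namespace Pool.Agent.Helper44.Ball3

variable {V : Type*} [NormedAddCommGroup V] [InnerProductSpace ℂ V]

/-- Gram determinant of a finite family. -/
noncomputable def gd {ι : Type*} [Fintype ι] [DecidableEq ι] (w : ι → V) : ℝ :=
  (gram ℂ w).det.re

lemma gd_nonneg {ι : Type*} [Fintype ι] [DecidableEq ι] (w : ι → V) : 0 ≤ gd w := by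
  have h := (posSemidef_gram ℂ w).det_nonneg
  exact (Complex.le_def.mp h).1

lemma gd_ofReal {ι : Type*} [Fintype ι] [DecidableEq ι] (w : ι → V) :
    (gram ℂ w).det = (gd w : ℂ) := by
  have h := (posSemidef_gram ℂ w).det_nonneg
  have h2 := (Complex.le_def.mp h).2
  apply Complex.ext
  · simp [gd]
  · simpa using h2.symm

lemma gd_equiv {ι κ : Type*} [Fintype ι] [DecidableEq ι] [Fintype κ] [DecidableEq κ]
    (e : ι ≃ κ) (w : κ → V) : gd (fun i => w (e i)) = gd w := by
  have h : gram ℂ (fun i => w (e i)) = (gram ℂ w).submatrix e e := rfl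
  unfold gd
  rw [h, det_submatrix_equiv_self]

lemma gram_comb {ι κ : Type*} [Fintype ι] [Fintype κ] (T : Matrix κ ι ℂ) (w : ι → V) :
    gram ℂ (fun k => ∑ i, T k i • w i) = T.map star * gram ℂ w * Tᵀ := by
  ext k l
  simp only [gram_apply, Matrix.mul_apply, Matrix.map_apply, Matrix.transpose_apply,
    sum_inner, inner_sum, inner_smul_left, inner_smul_right, Finset.sum_mul, Finset.mul_sum]
  refine Finset.sum_congr rfl fun i _ => Finset.sum_congr rfl fun j _ => ?_
  simp only [RCLike.star_def]
  ring

lemma gd_sum_unit {ι : Type*} [Fintype ι] [DecidableEq ι] (w : ι → V) (v p : V)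
    (hp : p ∈ Submodule.span ℂ (Set.range w)) (ho : ∀ i, ⟪w i, v - p⟫_ℂ = 0) :
    gd (Sum.elim w (fun _ : Unit => v)) = gd w * ‖v - p‖ ^ 2 := by
  obtain ⟨c, hc⟩ := (Submodule.mem_span_range_iff_exists_fun ℂ).mp hp
  set c' : Matrix Unit ι ℂ := Matrix.of fun _ i => c i with hc'
  set d' : Matrix Unit Unit ℂ := Matrix.of fun _ _ => ((‖v - p‖ ^ 2 : ℝ) : ℂ) with hd'
  set T : Matrix (ι ⊕ Unit) (ι ⊕ Unit) ℂ := fromBlocks 1 0 c' 1 with hT
  set w' : ι ⊕ Unit → V := Sum.elim w (fun _ : Unit => v - p) with hw'
  have h1 : (Sum.elim w (fun _ : Unit => v)) = fun k => ∑ i, T k i • w' i := by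
    funext k
    rcases k with k | k
    · simp [hT, hw', Matrix.one_apply]
    · simp [hT, hw', hc', hc]
  have h2 : gram ℂ w' = fromBlocks (gram ℂ w) 0 0 d' := by
    ext i j
    rcases i with i | i <;> rcases j with j | j
    · rfl
    · simp [hw', ho]
    · simp only [gram_apply, hw', Sum.elim_inr, Sum.elim_inl, fromBlocks_apply₂₁,
        Matrix.zero_apply]
      rw [← inner_conj_symm, ho, map_zero]
    · simp only [gram_apply, hw', Sum.elim_inr, fromBlocks_apply₂₂, hd', Matrix.of_apply]
      rw [inner_self_eq_norm_sq_to_K]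
      push_cast
      rfl
  have h3 : (T.map star).det = 1 := by
    have : T.map star = fromBlocks 1 0 (c'.map star) 1 := by
      rw [hT, fromBlocks_map]
      congr 1
      · ext i j
        by_cases h : i = j
        · subst h; simp
        · simp [h]
      · ext i j; simp
      · ext i j; simp
    rw [this, det_fromBlocks_zero₁₂, det_one, det_one, one_mul]
  have h4 : (Tᵀ).det = 1 := by
    rw [det_transpose, hT, det_fromBlocks_zero₁₂, det_one, det_one, one_mul]
  unfold gd
  rw [h1, gram_comb, det_mul, det_mul, h3, h4, h2, det_fromBlocks_zero₁₂, one_mul, mul_one,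
    det_unique d', gd_ofReal w, hd', Matrix.of_apply]
  rw [← Complex.ofReal_mul, Complex.ofReal_re, Complex.ofReal_re]

/-- The Gram determinant of the subfamily indexed by a finite set. -/
noncomputable def gdF {δ : Type*} [DecidableEq δ] (w : δ → V) (A : Finset δ) : ℝ :=
  gd (fun i : A => w i)

lemma gdF_nonneg {δ : Type*} [DecidableEq δ] (w : δ → V) (A : Finset δ) : 0 ≤ gdF w A :=
  gd_nonneg _

lemma gdF_empty {δ : Type*} [DecidableEq δ] (w : δ → V) : gdF w ∅ = 1 := by
  unfold gdF gd
  rw [det_isEmpty]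
  simp

lemma gdF_univ {δ : Type*} [DecidableEq δ] [Fintype δ] (w : δ → V) :
    gdF w Finset.univ = gd w := by
  unfold gdF
  let e : (Finset.univ : Finset δ) ≃ δ := Equiv.subtypeUnivEquiv (fun i => Finset.mem_univ i)
  exact gd_equiv e w

lemma gdF_congr {δ : Type*} [DecidableEq δ] {w w' : δ → V} {A : Finset δ}
    (h : ∀ i ∈ A, w i = w' i) : gdF w A = gdF w' A := by
  unfold gdF
  congr 1
  funext i
  exact h i i.2

/-- The span of the subfamily. -/
def spF {δ : Type*} (w : δ → V) (A : Finset δ) : Submodule ℂ V :=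
  Submodule.span ℂ (w '' (A : Set δ))

instance {δ : Type*} (w : δ → V) (A : Finset δ) : FiniteDimensional ℂ (spF w A) :=
  FiniteDimensional.span_of_finite ℂ ((A.finite_toSet).image w)

/-- Squared distance to the span. -/
noncomputable def dsF {δ : Type*} (w : δ → V) (A : Finset δ) (v : V) : ℝ :=
  ‖v - (spF w A).starProjection v‖ ^ 2

lemma dsF_nonneg {δ : Type*} (w : δ → V) (A : Finset δ) (v : V) : 0 ≤ dsF w A v := sq_nonneg _

lemma gdF_insert {δ : Type*} [DecidableEq δ] (w : δ → V) (A : Finset δ) (i : δ) (hi : i ∉ A) :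
    gdF w (insert i A) = gdF w A * dsF w A (w i) := by
  have h1 : gdF w (insert i A) =
      gd (Sum.elim (fun j : A => w j) (fun _ : Unit => w i)) := by
    unfold gdF
    let e : {x // x ∈ insert i A} ≃ (A ⊕ Unit) :=
      (Finset.subtypeInsertEquivOption hi).trans (Equiv.optionEquivSumPUnit _)
    rw [← gd_equiv e.symm]
    congr 1
    funext k
    rcases k with k | k
    · simp [e]
      rfl
    · simp [e]
      rfl
  rw [h1]
  have hr : Set.range (fun j : A => w j) = w '' (A : Set δ) := by
    ext x
    simp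
  have := gd_sum_unit (fun j : A => w j) (w i) ((spF w A).starProjection (w i)) ?_ ?_
  · rw [this]; rfl
  · rw [hr]
    exact Submodule.starProjection_apply_mem (spF w A) _
  · intro j
    have hm : w j ∈ spF w A := Submodule.subset_span ⟨j, j.2, rfl⟩
    exact Submodule.inner_right_of_mem_orthogonal hm
      (Submodule.sub_starProjection_mem_orthogonal (w i))

lemma dsF_anti {δ : Type*} (w : δ → V) {A B : Finset δ} (h : A ⊆ B) (v : V) :
    dsF w B v ≤ dsF w A v := by
  have hsub : spF w A ≤ spF w B := Submodule.span_mono (Set.image_mono (by exact_mod_cast h))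
  unfold dsF
  have h1 : ‖v - (spF w B).starProjection v‖ ≤ ‖v - (spF w A).starProjection v‖ := by
    rw [Submodule.starProjection_minimal (U := spF w B)]
    refine ciInf_le_of_le ⟨0, ?_⟩ (⟨(spF w A).starProjection v,
      hsub (Submodule.starProjection_apply_mem _ _)⟩ : spF w B) le_rfl
    rintro _ ⟨x, rfl⟩
    exact norm_nonneg _
  exact pow_le_pow_left₀ (norm_nonneg _) h1 2

/-- Fischer's inequality for Gram determinants. -/
lemma fischer {δ : Type*} [DecidableEq δ] (w : δ → V) (A B : Finset δ) (h : Disjoint A B) :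
    gdF w (A ∪ B) ≤ gdF w A * gdF w B := by
  induction B using Finset.induction_on with
  | empty => rw [Finset.union_empty, gdF_empty, mul_one]
  | insert b B hb ih =>
    have hd : Disjoint A B := h.mono_right (Finset.subset_insert b B)
    have hbA : b ∉ A := by
      intro hh
      exact (Finset.disjoint_left.mp h hh) (Finset.mem_insert_self b B)
    have hbAB : b ∉ A ∪ B := by simp [hbA, hb]
    rw [Finset.union_insert, gdF_insert w _ b hbAB, gdF_insert w B b hb]
    have h1 := ih hd
    have h2 : dsF w (A ∪ B) (w b) ≤ dsF w B (w b) := dsF_anti w Finset.subset_union_right _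
    calc gdF w (A ∪ B) * dsF w (A ∪ B) (w b) ≤ (gdF w A * gdF w B) * dsF w B (w b) :=
          mul_le_mul h1 h2 (dsF_nonneg _ _ _) (mul_nonneg (gdF_nonneg _ _) (gdF_nonneg _ _))
      _ = gdF w A * (gdF w B * dsF w B (w b)) := by ring

lemma dsF_le {δ : Type*} (w : δ → V) (A : Finset δ) (v : V) : dsF w A v ≤ ‖v‖ ^ 2 := by
  have h := dsF_anti w (Finset.empty_subset A) v
  have h2 : dsF w ∅ v = ‖v‖ ^ 2 := by
    unfold dsF
    have : (spF w ∅).starProjection v = 0 := by
      have hm := Submodule.starProjection_apply_mem (spF w ∅) v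
      have h0 : spF w ∅ = ⊥ := by simp [spF]
      exact (Submodule.eq_bot_iff _).mp h0 _ hm
    rw [this, sub_zero]
  linarith

/-- Hadamard's inequality. -/
lemma gdF_le_prod {δ : Type*} [DecidableEq δ] (w : δ → V) (A : Finset δ) :
    gdF w A ≤ ∏ i ∈ A, ‖w i‖ ^ 2 := by
  induction A using Finset.induction_on with
  | empty => rw [gdF_empty, Finset.prod_empty]
  | insert b B hb ih =>
    rw [gdF_insert w B b hb, Finset.prod_insert hb, mul_comm]
    exact mul_le_mul (dsF_le _ _ _) ih (gdF_nonneg _ _) (by positivity)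

lemma finrank_spF {δ : Type*} [DecidableEq δ] (w : δ → V) (A : Finset δ) (h : gdF w A ≠ 0) :
    Module.finrank ℂ (spF w A) = A.card := by
  have h1 : (gram ℂ (fun i : A => w i)).det ≠ 0 := by
    rw [gd_ofReal]
    exact_mod_cast h
  have h2 : LinearIndependent ℂ (fun i : A => w i) := linearIndependent_of_det_gram_ne_zero h1
  have hr : Set.range (fun j : A => w j) = w '' (A : Set δ) := by
    ext x
    simp
  have h3 := finrank_span_eq_card h2
  rw [hr] at h3
  rw [spF, h3]
  simp

end Pool.Agent.Helper44.Ball3
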