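import Mathlib
import Pool.Agent.Helper44.Ball3.Gram

set_option autoImplicit false
set_option maxHeartbeats 4000000
set_option synthInstance.maxHeartbeats 400000

open Matrix Finset MeasureTheory
open scoped InnerProductSpace ENNReal

namespace Pool.Agent.Helper44.Ball3

variable {V : Type*} [NormedAddCommGroup V] [InnerProductSpace ℂ V] [FiniteDimensional ℂ V]
  [MeasurableSpace V] [BorelSpace V]
variable {Y : Type*} [MeasurableSpace Y] {μ : Measure Y} [IsProbabilityMeasure μ]
variable {δ : Type*} [DecidableEq δ] [Fintype δ]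

/-- The correlation density attached to the index set `A`. -/
noncomputable def DD (v : Y → V) (A : Finset δ) (y : δ → Y) : ℝ≥0∞ :=
  ENNReal.ofReal (gdF (fun i => v (y i)) A)

/-- Isotropy of the vector field `v`. -/
def Isotropic (μ : Measure Y) (v : Y → V) : Prop :=
  ∀ u : V, ∫⁻ y, ENNReal.ofReal (‖⟪u, v y⟫_ℂ‖ ^ 2) ∂μ = ENNReal.ofReal (‖u‖ ^ 2)

omit [FiniteDimensional ℂ V] in
lemma measurable_gd [FiniteDimensional ℂ V] {ι : Type*} [Fintype ι] [DecidableEq ι]
    {Z : Type*} [MeasurableSpace Z] {w : ι → Z → V} (hw : ∀ i, Measurable (w i)) :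
    Measurable fun z => gd (fun i => w i z) := by
  unfold gd
  have h : ∀ z, (gram ℂ fun i => w i z).det =
      ∑ σ : Equiv.Perm ι, Equiv.Perm.sign σ • ∏ i, ⟪w (σ i) z, w i z⟫_ℂ := by
    intro z
    rw [Matrix.det_apply]
    rfl
  simp only [h]
  refine Complex.measurable_re.comp ?_
  refine Finset.measurable_fun_sum _ fun σ _ => ?_
  have h2 : Measurable fun z => ∏ i, ⟪w (σ i) z, w i z⟫_ℂ :=
    Finset.measurable_fun_prod _ fun i _ => (hw (σ i)).inner (hw i)
  rcases Int.units_eq_one_or (Equiv.Perm.sign σ) with h | h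
  · simp only [h, one_smul]; exact h2
  · simp only [h, Units.neg_smul, one_smul]; exact h2.neg

lemma measurable_DD {v : Y → V} (hv : Measurable v) (A : Finset δ) :
    Measurable (DD v A : (δ → Y) → ℝ≥0∞) := by
  unfold DD gdF
  refine ENNReal.measurable_ofReal.comp ?_
  exact measurable_gd (fun i => hv.comp (measurable_pi_apply _))

omit [Fintype δ] [MeasurableSpace V] [BorelSpace V] [FiniteDimensional ℂ V]
  [MeasurableSpace Y] in
lemma DD_update_of_notMem (v : Y → V) {A : Finset δ} {i : δ} (hi : i ∉ A) (y : δ → Y) (t : Y) :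
    DD v A (Function.update y i t) = DD v A y := by
  unfold DD
  congr 1
  refine gdF_congr fun j hj => ?_
  have : j ≠ i := fun h => hi (h ▸ hj)
  simp [Function.update_of_ne this]

lemma lintegral_dist {v : Y → V} (hv : Measurable v) (hiso : Isotropic μ v)
    (S : Submodule ℂ V) :
    ∫⁻ t, ENNReal.ofReal (‖v t - S.starProjection (v t)‖ ^ 2) ∂μ =
      ((Module.finrank ℂ V - Module.finrank ℂ S : ℕ) : ℝ≥0∞) := by
  let b := stdOrthonormalBasis ℂ Sᗮ
  have h1 : ∀ t, ‖v t - S.starProjection (v t)‖ ^ 2 =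
      ∑ k, ‖⟪((b k : Sᗮ) : V), v t⟫_ℂ‖ ^ 2 := by
    intro t
    have h2 : v t - S.starProjection (v t) = Sᗮ.starProjection (v t) := by
      rw [Submodule.starProjection_orthogonal_val]
    have h9 : ‖Sᗮ.starProjection (v t)‖ = ‖Sᗮ.orthogonalProjectionOnto (v t)‖ := rfl
    rw [h2, h9, ← b.sum_sq_norm_inner_right]
    refine Finset.sum_congr rfl fun k _ => ?_
    congr 2
    rw [Submodule.coe_inner, ← Submodule.starProjection_apply]
    have h3 : ⟪((b k : Sᗮ) : V), Sᗮ.starProjection (v t)⟫_ℂ = ⟪((b k : Sᗮ) : V), v t⟫_ℂ := by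
      have h4 : v t - Sᗮ.starProjection (v t) ∈ Sᗮᗮ :=
        Submodule.sub_starProjection_mem_orthogonal _
      have h5 := Submodule.inner_right_of_mem_orthogonal (b k).2 h4
      rw [inner_sub_right, sub_eq_zero] at h5
      exact h5.symm
    exact h3
  have h6 : ∀ t, ENNReal.ofReal (‖v t - S.starProjection (v t)‖ ^ 2) =
      ∑ k, ENNReal.ofReal (‖⟪((b k : Sᗮ) : V), v t⟫_ℂ‖ ^ 2) := by
    intro t
    rw [h1, ENNReal.ofReal_sum_of_nonneg]
    intro k _
    positivity
  simp only [h6]
  rw [lintegral_finsetSum]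
  · have h7 : ∀ k, ∫⁻ t, ENNReal.ofReal (‖⟪((b k : Sᗮ) : V), v t⟫_ℂ‖ ^ 2) ∂μ = 1 := by
      intro k
      rw [hiso]
      have : ‖((b k : Sᗮ) : V)‖ = 1 := by
        rw [← Submodule.coe_norm]
        exact b.orthonormal.1 k
      rw [this]
      simp
    simp only [h7]
    rw [Finset.sum_const, Finset.card_univ, Fintype.card_fin, nsmul_eq_mul, mul_one]
    congr 1
    have := Submodule.finrank_add_finrank_orthogonal S
    omega
  · intro k _
    refine ENNReal.measurable_ofReal.comp ?_
    exact ((measurable_const.inner hv).norm.pow_const 2)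

lemma lintegral_DD_insert {v : Y → V} (hv : Measurable v) (hiso : Isotropic μ v)
    {A : Finset δ} {i : δ} (hi : i ∉ A) (y : δ → Y) :
    ∫⁻ t, DD v (insert i A) (Function.update y i t) ∂μ =
      ((Module.finrank ℂ V - A.card : ℕ) : ℝ≥0∞) * DD v A y := by
  have h1 : ∀ t, DD v (insert i A) (Function.update y i t) =
      DD v A y * ENNReal.ofReal
        (‖v t - (spF (fun j => v (y j)) A).starProjection (v t)‖ ^ 2) := by
    intro t
    unfold DD
    rw [gdF_insert _ _ _ hi, ENNReal.ofReal_mul (gdF_nonneg _ _)]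
    have e1 : gdF (fun j => v (Function.update y i t j)) A = gdF (fun j => v (y j)) A := by
      refine gdF_congr fun j hj => ?_
      have : j ≠ i := fun h => hi (h ▸ hj)
      simp [Function.update_of_ne this]
    have e2 : spF (fun j => v (Function.update y i t j)) A = spF (fun j => v (y j)) A := by
      unfold spF
      congr 1
      refine Set.image_congr fun j hj => ?_
      have : j ≠ i := fun h => hi (h ▸ hj)
      simp [Function.update_of_ne this]
    rw [e1]
    congr 2
    unfold dsF
    rw [Function.update_self]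
    simp only [e2]
  simp only [h1]
  rw [lintegral_const_mul]
  · rw [lintegral_dist hv hiso]
    by_cases h0 : gdF (fun j => v (y j)) A = 0
    · have : DD v A y = 0 := by unfold DD; rw [h0]; simp
      rw [this, zero_mul, mul_zero]
    · rw [finrank_spF _ _ h0, mul_comm]
  · refine ENNReal.measurable_ofReal.comp ?_
    have : Measurable fun t => v t - (spF (fun j => v (y j)) A).starProjection (v t) :=
      hv.sub (((spF (fun j => v (y j)) A).starProjection.continuous.measurable).comp hv)
    exact this.norm.pow_const 2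

lemma step_marginal {v : Y → V} (hv : Measurable v) (hiso : Isotropic μ v)
    {A : Finset δ} {i : δ} (hi : i ∉ A) {G : (δ → Y) → ℝ≥0∞} (hG : Measurable G)
    (hGi : ∀ y t, G (Function.update y i t) = G y) :
    ∫⁻ y, DD v (insert i A) y * G y ∂(Measure.pi fun _ : δ => μ) =
      ((Module.finrank ℂ V - A.card : ℕ) : ℝ≥0∞) *
        ∫⁻ y, DD v A y * G y ∂(Measure.pi fun _ : δ => μ) := by
  have hm : Measurable fun y : δ → Y => DD v A y * G y := (measurable_DD hv A).mul hG
  rw [← lintegral_const_mul _ hm]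
  refine lintegral_eq_of_lmarginal_eq {i} ((measurable_DD hv _).mul hG) (hm.const_mul _) ?_
  rw [lmarginal_singleton, lmarginal_singleton]
  funext y
  have h1 : ∀ t, DD v (insert i A) (Function.update y i t) * G (Function.update y i t) =
      DD v (insert i A) (Function.update y i t) * G y := fun t => by rw [hGi]
  have h2 : ∀ t, ((Module.finrank ℂ V - A.card : ℕ) : ℝ≥0∞) *
      (DD v A (Function.update y i t) * G (Function.update y i t)) =
      ((Module.finrank ℂ V - A.card : ℕ) : ℝ≥0∞) * (DD v A y * G y) := fun t => by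
    rw [hGi, DD_update_of_notMem v hi]
  simp only [h1, h2, lintegral_const, measure_univ, mul_one]
  rw [lintegral_mul_const, lintegral_DD_insert hv hiso hi, mul_assoc]
  exact (measurable_DD hv _).comp (measurable_update y)

lemma marginal {v : Y → V} (hv : Measurable v) (hiso : Isotropic μ v)
    {A : Finset δ} {G : (δ → Y) → ℝ≥0∞} (hG : Measurable G)
    (hGA : ∀ i, i ∉ A → ∀ y t, G (Function.update y i t) = G y) (C : Finset δ)
    (hAC : Disjoint A C) :
    ∫⁻ y, DD v (A ∪ C) y * G y ∂(Measure.pi fun _ : δ => μ) =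
      (((Module.finrank ℂ V - A.card).descFactorial C.card : ℕ) : ℝ≥0∞) *
        ∫⁻ y, DD v A y * G y ∂(Measure.pi fun _ : δ => μ) := by
  induction C using Finset.induction_on with
  | empty => simp
  | insert i C hi ih =>
    have hd : Disjoint A C := hAC.mono_right (Finset.subset_insert i C)
    have hiA : i ∉ A := fun hh => (Finset.disjoint_left.mp hAC hh) (Finset.mem_insert_self i C)
    have hiAC : i ∉ A ∪ C := by simp [hiA, hi]
    rw [Finset.union_insert, step_marginal hv hiso hiAC hG (hGA i hiA), ih hd,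
      Finset.card_insert_of_notMem hi, Nat.descFactorial_succ, Finset.card_union_of_disjoint hd,
      ← mul_assoc]
    congr 1
    rw [Nat.sub_add_eq]
    push_cast
    ring

lemma marginal_univ {v : Y → V} (hv : Measurable v) (hiso : Isotropic μ v)
    (hcard : Module.finrank ℂ V = Fintype.card δ)
    {A : Finset δ} {G : (δ → Y) → ℝ≥0∞} (hG : Measurable G)
    (hGA : ∀ i, i ∉ A → ∀ y t, G (Function.update y i t) = G y) :
    ∫⁻ y, DD v Finset.univ y * G y ∂(Measure.pi fun _ : δ => μ) =
      (((Fintype.card δ - A.card).factorial : ℕ) : ℝ≥0∞) *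
        ∫⁻ y, DD v A y * G y ∂(Measure.pi fun _ : δ => μ) := by
  have h := marginal hv hiso hG hGA Aᶜ disjoint_compl_right
  rw [Finset.union_compl, hcard, Finset.card_compl, Nat.descFactorial_self] at h
  exact h

/-- Integrating a function of two coordinates against a function of the others. -/
lemma pair_split {i j : δ} (hij : i ≠ j) {g : Y → Y → ℝ≥0∞}
    (hg : Measurable (Function.uncurry g)) {H : (δ → Y) → ℝ≥0∞} (hH : Measurable H)
    (hHi : ∀ y t, H (Function.update y i t) = H y) (hHj : ∀ y t, H (Function.update y j t) = H y) :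
    ∫⁻ y, g (y i) (y j) * H y ∂(Measure.pi fun _ : δ => μ) =
      (∫⁻ s, ∫⁻ t, g s t ∂μ ∂μ) * ∫⁻ y, H y ∂(Measure.pi fun _ : δ => μ) := by
  have hm0 : Measurable fun y : δ → Y => (y i, y j) :=
    (measurable_pi_apply i).prodMk (measurable_pi_apply j)
  have hm1 : Measurable fun y : δ → Y => g (y i) (y j) := hg.comp hm0
  have hm2 : Measurable fun s : Y => ∫⁻ t, g s t ∂μ := hg.lintegral_prod_right'
  have hm3 : Measurable fun y : δ → Y => ∫⁻ t, g (y i) t ∂μ := hm2.comp (measurable_pi_apply i)
  have s1 : ∫⁻ y, g (y i) (y j) * H y ∂(Measure.pi fun _ : δ => μ) =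
      ∫⁻ y, (∫⁻ t, g (y i) t ∂μ) * H y ∂(Measure.pi fun _ : δ => μ) := by
    refine lintegral_eq_of_lmarginal_eq {j} (hm1.mul hH) (hm3.mul hH) ?_
    rw [lmarginal_singleton, lmarginal_singleton]
    funext y
    simp only [hHj, Function.update_self, Function.update_of_ne hij]
    rw [lintegral_mul_const, lintegral_const, measure_univ, mul_one]
    exact hg.comp (measurable_const.prodMk measurable_id)
  have s2 : ∫⁻ y, (∫⁻ t, g (y i) t ∂μ) * H y ∂(Measure.pi fun _ : δ => μ) =
      ∫⁻ y, (∫⁻ s, ∫⁻ t, g s t ∂μ ∂μ) * H y ∂(Measure.pi fun _ : δ => μ) := by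
    refine lintegral_eq_of_lmarginal_eq {i} (hm3.mul hH) (hH.const_mul _) ?_
    rw [lmarginal_singleton, lmarginal_singleton]
    funext y
    simp only [hHi, Function.update_self]
    rw [lintegral_mul_const _ hm2, lintegral_const, measure_univ, mul_one]
  rw [s1, s2, lintegral_const_mul _ hH]

/-- A set of pairs with pairwise disjoint endpoints. -/
def IsMat (S : Finset (δ × δ)) : Prop :=
  (∀ e ∈ S, e.1 ≠ e.2) ∧ ∀ e ∈ S, ∀ f ∈ S, e ≠ f →
    e.1 ≠ f.1 ∧ e.1 ≠ f.2 ∧ e.2 ≠ f.1 ∧ e.2 ≠ f.2

/-- The set of endpoints. -/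
def vs (S : Finset (δ × δ)) : Finset δ := S.biUnion fun e => {e.1, e.2}

omit [Fintype δ] in
lemma IsMat.mono {S T : Finset (δ × δ)} (h : IsMat T) (hST : S ⊆ T) : IsMat S :=
  ⟨fun e he => h.1 e (hST he), fun e he f hf => h.2 e (hST he) f (hST hf)⟩

omit [Fintype δ] in
lemma vs_insert (S : Finset (δ × δ)) (e : δ × δ) : vs (insert e S) = {e.1, e.2} ∪ vs S := by
  unfold vs
  rw [Finset.biUnion_insert]

omit [Fintype δ] in
lemma IsMat.notMem {S : Finset (δ × δ)} {e : δ × δ} (he : e ∉ S) (h : IsMat (insert e S)) :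
    e.1 ∉ vs S ∧ e.2 ∉ vs S := by
  have key : ∀ f ∈ S, e.1 ≠ f.1 ∧ e.1 ≠ f.2 ∧ e.2 ≠ f.1 ∧ e.2 ≠ f.2 := fun f hf =>
    h.2 e (Finset.mem_insert_self _ _) f (Finset.mem_insert_of_mem hf) (fun h => he (h ▸ hf))
  constructor
  · intro hh
    obtain ⟨f, hf, hf2⟩ := Finset.mem_biUnion.mp hh
    rcases Finset.mem_insert.mp hf2 with h1 | h1
    · exact (key f hf).1 h1
    · exact (key f hf).2.1 (Finset.mem_singleton.mp h1)
  · intro hh
    obtain ⟨f, hf, hf2⟩ := Finset.mem_biUnion.mp hh
    rcases Finset.mem_insert.mp hf2 with h1 | h1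
    · exact (key f hf).2.2.1 h1
    · exact (key f hf).2.2.2 (Finset.mem_singleton.mp h1)

omit [Fintype δ] in
lemma card_vs {S : Finset (δ × δ)} (h : IsMat S) : (vs S).card = 2 * S.card := by
  induction S using Finset.induction_on with
  | empty => simp [vs]
  | insert e S he ih =>
    obtain ⟨h1, h2⟩ := IsMat.notMem he h
    rw [vs_insert, Finset.card_union_of_disjoint, ih (h.mono (Finset.subset_insert _ _)),
      Finset.card_insert_of_notMem he, Finset.card_pair (h.1 e (Finset.mem_insert_self _ _))]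
    · ring
    · rw [Finset.disjoint_left]
      intro a ha
      rcases Finset.mem_insert.mp ha with h3 | h3
      · rw [h3]; exact h1
      · rw [Finset.mem_singleton.mp h3]; exact h2

omit [Fintype δ] [MeasurableSpace V] [BorelSpace V] [FiniteDimensional ℂ V]
  [MeasurableSpace Y] in
lemma DD_vs_le (v : Y → V) {S : Finset (δ × δ)} (h : IsMat S) (y : δ → Y) :
    DD v (vs S) y ≤ ∏ e ∈ S, DD v {e.1, e.2} y := by
  induction S using Finset.induction_on with
  | empty => simp [vs, DD, gdF_empty]
  | insert e S he ih =>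
    obtain ⟨h1, h2⟩ := IsMat.notMem he h
    have hd : Disjoint ({e.1, e.2} : Finset δ) (vs S) := by
      rw [Finset.disjoint_left]
      intro a ha
      rcases Finset.mem_insert.mp ha with h3 | h3
      · rw [h3]; exact h1
      · rw [Finset.mem_singleton.mp h3]; exact h2
    rw [vs_insert, Finset.prod_insert he]
    calc DD v ({e.1, e.2} ∪ vs S) y ≤ DD v {e.1, e.2} y * DD v (vs S) y := by
          unfold DD
          rw [← ENNReal.ofReal_mul (gdF_nonneg _ _)]
          exact ENNReal.ofReal_le_ofReal (fischer _ _ _ hd)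
      _ ≤ _ := by gcongr; exact ih (h.mono (Finset.subset_insert _ _))

/-- The two point density. -/
noncomputable def D2 (v : Y → V) (s t : Y) : ℝ≥0∞ :=
  ENNReal.ofReal (‖v s‖ ^ 2 * ‖v t‖ ^ 2 - ‖⟪v s, v t⟫_ℂ‖ ^ 2)

omit [Fintype δ] [MeasurableSpace V] [BorelSpace V] [FiniteDimensional ℂ V]
  [MeasurableSpace Y] in
lemma DD_pair (v : Y → V) {i j : δ} (hij : i ≠ j) (y : δ → Y) :
    DD v {i, j} y = D2 v (y i) (y j) := by
  unfold DD D2
  congr 1
  have e : gdF (fun i => v (y i)) {i, j} = gd (fun k : Fin 2 => v (y (![i, j] k))) := by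
    unfold gdF
    let f : Fin 2 ≃ ({i, j} : Finset δ) :=
      { toFun := fun k => ⟨![i, j] k, by fin_cases k <;> simp⟩
        invFun := fun x => if (x : δ) = i then 0 else 1
        left_inv := by
          intro k
          fin_cases k
          · simp
          · simp [hij.symm]
        right_inv := by
          rintro ⟨x, hx⟩
          rcases Finset.mem_insert.mp hx with h | h
          · subst h; simp
          · have := Finset.mem_singleton.mp h
            subst this
            simp [hij.symm] }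
    exact (gd_equiv f _).symm
  rw [e]
  unfold gd
  rw [Matrix.det_fin_two]
  simp only [gram_apply, cons_val_zero, cons_val_one]
  have h1 : ⟪v (y j), v (y i)⟫_ℂ = (starRingEnd ℂ) ⟪v (y i), v (y j)⟫_ℂ :=
    (inner_conj_symm _ _).symm
  rw [inner_self_eq_norm_sq_to_K, inner_self_eq_norm_sq_to_K, h1, Complex.mul_conj,
    Complex.normSq_eq_norm_sq]
  simp only [Complex.coe_algebraMap, Complex.sub_re]
  norm_cast

lemma prod_split {S : Finset (δ × δ)} (hS : IsMat S) {g : Y → Y → ℝ≥0∞}
    (hg : Measurable (Function.uncurry g)) :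
    ∫⁻ y, ∏ e ∈ S, g (y e.1) (y e.2) ∂(Measure.pi fun _ : δ => μ) =
      (∫⁻ s, ∫⁻ t, g s t ∂μ ∂μ) ^ S.card := by
  induction S using Finset.induction_on with
  | empty => simp
  | insert e S he ih =>
    obtain ⟨h1, h2⟩ := IsMat.notMem he hS
    have hne := hS.1 e (Finset.mem_insert_self _ _)
    have key : ∀ f ∈ S, e.1 ≠ f.1 ∧ e.1 ≠ f.2 ∧ e.2 ≠ f.1 ∧ e.2 ≠ f.2 := fun f hf =>
      hS.2 e (Finset.mem_insert_self _ _) f (Finset.mem_insert_of_mem hf) (fun h => he (h ▸ hf))
    simp only [Finset.prod_insert he]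
    rw [pair_split hne hg, ih (hS.mono (Finset.subset_insert _ _)),
      Finset.card_insert_of_notMem he, pow_succ, mul_comm]
    · refine Finset.measurable_fun_prod _ fun f _ => ?_
      have hm0 : Measurable fun y : δ → Y => (y f.1, y f.2) :=
        (measurable_pi_apply f.1).prodMk (measurable_pi_apply f.2)
      exact hg.comp hm0
    · intro y t
      refine Finset.prod_congr rfl fun f hf => ?_
      rw [Function.update_of_ne (key f hf).1.symm, Function.update_of_ne (key f hf).2.1.symm]
    · intro y t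
      refine Finset.prod_congr rfl fun f hf => ?_
      rw [Function.update_of_ne (key f hf).2.2.1.symm, Function.update_of_ne (key f hf).2.2.2.symm]

lemma measurable_D2 {v : Y → V} (hv : Measurable v) :
    Measurable (Function.uncurry (D2 v)) := by
  unfold D2 Function.uncurry
  refine ENNReal.measurable_ofReal.comp ?_
  have h1 : Measurable fun p : Y × Y => v p.1 := hv.comp measurable_fst
  have h2 : Measurable fun p : Y × Y => v p.2 := hv.comp measurable_snd
  exact ((h1.norm.pow_const 2).mul (h2.norm.pow_const 2)).sub ((h1.inner h2).norm.pow_const 2)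

lemma matching_bound {v : Y → V} (hv : Measurable v) (hiso : Isotropic μ v)
    (hcard : Module.finrank ℂ V = Fintype.card δ)
    {S : Finset (δ × δ)} (hS : IsMat S) {F : Y → Y → ℝ≥0∞}
    (hF : Measurable (Function.uncurry F)) :
    ∫⁻ y, DD v Finset.univ y * ∏ e ∈ S, F (y e.1) (y e.2) ∂(Measure.pi fun _ : δ => μ) ≤
      (((Fintype.card δ - 2 * S.card).factorial : ℕ) : ℝ≥0∞) *
        (∫⁻ s, ∫⁻ t, D2 v s t * F s t ∂μ ∂μ) ^ S.card := by
  have hm : Measurable fun y : δ → Y => ∏ e ∈ S, F (y e.1) (y e.2) := by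
    refine Finset.measurable_fun_prod _ fun f _ => ?_
    have hm0 : Measurable fun y : δ → Y => (y f.1, y f.2) :=
      (measurable_pi_apply f.1).prodMk (measurable_pi_apply f.2)
    exact hF.comp hm0
  rw [marginal_univ (A := vs S) hv hiso hcard hm, card_vs hS]
  · gcongr
    rw [← prod_split (μ := μ) hS (g := fun s t => D2 v s t * F s t)
      ((measurable_D2 hv).mul hF)]
    refine lintegral_mono fun y => ?_
    simp only [Finset.prod_mul_distrib]
    gcongr
    refine (DD_vs_le v hS y).trans (le_of_eq ?_)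
    exact Finset.prod_congr rfl fun e he => DD_pair v (hS.1 e he) y
  · intro i hi y t
    refine Finset.prod_congr rfl fun e he => ?_
    have h1 : e.1 ≠ i := by
      rintro rfl
      exact hi (Finset.mem_biUnion.mpr ⟨e, he, by simp⟩)
    have h2 : e.2 ≠ i := by
      rintro rfl
      exact hi (Finset.mem_biUnion.mpr ⟨e, he, by simp⟩)
    rw [Function.update_of_ne h1, Function.update_of_ne h2]

/-- Pair integrals. -/
lemma pair_integral {v : Y → V} (hv : Measurable v) (hiso : Isotropic μ v)
    (hcard : Module.finrank ℂ V = Fintype.card δ) {i j : δ} (hij : i ≠ j) {F : Y → Y → ℝ≥0∞}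
    (hF : Measurable (Function.uncurry F)) :
    ∫⁻ y, DD v Finset.univ y * F (y i) (y j) ∂(Measure.pi fun _ : δ => μ) =
      (((Fintype.card δ - 2).factorial : ℕ) : ℝ≥0∞) *
        (∫⁻ s, ∫⁻ t, D2 v s t * F s t ∂μ ∂μ) := by
  have hm0 : Measurable fun y : δ → Y => (y i, y j) :=
    (measurable_pi_apply i).prodMk (measurable_pi_apply j)
  have hm : Measurable fun y : δ → Y => F (y i) (y j) := hF.comp hm0
  rw [marginal_univ (A := {i, j}) hv hiso hcard hm, Finset.card_pair hij]
  · congr 1
    have h := pair_split (μ := μ) hij (g := fun s t => D2 v s t * F s t)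
      ((measurable_D2 hv).mul hF) (H := fun _ => 1) measurable_const (fun _ _ => rfl)
      (fun _ _ => rfl)
    simp only [mul_one, lintegral_const, measure_univ] at h
    rw [← h]
    refine lintegral_congr fun y => ?_
    rw [DD_pair v hij]
  · intro k hk y t
    have h1 : i ≠ k := fun h => hk (by simp [h])
    have h2 : j ≠ k := fun h => hk (by simp [h])
    rw [Function.update_of_ne h1, Function.update_of_ne h2]

lemma three_bound {v : Y → V} (hv : Measurable v) (hiso : Isotropic μ v)
    (hcard : Module.finrank ℂ V = Fintype.card δ) (M : ℝ) (hM : ∀ s, ‖v s‖ ^ 2 ≤ M)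
    {A : Finset δ} {G : (δ → Y) → ℝ≥0∞} (hG : Measurable G)
    (hGA : ∀ i, i ∉ A → ∀ y t, G (Function.update y i t) = G y) :
    ∫⁻ y, DD v Finset.univ y * G y ∂(Measure.pi fun _ : δ => μ) ≤
      (((Fintype.card δ - A.card).factorial : ℕ) : ℝ≥0∞) * ENNReal.ofReal (M ^ A.card) *
        ∫⁻ y, G y ∂(Measure.pi fun _ : δ => μ) := by
  rw [marginal_univ hv hiso hcard hG hGA, mul_assoc, ← lintegral_const_mul _ hG]
  gcongr with y
  unfold DD
  refine ENNReal.ofReal_le_ofReal ((gdF_le_prod _ _).trans ?_)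
  calc ∏ i ∈ A, ‖v (y i)‖ ^ 2 ≤ ∏ _i ∈ A, M :=
        Finset.prod_le_prod (fun _ _ => by positivity) (fun i _ => hM _)
    _ = M ^ A.card := Finset.prod_const _

/-- Total mass. -/
lemma total_mass {v : Y → V} (hv : Measurable v) (hiso : Isotropic μ v)
    (hcard : Module.finrank ℂ V = Fintype.card δ) :
    ∫⁻ y, DD v Finset.univ y ∂(Measure.pi fun _ : δ => μ) =
      (((Fintype.card δ).factorial : ℕ) : ℝ≥0∞) := by
  have h := marginal_univ (A := (∅ : Finset δ)) (G := fun _ => 1) hv hiso hcard measurable_const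
    (fun _ _ _ _ => rfl)
  simpa [DD, gdF_empty] using h

end Pool.Agent.Helper44.Ball3
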