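import Mathlib
import Pool.Agent.Helper44.Ball3.Sphere

set_option autoImplicit false
set_option maxHeartbeats 4000000
set_option synthInstance.maxHeartbeats 400000

open MeasureTheory Set Real
open scoped InnerProductSpace ENNReal

namespace Pool.Agent.Helper44.Ball3

/-- The kernel. -/
noncomputable def KK (r : ℝ) (w x : E3) : ℝ := (1 - r ^ 2) ^ 2 / (1 + r ^ 2 - 2 * r * ⟪w, x⟫_ℝ) ^ 2

/-- Radial parameter. -/
noncomputable def pp (r : ℝ) : ℝ := (1 - r) ^ 2 / (4 * r)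

/-- The smoothing cost. -/
noncomputable def Lam (r : ℝ) : ℝ := (1 + pp r) * log (1 + pp r) - pp r * log (pp r)

lemma KK_symm (r : ℝ) (w x : E3) : KK r w x = KK r x w := by
  unfold KK; rw [real_inner_comm]

lemma inner_bound {w x : E3} (hw : ‖w‖ = 1) (hx : ‖x‖ = 1) : -1 ≤ ⟪w, x⟫_ℝ ∧ ⟪w, x⟫_ℝ ≤ 1 := by
  have h := abs_real_inner_le_norm w x
  rw [hw, hx, mul_one] at h
  exact abs_le.mp h

lemma zonal4 {e : E3} (he : ‖e‖ = 1) {h : ℝ → ℝ≥0∞} (hh : Measurable h) :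
    ∫⁻ w, h (‖e - w‖ ^ 2) ∂sig = ∫⁻ x in Ioo (0 : ℝ) 1, h (4 * x) := by
  have h1 : ∫⁻ w, h (‖e - w‖ ^ 2) ∂sig = ∫⁻ w, h (2 - 2 * ⟪e, w⟫_ℝ) ∂sig := by
    refine lintegral_congr_ae ?_
    filter_upwards [ae_norm] with w hw
    rw [norm_sub_sq_real, he, hw]
    congr 1
    ring
  rw [h1, zonal he (h := fun t => h (2 - 2 * t)) (hh.comp (by fun_prop))]
  have him : (fun x : ℝ => 1 - 2 * x) '' (Ioo (0 : ℝ) 1) = Ioo (-1) 1 := by
    ext u
    constructor
    · rintro ⟨x, hx, rfl⟩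
      constructor
      · show -1 < 1 - 2 * x
        linarith [hx.2]
      · show 1 - 2 * x < 1
        linarith [hx.1]
    · intro hu
      refine ⟨(1 - u) / 2, ⟨by linarith [hu.2], by linarith [hu.1]⟩, ?_⟩
      show 1 - 2 * ((1 - u) / 2) = u
      ring
  have h2 := lintegral_image_eq_lintegral_abs_deriv_mul (s := Ioo (0 : ℝ) 1)
    (f := fun x : ℝ => 1 - 2 * x) (f' := fun _ => -2) measurableSet_Ioo
    (fun x _ => by
      have := ((hasDerivAt_id x).const_mul 2).const_sub 1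
      simpa using this.hasDerivWithinAt)
    (fun x _ y _ hxy => by
      have : 1 - 2 * x = 1 - 2 * y := hxy
      linarith)
    (fun t => h (2 - 2 * t))
  rw [him] at h2
  rw [h2]
  have h3 : ∀ x : ℝ, 2 - 2 * (1 - 2 * x) = 4 * x := fun x => by ring
  simp only [h3]
  have h4 : |(-2 : ℝ)| = 2 := by norm_num
  have h5 : Measurable fun x : ℝ => h (4 * x) := hh.comp (by fun_prop)
  rw [h4, lintegral_const_mul _ h5, ← mul_assoc, ← ENNReal.ofReal_mul (by norm_num)]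
  norm_num

lemma good_sq' {w : E3} (hw : ‖w‖ = 1) : w 0 ^ 2 + w 1 ^ 2 + w 2 ^ 2 = 1 := by
  have h := EuclideanSpace.norm_sq_eq w
  rw [hw] at h
  simp only [Fin.sum_univ_three, norm_eq_abs, sq_abs] at h
  linarith

lemma dist_sq' {w w' : E3} : ‖w - w'‖ ^ 2 =
    (w 0 - w' 0) ^ 2 + (w 1 - w' 1) ^ 2 + (w 2 - w' 2) ^ 2 := by
  rw [EuclideanSpace.norm_sq_eq]
  simp [Fin.sum_univ_three]

lemma measurable_KK (r : ℝ) (w : E3) : Measurable fun x => KK r w x := by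
  unfold KK
  have h : Measurable fun x : E3 => ⟪w, x⟫_ℝ := measurable_const.inner measurable_id
  exact measurable_const.div ((measurable_const.sub (h.const_mul _)).pow_const 2)

/-- Total mass of the kernel. -/
lemma KK_mass {r : ℝ} (hr : r ∈ Ioo (0 : ℝ) 1) {w : E3} (hw : ‖w‖ = 1) :
    ∫⁻ x, ENNReal.ofReal (KK r w x) ∂sig = 1 := by
  have hr0 := hr.1
  have hr1 := hr.2
  unfold KK
  rw [zonal hw (h := fun t => ENNReal.ofReal ((1 - r ^ 2) ^ 2 / (1 + r ^ 2 - 2 * r * t) ^ 2))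
    (by fun_prop)]
  have hpos : ∀ t ∈ Icc (-1 : ℝ) 1, 0 < 1 + r ^ 2 - 2 * r * t := by
    intro t ht
    nlinarith [ht.2, sq_nonneg (1 - r), mul_pos hr0 (sub_pos.mpr hr1)]
  have hcont : ContinuousOn (fun t : ℝ => (1 - r ^ 2) ^ 2 / (1 + r ^ 2 - 2 * r * t) ^ 2)
      (Icc (-1) 1) := by
    refine ContinuousOn.div (by fun_prop) (by fun_prop) ?_
    intro t ht
    exact (pow_pos (hpos t ht) 2).ne'
  have hint : ∫ t in (-1 : ℝ)..1, (1 - r ^ 2) ^ 2 / (1 + r ^ 2 - 2 * r * t) ^ 2 = 2 := by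
    have hd : ∀ t ∈ uIcc (-1 : ℝ) 1, HasDerivAt
        (fun t : ℝ => (1 - r ^ 2) ^ 2 / (2 * r) * (1 + r ^ 2 - 2 * r * t)⁻¹)
        ((1 - r ^ 2) ^ 2 / (1 + r ^ 2 - 2 * r * t) ^ 2) t := by
      intro t ht
      rw [uIcc_of_le (by norm_num)] at ht
      have h1 : HasDerivAt (fun t : ℝ => 1 + r ^ 2 - 2 * r * t) (-(2 * r)) t := by
        simpa using ((hasDerivAt_id t).const_mul (2 * r)).const_sub (1 + r ^ 2)
      have h2 := (h1.fun_inv (hpos t ht).ne').const_mul ((1 - r ^ 2) ^ 2 / (2 * r))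
      refine h2.congr_deriv ?_
      have h3 := (hpos t ht).ne'
      field_simp
    rw [intervalIntegral.integral_eq_sub_of_hasDerivAt hd]
    · have h1 : 1 + r ^ 2 - 2 * r * 1 = (1 - r) ^ 2 := by ring
      have h2 : 1 + r ^ 2 - 2 * r * (-1) = (1 + r) ^ 2 := by ring
      rw [h1, h2]
      have h3 : (1 - r) ≠ 0 := by linarith
      have h4 : (1 + r) ≠ 0 := by linarith
      field_simp
      ring
    · rw [intervalIntegrable_iff_integrableOn_Icc_of_le (by norm_num)]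
      exact hcont.integrableOn_Icc
  rw [← ofReal_integral_eq_lintegral_ofReal, ← integral_Ioc_eq_integral_Ioo,
    ← intervalIntegral.integral_of_le (by norm_num), hint, ← ENNReal.ofReal_mul (by norm_num)]
  · norm_num
  · exact hcont.integrableOn_Icc.mono_set Ioo_subset_Icc_self
  · exact ae_of_all _ fun t => by positivity

/-- Moebius boost along the third axis. -/
noncomputable def Mo (β : ℝ) (x : E3) : E3 :=
  !₂[√(1 - β ^ 2) * x 0 / (1 + β * x 2), √(1 - β ^ 2) * x 1 / (1 + β * x 2),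
    (x 2 + β) / (1 + β * x 2)]

lemma measurable_Mo (β : ℝ) : Measurable (Mo β) := by
  unfold Mo
  exact measurable_vec (by fun_prop) (by fun_prop) (by fun_prop)

lemma Mo_PP {β : ℝ} (hβ : β ∈ Ioo (0 : ℝ) 1) {t : ℝ} (ht : t ∈ Ioo (-1 : ℝ) 1) (φ : ℝ) :
    Mo β (PP (t, φ)) = PP ((t + β) / (1 + β * t), φ) := by
  have h1 : 0 < 1 + β * t := by nlinarith [hβ.1, hβ.2, ht.1, ht.2]
  have h2 : (0 : ℝ) ≤ 1 - β ^ 2 := by nlinarith [hβ.1, hβ.2]
  have h3 : √(1 - ((t + β) / (1 + β * t)) ^ 2) = √(1 - β ^ 2) * √(1 - t ^ 2) / (1 + β * t) := by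
    rw [← sqrt_mul h2]
    nth_rewrite 2 [← sqrt_sq h1.le]
    rw [← sqrt_div' _ (by positivity)]
    congr 1
    rw [div_pow, eq_div_iff (by positivity), sub_mul, div_mul_cancel₀ _ (by positivity)]
    ring
  unfold Mo PP
  simp only [h3]
  ext i
  fin_cases i
  · simp; ring
  · simp; ring
  · simp

/-- The boosted uniform measure has density given by the kernel. -/
lemma boost {r : ℝ} (hr : r ∈ Ioo (0 : ℝ) 1) {H : E3 → ℝ≥0∞} (hH : Measurable H) :
    ∫⁻ x, ENNReal.ofReal (KK r e3 x) * H x ∂sig = ∫⁻ x, H (Mo (2 * r / (1 + r ^ 2)) x) ∂sig := by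
  have hr0 := hr.1
  have hr1 := hr.2
  set β := 2 * r / (1 + r ^ 2) with hβd
  have hβ : β ∈ Ioo (0 : ℝ) 1 := by
    constructor
    · positivity
    · rw [hβd, div_lt_one (by positivity)]
      nlinarith [sq_pos_of_pos (sub_pos.mpr hr1)]
  have hβ2 : 1 - β ^ 2 = (1 - r ^ 2) ^ 2 / (1 + r ^ 2) ^ 2 := by
    rw [hβd]
    field_simp
    ring
  have hm1 : Measurable fun x => ENNReal.ofReal (KK r e3 x) * H x :=
    (ENNReal.measurable_ofReal.comp (measurable_KK r e3)).mul hH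
  rw [lintegral_sig hm1, lintegral_sig (F := fun x => H (Mo β x)) (hH.comp (measurable_Mo β))]
  congr 1
  set I : ℝ → ℝ≥0∞ := fun u => ∫⁻ φ in Ioo (-π) π, H (PP (u, φ)) with hI
  have e1 : ∀ u ∈ Ioo (-1 : ℝ) 1, ∫⁻ φ in Ioo (-π) π,
      ENNReal.ofReal (KK r e3 (PP (u, φ))) * H (PP (u, φ)) =
      ENNReal.ofReal ((1 - r ^ 2) ^ 2 / (1 + r ^ 2 - 2 * r * u) ^ 2) * I u := by
    intro u hu
    have : ∀ φ, KK r e3 (PP (u, φ)) = (1 - r ^ 2) ^ 2 / (1 + r ^ 2 - 2 * r * u) ^ 2 := by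
      intro φ
      unfold KK
      rw [inner_e3]
      rfl
    simp only [this]
    rw [lintegral_const_mul]
    have hp : Measurable fun φ : ℝ => PP (u, φ) := measurable_PP.comp measurable_prodMk_left
    exact hH.comp hp
  rw [setLIntegral_congr_fun measurableSet_Ioo e1]
  have e2 : ∀ t ∈ Ioo (-1 : ℝ) 1, ∫⁻ φ in Ioo (-π) π, H (Mo β (PP (t, φ))) =
      I ((t + β) / (1 + β * t)) := by
    intro t ht
    simp only [Mo_PP hβ ht, hI]
  rw [setLIntegral_congr_fun measurableSet_Ioo e2]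
  have hpos : ∀ t ∈ Ioo (-1 : ℝ) 1, 0 < 1 + β * t := fun t ht => by
    nlinarith [hβ.1, hβ.2, ht.1, ht.2]
  have him : (fun t : ℝ => (t + β) / (1 + β * t)) '' (Ioo (-1 : ℝ) 1) = Ioo (-1) 1 := by
    ext u
    constructor
    · rintro ⟨t, ht, rfl⟩
      have h1 := hpos t ht
      constructor
      · show -1 < (t + β) / (1 + β * t)
        rw [lt_div_iff₀ h1]
        nlinarith [hβ.1, hβ.2, ht.1, ht.2, mul_pos (sub_pos.mpr ht.1) hβ.1]
      · show (t + β) / (1 + β * t) < 1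
        rw [div_lt_one h1]
        nlinarith [hβ.1, hβ.2, ht.1, ht.2, mul_pos (sub_pos.mpr ht.2) (sub_pos.mpr hβ.2)]
    · intro hu
      have h1 : 0 < 1 - β * u := by nlinarith [hβ.1, hβ.2, hu.1, hu.2]
      have h5 : (u - β) / (1 - β * u) ∈ Ioo (-1 : ℝ) 1 := by
        constructor
        · rw [lt_div_iff₀ h1]
          nlinarith [hβ.1, hβ.2, hu.1, hu.2, mul_pos (sub_pos.mpr hu.1) (sub_pos.mpr hβ.2)]
        · rw [div_lt_one h1]
          nlinarith [hβ.1, hβ.2, hu.1, hu.2, mul_pos (sub_pos.mpr hu.2) hβ.1]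
      refine ⟨(u - β) / (1 - β * u), h5, ?_⟩
      show ((u - β) / (1 - β * u) + β) / (1 + β * ((u - β) / (1 - β * u))) = u
      have h2 := hpos _ h5
      rw [div_eq_iff h2.ne']
      have hq : (u - β) / (1 - β * u) * (1 - β * u) = u - β := div_mul_cancel₀ _ h1.ne'
      linear_combination hq
  have h2 := lintegral_image_eq_lintegral_abs_deriv_mul (s := Ioo (-1 : ℝ) 1)
    (f := fun t : ℝ => (t + β) / (1 + β * t)) (f' := fun t => (1 - β ^ 2) / (1 + β * t) ^ 2)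
    measurableSet_Ioo
    (fun t ht => by
      have h3 : HasDerivAt (fun t : ℝ => t + β) 1 t := (hasDerivAt_id t).add_const β
      have h4 : HasDerivAt (fun t : ℝ => 1 + β * t) β t := by
        simpa using ((hasDerivAt_id t).const_mul β).const_add 1
      have h5 := h3.fun_div h4 (hpos t ht).ne'
      refine HasDerivAt.hasDerivWithinAt ?_
      refine h5.congr_deriv ?_
      congr 1
      ring)
    (fun x hx y hy hxy => by
      have h6 : (x + β) / (1 + β * x) = (y + β) / (1 + β * y) := hxy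
      rw [div_eq_div_iff (hpos x hx).ne' (hpos y hy).ne'] at h6
      have h7 : (1 - β ^ 2) * (x - y) = 0 := by linear_combination h6
      have h8 : 1 - β ^ 2 ≠ 0 := by nlinarith [hβ.1, hβ.2]
      have := (mul_eq_zero.mp h7).resolve_left h8
      linarith)
    (fun u => ENNReal.ofReal ((1 - r ^ 2) ^ 2 / (1 + r ^ 2 - 2 * r * u) ^ 2) * I u)
  rw [him] at h2
  rw [h2]
  refine setLIntegral_congr_fun measurableSet_Ioo fun t ht => ?_
  have h1 := hpos t ht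
  have h1b : (0 : ℝ) ≤ 1 - β ^ 2 := by nlinarith [hβ.1, hβ.2]
  have h6 : |(1 - β ^ 2) / (1 + β * t) ^ 2| = (1 - β ^ 2) / (1 + β * t) ^ 2 := by
    rw [abs_of_nonneg (by positivity)]
  have h7 : (1 - β ^ 2) / (1 + β * t) ^ 2 * ((1 - r ^ 2) ^ 2 /
      (1 + r ^ 2 - 2 * r * ((t + β) / (1 + β * t))) ^ 2) = 1 := by
    have h8 : 1 + r ^ 2 - 2 * r * ((t + β) / (1 + β * t)) =
        (1 + r ^ 2) * (1 - β ^ 2) / (1 + β * t) := by
      have h9 : 2 * r = β * (1 + r ^ 2) := by rw [hβd]; field_simp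
      rw [h9]
      field_simp
      ring
    rw [h8]
    have h10 : (1 - r ^ 2) ^ 2 = (1 - β ^ 2) * (1 + r ^ 2) ^ 2 := by
      rw [hβ2]; field_simp
    have h11 : (1 - β ^ 2) ≠ 0 := by nlinarith [hβ.1, hβ.2]
    rw [h10]
    field_simp
  rw [h6, ← mul_assoc, ← ENNReal.ofReal_mul (by positivity), h7, ENNReal.ofReal_one, one_mul]

/-- Preimage of a point under the boost. -/
noncomputable def Mi (β : ℝ) (w : E3) : E3 :=
  !₂[√(1 - β ^ 2) * w 0 / (1 - β * w 2), √(1 - β ^ 2) * w 1 / (1 - β * w 2),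
        (w 2 - β) / (1 - β * w 2)]

lemma coord_bound {w : E3} (hw : ‖w‖ = 1) : -1 ≤ w 2 ∧ w 2 ≤ 1 := by
  have hw2 : |w 2| ≤ 1 := by
    rw [← hw]; exact PiLp.norm_apply_le w 2
  exact abs_le.mp hw2

lemma norm_Mi {β : ℝ} (hβ : β ∈ Ioo (0 : ℝ) 1) {w : E3} (hw : ‖w‖ = 1) : ‖Mi β w‖ = 1 := by
  have gw := good_sq' hw
  have hw3 := coord_bound hw
  have h2 : 0 < 1 - β * w 2 := by nlinarith [hβ.1, hβ.2, hw3.1, hw3.2]
  have h3 : (0 : ℝ) ≤ 1 - β ^ 2 := by nlinarith [hβ.1, hβ.2]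
  have hs : √(1 - β ^ 2) ^ 2 = 1 - β ^ 2 := sq_sqrt h3
  have h : ‖Mi β w‖ ^ 2 = 1 := by
    rw [EuclideanSpace.norm_sq_eq]
    simp only [Mi, Fin.sum_univ_three, norm_eq_abs, sq_abs]
    simp only [Matrix.cons_val_zero, Matrix.cons_val_one, Matrix.cons_val]
    rw [div_pow, div_pow, div_pow, ← add_div, ← add_div, div_eq_one_iff_eq (by positivity)]
    linear_combination (w 0 ^ 2 + w 1 ^ 2) * hs + (1 - β ^ 2) * gw
  have h0 := norm_nonneg (Mi β w)
  nlinarith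

lemma norm_Mo {β : ℝ} (hβ : β ∈ Ioo (0 : ℝ) 1) {w : E3} (hw : ‖w‖ = 1) : ‖Mo β w‖ = 1 := by
  have gw := good_sq' hw
  have hw3 := coord_bound hw
  have h2 : 0 < 1 + β * w 2 := by nlinarith [hβ.1, hβ.2, hw3.1, hw3.2]
  have h3 : (0 : ℝ) ≤ 1 - β ^ 2 := by nlinarith [hβ.1, hβ.2]
  have hs : √(1 - β ^ 2) ^ 2 = 1 - β ^ 2 := sq_sqrt h3
  have h : ‖Mo β w‖ ^ 2 = 1 := by
    rw [EuclideanSpace.norm_sq_eq]
    simp only [Mo, Fin.sum_univ_three, norm_eq_abs, sq_abs]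
    simp only [Matrix.cons_val_zero, Matrix.cons_val_one, Matrix.cons_val]
    rw [div_pow, div_pow, div_pow, ← add_div, ← add_div, div_eq_one_iff_eq (by positivity)]
    linear_combination (w 0 ^ 2 + w 1 ^ 2) * hs + (1 - β ^ 2) * gw
  have h0 := norm_nonneg (Mo β w)
  nlinarith

/-- The boost on the sphere changes squared distances by conformal factors. -/
lemma Mo_dist {β : ℝ} (hβ : β ∈ Ioo (0 : ℝ) 1) {x w : E3} (hx : x ∈ Good) (hw : ‖w‖ = 1) :
    ‖Mo β x - w‖ ^ 2 = (1 - β * w 2) * ‖x - Mi β w‖ ^ 2 / (1 + β * x 2) := by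
  have gx := good_sq' hx.1
  have gw := good_sq' hw
  have hw3 := coord_bound hw
  have h1 : 0 < 1 + β * x 2 := by nlinarith [hβ.1, hβ.2, hx.2.1, hx.2.2]
  have h2 : 0 < 1 - β * w 2 := by nlinarith [hβ.1, hβ.2, hw3.1, hw3.2]
  have h3 : (0 : ℝ) ≤ 1 - β ^ 2 := by nlinarith [hβ.1, hβ.2]
  have hs : √(1 - β ^ 2) ^ 2 = 1 - β ^ 2 := sq_sqrt h3
  have h1' := h1.ne'
  have h2' := h2.ne'
  have hA : ‖Mo β x - w‖ ^ 2 = 2 * (1 + β * x 2 - √(1 - β ^ 2) * (x 0 * w 0 + x 1 * w 1)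
      - (x 2 + β) * w 2) / (1 + β * x 2) := by
    rw [dist_sq']
    simp only [Mo, Matrix.cons_val_zero, Matrix.cons_val_one, Matrix.cons_val]
    have e0 : ∀ a b : ℝ, a / (1 + β * x 2) - b = (a - b * (1 + β * x 2)) / (1 + β * x 2) := by
      intro a b
      rw [sub_div, mul_div_cancel_right₀ _ h1']
    rw [e0, e0, e0, div_pow, div_pow, div_pow, ← add_div, ← add_div,
      div_eq_div_iff (by positivity) h1']
    linear_combination (1 + β * x 2) * ((x 0 ^ 2 + x 1 ^ 2) * hs + (1 - β ^ 2) * gx +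
      (1 + β * x 2) ^ 2 * gw)
  have hB : ‖x - Mi β w‖ ^ 2 = 2 * (1 + β * x 2 - √(1 - β ^ 2) * (x 0 * w 0 + x 1 * w 1)
      - (x 2 + β) * w 2) / (1 - β * w 2) := by
    rw [dist_sq']
    simp only [Mi, Matrix.cons_val_zero, Matrix.cons_val_one, Matrix.cons_val]
    have e0 : ∀ a b : ℝ, b - a / (1 - β * w 2) = (b * (1 - β * w 2) - a) / (1 - β * w 2) := by
      intro a b
      rw [sub_div, mul_div_cancel_right₀ _ h2']
    rw [e0, e0, e0, div_pow, div_pow, div_pow, ← add_div, ← add_div,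
      div_eq_div_iff (by positivity) h2']
    linear_combination (1 - β * w 2) * ((w 0 ^ 2 + w 1 ^ 2) * hs + (1 - β ^ 2) * gw +
      (1 - β * w 2) ^ 2 * gx)
  rw [hA, hB, mul_div_cancel₀ _ h2']

end Pool.Agent.Helper44.Ball3
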