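import Mathlib
import Pool.Agent.Helper44.Ball3.Kernel

set_option autoImplicit false
set_option maxHeartbeats 4000000
set_option synthInstance.maxHeartbeats 400000

open MeasureTheory Set Real
open scoped InnerProductSpace ENNReal

namespace Pool.Agent.Helper44.Ball3

lemma int_neglog : ∫⁻ x in Ioo (0 : ℝ) 1, ENNReal.ofReal (log (4 / (4 * x))) = 1 := by
  have h1 : ∀ x ∈ Ioo (0 : ℝ) 1, ENNReal.ofReal (log (4 / (4 * x))) = ENNReal.ofReal (-log x) := by
    intro x hx
    congr 1
    rw [show 4 / (4 * x) = x⁻¹ by field_simp, log_inv]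
  rw [setLIntegral_congr_fun measurableSet_Ioo h1]
  have h2 : IntervalIntegrable (fun x : ℝ => -log x) volume 0 1 :=
    intervalIntegral.intervalIntegrable_log'.neg
  rw [← ofReal_integral_eq_lintegral_ofReal, ← integral_Ioc_eq_integral_Ioo,
    ← intervalIntegral.integral_of_le zero_le_one, intervalIntegral.integral_neg, integral_log]
  · simp
  · exact ((intervalIntegrable_iff_integrableOn_Ioc_of_le zero_le_one).mp h2).mono_set
      Ioo_subset_Ioc_self
  · rw [Filter.EventuallyLE, ae_restrict_iff' measurableSet_Ioo]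
    refine ae_of_all _ fun x hx => ?_
    have := log_nonpos hx.1.le hx.2.le
    simp only [Pi.zero_apply]
    linarith

lemma int_log_beta {β : ℝ} (hβ : β ∈ Ioo (0 : ℝ) 1) :
    ∫⁻ x, ENNReal.ofReal (log (1 + β * x 2) - log (1 - β)) ∂sig =
      ENNReal.ofReal (((1 + β) * log (1 + β) - (1 - β) * log (1 - β)) / (2 * β) - 1
        - log (1 - β)) := by
  have hb0 := hβ.1
  have hb1 := hβ.2
  have h1 : ∀ x : E3, ENNReal.ofReal (log (1 + β * x 2) - log (1 - β)) =
      (fun t : ℝ => ENNReal.ofReal (log (1 + β * t) - log (1 - β))) ⟪e3, x⟫_ℝ := by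
    intro x
    simp only [inner_e3]
  simp only [h1]
  rw [zonal norm_e3 (h := fun t : ℝ => ENNReal.ofReal (log (1 + β * t) - log (1 - β)))
    (by fun_prop)]
  have hpos : ∀ t ∈ Icc (-1 : ℝ) 1, 0 < 1 + β * t := fun t ht => by nlinarith [ht.1, ht.2]
  have hcont : ContinuousOn (fun t : ℝ => log (1 + β * t) - log (1 - β)) (Icc (-1) 1) := by
    refine ContinuousOn.sub (ContinuousOn.log (by fun_prop) ?_) continuousOn_const
    intro t ht
    exact (hpos t ht).ne'
  rw [← ofReal_integral_eq_lintegral_ofReal, ← integral_Ioc_eq_integral_Ioo,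
    ← intervalIntegral.integral_of_le (by norm_num), intervalIntegral.integral_sub,
    ← ENNReal.ofReal_mul (by norm_num)]
  · congr 1
    have h2 := intervalIntegral.integral_comp_mul_add (a := (-1 : ℝ)) (b := 1)
      (f := fun x : ℝ => log x) (c := β) hb0.ne' 1
    have h3 : ∀ t : ℝ, log (1 + β * t) = log (β * t + 1) := fun t => by rw [add_comm]
    simp only [h3, h2, integral_log]
    simp only [intervalIntegral.integral_const, smul_eq_mul]
    have e1 : β * 1 + 1 = 1 + β := by ring
    have e2 : β * (-1) + 1 = 1 - β := by ring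
    rw [e1, e2]
    field_simp
    ring
  · have : ContinuousOn (fun t : ℝ => log (1 + β * t)) (uIcc (-1) 1) := by
      rw [uIcc_of_le (by norm_num)]
      exact ContinuousOn.log (by fun_prop) (fun t ht => (hpos t ht).ne')
    exact this.intervalIntegrable
  · exact intervalIntegrable_const
  · exact hcont.integrableOn_Icc.mono_set Ioo_subset_Icc_self
  · rw [Filter.EventuallyLE, ae_restrict_iff' measurableSet_Ioo]
    refine ae_of_all _ fun t ht => ?_
    simp only [Pi.zero_apply]
    have h4 : log (1 - β) ≤ log (1 + β * t) :=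
      log_le_log (by linarith) (by nlinarith [ht.1, ht.2])
    linarith

lemma logdist_nonneg {x w : E3} (hx : ‖x‖ = 1) (hw : ‖w‖ = 1) : 0 ≤ log (4 / ‖x - w‖ ^ 2) := by
  by_cases h : x = w
  · subst h; simp
  · have h1 : 0 < ‖x - w‖ := norm_pos_iff.mpr (sub_ne_zero.mpr h)
    have h2 : ‖x - w‖ ≤ 2 := by
      calc ‖x - w‖ ≤ ‖x‖ + ‖w‖ := norm_sub_le _ _
        _ = 2 := by rw [hx, hw]; norm_num
    apply log_nonneg
    rw [le_div_iff₀ (by positivity)]
    nlinarith

lemma sig_singleton {w : E3} (hw : ‖w‖ = 1) : ∀ᵐ x ∂sig, x ≠ w := by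
  have h : ∫⁻ x, ({0} : Set ℝ).indicator (fun _ => (1 : ℝ≥0∞)) (‖w - x‖ ^ 2) ∂sig = 0 := by
    rw [zonal4 hw (h := ({0} : Set ℝ).indicator (fun _ => (1 : ℝ≥0∞)))
      (measurable_const.indicator (measurableSet_singleton _))]
    rw [setLIntegral_congr_fun (g := fun _ => 0) measurableSet_Ioo, lintegral_zero]
    intro x hx
    have : 4 * x ∉ ({0} : Set ℝ) := by
      simp only [mem_singleton_iff]
      linarith [hx.1]
    simp only [indicator_of_notMem this]
  rw [lintegral_eq_zero_iff] at h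
  · filter_upwards [h] with x hx hxw
    subst hxw
    simp at hx
  · have h2 : Measurable fun x : E3 => ‖w - x‖ ^ 2 := by fun_prop
    exact (measurable_const.indicator (measurableSet_singleton _)).comp h2

lemma measurable_logdist (w : E3) : Measurable fun x : E3 => ENNReal.ofReal (log (4 / ‖x - w‖ ^ 2)) := by
  fun_prop

lemma pp_pos {r : ℝ} (hr : r ∈ Ioo (0 : ℝ) 1) : 0 < pp r := by
  have h1 := hr.1
  have h2 : 0 < 1 - r := by linarith [hr.2]
  unfold pp
  positivity

/-- The algebraic identity behind the smoothing cost. -/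
lemma Lam_id {r t : ℝ} (hr : r ∈ Ioo (0 : ℝ) 1) (ht : t ≤ 1) :
    ((1 + 2 * r / (1 + r ^ 2)) * log (1 + 2 * r / (1 + r ^ 2)) -
      (1 - 2 * r / (1 + r ^ 2)) * log (1 - 2 * r / (1 + r ^ 2))) / (2 * (2 * r / (1 + r ^ 2))) -
      log (1 - 2 * r / (1 + r ^ 2) * t) = log (4 * r / (1 + r ^ 2 - 2 * r * t)) + Lam r := by
  have hr0 := hr.1
  have hr1 : 0 < 1 - r := by linarith [hr.2]
  have hr2 : 0 < 1 + r := by linarith
  have hS : 0 < 1 + r ^ 2 := by positivity
  have hT : 0 < 1 + r ^ 2 - 2 * r * t := by nlinarith [sq_pos_of_pos hr1]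
  have l1 : log (1 + 2 * r / (1 + r ^ 2)) = 2 * log (1 + r) - log (1 + r ^ 2) := by
    rw [show 1 + 2 * r / (1 + r ^ 2) = (1 + r) ^ 2 / (1 + r ^ 2) by field_simp; ring,
      log_div (by positivity) hS.ne', log_pow]
    norm_num
  have l2 : log (1 - 2 * r / (1 + r ^ 2)) = 2 * log (1 - r) - log (1 + r ^ 2) := by
    rw [show 1 - 2 * r / (1 + r ^ 2) = (1 - r) ^ 2 / (1 + r ^ 2) by field_simp; ring,
      log_div (by positivity) hS.ne', log_pow]
    norm_num
  have l3 : log (1 - 2 * r / (1 + r ^ 2) * t) = log (1 + r ^ 2 - 2 * r * t) - log (1 + r ^ 2) := by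
    rw [← log_div hT.ne' hS.ne']
    congr 1
    field_simp
  have l4 : log (4 * r / (1 + r ^ 2 - 2 * r * t)) = log (4 * r) - log (1 + r ^ 2 - 2 * r * t) :=
    log_div (by positivity) hT.ne'
  have l5 : log (pp r) = 2 * log (1 - r) - log (4 * r) := by
    unfold pp
    rw [log_div (by positivity) (by positivity), log_pow]
    norm_num
  have l6 : log (1 + pp r) = 2 * log (1 + r) - log (4 * r) := by
    unfold pp
    rw [show 1 + (1 - r) ^ 2 / (4 * r) = (1 + r) ^ 2 / (4 * r) by field_simp; ring,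
      log_div (by positivity) (by positivity), log_pow]
    norm_num
  unfold Lam
  rw [l1, l2, l3, l4, l5, l6]
  generalize log (1 + r) = A
  generalize log (1 - r) = B
  generalize log (1 + r ^ 2) = C
  generalize log (4 * r) = D
  generalize log (1 + r ^ 2 - 2 * r * t) = F
  unfold pp
  field_simp
  ring

lemma KK_log_e3 {r : ℝ} (hr : r ∈ Ioo (0 : ℝ) 1) {w : E3} (hw : ‖w‖ = 1) :
    ∫⁻ x, ENNReal.ofReal (KK r e3 x) * ENNReal.ofReal (log (4 / ‖x - w‖ ^ 2)) ∂sig ≤
      ENNReal.ofReal (log (4 * r / (1 + r ^ 2 - 2 * r * w 2)) + Lam r) := by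
  have hr0 := hr.1
  have hr1 := hr.2
  have hw3 := coord_bound hw
  rw [boost hr (measurable_logdist w), ← Lam_id hr hw3.2]
  set β := 2 * r / (1 + r ^ 2) with hβd
  have hβ : β ∈ Ioo (0 : ℝ) 1 := by
    constructor
    · positivity
    · rw [hβd, div_lt_one (by positivity)]
      nlinarith [sq_pos_of_pos (sub_pos.mpr hr1)]
  have hb0 := hβ.1
  have hb1 := hβ.2
  have h2 : 0 < 1 - β * w 2 := by nlinarith [hβ.1, hβ.2, hw3.1, hw3.2]
  have hMi := norm_Mi hβ hw
  set m := log (1 - β * w 2) - log (1 - β) with hm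
  have hm0 : 0 ≤ m := by
    have : log (1 - β) ≤ log (1 - β * w 2) := log_le_log (by linarith) (by nlinarith [hw3.2])
    linarith
  set Yv := ((1 + β) * log (1 + β) - (1 - β) * log (1 - β)) / (2 * β) with hY
  have key : ∫⁻ x, ENNReal.ofReal (log (4 / ‖Mo β x - w‖ ^ 2)) ∂sig + ENNReal.ofReal m =
      1 + ENNReal.ofReal (Yv - 1 - log (1 - β)) := by
    rw [hY, ← int_log_beta hβ]
    have h1 : ∫⁻ x, ENNReal.ofReal (log (4 / ‖Mi β w - x‖ ^ 2)) ∂sig = 1 := by
      rw [zonal4 hMi (h := fun a => ENNReal.ofReal (log (4 / a))) (by fun_prop)]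
      exact int_neglog
    have hc : ENNReal.ofReal m = ∫⁻ _x : E3, ENNReal.ofReal m ∂sig := by simp
    have hmeas : Measurable fun x : E3 => ENNReal.ofReal (log (4 / ‖Mi β w - x‖ ^ 2)) := by
      fun_prop
    rw [hc, ← lintegral_add_right _ measurable_const]
    calc _ = ∫⁻ x, (ENNReal.ofReal (log (4 / ‖Mi β w - x‖ ^ 2)) +
          ENNReal.ofReal (log (1 + β * x 2) - log (1 - β))) ∂sig := by
          refine lintegral_congr_ae ?_
          filter_upwards [ae_good, sig_singleton hMi] with x hx hxne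
          have hne : 0 < ‖x - Mi β w‖ := norm_pos_iff.mpr (sub_ne_zero.mpr hxne)
          have h3 : 0 < 1 + β * x 2 := by nlinarith [hx.2.1, hx.2.2]
          have hl1 : 0 ≤ log (4 / ‖Mi β w - x‖ ^ 2) := logdist_nonneg hMi hx.1
          have hl2 : 0 ≤ log (1 + β * x 2) - log (1 - β) := by
            have : log (1 - β) ≤ log (1 + β * x 2) :=
              log_le_log (by linarith) (by nlinarith [hx.2.1])
            linarith
          have hd := Mo_dist hβ hx hw
          have hMo : ‖Mo β x - w‖ ^ 2 ≤ 4 := by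
            have hn1 : ‖Mo β x‖ = 1 := norm_Mo hβ hx.1
            have hn2 : ‖Mo β x - w‖ ≤ 2 := by
              calc ‖Mo β x - w‖ ≤ ‖Mo β x‖ + ‖w‖ := norm_sub_le _ _
                _ = 2 := by rw [hn1, hw]; norm_num
            nlinarith [norm_nonneg (Mo β x - w)]
          have hpos : 0 < ‖Mo β x - w‖ ^ 2 := by rw [hd]; positivity
          have hl3 : 0 ≤ log (4 / ‖Mo β x - w‖ ^ 2) := by
            apply log_nonneg
            rwa [le_div_iff₀ hpos, one_mul]
          have hid : log (4 / ‖Mo β x - w‖ ^ 2) + m =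
              log (4 / ‖Mi β w - x‖ ^ 2) + (log (1 + β * x 2) - log (1 - β)) := by
            rw [hd, hm, norm_sub_rev (Mi β w) x, log_div (by norm_num) (by positivity),
              log_div (by positivity) h3.ne', log_mul h2.ne' (by positivity),
              log_div (by norm_num) (by positivity)]
            ring
          rw [← ENNReal.ofReal_add hl1 hl2, ← hid, ENNReal.ofReal_add hl3 hm0]
      _ = _ := by rw [lintegral_add_left hmeas, h1]
  have h9 : ∫⁻ x, ENNReal.ofReal (log (4 / ‖Mo β x - w‖ ^ 2)) ∂sig + ENNReal.ofReal m ≤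
      ENNReal.ofReal (Yv - log (1 - β * w 2)) + ENNReal.ofReal m := by
    have hYnn : 0 ≤ Yv - 1 - log (1 - β) := by
      have h10 := one_sub_inv_le_log_of_pos (show 0 < (1 + β) / (1 - β) by
        have : 0 < 1 - β := by linarith
        positivity)
      rw [log_div (by linarith) (by linarith), inv_div] at h10
      have h11 : Yv - 1 - log (1 - β) =
          (1 + β) / (2 * β) * (log (1 + β) - log (1 - β) - (1 - (1 - β) / (1 + β))) := by
        rw [hY]
        generalize log (1 + β) = A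
        generalize log (1 - β) = B
        have : 1 + β ≠ 0 := by linarith
        field_simp
        ring
      rw [h11]
      apply mul_nonneg (by positivity)
      linarith
    rw [key, ← ENNReal.ofReal_one, ← ENNReal.ofReal_add zero_le_one hYnn]
    refine le_trans (le_of_eq ?_) ENNReal.ofReal_add_le
    congr 1
    rw [hm]
    ring
  exact (ENNReal.add_le_add_iff_right ENNReal.ofReal_ne_top).mp h9

lemma KK_log {r : ℝ} (hr : r ∈ Ioo (0 : ℝ) 1) {w w' : E3} (hw : ‖w‖ = 1) (hw' : ‖w'‖ = 1) :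
    ∫⁻ x, ENNReal.ofReal (KK r w x) * ENNReal.ofReal (log (4 / ‖x - w'‖ ^ 2)) ∂sig ≤
      ENNReal.ofReal (log (4 * r / (1 + r ^ 2 - 2 * r * ⟪w, w'⟫_ℝ)) + Lam r) := by
  obtain ⟨L, hL⟩ := exists_rot hw
  have hLw : ‖L w'‖ = 1 := by rw [L.norm_map, hw']
  have h1 := KK_log_e3 hr hLw
  have hm : Measurable fun x : E3 => ENNReal.ofReal (KK r e3 x) *
      ENNReal.ofReal (log (4 / ‖x - L w'‖ ^ 2)) :=
    (ENNReal.measurable_ofReal.comp (measurable_KK r e3)).mul (measurable_logdist _)
  rw [← sig_rot L hm] at h1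
  have h2 : (L w') 2 = ⟪w, w'⟫_ℝ := by
    rw [← inner_e3, ← hL, L.inner_map_map]
  rw [h2] at h1
  refine le_trans (le_of_eq ?_) h1
  refine lintegral_congr fun x => ?_
  have h3 : KK r e3 (L x) = KK r w x := by
    unfold KK
    rw [← hL, L.inner_map_map]
  rw [h3, ← map_sub, L.norm_map]

end Pool.Agent.Helper44.Ball3
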