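import Mathlib
import Pool.Agent.Helper44.Ball3.KLog
import Pool.Agent.Helper44.Ball3.ProdTools

set_option autoImplicit false
set_option maxHeartbeats 4000000
set_option synthInstance.maxHeartbeats 400000

open MeasureTheory Set Real
open scoped InnerProductSpace ENNReal

namespace Pool.Agent.Helper44.Ball3

/-- Radial gap. -/
noncomputable def bb (r s : ℝ) : ℝ := (r - s) ^ 2 / (r * s)

/-- Pair function. -/
noncomputable def AB (y z : ℝ × E3) : ℝ := ‖y.2 - z.2‖ ^ 2 + bb y.1 z.1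

/-- Smoothed point mass. -/
noncomputable def nu (y : ℝ × E3) : Measure E3 :=
  sig.withDensity fun x => ENNReal.ofReal (KK y.1 y.2 x)

lemma bb_symm (r s : ℝ) : bb r s = bb s r := by
  unfold bb; rw [mul_comm]; congr 1; ring

lemma AB_symm (y z : ℝ × E3) : AB y z = AB z y := by
  unfold AB; rw [norm_sub_rev, bb_symm]

lemma bb_nonneg {r s : ℝ} (hr : 0 < r) (hs : 0 < s) : 0 ≤ bb r s := by
  unfold bb; positivity

lemma measurable_bb : Measurable (Function.uncurry bb) := by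
  unfold bb Function.uncurry
  fun_prop

lemma nu_prob {y : ℝ × E3} (h1 : y.1 ∈ Ioo (0 : ℝ) 1) (h2 : ‖y.2‖ = 1) :
    IsProbabilityMeasure (nu y) := by
  constructor
  unfold nu
  rw [withDensity_apply _ MeasurableSet.univ, Measure.restrict_univ, KK_mass h1 h2]

lemma lintegral_nu (y : ℝ × E3) {F : E3 → ℝ≥0∞} (hF : Measurable F) :
    ∫⁻ x, F x ∂(nu y) = ∫⁻ x, ENNReal.ofReal (KK y.1 y.2 x) * F x ∂sig := by
  unfold nu
  have hm : Measurable fun x => ENNReal.ofReal (KK y.1 y.2 x) :=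
    ENNReal.measurable_ofReal.comp (measurable_KK y.1 y.2)
  rw [lintegral_withDensity_eq_lintegral_mul _ hm hF]
  rfl

lemma nu_ac (y : ℝ × E3) : nu y ≪ sig := withDensity_absolutelyContinuous _ _

lemma log_one_le_Lam {r : ℝ} (hr : r ∈ Ioo (0 : ℝ) 1) : log (1 + pp r) ≤ Lam r := by
  have hp := pp_pos hr
  have h1 : log (pp r) ≤ log (1 + pp r) := log_le_log hp (by linarith)
  unfold Lam
  nlinarith

lemma Lam_nonneg {r : ℝ} (hr : r ∈ Ioo (0 : ℝ) 1) : 0 ≤ Lam r :=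
  le_trans (log_nonneg (by linarith [pp_pos hr])) (log_one_le_Lam hr)

lemma T_nonneg {r t : ℝ} (hr : r ∈ Ioo (0 : ℝ) 1) (ht : t ∈ Icc (-1 : ℝ) 1) :
    0 ≤ log (4 * r / (1 + r ^ 2 - 2 * r * t)) + Lam r := by
  have h0 := hr.1
  have h00 : 0 < 1 - r := by linarith [hr.2]
  have h1 : 0 < 1 + r ^ 2 - 2 * r * t := by nlinarith [ht.2, sq_pos_of_pos h00]
  have h2 := log_one_le_Lam hr
  have h3 : log (4 * r / (1 + r ^ 2 - 2 * r * t)) ≥ - log (1 + pp r) := by
    rw [← log_inv]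
    have hp := pp_pos hr
    apply log_le_log (by positivity)
    have : (1 + pp r)⁻¹ = 4 * r / (1 + r) ^ 2 := by
      unfold pp
      rw [show 1 + (1 - r) ^ 2 / (4 * r) = (1 + r) ^ 2 / (4 * r) by field_simp; ring, inv_div]
    rw [this]
    gcongr
    nlinarith [ht.1]
  linarith

lemma inner_smooth {y : ℝ × E3} (h1 : y.1 ∈ Ioo (0 : ℝ) 1) (h2 : ‖y.2‖ = 1) {x' : E3}
    (hx' : ‖x'‖ = 1) (hne : x' ≠ y.2) :
    ∫⁻ x, ENNReal.ofReal (log (4 / ‖x - x'‖ ^ 2)) ∂(nu y) ≤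
      ENNReal.ofReal (log (4 / ‖x' - y.2‖ ^ 2)) + ENNReal.ofReal (Lam y.1) := by
  rw [lintegral_nu y (measurable_logdist x')]
  refine (KK_log h1 h2 hx').trans ?_
  refine le_trans (ENNReal.ofReal_le_ofReal ?_) ENNReal.ofReal_add_le
  have h0 := h1.1
  have ht := inner_bound h2 hx'
  have hpos : 0 < ‖x' - y.2‖ ^ 2 := by
    have : 0 < ‖x' - y.2‖ := norm_pos_iff.mpr (sub_ne_zero.mpr hne)
    positivity
  have h00 : 0 < 1 - y.1 := by linarith [h1.2]
  have h3 : 0 < 1 + y.1 ^ 2 - 2 * y.1 * ⟪y.2, x'⟫_ℝ := by nlinarith [ht.2, sq_pos_of_pos h00]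
  have h4 : ‖x' - y.2‖ ^ 2 = 2 - 2 * ⟪y.2, x'⟫_ℝ := by
    rw [norm_sub_sq_real, hx', h2, real_inner_comm]; ring
  have : log (4 * y.1 / (1 + y.1 ^ 2 - 2 * y.1 * ⟪y.2, x'⟫_ℝ)) ≤ log (4 / ‖x' - y.2‖ ^ 2) := by
    apply log_le_log (by positivity)
    rw [div_le_div_iff₀ h3 hpos, h4]
    nlinarith [sq_nonneg (1 - y.1)]
  linarith

lemma ofReal_sum_le' {ι : Type*} (s : Finset ι) (f : ι → ℝ) :
    ENNReal.ofReal (∑ i ∈ s, f i) ≤ ∑ i ∈ s, ENNReal.ofReal (f i) := by
  classical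
  induction s using Finset.induction_on with
  | empty => simp
  | insert i s hi ih =>
    rw [Finset.sum_insert hi, Finset.sum_insert hi]
    exact ENNReal.ofReal_add_le.trans (by gcongr)

lemma measurable_logdist2 :
    Measurable fun p : E3 × E3 => ENNReal.ofReal (log (4 / ‖p.1 - p.2‖ ^ 2)) := by
  fun_prop

lemma pair_smooth_aux {y z : ℝ × E3} (h1 : y.1 ∈ Ioo (0 : ℝ) 1) (h2 : ‖y.2‖ = 1)
    (g1 : z.1 ∈ Ioo (0 : ℝ) 1) (g2 : ‖z.2‖ = 1) (hle : z.1 ≤ y.1) (hAB : 0 < AB y z) :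
    ∫⁻ x', ∫⁻ x, ENNReal.ofReal (log (4 / ‖x - x'‖ ^ 2)) ∂(nu y) ∂(nu z) ≤
      ENNReal.ofReal (log (4 / AB y z) + Lam y.1 + Lam z.1) ∧
    0 ≤ log (4 / AB y z) + Lam y.1 + Lam z.1 := by
  have hpz := nu_prob g1 g2
  have ht := inner_bound g2 h2
  have hr0 := h1.1
  have hr1 := h1.2
  have hs0 := g1.1
  have hs1 := g1.2
  have hT := T_nonneg g1 (t := ⟪z.2, y.2⟫_ℝ) ht
  have hL := Lam_nonneg h1
  have hss : 0 < 1 - z.1 := by linarith
  have h3 : 0 < 1 + z.1 ^ 2 - 2 * z.1 * ⟪z.2, y.2⟫_ℝ := by nlinarith [ht.2, sq_pos_of_pos hss]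
  have h4 : ‖y.2 - z.2‖ ^ 2 = 2 - 2 * ⟪z.2, y.2⟫_ℝ := by
    rw [norm_sub_sq_real, g2, h2, real_inner_comm]; ring
  have hmono : log (4 * z.1 / (1 + z.1 ^ 2 - 2 * z.1 * ⟪z.2, y.2⟫_ℝ)) ≤ log (4 / AB y z) := by
    apply log_le_log (by positivity)
    rw [div_le_div_iff₀ h3 hAB]
    have h5 : z.1 * AB y z = z.1 * (2 - 2 * ⟪z.2, y.2⟫_ℝ) + (y.1 - z.1) ^ 2 / y.1 := by
      unfold AB bb
      rw [h4]
      field_simp
    have h6 : (y.1 - z.1) ^ 2 / y.1 ≤ 1 + z.1 ^ 2 - 2 * z.1 := by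
      rw [div_le_iff₀ hr0]
      nlinarith [mul_nonneg (sub_nonneg.mpr hr1.le) (sub_nonneg.mpr (show z.1 ^ 2 ≤ y.1 by
        nlinarith))]
    nlinarith
  constructor
  · have e1 : ∫⁻ x', ∫⁻ x, ENNReal.ofReal (log (4 / ‖x - x'‖ ^ 2)) ∂(nu y) ∂(nu z) ≤
        ∫⁻ x', (ENNReal.ofReal (log (4 / ‖x' - y.2‖ ^ 2)) + ENNReal.ofReal (Lam y.1)) ∂(nu z) := by
      refine lintegral_mono_ae ?_
      filter_upwards [(nu_ac z).ae_le ae_norm, (nu_ac z).ae_le (sig_singleton h2)] with x' hx' hne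
      exact inner_smooth h1 h2 hx' hne
    refine e1.trans ?_
    rw [lintegral_add_right _ measurable_const, lintegral_const, measure_univ, mul_one,
      lintegral_nu z (measurable_logdist y.2)]
    refine (add_le_add (KK_log g1 g2 h2) le_rfl).trans ?_
    rw [← ENNReal.ofReal_add hT hL]
    refine ENNReal.ofReal_le_ofReal ?_
    linarith
  · linarith

lemma pair_smooth {y z : ℝ × E3} (h1 : y.1 ∈ Ioo (0 : ℝ) 1) (h2 : ‖y.2‖ = 1)
    (g1 : z.1 ∈ Ioo (0 : ℝ) 1) (g2 : ‖z.2‖ = 1) (hAB : 0 < AB y z) :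
    ∫⁻ x, ∫⁻ x', ENNReal.ofReal (log (4 / ‖x - x'‖ ^ 2)) ∂(nu z) ∂(nu y) ≤
      ENNReal.ofReal (log (4 / AB y z) + Lam y.1 + Lam z.1) ∧
    0 ≤ log (4 / AB y z) + Lam y.1 + Lam z.1 := by
  have hpz := nu_prob g1 g2
  have hpy := nu_prob h1 h2
  rcases le_total z.1 y.1 with h | h
  · have := pair_smooth_aux h1 h2 g1 g2 h hAB
    rwa [lintegral_lintegral_swap] at this
    exact (measurable_logdist2.comp (measurable_snd.prodMk measurable_fst)).aemeasurable
  · rw [AB_symm] at hAB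
    have := pair_smooth_aux g1 g2 h1 h2 h hAB
    rw [AB_symm z y] at this
    have e1 : log (4 / AB y z) + Lam z.1 + Lam y.1 = log (4 / AB y z) + Lam y.1 + Lam z.1 := by
      ring
    rw [e1] at this
    refine ⟨le_trans (le_of_eq ?_) this.1, this.2⟩
    refine lintegral_congr fun x => lintegral_congr fun x' => ?_
    rw [norm_sub_rev]

/-- Edges. -/
def edges (n : ℕ) : Finset (Fin n × Fin n) := Finset.univ.filter fun e => e.1 < e.2

lemma mem_edges {n : ℕ} {e : Fin n × Fin n} : e ∈ edges n ↔ e.1 < e.2 := by simp [edges]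

lemma edges_sum {n : ℕ} (L : Fin n → ℝ) :
    ∑ e ∈ edges n, (L e.1 + L e.2) = ((n : ℝ) - 1) * ∑ i, L i := by
  unfold edges
  rw [Finset.sum_filter, Fintype.sum_prod_type]
  simp only
  have h1 : ∀ i j : Fin n, (if i < j then L i + L j else 0) =
      (if i < j then L i else 0) + (if i < j then L j else 0) := by
    intro i j; split_ifs <;> simp
  simp only [h1, Finset.sum_add_distrib]
  have h2 : ∑ i : Fin n, ∑ j : Fin n, (if i < j then L j else 0) =
      ∑ i : Fin n, ∑ j : Fin n, (if j < i then L i else 0) := Finset.sum_comm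
  rw [h2, ← Finset.sum_add_distrib, Finset.mul_sum]
  refine Finset.sum_congr rfl fun i _ => ?_
  rw [← Finset.sum_add_distrib]
  have h3 : ∀ j : Fin n, (if i < j then L i else 0) + (if j < i then L i else 0) =
      L i - (if i = j then L i else 0) := by
    intro j
    rcases lt_trichotomy i j with h | h | h
    · simp [h, h.not_gt, h.ne]
    · subst h; simp
    · simp [h, h.not_gt, h.ne']
  simp only [h3, Finset.sum_sub_distrib, Finset.sum_const, Finset.card_univ, Fintype.card_fin,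
    nsmul_eq_mul, Finset.sum_ite_eq, Finset.mem_univ, if_true]
  ring

/-- The smoothing inequality. -/
lemma smoothing {n : ℕ} {y : Fin n → ℝ × E3} (h1 : ∀ i, (y i).1 ∈ Ioo (0 : ℝ) 1)
    (h2 : ∀ i, ‖(y i).2‖ = 1) :
    ENNReal.ofReal (∏ e ∈ edges n, AB (y e.1) (y e.2) / 4) ≤
      ENNReal.ofReal (exp (((n : ℝ) - 1) * ∑ i, Lam (y i).1)) *
        ∫⁻ x, ENNReal.ofReal (∏ e ∈ edges n, ‖x e.1 - x e.2‖ ^ 2 / 4)
          ∂(Measure.pi fun i => nu (y i)) := by
  have hprob : ∀ i, IsProbabilityMeasure (nu (y i)) := fun i => nu_prob (h1 i) (h2 i)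
  have hABnn : ∀ i j, 0 ≤ AB (y i) (y j) := fun i j => by
    unfold AB
    have := bb_nonneg (h1 i).1 (h1 j).1
    positivity
  by_cases hall : ∀ e ∈ edges n, 0 < AB (y e.1) (y e.2)
  swap
  · push Not at hall
    obtain ⟨e, he, he2⟩ := hall
    have : AB (y e.1) (y e.2) = 0 := le_antisymm he2 (hABnn _ _)
    rw [Finset.prod_eq_zero he (by rw [this]; simp)]
    simp
  set G : (Fin n → E3) → ℝ := fun x => ∑ e ∈ edges n, log (4 / ‖x e.1 - x e.2‖ ^ 2) with hG
  set M : ℝ := ∑ e ∈ edges n, (log (4 / AB (y e.1) (y e.2)) + Lam (y e.1).1 + Lam (y e.2).1)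
    with hM
  have hGm : Measurable G := by
    refine Finset.measurable_fun_sum _ fun e _ => ?_
    fun_prop
  have hpair : ∀ e ∈ edges n, ∫⁻ x, ENNReal.ofReal (log (4 / ‖x e.1 - x e.2‖ ^ 2))
      ∂(Measure.pi fun i => nu (y i)) ≤
        ENNReal.ofReal (log (4 / AB (y e.1) (y e.2)) + Lam (y e.1).1 + Lam (y e.2).1) := by
    intro e he
    have hne : e.1 ≠ e.2 := (mem_edges.mp he).ne
    have := pair_int (fun i => nu (y i)) hne
      (g := fun s t => ENNReal.ofReal (log (4 / ‖s - t‖ ^ 2))) measurable_logdist2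
    rw [this]
    exact (pair_smooth (h1 _) (h2 _) (h1 _) (h2 _) (hall e he)).1
  have hterm : ∀ e ∈ edges n, 0 ≤ log (4 / AB (y e.1) (y e.2)) + Lam (y e.1).1 + Lam (y e.2).1 :=
    fun e he => (pair_smooth (h1 _) (h2 _) (h1 _) (h2 _) (hall e he)).2
  have hM0 : 0 ≤ M := Finset.sum_nonneg hterm
  have hGM : ∫⁻ x, ENNReal.ofReal (G x) ∂(Measure.pi fun i => nu (y i)) ≤ ENNReal.ofReal M := by
    calc _ ≤ ∫⁻ x, ∑ e ∈ edges n, ENNReal.ofReal (log (4 / ‖x e.1 - x e.2‖ ^ 2))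
          ∂(Measure.pi fun i => nu (y i)) := by
          refine lintegral_mono fun x => ?_
          exact ofReal_sum_le' _ _
      _ = ∑ e ∈ edges n, ∫⁻ x, ENNReal.ofReal (log (4 / ‖x e.1 - x e.2‖ ^ 2))
          ∂(Measure.pi fun i => nu (y i)) := by
          rw [lintegral_finsetSum]
          intro e _
          fun_prop
      _ ≤ ∑ e ∈ edges n, ENNReal.ofReal
          (log (4 / AB (y e.1) (y e.2)) + Lam (y e.1).1 + Lam (y e.2).1) :=
          Finset.sum_le_sum hpair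
      _ = ENNReal.ofReal M := (ENNReal.ofReal_sum_of_nonneg hterm).symm
  have hJ := jensen_neg hGm hM0 hGM
  have hdist : ∀ᵐ x ∂(Measure.pi fun i => nu (y i)), ∀ e ∈ edges n, x e.1 ≠ x e.2 := by
    rw [Filter.eventually_all_finset]
    intro e he
    have hne : e.1 ≠ e.2 := (mem_edges.mp he).ne
    have hms : MeasurableSet {p : E3 × E3 | p.1 = p.2} :=
      measurableSet_eq_fun measurable_fst measurable_snd
    have := pair_int (fun i => nu (y i)) hne
      (g := fun s t => {p : E3 × E3 | p.1 = p.2}.indicator (fun _ => (1 : ℝ≥0∞)) (s, t))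
      (measurable_const.indicator hms)
    have h0 : ∫⁻ s, ∫⁻ t, {p : E3 × E3 | p.1 = p.2}.indicator (fun _ => (1 : ℝ≥0∞)) (s, t)
        ∂(nu (y e.2)) ∂(nu (y e.1)) = 0 := by
      rw [lintegral_congr_ae (g := fun _ => 0), lintegral_zero]
      filter_upwards [(nu_ac (y e.1)).ae_le ae_norm] with s hs
      rw [lintegral_congr_ae (g := fun _ => 0), lintegral_zero]
      filter_upwards [(nu_ac (y e.2)).ae_le (sig_singleton hs)] with t ht
      rw [indicator_of_notMem]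
      exact fun h => ht h.symm
    rw [h0, lintegral_eq_zero_iff] at this
    · filter_upwards [this] with x hx hxx
      simp [hxx] at hx
    · have hm0 : Measurable fun x : Fin n → E3 => (x e.1, x e.2) :=
        (measurable_pi_apply _).prodMk (measurable_pi_apply _)
      exact (measurable_const.indicator hms).comp hm0
  have hGe : ∀ᵐ x ∂(Measure.pi fun i => nu (y i)), ENNReal.ofReal (exp (-(G x))) =
      ENNReal.ofReal (∏ e ∈ edges n, ‖x e.1 - x e.2‖ ^ 2 / 4) := by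
    filter_upwards [hdist] with x hx
    congr 1
    rw [hG, ← Finset.sum_neg_distrib, exp_sum]
    refine Finset.prod_congr rfl fun e he => ?_
    have : 0 < ‖x e.1 - x e.2‖ := norm_pos_iff.mpr (sub_ne_zero.mpr (hx e he))
    rw [← log_inv, exp_log (by positivity), inv_div]
  rw [lintegral_congr_ae hGe] at hJ
  have hMe : exp (-M) = (∏ e ∈ edges n, AB (y e.1) (y e.2) / 4) *
      exp (-(((n : ℝ) - 1) * ∑ i, Lam (y i).1)) := by
    have : M = (∑ e ∈ edges n, log (4 / AB (y e.1) (y e.2))) +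
        ((n : ℝ) - 1) * ∑ i, Lam (y i).1 := by
      rw [← edges_sum (fun i => Lam (y i).1), ← Finset.sum_add_distrib]
      refine Finset.sum_congr rfl fun e _ => ?_
      ring
    rw [this, neg_add, exp_add]
    congr 1
    rw [← Finset.sum_neg_distrib, exp_sum]
    refine Finset.prod_congr rfl fun e he => ?_
    have := hall e he
    rw [← log_inv, exp_log (by positivity), inv_div]
  have hprodnn : 0 ≤ ∏ e ∈ edges n, AB (y e.1) (y e.2) / 4 :=
    Finset.prod_nonneg fun e _ => div_nonneg (hABnn _ _) (by norm_num)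
  calc ENNReal.ofReal (∏ e ∈ edges n, AB (y e.1) (y e.2) / 4)
      = ENNReal.ofReal (exp (((n : ℝ) - 1) * ∑ i, Lam (y i).1)) * ENNReal.ofReal (exp (-M)) := by
        rw [← ENNReal.ofReal_mul (exp_pos _).le, hMe]
        congr 1
        rw [mul_comm, mul_assoc, ← exp_add]
        simp
    _ ≤ _ := by gcongr

end Pool.Agent.Helper44.Ball3
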