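import Mathlib
import Pool.Agent.Helper44.Ball3.DPP
import Pool.Agent.Helper44.Ball3.Smooth

set_option autoImplicit false
set_option maxHeartbeats 4000000
set_option synthInstance.maxHeartbeats 400000

open Finset

namespace Pool.Agent.Helper44.Ball3

lemma sum_powerset_two {α : Type*} [DecidableEq α] (E : Finset α) (f : α → ℝ) {a b : α}
    (ha : a ∈ E) (hb : b ∈ E) (hab : a ≠ b) :
    ∑ S ∈ E.powerset.filter (fun S => a ∈ S ∧ b ∈ S), ∏ e ∈ S, f e =
      f a * f b * ∏ e ∈ (E.erase a).erase b, (1 + f e) := by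
  have hb' : b ∈ E.erase a := mem_erase.mpr ⟨hab.symm, hb⟩
  have h1 : E = insert a (insert b ((E.erase a).erase b)) := by
    rw [insert_erase hb', insert_erase ha]
  have hbn : b ∉ (E.erase a).erase b := notMem_erase _ _
  have han : a ∉ insert b ((E.erase a).erase b) := by
    rw [insert_erase hb']
    exact notMem_erase _ _
  have han' : a ∉ (E.erase a).erase b := fun h => han (mem_insert_of_mem h)
  rw [Finset.sum_filter]
  conv_lhs => rw [h1]
  rw [sum_powerset_insert han, sum_powerset_insert hbn, sum_powerset_insert hbn]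
  have z1 : ∑ t ∈ ((E.erase a).erase b).powerset,
      (if a ∈ t ∧ b ∈ t then ∏ e ∈ t, f e else 0) = 0 := by
    refine Finset.sum_eq_zero fun t ht => ?_
    rw [if_neg]
    rintro ⟨h, _⟩
    exact han' (mem_powerset.mp ht h)
  have z2 : ∑ t ∈ ((E.erase a).erase b).powerset,
      (if a ∈ insert b t ∧ b ∈ insert b t then ∏ e ∈ insert b t, f e else 0) = 0 := by
    refine Finset.sum_eq_zero fun t ht => ?_
    rw [if_neg]
    rintro ⟨h, _⟩
    rcases mem_insert.mp h with h | h
    · exact hab h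
    · exact han' (mem_powerset.mp ht h)
  have z3 : ∑ t ∈ ((E.erase a).erase b).powerset,
      (if a ∈ insert a t ∧ b ∈ insert a t then ∏ e ∈ insert a t, f e else 0) = 0 := by
    refine Finset.sum_eq_zero fun t ht => ?_
    rw [if_neg]
    rintro ⟨_, h⟩
    rcases mem_insert.mp h with h | h
    · exact hab h.symm
    · exact hbn (mem_powerset.mp ht h)
  rw [z1, z2, z3, zero_add, zero_add, zero_add, prod_one_add, mul_sum]
  refine Finset.sum_congr rfl fun t ht => ?_
  have hta : a ∉ t := fun h => han' (mem_powerset.mp ht h)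
  have htb : b ∉ t := fun h => hbn (mem_powerset.mp ht h)
  rw [if_pos ⟨mem_insert_self _ _, mem_insert_of_mem (mem_insert_self _ _)⟩,
    prod_insert, prod_insert htb]
  · ring
  · intro h
    rcases mem_insert.mp h with h | h
    · exact hab h
    · exact hta h

/-- Pairs of distinct edges with a common endpoint. -/
def adj (n : ℕ) : Finset ((Fin n × Fin n) × (Fin n × Fin n)) :=
  ((edges n) ×ˢ (edges n)).filter fun p => p.1 ≠ p.2 ∧
    ¬ (p.1.1 ≠ p.2.1 ∧ p.1.1 ≠ p.2.2 ∧ p.1.2 ≠ p.2.1 ∧ p.1.2 ≠ p.2.2)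

open Classical in
/-- Matchings. -/
noncomputable def mats (n : ℕ) : Finset (Finset (Fin n × Fin n)) :=
  (edges n).powerset.filter IsMat

lemma expansion {n : ℕ} (f : Fin n × Fin n → ℝ) (hf : ∀ e, 0 ≤ f e) :
    ∏ e ∈ edges n, (1 + f e) ≤ ∑ S ∈ mats n, ∏ e ∈ S, f e +
      ∑ p ∈ adj n, (f p.1 / (1 + f p.1)) * (f p.2 / (1 + f p.2)) * ∏ e ∈ edges n, (1 + f e) := by
  classical
  have hpf : ∀ e, 0 < 1 + f e := fun e => by linarith [hf e]
  rw [prod_one_add]
  have h1 : ∀ p ∈ adj n, (f p.1 / (1 + f p.1)) * (f p.2 / (1 + f p.2)) *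
      ∑ S ∈ (edges n).powerset, ∏ e ∈ S, f e =
      ∑ S ∈ (edges n).powerset, if p.1 ∈ S ∧ p.2 ∈ S then ∏ e ∈ S, f e else 0 := by
    intro p hp
    obtain ⟨hp1, hp2, hp3⟩ := mem_filter.mp hp
    obtain ⟨ha, hb⟩ := mem_product.mp hp1
    rw [← Finset.sum_filter, sum_powerset_two _ f ha hb hp2, ← prod_one_add]
    have hb' : p.2 ∈ (edges n).erase p.1 := mem_erase.mpr ⟨hp2.symm, hb⟩
    rw [← mul_prod_erase _ _ ha, ← mul_prod_erase _ _ hb']
    have q1 := (hpf p.1).ne'
    have q2 := (hpf p.2).ne'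
    field_simp
  rw [Finset.sum_congr rfl h1, Finset.sum_comm]
  rw [← Finset.sum_filter_add_sum_filter_not (edges n).powerset IsMat (fun S => ∏ e ∈ S, f e)]
  have hm : ∑ S ∈ (edges n).powerset.filter IsMat, ∏ e ∈ S, f e = ∑ S ∈ mats n, ∏ e ∈ S, f e := by
    unfold mats
    congr
  rw [hm]
  refine add_le_add le_rfl ?_
  rw [Finset.sum_filter]
  refine Finset.sum_le_sum fun S hS => ?_
  have hnn : 0 ≤ ∏ e ∈ S, f e := prod_nonneg fun e _ => hf e
  have hterm : ∀ p ∈ adj n, 0 ≤ (if p.1 ∈ S ∧ p.2 ∈ S then ∏ e ∈ S, f e else 0) := by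
    intro p _
    split_ifs
    · exact hnn
    · exact le_rfl
  by_cases h : IsMat S
  · rw [if_neg (not_not.mpr h)]
    exact Finset.sum_nonneg hterm
  · rw [if_pos h]
    have hS' := mem_powerset.mp hS
    have hE : ∀ e ∈ S, e.1 ≠ e.2 := fun e he => (mem_edges.mp (hS' he)).ne
    have : ∃ e ∈ S, ∃ g ∈ S, e ≠ g ∧
        ¬ (e.1 ≠ g.1 ∧ e.1 ≠ g.2 ∧ e.2 ≠ g.1 ∧ e.2 ≠ g.2) := by
      by_contra hcon
      apply h
      refine ⟨hE, fun e he g hg hne => ?_⟩
      by_contra hcon2
      exact hcon ⟨e, he, g, hg, hne, hcon2⟩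
    obtain ⟨e, he, g, hg, hne, hadj⟩ := this
    have hmem : (e, g) ∈ adj n :=
      mem_filter.mpr ⟨mem_product.mpr ⟨hS' he, hS' hg⟩, hne, hadj⟩
    refine le_trans (le_of_eq ?_) (Finset.single_le_sum hterm hmem)
    rw [if_pos ⟨he, hg⟩]

lemma card_adj_le (n : ℕ) : (adj n).card ≤ 4 * n ^ 3 := by
  classical
  -- each adjacent pair is determined by one of four patterns and three vertices
  have hsub : adj n ⊆ (Finset.univ : Finset (Fin 4 × Fin n × Fin n × Fin n)).image
      (fun q => if q.1 = 0 then ((q.2.1, q.2.2.1), (q.2.1, q.2.2.2)) else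
        if q.1 = 1 then ((q.2.1, q.2.2.1), (q.2.2.2, q.2.1)) else
        if q.1 = 2 then ((q.2.2.1, q.2.1), (q.2.1, q.2.2.2)) else
          ((q.2.2.1, q.2.1), (q.2.2.2, q.2.1))) := by
    intro p hp
    obtain ⟨_, _, hp3⟩ := mem_filter.mp hp
    rw [mem_image]
    by_cases h1 : p.1.1 = p.2.1
    · refine ⟨(0, p.1.1, p.1.2, p.2.2), mem_univ _, ?_⟩
      simp [h1]
      ext <;> simp [h1]
    by_cases h2 : p.1.1 = p.2.2
    · refine ⟨(1, p.1.1, p.1.2, p.2.1), mem_univ _, ?_⟩
      simp [h2]
      ext <;> simp [h2]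
    by_cases h3 : p.1.2 = p.2.1
    · refine ⟨(2, p.1.2, p.1.1, p.2.2), mem_univ _, ?_⟩
      simp [h3]
      ext <;> simp [h3]
    by_cases h4 : p.1.2 = p.2.2
    · refine ⟨(3, p.1.2, p.1.1, p.2.1), mem_univ _, ?_⟩
      simp [h4]
      ext <;> simp [h4]
    · exact absurd ⟨h1, h2, h3, h4⟩ hp3
  calc (adj n).card ≤ _ := card_le_card hsub
    _ ≤ (Finset.univ : Finset (Fin 4 × Fin n × Fin n × Fin n)).card := card_image_le
    _ = 4 * n ^ 3 := by
      rw [card_univ]
      simp only [Fintype.card_prod, Fintype.card_fin]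
      ring

/-- Matchings with a given number of edges. -/
noncomputable def matsk (n m : ℕ) : Finset (Finset (Fin n × Fin n)) :=
  (mats n).filter fun S => S.card = m

lemma mem_matsk {n m : ℕ} {S : Finset (Fin n × Fin n)} :
    S ∈ matsk n m ↔ S ⊆ edges n ∧ IsMat S ∧ S.card = m := by
  classical
  unfold matsk mats
  rw [mem_filter, mem_filter, mem_powerset, and_assoc]

lemma two_le_of_mem {n m : ℕ} {S : Finset (Fin n × Fin n)} (h : S ∈ matsk n m) : 2 * m ≤ n := by
  obtain ⟨_, h2, h3⟩ := mem_matsk.mp h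
  rw [← h3, ← card_vs h2]
  calc (vs S).card ≤ (Finset.univ : Finset (Fin n)).card := card_le_card (subset_univ _)
    _ = n := by simp

lemma card_lt_pairs {n : ℕ} (W : Finset (Fin n)) :
    2 * ((edges n).filter fun e => e.1 ∈ W ∧ e.2 ∈ W).card ≤ W.card * (W.card - 1) := by
  classical
  have h1 : W.card * (W.card - 1) = W.offDiag.card := by
    rw [offDiag_card, Nat.mul_sub_one]
  set A := (edges n).filter fun e => e.1 ∈ W ∧ e.2 ∈ W with hA
  set B := A.image Prod.swap with hB
  have hBc : B.card = A.card := card_image_of_injective _ Prod.swap_injective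
  have hd : Disjoint A B := by
    rw [Finset.disjoint_left]
    intro e he heB
    obtain ⟨g, hg, hge⟩ := mem_image.mp heB
    have l1 := mem_edges.mp (mem_filter.mp he).1
    have l2 := mem_edges.mp (mem_filter.mp hg).1
    rw [← hge] at l1
    exact absurd l1 l2.not_gt
  rw [h1, two_mul]
  nth_rewrite 2 [← hBc]
  rw [← card_union_of_disjoint hd]
  refine card_le_card ?_
  intro e he
  rw [mem_offDiag]
  rcases mem_union.mp he with h | h
  · obtain ⟨h2, h3, h4⟩ := mem_filter.mp h
    exact ⟨h3, h4, (mem_edges.mp h2).ne⟩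
  · obtain ⟨g, hg, hge⟩ := mem_image.mp h
    obtain ⟨h2, h3, h4⟩ := mem_filter.mp hg
    rw [← hge]
    exact ⟨h4, h3, (mem_edges.mp h2).ne'⟩

lemma matsk_succ (n m : ℕ) : (matsk n (m + 1)).card * ((m + 1) * 2) ≤
    (matsk n m).card * ((n - 2 * m) * (n - 2 * m - 1)) := by
  classical
  have key : (matsk n (m + 1)).card * (m + 1) ≤
      (matsk n m).card * ((n - 2 * m) * (n - 2 * m - 1) / 2) := by
    refine card_mul_le_card_mul (fun T S => S ⊆ T) ?_ ?_
    · intro T hT
      obtain ⟨h1, h2, h3⟩ := mem_matsk.mp hT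
      have hinj : Set.InjOn (fun e => T.erase e) (T : Set (Fin n × Fin n)) := by
        intro a ha b hb hab
        by_contra hne
        have : b ∈ T.erase a := mem_erase.mpr ⟨fun h => hne h.symm, hb⟩
        have h4 : b ∈ T.erase b := by
          have h5 : T.erase a = T.erase b := hab
          rwa [h5] at this
        exact notMem_erase _ _ h4
      rw [← h3, ← card_image_of_injOn hinj]
      refine card_le_card ?_
      intro S hS
      obtain ⟨e, he, hes⟩ := mem_image.mp hS
      have hsub : S ⊆ T := by rw [← hes]; exact erase_subset _ _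
      rw [mem_bipartiteAbove]
      refine ⟨mem_matsk.mpr ⟨hsub.trans h1, h2.mono hsub, ?_⟩, hsub⟩
      rw [← hes, card_erase_of_mem he, h3]
      simp
    · intro S hS
      obtain ⟨h1, h2, h3⟩ := mem_matsk.mp hS
      have hW : (vs S)ᶜ.card = n - 2 * m := by
        rw [card_compl, Fintype.card_fin, card_vs h2, h3]
      have hcl := card_lt_pairs (vs S)ᶜ
      rw [hW] at hcl
      have hsub : (matsk n (m + 1)).bipartiteBelow (fun T S => S ⊆ T) S ⊆
          ((edges n).filter fun e => e.1 ∈ (vs S)ᶜ ∧ e.2 ∈ (vs S)ᶜ).image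
            (fun e => insert e S) := by
        intro T hT
        obtain ⟨hT1, hT2⟩ := (mem_bipartiteBelow _).mp hT
        obtain ⟨g1, g2, g3⟩ := mem_matsk.mp hT1
        have hcard : (T \ S).card = 1 := by
          rw [card_sdiff_of_subset hT2, g3, h3]
          simp
        obtain ⟨e, he⟩ := card_eq_one.mp hcard
        have heT : e ∈ T \ S := by rw [he]; exact mem_singleton_self _
        obtain ⟨he1, he2⟩ := mem_sdiff.mp heT
        have hTi : insert e S = T := by
          have : T = S ∪ (T \ S) := by rw [union_sdiff_of_subset hT2]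
          rw [this, he, insert_eq, union_comm]
        have hmat : IsMat (insert e S) := by rw [hTi]; exact g2
        obtain ⟨hv1, hv2⟩ := IsMat.notMem he2 hmat
        rw [mem_image]
        exact ⟨e, mem_filter.mpr ⟨g1 he1, mem_compl.mpr hv1, mem_compl.mpr hv2⟩, hTi⟩
      calc _ ≤ _ := card_le_card hsub
        _ ≤ ((edges n).filter fun e => e.1 ∈ (vs S)ᶜ ∧ e.2 ∈ (vs S)ᶜ).card := card_image_le
        _ ≤ _ := by
          rw [Nat.le_div_iff_mul_le (by norm_num)]
          linarith
  calc (matsk n (m + 1)).card * ((m + 1) * 2) = (matsk n (m + 1)).card * (m + 1) * 2 := by ring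
    _ ≤ (matsk n m).card * ((n - 2 * m) * (n - 2 * m - 1) / 2) * 2 := by gcongr
    _ = (matsk n m).card * ((n - 2 * m) * (n - 2 * m - 1) / 2 * 2) := by ring
    _ ≤ _ := by
      exact Nat.mul_le_mul_left _ (Nat.div_mul_le_self _ _)

lemma card_matsk (n m : ℕ) (hm : 2 * m ≤ n) :
    (matsk n m).card * ((n - 2 * m).factorial * (2 ^ m * m.factorial)) ≤ n.factorial := by
  induction m with
  | zero =>
    simp only [mul_zero, Nat.sub_zero, pow_zero, Nat.factorial_zero, mul_one]
    have : (matsk n 0).card ≤ 1 := by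
      rw [card_le_one]
      intro a ha b hb
      have h1 := (mem_matsk.mp ha).2.2
      have h2 := (mem_matsk.mp hb).2.2
      rw [card_eq_zero.mp h1, card_eq_zero.mp h2]
    calc _ ≤ 1 * n.factorial := by gcongr
      _ = _ := one_mul _
  | succ m ih =>
    have ih' := ih (by omega)
    have hs := matsk_succ n m
    obtain ⟨k, hk⟩ : ∃ k, n - 2 * m = k + 2 := ⟨n - 2 * m - 2, by omega⟩
    have hk2 : n - 2 * (m + 1) = k := by omega
    rw [hk] at ih' hs
    rw [hk2]
    have hf : (k + 2).factorial = (k + 2) * ((k + 1) * k.factorial) := by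
      rw [Nat.factorial_succ, Nat.factorial_succ]
    rw [hf] at ih'
    have hk1 : k + 2 - 1 = k + 1 := by omega
    rw [hk1] at hs
    calc (matsk n (m + 1)).card * (k.factorial * (2 ^ (m + 1) * (m + 1).factorial))
        = ((matsk n (m + 1)).card * ((m + 1) * 2)) * (k.factorial * (2 ^ m * m.factorial)) := by
          rw [Nat.factorial_succ]; ring
      _ ≤ ((matsk n m).card * ((k + 2) * (k + 1))) * (k.factorial * (2 ^ m * m.factorial)) := by
          gcongr
      _ = (matsk n m).card * ((k + 2) * ((k + 1) * k.factorial) * (2 ^ m * m.factorial)) := by ring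
      _ ≤ n.factorial := ih'

/-- The sum over matchings. -/
lemma mats_sum_le (n : ℕ) {c : ℝ} (hc : 0 ≤ c) :
    ∑ S ∈ mats n, ((n - 2 * S.card).factorial : ℝ) * c ^ S.card ≤
      n.factorial * Real.exp (c / 2) := by
  classical
  have h1 : ∑ S ∈ mats n, ((n - 2 * S.card).factorial : ℝ) * c ^ S.card =
      ∑ m ∈ range (n + 1), ∑ S ∈ (mats n).filter (fun S => S.card = m),
        ((n - 2 * S.card).factorial : ℝ) * c ^ S.card := by
    rw [Finset.sum_fiberwise_of_maps_to]
    intro S hS
    rw [mem_range]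
    have h2 : S ∈ matsk n S.card := mem_filter.mpr ⟨hS, rfl⟩
    have := two_le_of_mem h2
    omega
  rw [h1]
  have h2 : ∀ m ∈ range (n + 1), ∑ S ∈ (mats n).filter (fun S => S.card = m),
        ((n - 2 * S.card).factorial : ℝ) * c ^ S.card ≤
      n.factorial * ((c / 2) ^ m / m.factorial) := by
    intro m _
    have h3 : ∑ S ∈ (mats n).filter (fun S => S.card = m),
        ((n - 2 * S.card).factorial : ℝ) * c ^ S.card =
        ((matsk n m).card : ℝ) * (((n - 2 * m).factorial : ℝ) * c ^ m) := by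
      rw [Finset.sum_congr rfl (g := fun _ => ((n - 2 * m).factorial : ℝ) * c ^ m)]
      · rw [sum_const, nsmul_eq_mul]
        rfl
      · intro S hS
        rw [(mem_filter.mp hS).2]
    rw [h3]
    rcases Nat.eq_zero_or_pos (matsk n m).card with h0 | h0
    · rw [h0]
      simp only [Nat.cast_zero, zero_mul]
      positivity
    · obtain ⟨S, hS⟩ := card_pos.mp h0
      have h4 := card_matsk n m (two_le_of_mem hS)
      have h5 : ((matsk n m).card : ℝ) * (((n - 2 * m).factorial : ℝ) *
          (2 ^ m * (m.factorial : ℝ))) ≤ n.factorial := by exact_mod_cast h4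
      have h6 : (0 : ℝ) < m.factorial := by positivity
      have h7 : (0 : ℝ) < 2 ^ m := by positivity
      rw [div_pow, mul_div_assoc', mul_div_assoc', le_div_iff₀ h6, le_div_iff₀ h7]
      calc _ = (((matsk n m).card : ℝ) * (((n - 2 * m).factorial : ℝ) *
          (2 ^ m * (m.factorial : ℝ)))) * c ^ m := by ring
        _ ≤ _ := by gcongr
  refine (Finset.sum_le_sum h2).trans ?_
  rw [← mul_sum]
  gcongr
  exact Real.sum_le_exp_of_nonneg (by positivity) _

end Pool.Agent.Helper44.Ball3
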