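import Mathlib
import Pool.Agent.Helper44.Ball3.Gram
import Pool.Agent.Helper44.Ball3.DPP
import Pool.Agent.Helper44.Ball3.Sphere

set_option autoImplicit false
set_option maxHeartbeats 4000000
set_option synthInstance.maxHeartbeats 400000

open MeasureTheory Set Real
open scoped InnerProductSpace ENNReal

namespace Pool.Agent.Helper44.Ball3

/-- First spinor coordinate. -/
noncomputable def al (w : E3) : ℂ := ((√((1 + w 2) / 2) : ℝ) : ℂ)

/-- Second spinor coordinate. -/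
noncomputable def be (w : E3) : ℂ := ((w 0 : ℂ) + (w 1 : ℂ) * Complex.I) / ((√(2 * (1 + w 2)) : ℝ) : ℂ)

/-- The weights. -/
noncomputable def cc (n : ℕ) (k : Fin n) : ℝ := √(n * ((n - 1).choose k.1 : ℝ))

/-- The vector field. -/
noncomputable def vv (n : ℕ) (w : E3) : EuclideanSpace ℂ (Fin n) :=
  WithLp.toLp 2 fun k => (cc n k : ℂ) * (be w ^ k.1 * al w ^ k.rev.1)

lemma measurable_al : Measurable al := by
  unfold al
  exact Complex.measurable_ofReal.comp (by fun_prop)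

lemma measurable_be : Measurable be := by
  unfold be
  have h1 : Measurable fun w : E3 => ((w 0 : ℝ) : ℂ) := Complex.measurable_ofReal.comp (by fun_prop)
  have h2 : Measurable fun w : E3 => ((w 1 : ℝ) : ℂ) := Complex.measurable_ofReal.comp (by fun_prop)
  have h3 : Measurable fun w : E3 => ((√(2 * (1 + w 2)) : ℝ) : ℂ) :=
    Complex.measurable_ofReal.comp (by fun_prop)
  exact (h1.add (h2.mul_const _)).div h3

lemma measurable_vv (n : ℕ) : Measurable (vv n) := by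
  unfold vv
  refine (WithLp.measurable_toLp 2 _).comp ?_
  refine measurable_pi_lambda _ fun k => ?_
  exact measurable_const.mul ((measurable_be.pow_const _).mul (measurable_al.pow_const _))

lemma cc_sq (n : ℕ) (k : Fin n) : cc n k ^ 2 = n * ((n - 1).choose k.1 : ℝ) := by
  unfold cc
  rw [sq_sqrt (by positivity)]

lemma norm_al_sq {w : E3} (hw : w ∈ Good) : ‖al w‖ ^ 2 = (1 + w 2) / 2 := by
  unfold al
  rw [Complex.norm_real, norm_eq_abs, sq_abs, sq_sqrt]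
  linarith [hw.2.1]

lemma good_sq {w : E3} (hw : w ∈ Good) : w 0 ^ 2 + w 1 ^ 2 + w 2 ^ 2 = 1 := by
  have h := EuclideanSpace.norm_sq_eq w
  rw [hw.1] at h
  simp only [Fin.sum_univ_three, norm_eq_abs, sq_abs] at h
  linarith

lemma norm_be_sq {w : E3} (hw : w ∈ Good) : ‖be w‖ ^ 2 = (1 - w 2) / 2 := by
  have h1 : 0 < 1 + w 2 := by linarith [hw.2.1]
  unfold be
  rw [norm_div, div_pow, Complex.norm_real, norm_eq_abs, sq_abs, sq_sqrt (by linarith),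
    ← Complex.normSq_eq_norm_sq, Complex.normSq_add_mul_I]
  have := good_sq hw
  have h2 : w 0 ^ 2 + w 1 ^ 2 = (1 - w 2) * (1 + w 2) := by linarith
  rw [h2]
  field_simp

lemma al_be {w : E3} (hw : w ∈ Good) : ‖be w‖ ^ 2 + ‖al w‖ ^ 2 = 1 := by
  rw [norm_be_sq hw, norm_al_sq hw]; ring

lemma dist_sq {w w' : E3} : ‖w - w'‖ ^ 2 =
    (w 0 - w' 0) ^ 2 + (w 1 - w' 1) ^ 2 + (w 2 - w' 2) ^ 2 := by
  rw [EuclideanSpace.norm_sq_eq]
  simp [Fin.sum_univ_three]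

lemma spin {w w' : E3} (hw : w ∈ Good) (hw' : w' ∈ Good) :
    ‖be w' * al w - be w * al w'‖ ^ 2 = ‖w - w'‖ ^ 2 / 4 := by
  have h1 : 0 < 1 + w 2 := by linarith [hw.2.1]
  have h1' : 0 < 1 + w' 2 := by linarith [hw'.2.1]
  set s := √((1 + w 2) / 2) with hs
  set s' := √((1 + w' 2) / 2) with hs'
  have hs0 : 0 < s := sqrt_pos.mpr (by linarith)
  have hs0' : 0 < s' := sqrt_pos.mpr (by linarith)
  have hs2 : s ^ 2 = (1 + w 2) / 2 := sq_sqrt (by linarith)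
  have hs2' : s' ^ 2 = (1 + w' 2) / 2 := sq_sqrt (by linarith)
  have e1 : √(2 * (1 + w 2)) = 2 * s := by
    rw [show 2 * (1 + w 2) = (2 * s) ^ 2 by rw [mul_pow, hs2]; ring, sqrt_sq (by positivity)]
  have e1' : √(2 * (1 + w' 2)) = 2 * s' := by
    rw [show 2 * (1 + w' 2) = (2 * s') ^ 2 by rw [mul_pow, hs2']; ring, sqrt_sq (by positivity)]
  have h3 : be w' * al w - be w * al w' =
      (((w' 0 * s ^ 2 - w 0 * s' ^ 2) / (2 * s * s') : ℝ) : ℂ) +
      (((w' 1 * s ^ 2 - w 1 * s' ^ 2) / (2 * s * s') : ℝ) : ℂ) * Complex.I := by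
    unfold be al
    rw [e1, e1', ← hs, ← hs']
    have hc : ((s : ℝ) : ℂ) ≠ 0 := by exact_mod_cast hs0.ne'
    have hc' : ((s' : ℝ) : ℂ) ≠ 0 := by exact_mod_cast hs0'.ne'
    push_cast
    field_simp
    ring
  rw [h3, ← Complex.normSq_eq_norm_sq, Complex.normSq_add_mul_I, div_pow, div_pow, hs2, hs2',
    mul_pow, mul_pow, hs2, hs2', dist_sq]
  have g := good_sq hw
  have g' := good_sq hw'
  have hA : w 0 ^ 2 + w 1 ^ 2 = (1 - w 2) * (1 + w 2) := by linarith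
  have hA' : w' 0 ^ 2 + w' 1 ^ 2 = (1 - w' 2) * (1 + w' 2) := by linarith
  have e : (w' 0 * (1 + w 2) - w 0 * (1 + w' 2)) ^ 2 + (w' 1 * (1 + w 2) - w 1 * (1 + w' 2)) ^ 2
      = (1 + w 2) * (1 + w' 2) *
        ((w 0 - w' 0) ^ 2 + (w 1 - w' 1) ^ 2 + (w 2 - w' 2) ^ 2) := by
    linear_combination ((1 + w' 2) ^ 2 - (1 + w 2) * (1 + w' 2)) * hA +
      ((1 + w 2) ^ 2 - (1 + w 2) * (1 + w' 2)) * hA'
  rw [← add_div, div_eq_iff (by positivity)]
  linear_combination e / 4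

lemma lagrange_id (a b c d : ℂ) :
    ‖(starRingEnd ℂ) b * d + (starRingEnd ℂ) a * c‖ ^ 2 + ‖d * a - b * c‖ ^ 2 =
      (‖b‖ ^ 2 + ‖a‖ ^ 2) * (‖d‖ ^ 2 + ‖c‖ ^ 2) := by
  have h : ∀ z : ℂ, ((‖z‖ ^ 2 : ℝ) : ℂ) = z * (starRingEnd ℂ) z := fun z => by
    rw [Complex.mul_conj, Complex.normSq_eq_norm_sq]
  have : (((‖(starRingEnd ℂ) b * d + (starRingEnd ℂ) a * c‖ ^ 2 + ‖d * a - b * c‖ ^ 2 : ℝ)) : ℂ) =
      (((‖b‖ ^ 2 + ‖a‖ ^ 2) * (‖d‖ ^ 2 + ‖c‖ ^ 2) : ℝ) : ℂ) := by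
    rw [Complex.ofReal_add, Complex.ofReal_mul, Complex.ofReal_add, Complex.ofReal_add]
    simp only [h, map_add, map_mul, map_sub, Complex.conj_conj]
    ring
  exact_mod_cast this

lemma inner_vv (n : ℕ) (w w' : E3) :
    ⟪vv n w, vv n w'⟫_ℂ =
      (n : ℂ) * ((starRingEnd ℂ) (be w) * be w' + (starRingEnd ℂ) (al w) * al w') ^ (n - 1) := by
  rcases Nat.eq_zero_or_pos n with h0 | h0
  · subst h0
    simp [PiLp.inner_apply]
  rw [add_pow, PiLp.inner_apply, Finset.mul_sum]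
  obtain ⟨m, rfl⟩ : ∃ m, n = m + 1 := ⟨n - 1, by omega⟩
  rw [Nat.add_sub_cancel, Finset.sum_range]
  refine Finset.sum_congr rfl fun k _ => ?_
  have h1 : ((cc (m + 1) k : ℝ) : ℂ) * ((cc (m + 1) k : ℝ) : ℂ) =
      ((m + 1 : ℕ) : ℂ) * ((m.choose k.1 : ℕ) : ℂ) := by
    have := cc_sq (m + 1) k
    rw [sq] at this
    rw [← Complex.ofReal_mul, this]
    push_cast
    rfl
  have h2 : (k.rev : ℕ) = m - k.1 := by
    rw [Fin.val_rev]; omega
  simp only [vv, RCLike.inner_apply, map_mul, map_pow, Complex.conj_ofReal, h2]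
  calc _ = (((cc (m + 1) k : ℝ) : ℂ) * ((cc (m + 1) k : ℝ) : ℂ)) *
        (((starRingEnd ℂ) (be w) * be w') ^ k.1 * ((starRingEnd ℂ) (al w) * al w') ^ (m - k.1)) := by
        rw [mul_pow, mul_pow]; ring
    _ = _ := by rw [h1]; ring

lemma norm_vv_sq {n : ℕ} {w : E3} (hw : w ∈ Good) : ‖vv n w‖ ^ 2 = n := by
  have h := inner_vv n w w
  have h2 : (starRingEnd ℂ) (be w) * be w + (starRingEnd ℂ) (al w) * al w = 1 := by
    have h3 : ∀ z : ℂ, (starRingEnd ℂ) z * z = ((‖z‖ ^ 2 : ℝ) : ℂ) := fun z => by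
      rw [mul_comm, Complex.mul_conj, Complex.normSq_eq_norm_sq]
    rw [h3, h3, ← Complex.ofReal_add, al_be hw, Complex.ofReal_one]
  rw [h2, one_pow, mul_one, inner_self_eq_norm_sq_to_K] at h
  have h4 : ((‖vv n w‖ ^ 2 : ℝ) : ℂ) = ((n : ℝ) : ℂ) := by
    rw [Complex.ofReal_natCast, ← h]
    push_cast
    rfl
  exact Complex.ofReal_injective h4

lemma norm_inner_vv_sq {n : ℕ} {w w' : E3} (hw : w ∈ Good) (hw' : w' ∈ Good) :
    ‖⟪vv n w, vv n w'⟫_ℂ‖ ^ 2 = n ^ 2 * (1 - ‖w - w'‖ ^ 2 / 4) ^ (n - 1) := by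
  rw [inner_vv, norm_mul, norm_pow, mul_pow, ← pow_mul, mul_comm (n - 1) 2, pow_mul]
  have h1 := lagrange_id (al w) (be w) (al w') (be w')
  rw [al_be hw, al_be hw', spin hw hw'] at h1
  have h2 : ‖(starRingEnd ℂ) (be w) * be w' + (starRingEnd ℂ) (al w) * al w'‖ ^ 2 =
      1 - ‖w - w'‖ ^ 2 / 4 := by linarith
  rw [h2]
  simp

lemma D2_vv {n : ℕ} {w w' : E3} (hw : w ∈ Good) (hw' : w' ∈ Good) :
    D2 (vv n) w w' = ENNReal.ofReal (n ^ 2 * (1 - (1 - ‖w - w'‖ ^ 2 / 4) ^ (n - 1))) := by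
  unfold D2
  rw [norm_vv_sq hw, norm_vv_sq hw', norm_inner_vv_sq hw hw']
  congr 1
  ring

lemma gd_vv {n : ℕ} {w : Fin n → E3} (hw : ∀ i, w i ∈ Good) :
    gd (fun i => vv n (w i)) = (∏ k : Fin n, cc n k ^ 2) *
      ∏ i : Fin n, ∏ j ∈ Finset.Ioi i, ‖w j - w i‖ ^ 2 / 4 := by
  set M : Matrix (Fin n) (Fin n) ℂ := Matrix.projVandermonde (fun i => be (w i)) (fun i => al (w i))
    with hM
  set Dg : Matrix (Fin n) (Fin n) ℂ := Matrix.diagonal fun k => ((cc n k : ℝ) : ℂ) with hD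
  have h1 : Matrix.gram ℂ (fun i => vv n (w i)) =
      (M.map (starRingEnd ℂ)) * Dg * Dg * M.transpose := by
    ext i j
    rw [Matrix.gram_apply, Matrix.mul_apply, PiLp.inner_apply]
    refine Finset.sum_congr rfl fun k _ => ?_
    rw [Matrix.mul_diagonal, Matrix.mul_diagonal]
    simp only [vv, RCLike.inner_apply, map_mul, map_pow, Complex.conj_ofReal, Matrix.map_apply,
      Matrix.transpose_apply, hM, Matrix.projVandermonde_apply]
    ring
  have h2 : (M.map (starRingEnd ℂ)).det = (starRingEnd ℂ) M.det := by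
    rw [RingHom.map_det]
    rfl
  have h3 : Dg.det = ((∏ k, cc n k : ℝ) : ℂ) := by
    rw [hD, Matrix.det_diagonal]
    push_cast
    rfl
  have h4 : M.det = ∏ i : Fin n, ∏ j ∈ Finset.Ioi i,
      (be (w j) * al (w i) - be (w i) * al (w j)) := by
    rw [hM, Matrix.det_projVandermonde]
  have h5 : ‖M.det‖ ^ 2 = ∏ i : Fin n, ∏ j ∈ Finset.Ioi i, ‖w j - w i‖ ^ 2 / 4 := by
    rw [h4, norm_prod, ← Finset.prod_pow]
    refine Finset.prod_congr rfl fun i _ => ?_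
    rw [norm_prod, ← Finset.prod_pow]
    refine Finset.prod_congr rfl fun j _ => ?_
    rw [spin (hw i) (hw j), norm_sub_rev]
  unfold gd
  rw [h1, Matrix.det_mul, Matrix.det_mul, Matrix.det_mul, Matrix.det_transpose, h2, h3]
  have h6 : (starRingEnd ℂ) M.det * ((∏ k, cc n k : ℝ) : ℂ) * ((∏ k, cc n k : ℝ) : ℂ) * M.det =
      (((∏ k, cc n k ^ 2) * ‖M.det‖ ^ 2 : ℝ) : ℂ) := by
    have : (((‖M.det‖ ^ 2 : ℝ)) : ℂ) = M.det * (starRingEnd ℂ) M.det := by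
      rw [Complex.mul_conj, Complex.normSq_eq_norm_sq]
    rw [Complex.ofReal_mul, this, Finset.prod_pow]
    push_cast
    ring
  rw [h6, Complex.ofReal_re, h5]

end Pool.Agent.Helper44.Ball3
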