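import Mathlib
import Pool.Agent.Helper44.Ball3.Vand
import Pool.Agent.Helper44.Ball3.Calc

set_option autoImplicit false
set_option maxHeartbeats 4000000
set_option synthInstance.maxHeartbeats 400000

open MeasureTheory Set Real
open scoped InnerProductSpace ENNReal

namespace Pool.Agent.Helper44.Ball3

lemma al_PP (t φ : ℝ) : al (PP (t, φ)) = ((√((1 + t) / 2) : ℝ) : ℂ) := rfl

lemma be_PP {t : ℝ} (ht : t ∈ Ioo (-1 : ℝ) 1) (φ : ℝ) :
    be (PP (t, φ)) = ((√((1 - t) / 2) : ℝ) : ℂ) * Complex.exp (φ * Complex.I) := by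
  have h1 : 0 < 1 + t := by linarith [ht.1]
  have h2 : 0 < 1 - t := by linarith [ht.2]
  have e0 : (PP (t, φ)) 0 = √(1 - t ^ 2) * cos φ := rfl
  have e1 : (PP (t, φ)) 1 = √(1 - t ^ 2) * sin φ := rfl
  have e2 : (PP (t, φ)) 2 = t := rfl
  have e3 : √(1 - t ^ 2) = √(2 * (1 + t)) * √((1 - t) / 2) := by
    rw [← sqrt_mul (by positivity)]
    congr 1
    ring
  have h3 : ((√(2 * (1 + t)) : ℝ) : ℂ) ≠ 0 := by
    have : √(2 * (1 + t)) ≠ 0 := (sqrt_pos.mpr (by positivity)).ne'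
    exact_mod_cast this
  unfold be
  rw [e0, e1, e2, e3, Complex.exp_mul_I, div_eq_iff h3]
  push_cast
  ring

lemma isotropic_vv (n : ℕ) : Isotropic sig (vv n) := by
  intro u
  have hm : Measurable fun w : E3 => ENNReal.ofReal (‖⟪u, vv n w⟫_ℂ‖ ^ 2) :=
    ENNReal.measurable_ofReal.comp ((measurable_const.inner (measurable_vv n)).norm.pow_const 2)
  rw [lintegral_sig hm]
  set g : ℝ → Fin n → ℂ := fun t k => (starRingEnd ℂ) (u k) * ((cc n k : ℝ) : ℂ) *
    (((√((1 - t) / 2) : ℝ) : ℂ) ^ k.1 * ((√((1 + t) / 2) : ℝ) : ℂ) ^ k.rev.1) with hg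
  have e1 : ∀ t ∈ Ioo (-1 : ℝ) 1, ∀ φ : ℝ, ⟪u, vv n (PP (t, φ))⟫_ℂ =
      ∑ k, g t k * Complex.exp ((k.1 : ℂ) * φ * Complex.I) := by
    intro t ht φ
    rw [PiLp.inner_apply]
    refine Finset.sum_congr rfl fun k _ => ?_
    simp only [vv, RCLike.inner_apply, al_PP, be_PP ht, hg]
    rw [mul_pow, ← Complex.exp_nat_mul, show (k.1 : ℂ) * (φ * Complex.I) =
      (k.1 : ℂ) * φ * Complex.I by ring]
    ring
  have e2 : ∀ t ∈ Ioo (-1 : ℝ) 1, ∫⁻ φ in Ioo (-π) π,
      ENNReal.ofReal (‖⟪u, vv n (PP (t, φ))⟫_ℂ‖ ^ 2) =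
      ENNReal.ofReal (2 * π * ∑ k, ‖g t k‖ ^ 2) := by
    intro t ht
    simp only [e1 t ht]
    rw [← parseval_trig, intervalIntegral.integral_of_le (by linarith [pi_pos]),
      integral_Ioc_eq_integral_Ioo, ofReal_integral_eq_lintegral_ofReal]
    · exact (Continuous.integrableOn_Icc (by fun_prop)).mono_set Ioo_subset_Icc_self
    · exact ae_of_all _ fun φ => sq_nonneg _
  rw [setLIntegral_congr_fun measurableSet_Ioo e2]
  have e3 : ∀ t ∈ Ioo (-1 : ℝ) 1, ENNReal.ofReal (2 * π * ∑ k, ‖g t k‖ ^ 2) =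
      ENNReal.ofReal (2 * π * ∑ k, (‖u k‖ ^ 2 * cc n k ^ 2) *
        (((1 - t) / 2) ^ k.1 * ((1 + t) / 2) ^ k.rev.1)) := by
    intro t ht
    congr 2
    refine Finset.sum_congr rfl fun k _ => ?_
    simp only [hg]
    have q1 : (√((1 - t) / 2) ^ k.1) ^ 2 = ((1 - t) / 2) ^ k.1 := by
      rw [pow_right_comm, sq_sqrt (by linarith [ht.2])]
    have q2 : (√((1 + t) / 2) ^ k.rev.1) ^ 2 = ((1 + t) / 2) ^ k.rev.1 := by
      rw [pow_right_comm, sq_sqrt (by linarith [ht.1])]
    rw [norm_mul, norm_mul, norm_mul, norm_pow, norm_pow, Complex.norm_real, Complex.norm_real,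
      Complex.norm_real, RCLike.norm_conj, mul_pow, mul_pow, mul_pow,
      norm_of_nonneg (sqrt_nonneg _), norm_of_nonneg (sqrt_nonneg _), norm_eq_abs, sq_abs, q1, q2]
  rw [setLIntegral_congr_fun measurableSet_Ioo e3, ← ofReal_integral_eq_lintegral_ofReal,
    ← integral_Ioc_eq_integral_Ioo, ← intervalIntegral.integral_of_le (by norm_num),
    intervalIntegral.integral_const_mul, intervalIntegral.integral_finsetSum,
    ← ENNReal.ofReal_mul (by positivity)]
  · congr 1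
    have e4 : ∀ k : Fin n, ∫ t in (-1 : ℝ)..1, (‖u k‖ ^ 2 * cc n k ^ 2) *
        (((1 - t) / 2) ^ k.1 * ((1 + t) / 2) ^ k.rev.1) = 2 * ‖u k‖ ^ 2 := by
      intro k
      rw [intervalIntegral.integral_const_mul, beta_sym, cc_sq]
      have hn : k.1 < n := k.2
      have h1 : (k.rev : ℕ) = n - 1 - k.1 := by rw [Fin.val_rev]; omega
      have h2 : k.1 + (n - 1 - k.1) + 1 = n := by omega
      have h3 := Nat.choose_mul_factorial_mul_factorial (show k.1 ≤ n - 1 by omega)
      have h4 : n.factorial = n * (n - 1).factorial := (Nat.mul_factorial_pred (by omega)).symm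
      rw [h1, h2, h4, ← h3]
      have h5 : (k.1.factorial : ℝ) ≠ 0 := by positivity
      have h6 : ((n - 1 - k.1).factorial : ℝ) ≠ 0 := by positivity
      have h7 : ((n - 1).choose k.1 : ℝ) ≠ 0 := by
        have := Nat.choose_pos (show k.1 ≤ n - 1 by omega)
        positivity
      have h8 : (n : ℝ) ≠ 0 := by
        have : 0 < n := by omega
        positivity
      push_cast
      field_simp
    simp only [e4]
    rw [← Finset.mul_sum, EuclideanSpace.norm_sq_eq]
    field_simp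
    ring
  · intro k _
    exact Continuous.intervalIntegrable (by fun_prop) _ _
  · exact (Continuous.integrableOn_Icc (by fun_prop)).mono_set Ioo_subset_Icc_self
  · rw [Filter.EventuallyLE, ae_restrict_iff' measurableSet_Ioo]
    refine ae_of_all _ fun t ht => ?_
    have h1 : 0 ≤ (1 + t) / 2 := by linarith [ht.1]
    have h2 : 0 ≤ (1 - t) / 2 := by linarith [ht.2]
    simp only [Pi.zero_apply]
    positivity

end Pool.Agent.Helper44.Ball3
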