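import Mathlib
import Pool.Agent.Helper44.Ball3.Smooth
import Pool.Agent.Helper44.Ball3.Calc

set_option autoImplicit false
set_option maxHeartbeats 4000000
set_option synthInstance.maxHeartbeats 400000

open MeasureTheory Set Real
open scoped ENNReal

namespace Pool.Agent.Helper44.Ball3

/-- The radial law. -/
noncomputable def rho (n : ℕ) : Measure ℝ :=
  (volume.restrict (Ioo (0 : ℝ) 1)).withDensity fun r => ENNReal.ofReal (((n : ℝ) + 2) * r ^ (n + 1))

lemma lintegral_rho (n : ℕ) {g : ℝ → ℝ≥0∞} (hg : Measurable g) :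
    ∫⁻ r, g r ∂(rho n) =
      ∫⁻ r in Ioo (0 : ℝ) 1, ENNReal.ofReal (((n : ℝ) + 2) * r ^ (n + 1)) * g r := by
  unfold rho
  rw [lintegral_withDensity_eq_lintegral_mul _ (by fun_prop) hg]
  rfl

lemma rho_ae (n : ℕ) : ∀ᵐ r ∂(rho n), r ∈ Ioo (0 : ℝ) 1 := by
  unfold rho
  refine (withDensity_absolutelyContinuous _ _).ae_le ?_
  exact ae_restrict_mem measurableSet_Ioo

lemma beta_scaled (n a b : ℕ) :
    ∫⁻ x in Ioo (0 : ℝ) 1, ENNReal.ofReal (((n : ℝ) + 2) * (x ^ a * (1 - x) ^ b)) =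
    ENNReal.ofReal (((n : ℝ) + 2) *
      ((a.factorial * b.factorial : ℝ) / ((a + b + 1).factorial : ℝ))) := by
  have h : ∀ x : ℝ, ENNReal.ofReal (((n : ℝ) + 2) * (x ^ a * (1 - x) ^ b)) =
      ENNReal.ofReal ((n : ℝ) + 2) * ENNReal.ofReal (x ^ a * (1 - x) ^ b) := fun x =>
    ENNReal.ofReal_mul (by positivity)
  simp only [h]
  rw [lintegral_const_mul _ (by fun_prop), lintegral_beta, ← ENNReal.ofReal_mul (by positivity)]

instance (n : ℕ) : IsProbabilityMeasure (rho n) := by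
  constructor
  have h := lintegral_rho n (g := fun _ => 1) measurable_const
  rw [lintegral_const, one_mul] at h
  rw [h]
  have h2 := beta_scaled n (n + 1) 0
  simp only [pow_zero, mul_one, Nat.factorial_zero, Nat.cast_one, add_zero] at h2
  simp only [mul_one]
  rw [h2, Nat.factorial_succ (n + 1)]
  have h3 : ((n + 1).factorial : ℝ) ≠ 0 := by positivity
  have : ((n : ℝ) + 2) * (((n + 1).factorial : ℝ) / (((n + 1 + 1) * (n + 1).factorial : ℕ) : ℝ)) =
      1 := by
    push_cast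
    field_simp
    ring
  rw [this, ENNReal.ofReal_one]

lemma measurable_pp : Measurable pp := by unfold pp; fun_prop

lemma measurable_Lam : Measurable Lam := by
  unfold Lam
  have := measurable_pp
  fun_prop

lemma E_pp (n : ℕ) : ∫⁻ r, ENNReal.ofReal (pp r) ∂(rho n) =
    ENNReal.ofReal (1 / (2 * ((n : ℝ) + 1) * ((n : ℝ) + 3))) := by
  rw [lintegral_rho n (measurable_pp.ennreal_ofReal)]
  have h1 : ∀ r ∈ Ioo (0 : ℝ) 1, ENNReal.ofReal (((n : ℝ) + 2) * r ^ (n + 1)) *
      ENNReal.ofReal (pp r) = ENNReal.ofReal (1 / 4) *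
        ENNReal.ofReal (((n : ℝ) + 2) * (r ^ n * (1 - r) ^ 2)) := by
    intro r hr
    have h0 := hr.1
    rw [← ENNReal.ofReal_mul (by positivity), ← ENNReal.ofReal_mul (by norm_num)]
    congr 1
    unfold pp
    rw [pow_succ]
    field_simp
  rw [setLIntegral_congr_fun measurableSet_Ioo h1, lintegral_const_mul _ (by fun_prop),
    beta_scaled, ← ENNReal.ofReal_mul (by norm_num)]
  congr 1
  rw [show n + 2 + 1 = (n + 1 + 1) + 1 by ring, Nat.factorial_succ (n + 1 + 1),
    Nat.factorial_succ (n + 1), Nat.factorial_succ n]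
  have h3 : (n.factorial : ℝ) ≠ 0 := by positivity
  push_cast
  field_simp
  norm_num [Nat.factorial]
  ring

lemma E_pp_sq (n : ℕ) (hn : 1 ≤ n) : ∫⁻ r, ENNReal.ofReal (pp r ^ 2) ∂(rho n) ≤
    ENNReal.ofReal (2 / (n : ℝ) ^ 4) := by
  rw [lintegral_rho n ((measurable_pp.pow_const 2).ennreal_ofReal)]
  obtain ⟨m, rfl⟩ : ∃ m, n = m + 1 := ⟨n - 1, by omega⟩
  have h1 : ∀ r ∈ Ioo (0 : ℝ) 1, ENNReal.ofReal ((((m + 1 : ℕ) : ℝ) + 2) * r ^ (m + 1 + 1)) *
      ENNReal.ofReal (pp r ^ 2) = ENNReal.ofReal (1 / 16) *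
        ENNReal.ofReal ((((m + 1 : ℕ) : ℝ) + 2) * (r ^ m * (1 - r) ^ 4)) := by
    intro r hr
    have h0 := hr.1
    rw [← ENNReal.ofReal_mul (by positivity), ← ENNReal.ofReal_mul (by norm_num)]
    congr 1
    unfold pp
    rw [pow_succ, pow_succ]
    field_simp
    ring
  rw [setLIntegral_congr_fun measurableSet_Ioo h1, lintegral_const_mul _ (by fun_prop),
    beta_scaled, ← ENNReal.ofReal_mul (by norm_num)]
  refine ENNReal.ofReal_le_ofReal ?_
  have h3 : (m.factorial : ℝ) ≠ 0 := by positivity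
  have e : (1 / 16 : ℝ) * ((((m + 1 : ℕ) : ℝ) + 2) * ((m.factorial * (4 : ℕ).factorial : ℝ) /
      ((m + 4 + 1).factorial : ℝ))) =
      3 / 2 / (((m : ℝ) + 1) * ((m : ℝ) + 2) * ((m : ℝ) + 4) * ((m : ℝ) + 5)) := by
    rw [show m + 4 + 1 = ((((m + 1) + 1) + 1) + 1) + 1 by ring]
    rw [Nat.factorial_succ (m + 1 + 1 + 1 + 1), Nat.factorial_succ (m + 1 + 1 + 1),
      Nat.factorial_succ (m + 1 + 1), Nat.factorial_succ (m + 1), Nat.factorial_succ m]
    push_cast
    field_simp
    norm_num [Nat.factorial]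
    ring
  rw [e]
  push_cast
  rw [div_le_div_iff₀ (by positivity) (by positivity)]
  have hm : (0 : ℝ) ≤ m := by positivity
  nlinarith [mul_nonneg hm hm, mul_nonneg (mul_nonneg hm hm) hm,
    mul_nonneg (mul_nonneg hm hm) (mul_nonneg hm hm)]

/-- Exact mean radial gap. -/
lemma E_bb (n : ℕ) : ∫⁻ r, ∫⁻ s, ENNReal.ofReal (bb r s) ∂(rho n) ∂(rho n) =
    ENNReal.ofReal (2 / (((n : ℝ) + 1) * ((n : ℝ) + 3))) := by
  have hmb : ∀ r, Measurable fun s => ENNReal.ofReal (bb r s) := fun r => by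
    unfold bb; fun_prop
  have inner : ∀ r ∈ Ioo (0 : ℝ) 1, ∫⁻ s, ENNReal.ofReal (bb r s) ∂(rho n) =
      ENNReal.ofReal (((n : ℝ) + 2) / ((n : ℝ) + 1) * r - 2 +
        ((n : ℝ) + 2) / (((n : ℝ) + 3) * r)) := by
    intro r hr
    have hr0 := hr.1
    rw [lintegral_rho n (hmb r)]
    have h1 : ∀ s ∈ Ioo (0 : ℝ) 1, ENNReal.ofReal (((n : ℝ) + 2) * s ^ (n + 1)) *
        ENNReal.ofReal (bb r s) = ENNReal.ofReal (((n : ℝ) + 2) *
          (r * s ^ n - 2 * s ^ (n + 1) + s ^ (n + 2) / r)) := by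
      intro s hs
      have h0 := hs.1
      rw [← ENNReal.ofReal_mul (by positivity)]
      congr 1
      unfold bb
      rw [pow_succ, pow_succ, pow_succ]
      field_simp
      ring
    rw [setLIntegral_congr_fun measurableSet_Ioo h1, ← ofReal_integral_eq_lintegral_ofReal,
      ← integral_Ioc_eq_integral_Ioo, ← intervalIntegral.integral_of_le zero_le_one]
    · congr 1
      rw [intervalIntegral.integral_const_mul, intervalIntegral.integral_add,
        intervalIntegral.integral_sub, intervalIntegral.integral_const_mul,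
        intervalIntegral.integral_const_mul, intervalIntegral.integral_div, integral_pow,
        integral_pow, integral_pow]
      · have hn1 : ((n : ℝ) + 1) ≠ 0 := by positivity
        have hn2 : ((n : ℝ) + 2) ≠ 0 := by positivity
        have hn3 : ((n : ℝ) + 3) ≠ 0 := by positivity
        push_cast
        rw [show (n : ℝ) + 1 + 1 = (n : ℝ) + 2 by ring, show (n : ℝ) + 2 + 1 = (n : ℝ) + 3 by ring]
        field_simp
        simp
        ring
      all_goals exact Continuous.intervalIntegrable (by fun_prop) _ _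
    · exact (Continuous.integrableOn_Icc (by fun_prop)).mono_set Ioo_subset_Icc_self
    · rw [Filter.EventuallyLE, ae_restrict_iff' measurableSet_Ioo]
      refine ae_of_all _ fun s hs => ?_
      have h0 := hs.1
      have h5 : ((n : ℝ) + 2) * (r * s ^ n - 2 * s ^ (n + 1) + s ^ (n + 2) / r) =
          ((n : ℝ) + 2) * s ^ n * (r - s) ^ 2 / r := by
        rw [pow_succ, pow_succ]
        field_simp
        ring
      simp only [Pi.zero_apply]
      rw [h5]
      positivity
  have hinner : ∀ᵐ r ∂(rho n), ∫⁻ s, ENNReal.ofReal (bb r s) ∂(rho n) =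
      ENNReal.ofReal (((n : ℝ) + 2) / ((n : ℝ) + 1) * r - 2 +
        ((n : ℝ) + 2) / (((n : ℝ) + 3) * r)) := by
    filter_upwards [rho_ae n] with r hr
    exact inner r hr
  rw [lintegral_congr_ae hinner, lintegral_rho n (by fun_prop)]
  have h2 : ∀ r ∈ Ioo (0 : ℝ) 1, ENNReal.ofReal (((n : ℝ) + 2) * r ^ (n + 1)) *
      ENNReal.ofReal (((n : ℝ) + 2) / ((n : ℝ) + 1) * r - 2 +
        ((n : ℝ) + 2) / (((n : ℝ) + 3) * r)) =
      ENNReal.ofReal (((n : ℝ) + 2) * (((n : ℝ) + 2) / ((n : ℝ) + 1) * r ^ (n + 2) -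
        2 * r ^ (n + 1) + ((n : ℝ) + 2) / ((n : ℝ) + 3) * r ^ n)) := by
    intro r hr
    have h0 := hr.1
    rw [← ENNReal.ofReal_mul (by positivity)]
    congr 1
    rw [pow_succ, pow_succ]
    field_simp
    ring
  rw [setLIntegral_congr_fun measurableSet_Ioo h2, ← ofReal_integral_eq_lintegral_ofReal,
      ← integral_Ioc_eq_integral_Ioo, ← intervalIntegral.integral_of_le zero_le_one]
  · congr 1
    rw [intervalIntegral.integral_const_mul, intervalIntegral.integral_add,
      intervalIntegral.integral_sub, intervalIntegral.integral_const_mul,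
      intervalIntegral.integral_const_mul, intervalIntegral.integral_const_mul, integral_pow,
      integral_pow, integral_pow]
    · have hn1 : ((n : ℝ) + 1) ≠ 0 := by positivity
      have hn2 : ((n : ℝ) + 2) ≠ 0 := by positivity
      have hn3 : ((n : ℝ) + 3) ≠ 0 := by positivity
      push_cast
      rw [show (n : ℝ) + 1 + 1 = (n : ℝ) + 2 by ring, show (n : ℝ) + 2 + 1 = (n : ℝ) + 3 by ring]
      field_simp
      simp
      ring
    all_goals exact Continuous.intervalIntegrable (by fun_prop) _ _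
  · exact (Continuous.integrableOn_Icc (by fun_prop)).mono_set Ioo_subset_Icc_self
  · rw [Filter.EventuallyLE, ae_restrict_iff' measurableSet_Ioo]
    refine ae_of_all _ fun r hr => ?_
    have h0 := hr.1
    have hn1 : (0 : ℝ) < (n : ℝ) + 1 := by positivity
    have hn3 : (0 : ℝ) < (n : ℝ) + 3 := by positivity
    simp only [Pi.zero_apply]
    have h5 : ((n : ℝ) + 2) / ((n : ℝ) + 1) * r ^ (n + 2) -
        2 * r ^ (n + 1) + ((n : ℝ) + 2) / ((n : ℝ) + 3) * r ^ n =
        r ^ n * ((((n : ℝ) + 3) * ((n : ℝ) + 2) * r ^ 2 - 2 * ((n : ℝ) + 1) * ((n : ℝ) + 3) * r +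
          ((n : ℝ) + 2) * ((n : ℝ) + 1)) / (((n : ℝ) + 1) * ((n : ℝ) + 3))) := by
      rw [pow_succ, pow_succ]
      field_simp
    rw [h5]
    have h6 : 0 ≤ ((n : ℝ) + 3) * ((n : ℝ) + 2) * r ^ 2 - 2 * ((n : ℝ) + 1) * ((n : ℝ) + 3) * r +
          ((n : ℝ) + 2) * ((n : ℝ) + 1) := by
      nlinarith [sq_nonneg (((n : ℝ) + 2) * r - ((n : ℝ) + 1)), h0, hn1]
    positivity

end Pool.Agent.Helper44.Ball3
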