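import Mathlib
import Pool.Agent.Helper44.Ball3.Est

set_option autoImplicit false
set_option maxHeartbeats 4000000
set_option synthInstance.maxHeartbeats 400000

open MeasureTheory Set Real
open scoped ENNReal

namespace Pool.Agent.Helper44.Ball3

lemma log_ratio_le {r : ℝ} (hr : r ∈ Ico (0 : ℝ) 1) :
    log (1 + r) - log (1 - r) ≤ (2 * r - 4 / 3 * r ^ 3) / (1 - r ^ 2) := by
  set k : ℝ → ℝ := fun r => (2 * r - 4 / 3 * r ^ 3) / (1 - r ^ 2) - log (1 + r) + log (1 - r)
    with hk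
  have hd : ∀ x ∈ Ico (0 : ℝ) 1, HasDerivAt k (4 / 3 * x ^ 4 / (1 - x ^ 2) ^ 2) x := by
    intro x hx
    have h1 : 0 < 1 - x ^ 2 := by nlinarith [hx.1, hx.2]
    have h2 : 0 < 1 + x := by linarith [hx.1]
    have h3 : 0 < 1 - x := by linarith [hx.2]
    have d1 : HasDerivAt (fun x : ℝ => 2 * x - 4 / 3 * x ^ 3) (2 - 4 * x ^ 2) x := by
      have a1 := (hasDerivAt_id x).const_mul 2
      have a2 := (hasDerivAt_pow 3 x).const_mul (4 / 3)
      refine (a1.sub a2).congr_deriv ?_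
      norm_num
      ring
    have d2 : HasDerivAt (fun x : ℝ => 1 - x ^ 2) (-(2 * x)) x := by
      have a2 := (hasDerivAt_pow 2 x).const_sub 1
      refine a2.congr_deriv ?_
      norm_num
    have d3 : HasDerivAt (fun x : ℝ => log (1 + x)) (1 / (1 + x)) x := by
      have a1 : HasDerivAt (fun x : ℝ => 1 + x) 1 x := (hasDerivAt_id x).const_add 1
      exact a1.log h2.ne'
    have d4 : HasDerivAt (fun x : ℝ => log (1 - x)) (-1 / (1 - x)) x := by
      have a1 : HasDerivAt (fun x : ℝ => 1 - x) (-1) x := (hasDerivAt_id x).const_sub 1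
      exact a1.log h3.ne'
    have d5 := ((d1.fun_div d2 h1.ne').sub d3).add d4
    refine d5.congr_deriv ?_
    have h4 : 1 - x ^ 2 = (1 - x) * (1 + x) := by ring
    rw [h4]
    field_simp
    ring
  have hmono : MonotoneOn k (Ico 0 1) := by
    refine monotoneOn_of_deriv_nonneg (convex_Ico 0 1)
      (fun x hx => (hd x hx).continuousAt.continuousWithinAt) ?_ ?_
    · intro x hx
      rw [interior_Ico] at hx
      exact (hd x ⟨hx.1.le, hx.2⟩).differentiableAt.differentiableWithinAt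
    · intro x hx
      rw [interior_Ico] at hx
      rw [(hd x ⟨hx.1.le, hx.2⟩).deriv]
      positivity
  have h0 : k 0 = 0 := by simp [hk]
  have h1 := hmono (show (0 : ℝ) ∈ Ico (0 : ℝ) 1 from ⟨le_rfl, zero_lt_one⟩) hr hr.1
  rw [h0] at h1
  simp only [hk] at h1
  linarith

lemma log_pp_diff {r : ℝ} (hr : r ∈ Ioo (0 : ℝ) 1) :
    log (1 + pp r) - log (pp r) = 2 * (log (1 + r) - log (1 - r)) := by
  have h1 := hr.1
  have h2 : 0 < 1 - r := by linarith [hr.2]
  have h3 : 0 < 1 + r := by linarith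
  unfold pp
  rw [show 1 + (1 - r) ^ 2 / (4 * r) = (1 + r) ^ 2 / (4 * r) by field_simp; ring,
    log_div (by positivity) (by positivity), log_div (by positivity) (by positivity), log_pow,
    log_pow]
  norm_num
  ring

lemma hasDerivAt_pp {r : ℝ} (hr : 0 < r) : HasDerivAt pp (-(1 - r ^ 2) / (4 * r ^ 2)) r := by
  unfold pp
  have a1 : HasDerivAt (fun r : ℝ => (1 - r) ^ 2) (-(2 * (1 - r))) r := by
    have a0 : HasDerivAt (fun r : ℝ => 1 - r) (-1) r := (hasDerivAt_id r).const_sub 1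
    refine (a0.fun_pow 2).congr_deriv ?_
    norm_num
  have a2 : HasDerivAt (fun r : ℝ => 4 * r) 4 r := by
    simpa using (hasDerivAt_id r).const_mul 4
  refine (a1.fun_div a2 (by positivity)).congr_deriv ?_
  field_simp
  ring

lemma hasDerivAt_Lam {r : ℝ} (hr : r ∈ Ioo (0 : ℝ) 1) :
    HasDerivAt Lam (-(1 - r ^ 2) / (4 * r ^ 2) * (log (1 + pp r) - log (pp r))) r := by
  have hp := pp_pos hr
  have d0 := hasDerivAt_pp hr.1
  have d1 : HasDerivAt (fun r => 1 + pp r) (-(1 - r ^ 2) / (4 * r ^ 2)) r := d0.const_add 1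
  have e1 := (hasDerivAt_mul_log (show 1 + pp r ≠ 0 by linarith)).comp r d1
  have e2 := (hasDerivAt_mul_log hp.ne').comp r d0
  have e3 := e1.sub e2
  have : Lam = (fun x : ℝ => x * log x) ∘ (fun r => 1 + pp r) - (fun x : ℝ => x * log x) ∘ pp := by
    funext r
    simp [Lam]
  rw [this]
  refine e3.congr_deriv ?_
  ring

/-- Exponential decay of the tilted radial weight. -/
lemma Lam_decay {r : ℝ} (hr : r ∈ Ioo (0 : ℝ) 1) : log r + Lam r ≤ -(1 - r ^ 2) / 3 := by
  set h : ℝ → ℝ := fun r => log r + Lam r + (1 - r ^ 2) / 3 with hh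
  have hd : ∀ x ∈ Ioo (0 : ℝ) 1, HasDerivAt h (1 / x + -(1 - x ^ 2) / (4 * x ^ 2) *
      (log (1 + pp x) - log (pp x)) + -(2 * x) / 3) x := by
    intro x hx
    have a1 := hasDerivAt_log hx.1.ne'
    have a3 : HasDerivAt (fun x : ℝ => (1 - x ^ 2) / 3) (-(2 * x) / 3) x := by
      have a2 := ((hasDerivAt_pow 2 x).const_sub 1).div_const 3
      refine a2.congr_deriv ?_
      norm_num
    refine ((a1.add (hasDerivAt_Lam hx)).add a3).congr_deriv ?_
    simp
  have hcLam : ContinuousOn Lam (Ioc 0 1) := by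
    have h1 : ContinuousOn pp (Ioc 0 1) := by
      unfold pp
      refine ContinuousOn.div (by fun_prop) (by fun_prop) ?_
      intro x hx
      have := hx.1
      positivity
    have : Lam = fun r => (fun x : ℝ => x * log x) (1 + pp r) - (fun x : ℝ => x * log x) (pp r) := by
      funext r
      simp [Lam]
    rw [this]
    exact (continuous_mul_log.comp_continuousOn (continuousOn_const.add h1)).sub
      (continuous_mul_log.comp_continuousOn h1)
  have hc : ContinuousOn h (Ioc 0 1) := by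
    refine (ContinuousOn.add (ContinuousOn.log continuousOn_id fun x hx => hx.1.ne') hcLam).add ?_
    fun_prop
  have hmono : MonotoneOn h (Ioc 0 1) := by
    refine monotoneOn_of_deriv_nonneg (convex_Ioc 0 1) hc ?_ ?_
    · intro x hx
      rw [interior_Ioc] at hx
      exact (hd x hx).differentiableAt.differentiableWithinAt
    · intro x hx
      rw [interior_Ioc] at hx
      rw [(hd x hx).deriv, log_pp_diff hx]
      have h1 := log_ratio_le (r := x) ⟨hx.1.le, hx.2⟩
      have h0 := hx.1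
      have h2 : 0 < 1 - x ^ 2 := by nlinarith [hx.1, hx.2]
      rw [le_div_iff₀ h2] at h1
      have h3 : 1 / x + -(1 - x ^ 2) / (4 * x ^ 2) * (2 * (log (1 + x) - log (1 - x))) +
          -(2 * x) / 3 = ((2 * x - 4 / 3 * x ^ 3) - (log (1 + x) - log (1 - x)) * (1 - x ^ 2)) /
            (2 * x ^ 2) := by
        field_simp
        ring
      rw [h3]
      apply div_nonneg _ (by positivity)
      linarith
  have h1 := hmono (show r ∈ Ioc (0 : ℝ) 1 from ⟨hr.1, hr.2.le⟩)
    (show (1 : ℝ) ∈ Ioc (0 : ℝ) 1 from ⟨zero_lt_one, le_rfl⟩) hr.2.le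
  have h2 : h 1 = 0 := by
    simp [hh, Lam, pp]
  rw [h2] at h1
  simp only [hh] at h1
  linarith

/-- Upper bound for the smoothing cost with a free parameter. -/
lemma Lam_le {r : ℝ} (hr : r ∈ Ioo (0 : ℝ) 1) {n : ℕ} (hn : 1 ≤ n) :
    Lam r ≤ pp r * (1 + 2 * log n) + 1 / (n : ℝ) ^ 2 := by
  have hp := pp_pos hr
  have hn0 : (1 : ℝ) ≤ n := by exact_mod_cast hn
  have hM : (1 : ℝ) ≤ (n : ℝ) ^ 2 := by nlinarith
  have h1 : Lam r = log (1 + pp r) + pp r * (log (1 + pp r) - log (pp r)) := by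
    unfold Lam; ring
  have h2 : log (1 + pp r) ≤ pp r := by
    have := log_le_sub_one_of_pos (show 0 < 1 + pp r by linarith)
    linarith
  have h3 : log (1 + pp r) - log (pp r) ≤ 2 * log n + ((1 + pp r) / (pp r * (n : ℝ) ^ 2) - 1) := by
    have h4 := log_le_sub_one_of_pos (show 0 < (1 + pp r) / (pp r * (n : ℝ) ^ 2) by positivity)
    rw [log_div (by positivity) (by positivity), log_mul hp.ne' (by positivity), log_pow] at h4
    push_cast at h4
    linarith
  have h5 : pp r * (log (1 + pp r) - log (pp r)) ≤ pp r * (2 * log n) + 1 / (n : ℝ) ^ 2 := by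
    calc _ ≤ pp r * (2 * log n + ((1 + pp r) / (pp r * (n : ℝ) ^ 2) - 1)) := by gcongr
      _ = pp r * (2 * log n) + (1 + pp r) / (n : ℝ) ^ 2 - pp r := by
        field_simp
        ring
      _ ≤ _ := by
        have : (1 + pp r) / (n : ℝ) ^ 2 ≤ 1 / (n : ℝ) ^ 2 + pp r := by
          rw [add_div]
          gcongr
          exact div_le_self hp.le hM
        linarith
  rw [h1]
  linarith

lemma expo_int (j : ℕ) {μ : ℝ} (hμ : 0 < μ) :
    ∫⁻ r in Ioo (0 : ℝ) 1, ENNReal.ofReal ((1 - r) ^ j * exp (-(μ * (1 - r)))) ≤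
      ENNReal.ofReal (j.factorial * (2 / μ) ^ (j + 1)) := by
  have h1 : ∀ r ∈ Ioo (0 : ℝ) 1, ENNReal.ofReal ((1 - r) ^ j * exp (-(μ * (1 - r)))) ≤
      ENNReal.ofReal (j.factorial * (2 / μ) ^ j) * ENNReal.ofReal (exp (-(μ / 2 * (1 - r)))) := by
    intro r hr
    have hr1 : 0 < 1 - r := by linarith [hr.2]
    rw [← ENNReal.ofReal_mul (by positivity)]
    refine ENNReal.ofReal_le_ofReal ?_
    have h2 := pow_div_factorial_le_exp (μ / 2 * (1 - r)) (by positivity) j
    have h3 : exp (-(μ * (1 - r))) = exp (-(μ / 2 * (1 - r))) * exp (-(μ / 2 * (1 - r))) := by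
      rw [← exp_add]; congr 1; ring
    have h4 : (1 - r) ^ j = j.factorial * (2 / μ) ^ j * ((μ / 2 * (1 - r)) ^ j / j.factorial) := by
      rw [mul_pow]
      have : (j.factorial : ℝ) ≠ 0 := by positivity
      field_simp
      rw [← mul_pow, div_mul_div_comm, mul_comm 2 μ, div_self (by positivity), one_pow]
    have h5 : (μ / 2 * (1 - r)) ^ j / j.factorial * exp (-(μ / 2 * (1 - r))) ≤ 1 := by
      calc _ ≤ exp (μ / 2 * (1 - r)) * exp (-(μ / 2 * (1 - r))) := by gcongr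
        _ = 1 := by rw [← exp_add]; simp
    rw [h3, h4]
    calc _ = (j.factorial * (2 / μ) ^ j * exp (-(μ / 2 * (1 - r)))) *
          ((μ / 2 * (1 - r)) ^ j / j.factorial * exp (-(μ / 2 * (1 - r)))) := by ring
      _ ≤ (j.factorial * (2 / μ) ^ j * exp (-(μ / 2 * (1 - r)))) * 1 := by gcongr
      _ = _ := mul_one _
  refine (setLIntegral_mono' measurableSet_Ioo h1).trans ?_
  rw [lintegral_const_mul _ (by fun_prop)]
  have h6 : ∫⁻ r in Ioo (0 : ℝ) 1, ENNReal.ofReal (exp (-(μ / 2 * (1 - r)))) ≤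
      ENNReal.ofReal (2 / μ) := by
    rw [← ofReal_integral_eq_lintegral_ofReal, ← integral_Ioc_eq_integral_Ioo,
      ← intervalIntegral.integral_of_le zero_le_one]
    · refine ENNReal.ofReal_le_ofReal ?_
      have hd : ∀ r ∈ uIcc (0 : ℝ) 1, HasDerivAt (fun r : ℝ => 2 / μ * exp (-(μ / 2 * (1 - r))))
          (exp (-(μ / 2 * (1 - r)))) r := by
        intro r _
        have a1 : HasDerivAt (fun r : ℝ => -(μ / 2 * (1 - r))) (μ / 2) r := by
          have a0 : HasDerivAt (fun r : ℝ => 1 - r) (-1) r := (hasDerivAt_id r).const_sub 1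
          refine ((a0.const_mul (μ / 2)).neg).congr_deriv ?_
          ring
        refine ((a1.exp).const_mul (2 / μ)).congr_deriv ?_
        field_simp
      rw [intervalIntegral.integral_eq_sub_of_hasDerivAt hd
        (Continuous.intervalIntegrable (by fun_prop) _ _)]
      simp only [sub_self, mul_zero, neg_zero, exp_zero, mul_one, sub_zero]
      have := exp_pos (-(μ / 2))
      have h7 : 0 < 2 / μ := by positivity
      nlinarith [mul_pos h7 this]
    · exact (Continuous.integrableOn_Icc (by fun_prop)).mono_set Ioo_subset_Icc_self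
    · exact ae_of_all _ fun r => (exp_pos _).le
  calc _ ≤ ENNReal.ofReal (j.factorial * (2 / μ) ^ j) * ENNReal.ofReal (2 / μ) := by gcongr
    _ = _ := by
      rw [← ENNReal.ofReal_mul (by positivity), pow_succ]
      congr 1
      ring

lemma tilt_int {m : ℕ} (hm : 1 ≤ m) {g : ℝ → ℝ} (hg : Measurable g) {C : ℝ} (hC : 0 ≤ C) (j : ℕ)
    (hb : ∀ r ∈ Ioo (0 : ℝ) 1, 0 ≤ g r ∧ r ^ 2 * g r ≤ C * (1 - r) ^ j) :
    ∫⁻ r, ENNReal.ofReal (exp ((m : ℝ) * Lam r) * g r) ∂(rho (m + 1)) ≤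
      ENNReal.ofReal (((m : ℝ) + 3) * C * (j.factorial * (6 / (m : ℝ)) ^ (j + 1))) := by
  have hm0 : (0 : ℝ) < m := by exact_mod_cast hm
  have hmeas : Measurable fun r => ENNReal.ofReal (exp ((m : ℝ) * Lam r) * g r) :=
    (((measurable_Lam.const_mul _).exp).mul hg).ennreal_ofReal
  rw [lintegral_rho (m + 1) hmeas]
  have h1 : ∀ r ∈ Ioo (0 : ℝ) 1, ENNReal.ofReal ((((m + 1 : ℕ) : ℝ) + 2) * r ^ (m + 1 + 1)) *
      ENNReal.ofReal (exp ((m : ℝ) * Lam r) * g r) ≤
      ENNReal.ofReal (((m : ℝ) + 3) * C) *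
        ENNReal.ofReal ((1 - r) ^ j * exp (-((m : ℝ) / 3 * (1 - r)))) := by
    intro r hr
    have h0 := hr.1
    have h00 : 0 < 1 - r := by linarith [hr.2]
    obtain ⟨hb1, hb2⟩ := hb r hr
    rw [← ENNReal.ofReal_mul (by positivity), ← ENNReal.ofReal_mul (by positivity)]
    refine ENNReal.ofReal_le_ofReal ?_
    have h2 : r ^ m * exp ((m : ℝ) * Lam r) ≤ exp (-((m : ℝ) / 3 * (1 - r))) := by
      have h3 : r ^ m = exp ((m : ℝ) * log r) := by
        rw [mul_comm, exp_mul, exp_log h0, rpow_natCast]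
      rw [h3, ← exp_add]
      apply exp_le_exp.mpr
      have h4 := Lam_decay hr
      have h5 : log r + Lam r ≤ -(1 - r) / 3 := by nlinarith [mul_pos h0 h00]
      nlinarith [mul_le_mul_of_nonneg_left h5 hm0.le]
    have h6 : (((m + 1 : ℕ) : ℝ) + 2) = (m : ℝ) + 3 := by push_cast; ring
    rw [h6]
    calc ((m : ℝ) + 3) * r ^ (m + 1 + 1) * (exp ((m : ℝ) * Lam r) * g r)
        = ((m : ℝ) + 3) * ((r ^ m * exp ((m : ℝ) * Lam r)) * (r ^ 2 * g r)) := by
          rw [pow_succ, pow_succ]; ring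
      _ ≤ ((m : ℝ) + 3) * (exp (-((m : ℝ) / 3 * (1 - r))) * (C * (1 - r) ^ j)) := by
          gcongr
      _ = _ := by ring
  refine (setLIntegral_mono' measurableSet_Ioo h1).trans ?_
  rw [lintegral_const_mul _ (by fun_prop)]
  calc _ ≤ ENNReal.ofReal (((m : ℝ) + 3) * C) *
        ENNReal.ofReal (j.factorial * (2 / ((m : ℝ) / 3)) ^ (j + 1)) := by
        gcongr
        exact expo_int j (by positivity)
    _ = _ := by
      rw [← ENNReal.ofReal_mul (by positivity)]
      congr 4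
      field_simp
      norm_num

lemma T0_le {m : ℕ} (hm : 1 ≤ m) :
    ∫⁻ r, ENNReal.ofReal (exp ((m : ℝ) * Lam r)) ∂(rho (m + 1)) ≤ ENNReal.ofReal 24 := by
  have hm0 : (1 : ℝ) ≤ m := by exact_mod_cast hm
  have h := tilt_int hm (g := fun _ => 1) measurable_const (C := 1) zero_le_one 0
    (fun r hr => ⟨zero_le_one, by nlinarith [hr.1, hr.2]⟩)
  simp only [mul_one] at h
  refine h.trans (ENNReal.ofReal_le_ofReal ?_)
  norm_num
  rw [mul_div_assoc', div_le_iff₀ (by positivity)]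
  linarith

lemma T1_le {m : ℕ} (hm : 1 ≤ m) :
    ∫⁻ r, ENNReal.ofReal (exp ((m : ℝ) * Lam r) * pp r) ∂(rho (m + 1)) ≤
      ENNReal.ofReal (1728 / ((m : ℝ) + 1) ^ 2) := by
  have hm0 : (1 : ℝ) ≤ m := by exact_mod_cast hm
  have h := tilt_int hm (g := pp) measurable_pp (C := 1 / 4) (by norm_num) 2
    (fun r hr => by
      have h0 := hr.1
      refine ⟨(pp_pos hr).le, ?_⟩
      have : r ^ 2 * pp r = r * (1 - r) ^ 2 / 4 := by unfold pp; field_simp
      rw [this]
      nlinarith [sq_nonneg (1 - r), hr.2, mul_nonneg (sub_nonneg.mpr hr.2.le) (sq_nonneg (1 - r))])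
  refine h.trans (ENNReal.ofReal_le_ofReal ?_)
  have e : ((m : ℝ) + 3) * (1 / 4) * (((2 : ℕ).factorial : ℝ) * (6 / (m : ℝ)) ^ (2 + 1)) =
      108 * ((m : ℝ) + 3) / (m : ℝ) ^ 3 := by
    norm_num [Nat.factorial]
    field_simp
    norm_num
  rw [e, div_le_div_iff₀ (by positivity) (by positivity)]
  have h2 : ((m : ℝ) + 3) * ((m : ℝ) + 1) ^ 2 ≤ 16 * (m : ℝ) ^ 3 := by
    nlinarith [mul_nonneg (sub_nonneg.mpr hm0) (sub_nonneg.mpr hm0),
      mul_nonneg (mul_nonneg (sub_nonneg.mpr hm0) (sub_nonneg.mpr hm0)) (sub_nonneg.mpr hm0)]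
  nlinarith

lemma T2_le {m : ℕ} (hm : 1 ≤ m) :
    ∫⁻ r, ENNReal.ofReal (exp ((m : ℝ) * Lam r) * pp r ^ 2) ∂(rho (m + 1)) ≤
      ENNReal.ofReal (746496 / ((m : ℝ) + 1) ^ 4) := by
  have hm0 : (1 : ℝ) ≤ m := by exact_mod_cast hm
  have h := tilt_int hm (g := fun r => pp r ^ 2) (measurable_pp.pow_const 2) (C := 1 / 16)
    (by norm_num) 4
    (fun r hr => by
      have h0 := hr.1
      refine ⟨by positivity, ?_⟩
      have : r ^ 2 * pp r ^ 2 = (1 - r) ^ 4 / 16 := by unfold pp; field_simp; ring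
      rw [this]
      apply le_of_eq
      ring)
  refine h.trans (ENNReal.ofReal_le_ofReal ?_)
  have e : ((m : ℝ) + 3) * (1 / 16) * (((4 : ℕ).factorial : ℝ) * (6 / (m : ℝ)) ^ (4 + 1)) =
      11664 * ((m : ℝ) + 3) / (m : ℝ) ^ 5 := by
    norm_num [Nat.factorial]
    field_simp
    norm_num
  rw [e, div_le_div_iff₀ (by positivity) (by positivity)]
  have h2 : ((m : ℝ) + 3) ≤ 4 * m := by linarith
  have h3 : ((m : ℝ) + 1) ^ 4 ≤ 16 * (m : ℝ) ^ 4 := by
    calc ((m : ℝ) + 1) ^ 4 ≤ (2 * m) ^ 4 := by gcongr; linarith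
      _ = _ := by ring
  have h4 : ((m : ℝ) + 3) * ((m : ℝ) + 1) ^ 4 ≤ 64 * (m : ℝ) ^ 5 := by
    calc _ ≤ (4 * m) * (16 * (m : ℝ) ^ 4) := by gcongr
      _ = _ := by ring
  nlinarith

end Pool.Agent.Helper44.Ball3
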