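import Mathlib
import Pool.Agent.Helper44.Ball3.Tilt

set_option autoImplicit false
set_option maxHeartbeats 4000000
set_option synthInstance.maxHeartbeats 400000

open MeasureTheory Set Real
open scoped ENNReal

namespace Pool.Agent.Helper44.Ball3

/-- The normalising constant of the tilted radial law. -/
noncomputable def JJ (m : ℕ) : ℝ≥0∞ :=
  ∫⁻ r, ENNReal.ofReal (exp ((m : ℝ) * Lam r)) ∂(rho (m + 1))

lemma one_le_JJ (m : ℕ) : 1 ≤ JJ m := by
  unfold JJ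
  have h1 : (1 : ℝ≥0∞) = ∫⁻ _r : ℝ, 1 ∂(rho (m + 1)) := by simp
  rw [h1]
  refine lintegral_mono_ae ?_
  filter_upwards [rho_ae (m + 1)] with r hr
  rw [ENNReal.one_le_ofReal]
  have := Lam_nonneg hr
  exact one_le_exp (by positivity)

lemma log_sq_le {n : ℕ} (hn : 1 ≤ n) : (1 + 2 * log n) ^ 2 ≤ 16 * n := by
  have hn0 : (1 : ℝ) ≤ n := by exact_mod_cast hn
  have hs : 0 < √(n : ℝ) := sqrt_pos.mpr (by linarith)
  have h1 : log n = 2 * log (√(n : ℝ)) := by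
    rw [log_sqrt (by linarith)]; ring
  have h2 := log_le_sub_one_of_pos hs
  have h3 : 0 ≤ log n := log_nonneg hn0
  have h4 : (√(n : ℝ)) ^ 2 = n := sq_sqrt (by linarith)
  have h5 : 1 + 2 * log n ≤ 4 * √(n : ℝ) := by linarith
  calc (1 + 2 * log (n : ℝ)) ^ 2 ≤ (4 * √(n : ℝ)) ^ 2 := by gcongr
    _ = 16 * (n : ℝ) := by rw [mul_pow, h4]; norm_num

lemma exp_bound_quad {y : ℝ} (hy : 0 ≤ y) : exp y ≤ 1 + y + y ^ 2 * exp y := by
  have h1 := add_one_le_exp (-y)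
  have h2 : exp (-y) * exp y = 1 := by rw [← exp_add]; simp
  have h3 := exp_pos y
  have h4 : (1 - y ^ 2) * exp y ≤ 1 + y := by
    have h5 : (-y + 1) * exp y ≤ 1 := by
      calc (-y + 1) * exp y ≤ exp (-y) * exp y := by gcongr
        _ = 1 := h2
    have h6 : (1 - y ^ 2) * exp y = (1 + y) * ((-y + 1) * exp y) := by ring
    rw [h6]
    calc (1 + y) * ((-y + 1) * exp y) ≤ (1 + y) * 1 := by gcongr
      _ = 1 + y := mul_one _
  linarith

lemma JJ_le {m : ℕ} (hm : 1 ≤ m) : JJ m ≤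
    ENNReal.ofReal (1 + (log ((m + 1 : ℕ) : ℝ) + 23888000) / ((m + 1 : ℕ) : ℝ)) := by
  have hm0 : (1 : ℝ) ≤ m := by exact_mod_cast hm
  set n : ℕ := m + 1 with hn
  have hnr : (n : ℝ) = (m : ℝ) + 1 := by rw [hn]; push_cast; ring
  have hn1 : (1 : ℝ) ≤ n := by rw [hnr]; linarith
  have hL0 : 0 ≤ log (n : ℝ) := log_nonneg hn1
  have hLsq := log_sq_le (show 1 ≤ n by omega)
  set L := 1 + 2 * log (n : ℝ) with hL
  have hLpos : 0 ≤ L := by linarith
  have hpt : ∀ r ∈ Ioo (0 : ℝ) 1, exp ((m : ℝ) * Lam r) ≤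
      (1 + m / (n : ℝ) ^ 2) + (m * L) * pp r + (2 * m ^ 2 * L ^ 2) * (exp ((m : ℝ) * Lam r) *
        pp r ^ 2) + (2 * m ^ 2 / (n : ℝ) ^ 4) * exp ((m : ℝ) * Lam r) := by
    intro r hr
    have h1 := Lam_le hr (show 1 ≤ n by omega)
    have h2 := Lam_nonneg hr
    have h3 := exp_bound_quad (show 0 ≤ (m : ℝ) * Lam r by positivity)
    have hp := pp_pos hr
    have h4 : Lam r ^ 2 ≤ 2 * pp r ^ 2 * L ^ 2 + 2 / (n : ℝ) ^ 4 := by
      calc Lam r ^ 2 ≤ (pp r * L + 1 / (n : ℝ) ^ 2) ^ 2 := by gcongr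
        _ ≤ 2 * (pp r * L) ^ 2 + 2 * (1 / (n : ℝ) ^ 2) ^ 2 := by
          nlinarith [sq_nonneg (pp r * L - 1 / (n : ℝ) ^ 2)]
        _ = _ := by rw [mul_pow, div_pow, one_pow, ← pow_mul]; ring
    have h5 : (m : ℝ) * Lam r ≤ m / (n : ℝ) ^ 2 + (m * L) * pp r := by
      calc (m : ℝ) * Lam r ≤ m * (pp r * L + 1 / (n : ℝ) ^ 2) := by gcongr
        _ = _ := by ring
    have h6 : ((m : ℝ) * Lam r) ^ 2 * exp ((m : ℝ) * Lam r) ≤
        (m : ℝ) ^ 2 * (2 * pp r ^ 2 * L ^ 2 + 2 / (n : ℝ) ^ 4) * exp ((m : ℝ) * Lam r) := by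
      rw [mul_pow]
      gcongr
    have h7 : (m : ℝ) ^ 2 * (2 * pp r ^ 2 * L ^ 2 + 2 / (n : ℝ) ^ 4) * exp ((m : ℝ) * Lam r) =
      (2 * m ^ 2 * L ^ 2) * (exp ((m : ℝ) * Lam r) *
        pp r ^ 2) + (2 * m ^ 2 / (n : ℝ) ^ 4) * exp ((m : ℝ) * Lam r) := by ring
    linarith
  have hme : Measurable fun r => exp ((m : ℝ) * Lam r) := (measurable_Lam.const_mul _).exp
  have hpp := measurable_pp
  have hint : JJ m ≤ ENNReal.ofReal (1 + m / (n : ℝ) ^ 2) +
      ENNReal.ofReal (m * L) * ∫⁻ r, ENNReal.ofReal (pp r) ∂(rho (m + 1)) +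
      ENNReal.ofReal (2 * m ^ 2 * L ^ 2) *
        ∫⁻ r, ENNReal.ofReal (exp ((m : ℝ) * Lam r) * pp r ^ 2) ∂(rho (m + 1)) +
      ENNReal.ofReal (2 * m ^ 2 / (n : ℝ) ^ 4) *
        ∫⁻ r, ENNReal.ofReal (exp ((m : ℝ) * Lam r)) ∂(rho (m + 1)) := by
    unfold JJ
    have hmq : Measurable fun r => ENNReal.ofReal (exp ((m : ℝ) * Lam r) * pp r ^ 2) :=
      (hme.mul (hpp.pow_const 2)).ennreal_ofReal
    rw [← lintegral_const_mul _ hpp.ennreal_ofReal, ← lintegral_const_mul _ hmq,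
      ← lintegral_const_mul _ hme.ennreal_ofReal]
    have hc : ENNReal.ofReal (1 + m / (n : ℝ) ^ 2) =
      ∫⁻ _r : ℝ, ENNReal.ofReal (1 + m / (n : ℝ) ^ 2) ∂(rho (m + 1)) := by simp
    rw [hc, ← lintegral_add_left measurable_const, ← lintegral_add_right, ← lintegral_add_right]
    · refine lintegral_mono_ae ?_
      filter_upwards [rho_ae (m + 1)] with r hr
      have hp := pp_pos hr
      rw [← ENNReal.ofReal_mul (by positivity), ← ENNReal.ofReal_mul (by positivity),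
        ← ENNReal.ofReal_mul (by positivity), ← ENNReal.ofReal_add (by positivity) (by positivity),
        ← ENNReal.ofReal_add (by positivity) (by positivity),
        ← ENNReal.ofReal_add (by positivity) (by positivity)]
      exact ENNReal.ofReal_le_ofReal (hpt r hr)
    · exact (hme.ennreal_ofReal).const_mul _
    · exact ((hme.mul (hpp.pow_const 2)).ennreal_ofReal).const_mul _
  refine hint.trans ?_
  have b1 := E_pp (m + 1)
  have b2 := T2_le hm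
  have b3 := T0_le hm
  calc _ ≤ ENNReal.ofReal (1 + m / (n : ℝ) ^ 2) +
      ENNReal.ofReal (m * L) * ENNReal.ofReal (1 / (2 * (((m + 1 : ℕ) : ℝ) + 1) *
        (((m + 1 : ℕ) : ℝ) + 3))) +
      ENNReal.ofReal (2 * m ^ 2 * L ^ 2) * ENNReal.ofReal (746496 / ((m : ℝ) + 1) ^ 4) +
      ENNReal.ofReal (2 * m ^ 2 / (n : ℝ) ^ 4) * ENNReal.ofReal 24 := by
        rw [b1]; gcongr
    _ = ENNReal.ofReal ((1 + m / (n : ℝ) ^ 2) + (m * L) * (1 / (2 * (((m + 1 : ℕ) : ℝ) + 1) *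
        (((m + 1 : ℕ) : ℝ) + 3))) + (2 * m ^ 2 * L ^ 2) * (746496 / ((m : ℝ) + 1) ^ 4) +
        (2 * m ^ 2 / (n : ℝ) ^ 4) * 24) := by
        rw [← ENNReal.ofReal_mul (by positivity), ← ENNReal.ofReal_mul (by positivity),
        ← ENNReal.ofReal_mul (by positivity), ← ENNReal.ofReal_add (by positivity) (by positivity),
        ← ENNReal.ofReal_add (by positivity) (by positivity),
        ← ENNReal.ofReal_add (by positivity) (by positivity)]
    _ ≤ _ := by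
        refine ENNReal.ofReal_le_ofReal ?_
        have hn0 : (0 : ℝ) < n := by linarith
        have hmn : (m : ℝ) ≤ n := by linarith
        have c1 : (m : ℝ) / (n : ℝ) ^ 2 ≤ 1 / n := by
          rw [div_le_div_iff₀ (by positivity) hn0]
          nlinarith
        have c2 : (m * L) * (1 / (2 * (((m + 1 : ℕ) : ℝ) + 1) * (((m + 1 : ℕ) : ℝ) + 3))) ≤
            L / 2 / n := by
          rw [mul_one_div, div_div, div_le_div_iff₀ (by positivity) (by positivity)]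
          have e1 : (((m + 1 : ℕ) : ℝ)) = n := by rw [hn]
          rw [e1]
          have : (m : ℝ) * (2 * n) ≤ 2 * ((n : ℝ) + 1) * ((n : ℝ) + 3) := by nlinarith
          calc (m : ℝ) * L * (2 * n) = L * (m * (2 * n)) := by ring
            _ ≤ L * (2 * ((n : ℝ) + 1) * ((n : ℝ) + 3)) := by gcongr
        have c3 : (2 * (m : ℝ) ^ 2 * L ^ 2) * (746496 / ((m : ℝ) + 1) ^ 4) ≤ 23887872 / n := by
          rw [← hnr, mul_div_assoc', div_le_div_iff₀ (by positivity) hn0]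
          have : (m : ℝ) ^ 2 ≤ (n : ℝ) ^ 2 := by gcongr
          calc 2 * (m : ℝ) ^ 2 * L ^ 2 * 746496 * n ≤ 2 * (n : ℝ) ^ 2 * (16 * n) * 746496 * n := by
                gcongr
            _ = 23887872 * (n : ℝ) ^ 4 := by ring
        have c4 : (2 * (m : ℝ) ^ 2 / (n : ℝ) ^ 4) * 24 ≤ 48 / n := by
          rw [div_mul_eq_mul_div, div_le_div_iff₀ (by positivity) hn0]
          have h1 : (m : ℝ) ^ 2 ≤ (n : ℝ) ^ 2 := by gcongr
          have h2 : (n : ℝ) ^ 3 ≤ (n : ℝ) ^ 4 := pow_le_pow_right₀ hn1 (by norm_num)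
          calc 2 * (m : ℝ) ^ 2 * 24 * n ≤ 2 * (n : ℝ) ^ 2 * 24 * n := by gcongr
            _ = 48 * (n : ℝ) ^ 3 := by ring
            _ ≤ 48 * (n : ℝ) ^ 4 := by gcongr
        have c5 : (log (n : ℝ) + 23888000) / n = L / 2 / n + 1 / n + 23887872 / n + 48 / n +
            (23888000 - 1 / 2 - 1 - 23887872 - 48) / n := by
          rw [hL]; field_simp; ring
        have c6 : 0 ≤ ((23888000 : ℝ) - 1 / 2 - 1 - 23887872 - 48) / n := by
          apply div_nonneg _ hn0.le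
          norm_num
        rw [c5]
        linarith

lemma JJ_ne_top {m : ℕ} (hm : 1 ≤ m) : JJ m ≠ ∞ :=
  ne_top_of_le_ne_top ENNReal.ofReal_ne_top (JJ_le hm)

lemma JJ_ne_zero (m : ℕ) : JJ m ≠ 0 := by
  intro h
  have := one_le_JJ m
  rw [h] at this
  simp at this

lemma JJ_pow_le {m : ℕ} (hm : 1 ≤ m) :
    JJ m ^ (m + 1) ≤ ENNReal.ofReal (exp 23888000 * ((m : ℝ) + 1)) := by
  have h1 : JJ m ^ (m + 1) ≤ ENNReal.ofReal (1 + (log ((m + 1 : ℕ) : ℝ) + 23888000) /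
      ((m + 1 : ℕ) : ℝ)) ^ (m + 1) := by
    gcongr
    exact JJ_le hm
  refine h1.trans ?_
  have hn0 : (0 : ℝ) < ((m + 1 : ℕ) : ℝ) := by positivity
  have hn1 : (1 : ℝ) ≤ ((m + 1 : ℕ) : ℝ) := by
    push_cast
    linarith [show (0 : ℝ) ≤ m by positivity]
  have hL0 : 0 ≤ log ((m + 1 : ℕ) : ℝ) := log_nonneg hn1
  rw [← ENNReal.ofReal_pow (by positivity)]
  refine ENNReal.ofReal_le_ofReal ?_
  set t := (log ((m + 1 : ℕ) : ℝ) + 23888000) / ((m + 1 : ℕ) : ℝ) with ht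
  have h2 : 1 + t ≤ exp t := by linarith [add_one_le_exp t]
  have ht0 : 0 ≤ t := by positivity
  calc (1 + t) ^ (m + 1) ≤ exp t ^ (m + 1) := by gcongr
    _ = exp (((m + 1 : ℕ) : ℝ) * t) := by rw [← exp_nat_mul]
    _ = exp (log ((m + 1 : ℕ) : ℝ) + 23888000) := by
      congr 1
      rw [ht]; field_simp
    _ = exp 23888000 * ((m : ℝ) + 1) := by
      rw [exp_add, exp_log hn0]; push_cast; ring

end Pool.Agent.Helper44.Ball3
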