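import Mathlib
import Pool.Agent.Helper44.Ball3.Iso
import Pool.Agent.Helper44.Ball3.JBound

set_option autoImplicit false
set_option maxHeartbeats 4000000
set_option synthInstance.maxHeartbeats 400000

open MeasureTheory Set Real
open scoped ENNReal InnerProductSpace

namespace Pool.Agent.Helper44.Ball3

/-- Pair ratio. -/
noncomputable def ff (y z : ℝ × E3) : ℝ := bb y.1 z.1 / ‖y.2 - z.2‖ ^ 2

/-- Bounded pair ratio. -/
noncomputable def ph (y z : ℝ × E3) : ℝ := bb y.1 z.1 / AB y z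

/-- The base law of a point. -/
noncomputable def mu (n : ℕ) : Measure (ℝ × E3) := (rho n).prod sig

instance (n : ℕ) : IsProbabilityMeasure (mu n) := by unfold mu; infer_instance

lemma measurable_AB : Measurable (Function.uncurry AB) := by
  unfold AB bb Function.uncurry
  fun_prop

lemma measurable_ff : Measurable (Function.uncurry ff) := by
  unfold ff bb Function.uncurry
  fun_prop

lemma measurable_ph : Measurable (Function.uncurry ph) := by
  unfold ph AB bb Function.uncurry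
  fun_prop

lemma harm_int (k : ℕ) : ∫⁻ x in Ioo (0 : ℝ) 1, ENNReal.ofReal ((1 - (1 - x) ^ k) / x) =
    ENNReal.ofReal (harmonic k : ℝ) := by
  have h1 : ∀ x ∈ Ioo (0 : ℝ) 1, ENNReal.ofReal ((1 - (1 - x) ^ k) / x) =
      ENNReal.ofReal (∑ i ∈ Finset.range k, (1 - x) ^ i) := by
    intro x hx
    congr 1
    have := mul_geom_sum (1 - x) k
    rw [div_eq_iff hx.1.ne']
    linear_combination this
  rw [setLIntegral_congr_fun measurableSet_Ioo h1, ← ofReal_integral_eq_lintegral_ofReal,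
    ← integral_Ioc_eq_integral_Ioo, ← intervalIntegral.integral_of_le zero_le_one,
    intervalIntegral.integral_finsetSum]
  · congr 1
    rw [harmonic, Rat.cast_sum]
    refine Finset.sum_congr rfl fun i _ => ?_
    have h2 := beta_nat 0 i
    simp only [pow_zero, one_mul, Nat.factorial_zero, Nat.cast_one, zero_add] at h2
    rw [h2, Nat.factorial_succ]
    have h3 : (i.factorial : ℝ) ≠ 0 := by positivity
    push_cast
    field_simp
  · intro i _
    exact Continuous.intervalIntegrable (by fun_prop) _ _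
  · exact (Continuous.integrableOn_Icc (by fun_prop)).mono_set Ioo_subset_Icc_self
  · rw [Filter.EventuallyLE, ae_restrict_iff' measurableSet_Ioo]
    refine ae_of_all _ fun x hx => ?_
    have : 0 ≤ 1 - x := by linarith [hx.2]
    simp only [Pi.zero_apply]
    exact Finset.sum_nonneg fun i _ => by positivity

lemma harm_nonneg (k : ℕ) : (0 : ℝ) ≤ (harmonic k : ℝ) := by
  have : (0 : ℚ) ≤ harmonic k := by
    unfold harmonic
    exact Finset.sum_nonneg fun i _ => by positivity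
  exact_mod_cast this

/-- Angular part of the mean pair ratio. -/
lemma ang_int {n : ℕ} {w : E3} (hw : w ∈ Good) {b : ℝ} (hb : 0 ≤ b) :
    ∫⁻ w', D2 (vv n) w w' * ENNReal.ofReal (b / ‖w - w'‖ ^ 2) ∂sig =
      ENNReal.ofReal (b * ((n : ℝ) ^ 2 / 4)) * ENNReal.ofReal (harmonic (n - 1) : ℝ) := by
  have h1 : ∫⁻ w', D2 (vv n) w w' * ENNReal.ofReal (b / ‖w - w'‖ ^ 2) ∂sig =
      ∫⁻ w', (fun a : ℝ => ENNReal.ofReal ((n : ℝ) ^ 2 * (1 - (1 - a / 4) ^ (n - 1))) *
        ENNReal.ofReal (b / a)) (‖w - w'‖ ^ 2) ∂sig := by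
    refine lintegral_congr_ae ?_
    filter_upwards [ae_good] with w' hw'
    rw [D2_vv hw hw']
  have hz := zonal4 hw.1 (h := fun a : ℝ =>
    ENNReal.ofReal ((n : ℝ) ^ 2 * (1 - (1 - a / 4) ^ (n - 1))) * ENNReal.ofReal (b / a))
    (by fun_prop)
  rw [h1, hz, ← harm_int, ← lintegral_const_mul]
  · refine setLIntegral_congr_fun measurableSet_Ioo fun x hx => ?_
    have hx0 := hx.1
    have hx1 : 0 ≤ 1 - x := by linarith [hx.2]
    have h2 : (1 - x) ^ (n - 1) ≤ 1 := pow_le_one₀ hx1 (by linarith)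
    have h3 : 1 - 4 * x / 4 = 1 - x := by ring
    simp only [h3]
    rw [← ENNReal.ofReal_mul (by nlinarith [sq_nonneg (n : ℝ)]),
      ← ENNReal.ofReal_mul (by positivity)]
    congr 1
    field_simp
  · fun_prop

/-- The constant of the pair integral. -/
noncomputable def cn (n : ℕ) : ℝ :=
  (n : ℝ) ^ 2 * (harmonic (n - 1) : ℝ) / (2 * (((n : ℝ) + 1) * ((n : ℝ) + 3)))

lemma mu_ae (n : ℕ) : ∀ᵐ y ∂(mu n), y.1 ∈ Ioo (0 : ℝ) 1 ∧ y.2 ∈ Good := by
  unfold mu
  have h1 : ∀ᵐ y ∂((rho n).prod sig), y.1 ∈ Ioo (0 : ℝ) 1 :=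
    Measure.quasiMeasurePreserving_fst.ae (rho_ae n)
  have h2 : ∀ᵐ y ∂((rho n).prod sig), y.2 ∈ Good :=
    Measure.quasiMeasurePreserving_snd.ae ae_good
  filter_upwards [h1, h2] with y h1 h2
  exact ⟨h1, h2⟩

lemma pair_c (n : ℕ) : ∫⁻ y, ∫⁻ z, D2 (fun y : ℝ × E3 => vv n y.2) y z *
    ENNReal.ofReal (ff y z) ∂(mu n) ∂(mu n) = ENNReal.ofReal (cn n) := by
  have hD2 : Measurable fun p : (ℝ × E3) × (ℝ × E3) =>
      D2 (fun y : ℝ × E3 => vv n y.2) p.1 p.2 :=
    measurable_D2 ((measurable_vv n).comp measurable_snd)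
  have hF : Measurable fun p : (ℝ × E3) × (ℝ × E3) => ENNReal.ofReal (ff p.1 p.2) :=
    measurable_ff.ennreal_ofReal
  have hH : (0 : ℝ) ≤ (harmonic (n - 1) : ℝ) := harm_nonneg _
  have inner : ∀ᵐ y ∂(mu n), ∫⁻ z, D2 (fun y : ℝ × E3 => vv n y.2) y z *
      ENNReal.ofReal (ff y z) ∂(mu n) = (∫⁻ s, ENNReal.ofReal (bb y.1 s) ∂(rho n)) *
        ENNReal.ofReal ((n : ℝ) ^ 2 / 4 * (harmonic (n - 1) : ℝ)) := by
    filter_upwards [mu_ae n] with y hy
    have hm0 := (hD2.mul hF).comp (measurable_prodMk_left (x := y))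
    have hm : Measurable fun z : ℝ × E3 => D2 (fun y : ℝ × E3 => vv n y.2) y z *
      ENNReal.ofReal (ff y z) := hm0
    unfold mu
    rw [lintegral_prod _ hm.aemeasurable, ← lintegral_mul_const]
    · refine lintegral_congr_ae ?_
      filter_upwards [rho_ae n] with s hs
      have hb : 0 ≤ bb y.1 s := bb_nonneg hy.1.1 hs.1
      have := ang_int (n := n) hy.2 hb
      have e : ∀ w', D2 (fun y : ℝ × E3 => vv n y.2) y (s, w') = D2 (vv n) y.2 w' := fun _ => rfl
      simp only [e, ff]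
      rw [this, ← ENNReal.ofReal_mul (by positivity), ← ENNReal.ofReal_mul hb]
      congr 1
      ring
    · have : Measurable fun s => bb y.1 s := by unfold bb; fun_prop
      exact this.ennreal_ofReal
  rw [lintegral_congr_ae inner]
  have hmb : Measurable fun r => ∫⁻ s, ENNReal.ofReal (bb r s) ∂(rho n) := by
    have : Measurable fun p : ℝ × ℝ => ENNReal.ofReal (bb p.1 p.2) := measurable_bb.ennreal_ofReal
    exact this.lintegral_prod_right'
  have hm2 : Measurable fun y : ℝ × E3 => (∫⁻ s, ENNReal.ofReal (bb y.1 s) ∂(rho n)) :=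
    hmb.comp measurable_fst
  rw [lintegral_mul_const _ hm2]
  unfold mu
  rw [lintegral_prod _ hm2.aemeasurable]
  simp only [lintegral_const, measure_univ, mul_one]
  rw [E_bb, ← ENNReal.ofReal_mul (by positivity)]
  congr 1
  unfold cn
  field_simp
  ring

lemma phi_int {n : ℕ} (hn : 1 ≤ n) {w : E3} (hw : ‖w‖ = 1) {b : ℝ} (hb : 0 ≤ b) :
    ∫⁻ w', ENNReal.ofReal (b / (‖w - w'‖ ^ 2 + b)) ∂sig ≤
      ENNReal.ofReal (b / 2 * log n + 1 / (n : ℝ) ^ 2) := by
  have hn0 : (1 : ℝ) ≤ n := by exact_mod_cast hn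
  rcases hb.eq_or_lt with h0 | h0
  · rw [← h0]; simp
  have hz := zonal4 hw (h := fun a : ℝ => ENNReal.ofReal (b / (a + b))) (by fun_prop)
  rw [hz]
  have hpos : ∀ x ∈ Icc (0 : ℝ) 1, 0 < 4 * x + b := fun x hx => by linarith [hx.1]
  have hcont : ContinuousOn (fun x : ℝ => b / (4 * x + b)) (Icc 0 1) :=
    ContinuousOn.div (by fun_prop) (by fun_prop) (fun x hx => (hpos x hx).ne')
  rw [← ofReal_integral_eq_lintegral_ofReal, ← integral_Ioc_eq_integral_Ioo,
    ← intervalIntegral.integral_of_le zero_le_one]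
  · refine ENNReal.ofReal_le_ofReal ?_
    have hd : ∀ x ∈ uIcc (0 : ℝ) 1, HasDerivAt (fun x : ℝ => b / 4 * log (4 * x + b))
        (b / (4 * x + b)) x := by
      intro x hx
      rw [uIcc_of_le zero_le_one] at hx
      have a1 : HasDerivAt (fun x : ℝ => 4 * x + b) 4 x := by
        simpa using ((hasDerivAt_id x).const_mul 4).add_const b
      refine ((a1.log (hpos x hx).ne').const_mul (b / 4)).congr_deriv ?_
      have := (hpos x hx).ne'
      field_simp
    rw [intervalIntegral.integral_eq_sub_of_hasDerivAt hd]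
    · have h4 := log_le_sub_one_of_pos (show 0 < (4 + b) / (b * (n : ℝ) ^ 2) by positivity)
      rw [log_div (by positivity) (by positivity), log_mul h0.ne' (by positivity), log_pow] at h4
      push_cast at h4
      have h5 : b / 4 * log (4 * 1 + b) - b / 4 * log (4 * 0 + b) =
          b / 4 * (log (4 + b) - log b) := by
        rw [mul_one, mul_zero, zero_add]; ring
      rw [h5]
      have h6 : log (4 + b) - log b ≤ 2 * log n + ((4 + b) / (b * (n : ℝ) ^ 2) - 1) := by linarith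
      calc b / 4 * (log (4 + b) - log b) ≤
            b / 4 * (2 * log n + ((4 + b) / (b * (n : ℝ) ^ 2) - 1)) := by gcongr
        _ = b / 2 * log n + 1 / (n : ℝ) ^ 2 + (b / (n : ℝ) ^ 2 - b) / 4 := by
          field_simp
          ring
        _ ≤ _ := by
          have : b / (n : ℝ) ^ 2 ≤ b := div_le_self hb (by nlinarith)
          linarith
    · rw [intervalIntegrable_iff_integrableOn_Icc_of_le zero_le_one]
      exact hcont.integrableOn_Icc
  · exact hcont.integrableOn_Icc.mono_set Ioo_subset_Icc_self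
  · rw [Filter.EventuallyLE, ae_restrict_iff' measurableSet_Ioo]
    refine ae_of_all _ fun x hx => ?_
    have := hx.1
    simp only [Pi.zero_apply]
    positivity

lemma bb_le {r s : ℝ} (hr : r ∈ Ioo (0 : ℝ) 1) (hs : s ∈ Ioo (0 : ℝ) 1) :
    bb r s ≤ 4 * (pp r + pp s) := by
  have h1 := hr.1
  have h2 := hs.1
  have h3 : 0 < 1 - r := by linarith [hr.2]
  have h4 : 0 < 1 - s := by linarith [hs.2]
  have h5 : 4 * (pp r + pp s) - bb r s = (1 - r) * (1 - s) * (r + s) / (r * s) := by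
    unfold pp bb
    field_simp
    ring
  have h6 : 0 ≤ (1 - r) * (1 - s) * (r + s) / (r * s) := by positivity
  linarith

lemma D2_lower {n : ℕ} (hn : 1 ≤ n) {y z : ℝ × E3} (hy : y.2 ∈ Good) (hz : z.2 ∈ Good)
    (hb : 0 ≤ bb y.1 z.1) :
    D2 (fun y : ℝ × E3 => vv n y.2) y z * ENNReal.ofReal (ff y z) ≤
      D2 (fun y : ℝ × E3 => vv n y.2) y z * ENNReal.ofReal (ph y z) +
        ENNReal.ofReal ((n : ℝ) ^ 3 / 4 * (bb y.1 z.1 * ph y z)) := by
  have e : D2 (fun y : ℝ × E3 => vv n y.2) y z = D2 (vv n) y.2 z.2 := rfl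
  rw [e, D2_vv hy hz]
  set a := ‖y.2 - z.2‖ ^ 2 with ha
  have ha0 : 0 ≤ a := by positivity
  have ha4 : a ≤ 4 := by
    have hn2 : ‖y.2 - z.2‖ ≤ 2 := by
      calc ‖y.2 - z.2‖ ≤ ‖y.2‖ + ‖z.2‖ := norm_sub_le _ _
        _ = 2 := by rw [hy.1, hz.1]; norm_num
    nlinarith [norm_nonneg (y.2 - z.2)]
  set D := (n : ℝ) ^ 2 * (1 - (1 - a / 4) ^ (n - 1)) with hD
  have hD0 : 0 ≤ D := by
    have : (1 - a / 4) ^ (n - 1) ≤ 1 := pow_le_one₀ (by linarith) (by linarith)
    have h2 : 0 ≤ 1 - (1 - a / 4) ^ (n - 1) := by linarith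
    positivity
  have hDa : D ≤ (n : ℝ) ^ 3 / 4 * a := by
    have h1 := one_add_mul_le_pow (show (-2 : ℝ) ≤ -(a / 4) by linarith) (n - 1)
    have h2 : (1 + -(a / 4)) = 1 - a / 4 := by ring
    rw [h2] at h1
    have h3 : ((n - 1 : ℕ) : ℝ) ≤ n := by exact_mod_cast Nat.sub_le n 1
    have h4 : 1 - (1 - a / 4) ^ (n - 1) ≤ n * (a / 4) := by nlinarith
    calc D ≤ (n : ℝ) ^ 2 * (n * (a / 4)) := by rw [hD]; gcongr
      _ = _ := by ring
  have hAB : AB y z = a + bb y.1 z.1 := rfl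
  have hph0 : 0 ≤ ph y z := by
    unfold ph
    rw [hAB]
    positivity
  have hff0 : 0 ≤ ff y z := by
    unfold ff
    positivity
  rw [← ENNReal.ofReal_mul hD0, ← ENNReal.ofReal_mul hD0, ← ENNReal.ofReal_add (by positivity)
    (by positivity)]
  refine ENNReal.ofReal_le_ofReal ?_
  rcases ha0.eq_or_lt with h0 | h0
  · have : ff y z = 0 := by
      unfold ff
      rw [← ha, ← h0, div_zero]
    rw [this, mul_zero]
    positivity
  · have e1 : ff y z = ph y z + bb y.1 z.1 * ph y z / a := by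
      unfold ff ph
      rw [← ha, hAB]
      have : a + bb y.1 z.1 ≠ 0 := by positivity
      field_simp
    rw [e1, mul_add]
    refine add_le_add le_rfl ?_
    rw [mul_div_assoc', div_le_iff₀ h0]
    calc D * (bb y.1 z.1 * ph y z) ≤ ((n : ℝ) ^ 3 / 4 * a) * (bb y.1 z.1 * ph y z) := by gcongr
      _ = _ := by ring

lemma measurable_ph_left (y : ℝ × E3) : Measurable fun z => ph y z := by
  have := measurable_ph.comp (measurable_prodMk_left (x := y))
  exact this

lemma err_int {n : ℕ} (hn : 1 ≤ n) :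
    ∫⁻ y, ∫⁻ z, ENNReal.ofReal ((n : ℝ) ^ 3 / 4 * (bb y.1 z.1 * ph y z)) ∂(mu n) ∂(mu n) ≤
      ENNReal.ofReal ((16 * log n + 1 / 2) / n) := by
  have hn0 : (1 : ℝ) ≤ n := by exact_mod_cast hn
  have hL0 : 0 ≤ log (n : ℝ) := log_nonneg hn0
  have hpp := measurable_pp
  -- pointwise bound after angular integration
  have inner : ∀ᵐ y ∂(mu n),
      ∫⁻ z, ENNReal.ofReal ((n : ℝ) ^ 3 / 4 * (bb y.1 z.1 * ph y z)) ∂(mu n) ≤
      ∫⁻ s, (ENNReal.ofReal (4 * (n : ℝ) ^ 3 * log n) * (ENNReal.ofReal (pp y.1 ^ 2) +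
        ENNReal.ofReal (pp s ^ 2)) + ENNReal.ofReal (n / 4) * ENNReal.ofReal (bb y.1 s))
          ∂(rho n) := by
    filter_upwards [mu_ae n] with y hy
    have hm : Measurable fun z : ℝ × E3 =>
        ENNReal.ofReal ((n : ℝ) ^ 3 / 4 * (bb y.1 z.1 * ph y z)) := by
      have h1 := measurable_ph_left y
      have h2 : Measurable fun z : ℝ × E3 => bb y.1 z.1 := by unfold bb; fun_prop
      exact ((h2.mul h1).const_mul _).ennreal_ofReal
    have hswap : ∫⁻ z, ENNReal.ofReal ((n : ℝ) ^ 3 / 4 * (bb y.1 z.1 * ph y z)) ∂(mu n) =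
        ∫⁻ s, ∫⁻ w', ENNReal.ofReal ((n : ℝ) ^ 3 / 4 * (bb y.1 s * ph y (s, w'))) ∂sig
          ∂(rho n) := by
      unfold mu
      rw [lintegral_prod _ hm.aemeasurable]
    rw [hswap]
    refine lintegral_mono_ae ?_
    filter_upwards [rho_ae n] with s hs
    have hb : 0 ≤ bb y.1 s := bb_nonneg hy.1.1 hs.1
    have e1 : ∀ w', ENNReal.ofReal ((n : ℝ) ^ 3 / 4 * (bb y.1 s * ph y (s, w'))) =
        ENNReal.ofReal ((n : ℝ) ^ 3 / 4 * bb y.1 s) *
          ENNReal.ofReal (bb y.1 s / (‖y.2 - w'‖ ^ 2 + bb y.1 s)) := by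
      intro w'
      rw [← ENNReal.ofReal_mul (by positivity), ← mul_assoc]
      rfl
    simp only [e1]
    rw [lintegral_const_mul _ (by fun_prop)]
    calc _ ≤ ENNReal.ofReal ((n : ℝ) ^ 3 / 4 * bb y.1 s) *
          ENNReal.ofReal (bb y.1 s / 2 * log n + 1 / (n : ℝ) ^ 2) := by
          gcongr
          exact phi_int hn hy.2.1 hb
      _ = ENNReal.ofReal ((n : ℝ) ^ 3 / 8 * log n * bb y.1 s ^ 2 + n / 4 * bb y.1 s) := by
          rw [← ENNReal.ofReal_mul (by positivity)]
          congr 1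
          field_simp
          ring
      _ ≤ ENNReal.ofReal (4 * (n : ℝ) ^ 3 * log n * (pp y.1 ^ 2 + pp s ^ 2) +
            n / 4 * bb y.1 s) := by
          refine ENNReal.ofReal_le_ofReal ?_
          have h1 := bb_le hy.1 hs
          have p1 := pp_pos hy.1
          have p2 := pp_pos hs
          have h2 : bb y.1 s ^ 2 ≤ 32 * (pp y.1 ^ 2 + pp s ^ 2) := by
            calc bb y.1 s ^ 2 ≤ (4 * (pp y.1 + pp s)) ^ 2 := by gcongr
              _ ≤ _ := by nlinarith [sq_nonneg (pp y.1 - pp s)]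
          have h3 : (n : ℝ) ^ 3 / 8 * log n * bb y.1 s ^ 2 ≤
              (n : ℝ) ^ 3 / 8 * log n * (32 * (pp y.1 ^ 2 + pp s ^ 2)) := by gcongr
          linarith
      _ = _ := by
          rw [← ENNReal.ofReal_add (by positivity) (by positivity),
            ← ENNReal.ofReal_mul (by positivity), ← ENNReal.ofReal_mul (by positivity),
            ← ENNReal.ofReal_add (by positivity) (by positivity)]
  refine (lintegral_mono_ae inner).trans ?_
  -- radial integration
  have hmbb : ∀ r : ℝ, Measurable fun s => ENNReal.ofReal (bb r s) := fun r => by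
    unfold bb; fun_prop
  have hmE : Measurable fun r => ∫⁻ s, ENNReal.ofReal (bb r s) ∂(rho n) := by
    have : Measurable fun p : ℝ × ℝ => ENNReal.ofReal (bb p.1 p.2) := measurable_bb.ennreal_ofReal
    exact this.lintegral_prod_right'
  have e2 : ∀ r : ℝ, ∫⁻ s, (ENNReal.ofReal (4 * (n : ℝ) ^ 3 * log n) * (ENNReal.ofReal (pp r ^ 2) +
        ENNReal.ofReal (pp s ^ 2)) + ENNReal.ofReal (n / 4) * ENNReal.ofReal (bb r s)) ∂(rho n) =
      ENNReal.ofReal (4 * (n : ℝ) ^ 3 * log n) * (ENNReal.ofReal (pp r ^ 2) +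
        ∫⁻ s, ENNReal.ofReal (pp s ^ 2) ∂(rho n)) +
        ENNReal.ofReal (n / 4) * ∫⁻ s, ENNReal.ofReal (bb r s) ∂(rho n) := by
    intro r
    rw [lintegral_add_right _ ((hmbb r).const_mul _), lintegral_const_mul _ (by fun_prop),
      lintegral_const_mul _ (hmbb r), lintegral_add_left measurable_const, lintegral_const,
      measure_univ, mul_one]
  simp only [e2]
  have e3 : ∫⁻ y : ℝ × E3, (ENNReal.ofReal (4 * (n : ℝ) ^ 3 * log n) *
      (ENNReal.ofReal (pp y.1 ^ 2) + ∫⁻ s, ENNReal.ofReal (pp s ^ 2) ∂(rho n)) +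
        ENNReal.ofReal (n / 4) * ∫⁻ s, ENNReal.ofReal (bb y.1 s) ∂(rho n)) ∂(mu n) =
      ∫⁻ r, (ENNReal.ofReal (4 * (n : ℝ) ^ 3 * log n) *
      (ENNReal.ofReal (pp r ^ 2) + ∫⁻ s, ENNReal.ofReal (pp s ^ 2) ∂(rho n)) +
        ENNReal.ofReal (n / 4) * ∫⁻ s, ENNReal.ofReal (bb r s) ∂(rho n)) ∂(rho n) := by
    unfold mu
    rw [lintegral_prod]
    · simp only [lintegral_const, measure_univ, mul_one]
    · exact ((((hpp.pow_const 2).ennreal_ofReal.add_const _).const_mul _).add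
        (hmE.const_mul _) |>.comp measurable_fst).aemeasurable
  rw [e3, lintegral_add_right _ (hmE.const_mul _), lintegral_const_mul _ (by fun_prop),
    lintegral_const_mul _ hmE, lintegral_add_right _ measurable_const, lintegral_const,
    measure_univ, mul_one, E_bb]
  calc _ ≤ ENNReal.ofReal (4 * (n : ℝ) ^ 3 * log n) * (ENNReal.ofReal (2 / (n : ℝ) ^ 4) +
        ENNReal.ofReal (2 / (n : ℝ) ^ 4)) + ENNReal.ofReal (n / 4) *
          ENNReal.ofReal (2 / (((n : ℝ) + 1) * ((n : ℝ) + 3))) := by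
        gcongr <;> exact E_pp_sq n hn
    _ = ENNReal.ofReal (4 * (n : ℝ) ^ 3 * log n * (2 / (n : ℝ) ^ 4 + 2 / (n : ℝ) ^ 4) +
          n / 4 * (2 / (((n : ℝ) + 1) * ((n : ℝ) + 3)))) := by
        rw [← ENNReal.ofReal_add (by positivity) (by positivity),
            ← ENNReal.ofReal_mul (by positivity), ← ENNReal.ofReal_mul (by positivity),
            ← ENNReal.ofReal_add (by positivity) (by positivity)]
    _ ≤ _ := by
        refine ENNReal.ofReal_le_ofReal ?_
        have h1 : 4 * (n : ℝ) ^ 3 * log n * (2 / (n : ℝ) ^ 4 + 2 / (n : ℝ) ^ 4) =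
            16 * log n / n := by
          field_simp
          ring
        have h2 : (n : ℝ) / 4 * (2 / (((n : ℝ) + 1) * ((n : ℝ) + 3))) ≤ (1 / 2) / n := by
          rw [div_mul_div_comm, div_le_div_iff₀ (by positivity) (by positivity)]
          nlinarith
        rw [h1, add_div]
        linarith

lemma pair_lower {n : ℕ} (hn : 1 ≤ n) : ENNReal.ofReal (cn n) ≤
    ∫⁻ y, ∫⁻ z, D2 (fun y : ℝ × E3 => vv n y.2) y z * ENNReal.ofReal (ph y z) ∂(mu n) ∂(mu n) +
      ENNReal.ofReal ((16 * log n + 1 / 2) / n) := by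
  have hD2 : Measurable fun p : (ℝ × E3) × (ℝ × E3) =>
      D2 (fun y : ℝ × E3 => vv n y.2) p.1 p.2 :=
    measurable_D2 ((measurable_vv n).comp measurable_snd)
  have hP : Measurable fun p : (ℝ × E3) × (ℝ × E3) => ENNReal.ofReal (ph p.1 p.2) :=
    measurable_ph.ennreal_ofReal
  have hDP := hD2.mul hP
  have hDP2 := hDP.lintegral_prod_right' (ν := mu n)
  rw [← pair_c]
  calc _ ≤ ∫⁻ y, (∫⁻ z, D2 (fun y : ℝ × E3 => vv n y.2) y z * ENNReal.ofReal (ph y z) ∂(mu n) +
        ∫⁻ z, ENNReal.ofReal ((n : ℝ) ^ 3 / 4 * (bb y.1 z.1 * ph y z)) ∂(mu n)) ∂(mu n) := by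
        refine lintegral_mono_ae ?_
        filter_upwards [mu_ae n] with y hy
        have hm1 := hDP.comp (measurable_prodMk_left (x := y))
        have hm2 : Measurable fun z : ℝ × E3 =>
            D2 (fun y : ℝ × E3 => vv n y.2) y z * ENNReal.ofReal (ph y z) := hm1
        rw [← lintegral_add_left hm2]
        refine lintegral_mono_ae ?_
        filter_upwards [mu_ae n] with z hz
        exact D2_lower hn hy.2 hz.2 (bb_nonneg hy.1.1 hz.1.1)
    _ = _ := by
        have hDP3 : Measurable fun y : ℝ × E3 => ∫⁻ z, D2 (fun y : ℝ × E3 => vv n y.2) y z *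
          ENNReal.ofReal (ph y z) ∂(mu n) := hDP2
        rw [lintegral_add_left hDP3]
    _ ≤ _ := by
        gcongr
        exact err_int hn

end Pool.Agent.Helper44.Ball3
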