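import Mathlib
import Pool.Agent.Helper44.Ball3.Pair
import Pool.Agent.Helper44.Ball3.Comb

set_option autoImplicit false
set_option maxHeartbeats 4000000
set_option synthInstance.maxHeartbeats 400000

open MeasureTheory Set Real
open scoped ENNReal InnerProductSpace

namespace Pool.Agent.Helper44.Ball3

/-- State space of a point together with its smoothed direction. -/
abbrev ZZ := (ℝ × E3) × E3

/-- Weight of the joint law. -/
noncomputable def WW (m : ℕ) (z : ZZ) : ℝ≥0∞ :=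
  ENNReal.ofReal (exp ((m : ℝ) * Lam z.1.1)) * ENNReal.ofReal (KK z.1.1 z.1.2 z.2)

/-- Joint law. -/
noncomputable def kap (m : ℕ) : Measure ZZ :=
  ((mu (m + 1)).prod sig).withDensity fun z => (JJ m)⁻¹ * WW m z

lemma measurable_KK3 : Measurable fun z : ZZ => KK z.1.1 z.1.2 z.2 := by
  unfold KK
  have h1 : Measurable fun z : ZZ => ⟪z.1.2, z.2⟫_ℝ :=
    (measurable_snd.comp measurable_fst).inner measurable_snd
  have h2 : Measurable fun z : ZZ => z.1.1 := measurable_fst.comp measurable_fst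
  exact ((measurable_const.sub (h2.pow_const 2)).pow_const 2).div
    (((measurable_const.add (h2.pow_const 2)).sub ((h2.const_mul 2).mul h1)).pow_const 2)

lemma measurable_WW (m : ℕ) : Measurable (WW m) := by
  unfold WW
  have h2 : Measurable fun z : ZZ => z.1.1 := measurable_fst.comp measurable_fst
  exact (((measurable_Lam.comp h2).const_mul _).exp.ennreal_ofReal).mul
    measurable_KK3.ennreal_ofReal

lemma lintegral_kap (m : ℕ) {F : ZZ → ℝ≥0∞} (hF : Measurable F) :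
    ∫⁻ z, F z ∂(kap m) = (JJ m)⁻¹ * ∫⁻ y, ∫⁻ x, WW m (y, x) * F (y, x) ∂sig ∂(mu (m + 1)) := by
  unfold kap
  have h1 := (measurable_WW m)
  rw [lintegral_withDensity_eq_lintegral_mul _ (h1.const_mul _) hF]
  have h2 : ∀ z, ((fun z => (JJ m)⁻¹ * WW m z) * F) z = (JJ m)⁻¹ * (WW m z * F z) := by
    intro z
    simp only [Pi.mul_apply]
    rw [mul_assoc]
  simp only [h2]
  have h3 : Measurable fun z : ZZ => WW m z * F z := h1.mul hF
  rw [lintegral_const_mul _ h3, lintegral_prod _ h3.aemeasurable]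

lemma KK_mass_symm {r : ℝ} (hr : r ∈ Ioo (0 : ℝ) 1) {x : E3} (hx : ‖x‖ = 1) :
    ∫⁻ w, ENNReal.ofReal (KK r w x) ∂sig = 1 := by
  have := KK_mass hr hx
  rw [← this]
  refine lintegral_congr fun w => ?_
  rw [KK_symm]

lemma kap_int_y (m : ℕ) {F : ℝ × E3 → ℝ≥0∞} (hF : Measurable F) :
    ∫⁻ z, F z.1 ∂(kap m) =
      (JJ m)⁻¹ * ∫⁻ y, ENNReal.ofReal (exp ((m : ℝ) * Lam y.1)) * F y ∂(mu (m + 1)) := by
  rw [lintegral_kap m (F := fun z => F z.1) (hF.comp measurable_fst)]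
  congr 1
  refine lintegral_congr_ae ?_
  filter_upwards [mu_ae (m + 1)] with y hy
  have e1 : ∀ x, WW m (y, x) * F (y, x).1 =
      (ENNReal.ofReal (exp ((m : ℝ) * Lam y.1)) * F y) * ENNReal.ofReal (KK y.1 y.2 x) := by
    intro x
    unfold WW
    ring
  simp only [e1]
  rw [lintegral_const_mul _ (measurable_KK y.1 y.2).ennreal_ofReal, KK_mass hy.1 hy.2.1, mul_one]

lemma mu_int_r (n : ℕ) {g : ℝ → ℝ≥0∞} (hg : Measurable g) :
    ∫⁻ y, g y.1 ∂(mu n) = ∫⁻ r, g r ∂(rho n) := by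
  unfold mu
  have h3 : Measurable fun y : ℝ × E3 => g y.1 := hg.comp measurable_fst
  rw [lintegral_prod _ h3.aemeasurable]
  simp

lemma kap_int_x {m : ℕ} (hm : 1 ≤ m) {F : E3 → ℝ≥0∞} (hF : Measurable F) :
    ∫⁻ z, F z.2 ∂(kap m) = ∫⁻ x, F x ∂sig := by
  rw [lintegral_kap m (F := fun z => F z.2) (hF.comp measurable_snd)]
  have hmW : Measurable fun p : (ℝ × E3) × E3 => WW m p * F p.2 :=
    (measurable_WW m).mul (hF.comp measurable_snd)
  -- integrate in the order radius, target, source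
  have e1 : ∫⁻ y, ∫⁻ x, WW m (y, x) * F (y, x).2 ∂sig ∂(mu (m + 1)) =
      ∫⁻ r, ∫⁻ w, ∫⁻ x, WW m ((r, w), x) * F x ∂sig ∂sig ∂(rho (m + 1)) := by
    have h1 := hmW.lintegral_prod_right' (ν := sig)
    unfold mu
    rw [lintegral_prod _ h1.aemeasurable]
  rw [e1]
  have e2 : ∀ᵐ r ∂(rho (m + 1)), ∫⁻ w, ∫⁻ x, WW m ((r, w), x) * F x ∂sig ∂sig =
      ENNReal.ofReal (exp ((m : ℝ) * Lam r)) * ∫⁻ x, F x ∂sig := by
    filter_upwards [rho_ae (m + 1)] with r hr
    have h2 : Measurable fun p : E3 × E3 => WW m ((r, p.1), p.2) * F p.2 := by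
      have h3 : Measurable fun p : E3 × E3 => (((r, p.1), p.2) : ZZ) :=
        (measurable_const.prodMk measurable_fst).prodMk measurable_snd
      have h4 := hmW.comp h3
      exact h4
    have h5 : ∫⁻ w, ∫⁻ x, WW m ((r, w), x) * F x ∂sig ∂sig =
        ∫⁻ x, ∫⁻ w, WW m ((r, w), x) * F x ∂sig ∂sig :=
      lintegral_lintegral_swap (f := fun w x => WW m ((r, w), x) * F x) h2.aemeasurable
    rw [h5, ← lintegral_const_mul _ hF]
    refine lintegral_congr_ae ?_
    filter_upwards [ae_norm] with x hx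
    have h6 : ∀ w, WW m ((r, w), x) * F x =
        (ENNReal.ofReal (exp ((m : ℝ) * Lam r)) * F x) * ENNReal.ofReal (KK r w x) := by
      intro w
      unfold WW
      ring
    simp only [h6]
    have h7 : Measurable fun w => ENNReal.ofReal (KK r w x) := by
      have : ∀ w, KK r w x = KK r x w := fun w => KK_symm r w x
      simp only [this]
      exact (measurable_KK r x).ennreal_ofReal
    rw [lintegral_const_mul _ h7, KK_mass_symm hr hx, mul_one]
  have hme : Measurable fun r => ENNReal.ofReal (exp ((m : ℝ) * Lam r)) :=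
    ((measurable_Lam.const_mul _).exp).ennreal_ofReal
  rw [lintegral_congr_ae e2, lintegral_mul_const _ hme]
  have h8 : ∫⁻ r, ENNReal.ofReal (exp ((m : ℝ) * Lam r)) ∂(rho (m + 1)) = JJ m := rfl
  rw [h8, ← mul_assoc, ENNReal.inv_mul_cancel (JJ_ne_zero m) (JJ_ne_top hm), one_mul]

lemma kap_prob {m : ℕ} (hm : 1 ≤ m) : IsProbabilityMeasure (kap m) := by
  constructor
  have h := kap_int_x hm (F := fun _ => 1) measurable_const
  simpa using h

lemma kap_iso {m : ℕ} (hm : 1 ≤ m) (n : ℕ) : Isotropic (kap m) (fun z : ZZ => vv n z.2) := by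
  intro u
  have h1 := isotropic_vv n u
  rw [← h1]
  have hmm : Measurable fun w : E3 => ENNReal.ofReal (‖⟪u, vv n w⟫_ℂ‖ ^ 2) :=
    ENNReal.measurable_ofReal.comp ((measurable_const.inner (measurable_vv n)).norm.pow_const 2)
  exact kap_int_x hm hmm

lemma kap_ae {m : ℕ} : ∀ᵐ z ∂(kap m), (z.1.1 ∈ Ioo (0 : ℝ) 1 ∧ z.1.2 ∈ Good) ∧ z.2 ∈ Good := by
  have hac : kap m ≪ (mu (m + 1)).prod sig := withDensity_absolutelyContinuous _ _
  refine hac.ae_le ?_
  have h1 : ∀ᵐ z ∂((mu (m + 1)).prod sig), (z.1.1 ∈ Ioo (0 : ℝ) 1 ∧ z.1.2 ∈ Good) :=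
    Measure.quasiMeasurePreserving_fst.ae (mu_ae (m + 1))
  have h2 : ∀ᵐ z ∂((mu (m + 1)).prod sig), z.2 ∈ Good :=
    Measure.quasiMeasurePreserving_snd.ae ae_good
  filter_upwards [h1, h2] with z h1 h2
  exact ⟨h1, h2⟩

lemma ae_pi {ι : Type*} [Fintype ι] {Z : Type*} [MeasurableSpace Z] {ν : ι → Measure Z}
    [∀ i, IsProbabilityMeasure (ν i)] {p : Z → Prop} (h : ∀ i, ∀ᵐ z ∂(ν i), p z) :
    ∀ᵐ z ∂(Measure.pi ν), ∀ i, p (z i) := by
  rw [ae_all_iff]
  intro i
  exact (Measure.quasiMeasurePreserving_eval ν i).ae (h i)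

lemma three_bound' {V : Type*} [NormedAddCommGroup V] [InnerProductSpace ℂ V]
    [FiniteDimensional ℂ V] [MeasurableSpace V] [BorelSpace V]
    {Y : Type*} [MeasurableSpace Y] {μ : Measure Y} [IsProbabilityMeasure μ]
    {δ : Type*} [DecidableEq δ] [Fintype δ]
    {v : Y → V} (hv : Measurable v) (hiso : Isotropic μ v)
    (hcard : Module.finrank ℂ V = Fintype.card δ) (M : ℝ) (hM : ∀ᵐ s ∂μ, ‖v s‖ ^ 2 ≤ M)
    {A : Finset δ} {G : (δ → Y) → ℝ≥0∞} (hG : Measurable G)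
    (hGA : ∀ i, i ∉ A → ∀ y t, G (Function.update y i t) = G y) :
    ∫⁻ y, DD v Finset.univ y * G y ∂(Measure.pi fun _ : δ => μ) ≤
      (((Fintype.card δ - A.card).factorial : ℕ) : ℝ≥0∞) * ENNReal.ofReal (M ^ A.card) *
        ∫⁻ y, G y ∂(Measure.pi fun _ : δ => μ) := by
  rw [marginal_univ hv hiso hcard hG hGA, mul_assoc, ← lintegral_const_mul _ hG]
  refine mul_le_mul' le_rfl ?_
  refine lintegral_mono_ae ?_
  filter_upwards [ae_pi (ν := fun _ : δ => μ) (p := fun s => ‖v s‖ ^ 2 ≤ M) (fun _ => hM)] with y hy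
  refine mul_le_mul' ?_ le_rfl
  unfold DD
  refine ENNReal.ofReal_le_ofReal ((gdF_le_prod _ _).trans ?_)
  calc ∏ i ∈ A, ‖v (y i)‖ ^ 2 ≤ ∏ _i ∈ A, M :=
        Finset.prod_le_prod (fun _ _ => by positivity) (fun i _ => hy i)
    _ = M ^ A.card := Finset.prod_const _

lemma triple_int {Y : Type*} [MeasurableSpace Y] {μ : Measure Y} [IsProbabilityMeasure μ]
    {δ : Type*} [DecidableEq δ] [Fintype δ] {i j k : δ} (hij : i ≠ j) (hik : i ≠ k) (hjk : j ≠ k)
    {g : Y → Y → ℝ≥0∞} (hg : Measurable (Function.uncurry g)) :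
    ∫⁻ y, g (y i) (y j) * g (y i) (y k) ∂(Measure.pi fun _ : δ => μ) =
      ∫⁻ s, (∫⁻ t, g s t ∂μ) ^ 2 ∂μ := by
  have hm0 : ∀ a b : δ, Measurable fun y : δ → Y => g (y a) (y b) := fun a b => by
    have h1 : Measurable fun y : δ → Y => (y a, y b) :=
      (measurable_pi_apply a).prodMk (measurable_pi_apply b)
    have h2 := hg.comp h1
    exact h2
  have hm2 : Measurable fun s : Y => ∫⁻ t, g s t ∂μ := hg.lintegral_prod_right'
  have hm3 : Measurable fun y : δ → Y => ∫⁻ t, g (y i) t ∂μ := hm2.comp (measurable_pi_apply i)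
  have hgs : ∀ s, Measurable fun t => g s t := fun s => by
    have h1 := hg.comp (measurable_prodMk_left (x := s))
    exact h1
  have s1 : ∫⁻ y, g (y i) (y j) * g (y i) (y k) ∂(Measure.pi fun _ : δ => μ) =
      ∫⁻ y, g (y i) (y j) * ∫⁻ t, g (y i) t ∂μ ∂(Measure.pi fun _ : δ => μ) := by
    refine lintegral_eq_of_lmarginal_eq {k} ((hm0 i j).mul (hm0 i k)) ((hm0 i j).mul hm3) ?_
    rw [lmarginal_singleton, lmarginal_singleton]
    funext y
    simp only [Function.update_self, Function.update_of_ne hik, Function.update_of_ne hjk]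
    rw [lintegral_const_mul _ (hgs _)]
    simp
  have s2 : ∫⁻ y, g (y i) (y j) * ∫⁻ t, g (y i) t ∂μ ∂(Measure.pi fun _ : δ => μ) =
      ∫⁻ y, (∫⁻ t, g (y i) t ∂μ) * ∫⁻ t, g (y i) t ∂μ ∂(Measure.pi fun _ : δ => μ) := by
    refine lintegral_eq_of_lmarginal_eq {j} ((hm0 i j).mul hm3) (hm3.mul hm3) ?_
    rw [lmarginal_singleton, lmarginal_singleton]
    funext y
    simp only [Function.update_self, Function.update_of_ne hij]
    rw [lintegral_mul_const _ (hgs _)]
    simp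
  have s3 : ∫⁻ y, (∫⁻ t, g (y i) t ∂μ) * ∫⁻ t, g (y i) t ∂μ ∂(Measure.pi fun _ : δ => μ) =
      ∫⁻ _y, (∫⁻ s, (∫⁻ t, g s t ∂μ) ^ 2 ∂μ) ∂(Measure.pi fun _ : δ => μ) := by
    refine lintegral_eq_of_lmarginal_eq {i} (hm3.mul hm3) measurable_const ?_
    rw [lmarginal_singleton, lmarginal_singleton]
    funext y
    simp only [Function.update_self]
    simp [sq]
  rw [s1, s2, s3]
  simp

end Pool.Agent.Helper44.Ball3
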