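import Mathlib
import Pool.Agent.Helper44.Ball3.Cherry

set_option autoImplicit false
set_option maxHeartbeats 4000000
set_option synthInstance.maxHeartbeats 400000

open MeasureTheory Set Real
open scoped ENNReal InnerProductSpace

namespace Pool.Agent.Helper44.Ball3

/-- The squared normalised Vandermonde product of directions. -/
noncomputable def QQ (n : ℕ) (x : Fin n → E3) : ℝ≥0∞ :=
  ENNReal.ofReal (∏ e ∈ edges n, ‖x e.1 - x e.2‖ ^ 2 / 4)

/-- The product of pair functions. -/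
noncomputable def PA (n : ℕ) (y : Fin n → ℝ × E3) : ℝ≥0∞ :=
  ENNReal.ofReal (∏ e ∈ edges n, AB (y e.1) (y e.2) / 4)

/-- The constant relating determinant and product. -/
noncomputable def Kc (n : ℕ) : ℝ≥0∞ := ENNReal.ofReal (∏ k : Fin n, cc n k ^ 2)

lemma measurable_QQ (n : ℕ) : Measurable (QQ n) := by
  unfold QQ
  refine ENNReal.measurable_ofReal.comp ?_
  refine Finset.measurable_fun_prod _ fun e _ => ?_
  fun_prop

lemma measurable_PA (n : ℕ) : Measurable (PA n) := by
  unfold PA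
  refine ENNReal.measurable_ofReal.comp ?_
  refine Finset.measurable_fun_prod _ fun e _ => ?_
  have h1 : Measurable fun y : Fin n → ℝ × E3 => (y e.1, y e.2) :=
    (measurable_pi_apply e.1).prodMk (measurable_pi_apply e.2)
  have h2 := (measurable_AB.comp h1).div_const 4
  exact h2

lemma prod_edges {n : ℕ} (g : Fin n → Fin n → ℝ) :
    ∏ i : Fin n, ∏ j ∈ Finset.Ioi i, g i j = ∏ e ∈ edges n, g e.1 e.2 := by
  unfold edges
  rw [Finset.prod_filter, Fintype.prod_prod_type]
  refine Finset.prod_congr rfl fun i _ => ?_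
  rw [← Finset.prod_filter]
  refine Finset.prod_congr ?_ fun _ _ => rfl
  ext j
  simp

lemma DD_eq {n : ℕ} {Y : Type*} {d : Y → E3} {z : Fin n → Y} (hz : ∀ i, d (z i) ∈ Good) :
    DD (fun s : Y => vv n (d s)) Finset.univ z = Kc n * QQ n (fun i => d (z i)) := by
  unfold DD
  rw [gdF_univ]
  have h := gd_vv (n := n) (w := fun i => d (z i)) hz
  have h2 : gd (fun i => vv n (d (z i))) = (∏ k : Fin n, cc n k ^ 2) *
      ∏ e ∈ edges n, ‖d (z e.1) - d (z e.2)‖ ^ 2 / 4 := by
    rw [h, prod_edges (fun i j => ‖d (z j) - d (z i)‖ ^ 2 / 4)]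
    congr 1
    refine Finset.prod_congr rfl fun e _ => ?_
    rw [norm_sub_rev]
  rw [h2, ENNReal.ofReal_mul (Finset.prod_nonneg fun k _ => sq_nonneg _)]
  rfl

lemma pi_kap {m : ℕ} (hm : 1 ≤ m) {F : (Fin (m + 1) → ZZ) → ℝ≥0∞} (hF : Measurable F) :
    ∫⁻ z, F z ∂(Measure.pi fun _ : Fin (m + 1) => kap m) =
      ∫⁻ z, (∏ i, ((JJ m)⁻¹ * WW m (z i))) * F z
        ∂(Measure.pi fun _ : Fin (m + 1) => (mu (m + 1)).prod sig) := by
  have hp := kap_prob hm
  have hs : SigmaFinite (((mu (m + 1)).prod sig).withDensity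
      fun z => (JJ m)⁻¹ * WW m z) := by
    have : IsProbabilityMeasure (((mu (m + 1)).prod sig).withDensity
      fun z => (JJ m)⁻¹ * WW m z) := hp
    infer_instance
  have h := pi_withDensity (fun _ : Fin (m + 1) => (mu (m + 1)).prod sig)
    (f := fun _ z => (JJ m)⁻¹ * WW m z) (fun _ => (measurable_WW m).const_mul _)
  have h2 : (Measure.pi fun _ : Fin (m + 1) => kap m) =
      (Measure.pi fun _ : Fin (m + 1) => (mu (m + 1)).prod sig).withDensity
        (fun y => ∏ i, ((JJ m)⁻¹ * WW m (y i))) := h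
  rw [h2, lintegral_withDensity_eq_lintegral_mul _ _ hF]
  · rfl
  · refine Finset.measurable_fun_prod _ fun i _ => ?_
    exact ((measurable_WW m).comp (measurable_pi_apply i)).const_mul _

lemma pi_nu {n : ℕ} {y : Fin n → ℝ × E3} (h1 : ∀ i, (y i).1 ∈ Ioo (0 : ℝ) 1)
    (h2 : ∀ i, ‖(y i).2‖ = 1) {F : (Fin n → E3) → ℝ≥0∞} (hF : Measurable F) :
    ∫⁻ x, F x ∂(Measure.pi fun i => nu (y i)) =
      ∫⁻ x, (∏ i, ENNReal.ofReal (KK (y i).1 (y i).2 (x i))) * F x
        ∂(Measure.pi fun _ : Fin n => sig) := by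
  have hp : ∀ i, IsProbabilityMeasure (nu (y i)) := fun i => nu_prob (h1 i) (h2 i)
  have hs : ∀ i : Fin n, SigmaFinite (sig.withDensity
      fun x => ENNReal.ofReal (KK (y i).1 (y i).2 x)) := fun i => by
    have : IsProbabilityMeasure (sig.withDensity
      fun x => ENNReal.ofReal (KK (y i).1 (y i).2 x)) := hp i
    infer_instance
  have h := pi_withDensity (fun _ : Fin n => sig)
    (f := fun i x => ENNReal.ofReal (KK (y i).1 (y i).2 x))
    (fun i => (measurable_KK (y i).1 (y i).2).ennreal_ofReal)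
  have h2 : (Measure.pi fun i : Fin n => nu (y i)) =
      (Measure.pi fun _ : Fin n => sig).withDensity
        (fun x => ∏ i, ENNReal.ofReal (KK (y i).1 (y i).2 (x i))) := h
  rw [h2, lintegral_withDensity_eq_lintegral_mul _ _ hF]
  · rfl
  · refine Finset.measurable_fun_prod _ fun i _ => ?_
    exact ((measurable_KK (y i).1 (y i).2).comp (measurable_pi_apply i)).ennreal_ofReal

lemma arrow_int (n : ℕ) {H : (Fin n → ℝ × E3) × (Fin n → E3) → ℝ≥0∞} (hH : Measurable H) :
    ∫⁻ z, H (fun i => (z i).1, fun i => (z i).2)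
      ∂(Measure.pi fun _ : Fin n => (mu n).prod sig) =
    ∫⁻ y, ∫⁻ x, H (y, x) ∂(Measure.pi fun _ : Fin n => sig)
      ∂(Measure.pi fun _ : Fin n => mu n) := by
  have hmp := measurePreserving_arrowProdEquivProdArrow (ℝ × E3) E3 (Fin n) (fun _ => mu n)
    (fun _ => sig)
  have h1 := hmp.lintegral_comp hH
  rw [lintegral_prod _ hH.aemeasurable] at h1
  exact h1

/-- Comparison of the radial model with the determinantal one. -/
lemma star {m : ℕ} (hm : 1 ≤ m) {G : (Fin (m + 1) → ℝ × E3) → ℝ≥0∞} (hG : Measurable G) :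
    Kc (m + 1) * ∫⁻ y, G y * PA (m + 1) y ∂(Measure.pi fun _ : Fin (m + 1) => mu (m + 1)) ≤
      JJ m ^ (m + 1) * ∫⁻ z, DD (fun z : ZZ => vv (m + 1) z.2) Finset.univ z *
        G (fun i => (z i).1) ∂(Measure.pi fun _ : Fin (m + 1) => kap m) := by
  have hp := kap_prob hm
  have hGz : Measurable fun z : Fin (m + 1) → ZZ => G (fun i => (z i).1) := by
    have h1 : Measurable fun z : Fin (m + 1) → ZZ => (fun i => (z i).1) :=
      measurable_pi_lambda _ fun i => measurable_fst.comp (measurable_pi_apply i)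
    exact hG.comp h1
  have hQz : Measurable fun z : Fin (m + 1) → ZZ => QQ (m + 1) (fun i => (z i).2) := by
    have h1 : Measurable fun z : Fin (m + 1) → ZZ => (fun i => (z i).2) :=
      measurable_pi_lambda _ fun i => measurable_snd.comp (measurable_pi_apply i)
    exact (measurable_QQ _).comp h1
  have e1 : ∫⁻ z, DD (fun z : ZZ => vv (m + 1) z.2) Finset.univ z *
        G (fun i => (z i).1) ∂(Measure.pi fun _ : Fin (m + 1) => kap m) =
      ∫⁻ z, (Kc (m + 1) * QQ (m + 1) (fun i => (z i).2)) *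
        G (fun i => (z i).1) ∂(Measure.pi fun _ : Fin (m + 1) => kap m) := by
    refine lintegral_congr_ae ?_
    filter_upwards [ae_pi (ν := fun _ : Fin (m + 1) => kap m)
      (p := fun z => z.2 ∈ Good) (fun _ => kap_ae.mono fun _ h => h.2)] with z hz
    rw [DD_eq (d := fun z : ZZ => z.2) hz]
  have hmF : Measurable fun z : Fin (m + 1) → ZZ =>
      (Kc (m + 1) * QQ (m + 1) (fun i => (z i).2)) * G (fun i => (z i).1) :=
    (hQz.const_mul _).mul hGz
  rw [e1, pi_kap hm hmF]
  have e2 : ∀ z : Fin (m + 1) → ZZ, (∏ i, ((JJ m)⁻¹ * WW m (z i))) *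
      ((Kc (m + 1) * QQ (m + 1) (fun i => (z i).2)) * G (fun i => (z i).1)) =
      (JJ m)⁻¹ ^ (m + 1) * ((∏ i, WW m ((z i).1, (z i).2)) *
        ((Kc (m + 1) * QQ (m + 1) (fun i => (z i).2)) * G (fun i => (z i).1))) := by
    intro z
    rw [Finset.prod_mul_distrib, Finset.prod_const, Finset.card_univ, Fintype.card_fin, mul_assoc]
  simp only [e2]
  set H : (Fin (m + 1) → ℝ × E3) × (Fin (m + 1) → E3) → ℝ≥0∞ := fun p =>
    (∏ i, WW m (p.1 i, p.2 i)) * ((Kc (m + 1) * QQ (m + 1) p.2) * G p.1) with hH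
  have hWm : Measurable fun p : (Fin (m + 1) → ℝ × E3) × (Fin (m + 1) → E3) =>
      ∏ i, WW m (p.1 i, p.2 i) := by
    refine Finset.measurable_fun_prod _ fun i _ => ?_
    have h1 : Measurable fun p : (Fin (m + 1) → ℝ × E3) × (Fin (m + 1) → E3) =>
        ((p.1 i, p.2 i) : ZZ) :=
      ((measurable_pi_apply i).comp measurable_fst).prodMk
        ((measurable_pi_apply i).comp measurable_snd)
    exact (measurable_WW m).comp h1
  have hHm : Measurable H :=
    hWm.mul ((((measurable_QQ _).comp measurable_snd).const_mul _).mul (hG.comp measurable_fst))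
  have e3 : ∫⁻ z, (JJ m)⁻¹ ^ (m + 1) * ((∏ i, WW m ((z i).1, (z i).2)) *
        ((Kc (m + 1) * QQ (m + 1) (fun i => (z i).2)) * G (fun i => (z i).1)))
        ∂(Measure.pi fun _ : Fin (m + 1) => (mu (m + 1)).prod sig) =
      (JJ m)⁻¹ ^ (m + 1) * ∫⁻ y, ∫⁻ x, H (y, x) ∂(Measure.pi fun _ : Fin (m + 1) => sig)
        ∂(Measure.pi fun _ : Fin (m + 1) => mu (m + 1)) := by
    rw [← arrow_int (m + 1) hHm]
    have hc : Measurable fun z : Fin (m + 1) → ZZ => H (fun i => (z i).1, fun i => (z i).2) := by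
      have h1 : Measurable fun z : Fin (m + 1) → ZZ =>
          ((fun i => (z i).1, fun i => (z i).2) :
            (Fin (m + 1) → ℝ × E3) × (Fin (m + 1) → E3)) :=
        (measurable_pi_lambda _ fun i => measurable_fst.comp (measurable_pi_apply i)).prodMk
          (measurable_pi_lambda _ fun i => measurable_snd.comp (measurable_pi_apply i))
      exact hHm.comp h1
    rw [← lintegral_const_mul _ hc]
  have hGP : Measurable fun y => G y * PA (m + 1) y := hG.mul (measurable_PA _)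
  rw [e3, ← mul_assoc, ← mul_pow, ENNReal.mul_inv_cancel (JJ_ne_zero m) (JJ_ne_top hm), one_pow,
    one_mul, ← lintegral_const_mul _ hGP]
  refine lintegral_mono_ae ?_
  filter_upwards [ae_pi (ν := fun _ : Fin (m + 1) => mu (m + 1))
      (p := fun y => y.1 ∈ Ioo (0 : ℝ) 1 ∧ y.2 ∈ Good) (fun _ => mu_ae (m + 1))] with y hy
  have h1 : ∀ i, (y i).1 ∈ Ioo (0 : ℝ) 1 := fun i => (hy i).1
  have h2 : ∀ i, ‖(y i).2‖ = 1 := fun i => (hy i).2.1
  have hs := smoothing h1 h2
  have hQm := measurable_QQ (m + 1)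
  have e4 := pi_nu h1 h2 hQm
  have hQ' : (fun x : Fin (m + 1) → E3 =>
      ENNReal.ofReal (∏ e ∈ edges (m + 1), ‖x e.1 - x e.2‖ ^ 2 / 4)) = QQ (m + 1) := rfl
  have e5 : ∫⁻ x, H (y, x) ∂(Measure.pi fun _ : Fin (m + 1) => sig) =
      Kc (m + 1) * (G y * (ENNReal.ofReal (exp ((m : ℝ) * ∑ i, Lam (y i).1)) *
        ∫⁻ x, (∏ i, ENNReal.ofReal (KK (y i).1 (y i).2 (x i))) * QQ (m + 1) x
          ∂(Measure.pi fun _ : Fin (m + 1) => sig))) := by
    have hmKQ : Measurable fun x : Fin (m + 1) → E3 =>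
        (∏ i, ENNReal.ofReal (KK (y i).1 (y i).2 (x i))) * QQ (m + 1) x := by
      refine Measurable.mul ?_ hQm
      refine Finset.measurable_fun_prod _ fun i _ => ?_
      exact ((measurable_KK (y i).1 (y i).2).comp (measurable_pi_apply i)).ennreal_ofReal
    rw [← lintegral_const_mul _ hmKQ, ← lintegral_const_mul _ (hmKQ.const_mul _),
      ← lintegral_const_mul _ ((hmKQ.const_mul _).const_mul _)]
    refine lintegral_congr fun x => ?_
    simp only [hH]
    have e6 : (∏ i, WW m (y i, x i)) = ENNReal.ofReal (exp ((m : ℝ) * ∑ i, Lam (y i).1)) *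
        ∏ i, ENNReal.ofReal (KK (y i).1 (y i).2 (x i)) := by
      unfold WW
      rw [Finset.prod_mul_distrib]
      congr 1
      rw [← ENNReal.ofReal_prod_of_nonneg (fun i _ => (exp_pos _).le), ← exp_sum, Finset.mul_sum]
    rw [e6]
    ring
  rw [e5, ← e4]
  refine mul_le_mul' le_rfl (mul_le_mul' le_rfl ?_)
  have e7 : (((m + 1 : ℕ) : ℝ) - 1) = (m : ℝ) := by push_cast; ring
  rw [e7] at hs
  exact hs

end Pool.Agent.Helper44.Ball3
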