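import Mathlib
import Pool.Agent.Helper44.Ball3.Star

set_option autoImplicit false
set_option maxHeartbeats 4000000
set_option synthInstance.maxHeartbeats 400000

open MeasureTheory Set Real
open scoped ENNReal InnerProductSpace

namespace Pool.Agent.Helper44.Ball3

lemma ph_symm (y z : ℝ × E3) : ph y z = ph z y := by
  unfold ph
  rw [AB_symm, bb_symm]

lemma JJ_inv_le (m : ℕ) : (JJ m)⁻¹ ≤ 1 := ENNReal.inv_le_one.mpr (one_le_JJ m)

lemma G1_bound {m : ℕ} (hm : 1 ≤ m) {s : ℝ × E3} (hs1 : s.1 ∈ Ioo (0 : ℝ) 1) (hs2 : s.2 ∈ Good) :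
    ∫⁻ z, ENNReal.ofReal (ph s z.1) ∂(kap m) ≤
      ENNReal.ofReal (2 * log ((m + 1 : ℕ) : ℝ) * pp s.1 +
        (1 + 3456 * log ((m + 1 : ℕ) : ℝ)) / ((m + 1 : ℕ) : ℝ) ^ 2) := by
  have hn1 : 1 ≤ m + 1 := by omega
  have hnr : (1 : ℝ) ≤ ((m + 1 : ℕ) : ℝ) := by exact_mod_cast hn1
  have hL0 : 0 ≤ log ((m + 1 : ℕ) : ℝ) := log_nonneg hnr
  have hp := pp_pos hs1
  have hpp := measurable_pp
  have hme : Measurable fun r => ENNReal.ofReal (exp ((m : ℝ) * Lam r)) :=
    ((measurable_Lam.const_mul _).exp).ennreal_ofReal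
  have hph := (measurable_ph_left s).ennreal_ofReal
  rw [kap_int_y m (F := fun y => ENNReal.ofReal (ph s y)) hph]
  set L := log ((m + 1 : ℕ) : ℝ) with hL
  set N := ((m + 1 : ℕ) : ℝ) with hN
  have hN0 : 0 < N := by linarith
  have e1 : ∫⁻ y, ENNReal.ofReal (exp ((m : ℝ) * Lam y.1)) * ENNReal.ofReal (ph s y)
      ∂(mu (m + 1)) ≤ ENNReal.ofReal (2 * L * pp s.1 + 1 / N ^ 2) * JJ m +
        ENNReal.ofReal (2 * L) * ENNReal.ofReal (1728 / N ^ 2) := by
    have hmm : Measurable fun y : ℝ × E3 =>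
        ENNReal.ofReal (exp ((m : ℝ) * Lam y.1)) * ENNReal.ofReal (ph s y) :=
      (hme.comp measurable_fst).mul hph
    have e2 : ∫⁻ y, ENNReal.ofReal (exp ((m : ℝ) * Lam y.1)) * ENNReal.ofReal (ph s y)
      ∂(mu (m + 1)) = ∫⁻ τ, ∫⁻ w', ENNReal.ofReal (exp ((m : ℝ) * Lam τ)) *
        ENNReal.ofReal (ph s (τ, w')) ∂sig ∂(rho (m + 1)) := by
      unfold mu
      rw [lintegral_prod _ hmm.aemeasurable]
    rw [e2]
    have e3 : ∀ᵐ τ ∂(rho (m + 1)), ∫⁻ w', ENNReal.ofReal (exp ((m : ℝ) * Lam τ)) *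
        ENNReal.ofReal (ph s (τ, w')) ∂sig ≤
        ENNReal.ofReal (2 * L * pp s.1 + 1 / N ^ 2) * ENNReal.ofReal (exp ((m : ℝ) * Lam τ)) +
          ENNReal.ofReal (2 * L) * ENNReal.ofReal (exp ((m : ℝ) * Lam τ) * pp τ) := by
      filter_upwards [rho_ae (m + 1)] with τ hτ
      have hb : 0 ≤ bb s.1 τ := bb_nonneg hs1.1 hτ.1
      have hpτ := pp_pos hτ
      have h1 : Measurable fun w' : E3 => ENNReal.ofReal (ph s (τ, w')) := by
        have h2 := hph.comp (measurable_prodMk_left (x := τ))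
        exact h2
      rw [lintegral_const_mul _ h1]
      have h3 : ∫⁻ w', ENNReal.ofReal (ph s (τ, w')) ∂sig ≤
          ENNReal.ofReal (bb s.1 τ / 2 * L + 1 / N ^ 2) := phi_int hn1 hs2.1 hb
      calc _ ≤ ENNReal.ofReal (exp ((m : ℝ) * Lam τ)) *
            ENNReal.ofReal (bb s.1 τ / 2 * L + 1 / N ^ 2) := by gcongr
        _ ≤ ENNReal.ofReal (exp ((m : ℝ) * Lam τ)) *
            ENNReal.ofReal ((2 * L * pp s.1 + 1 / N ^ 2) + 2 * L * pp τ) := by
            refine mul_le_mul' le_rfl (ENNReal.ofReal_le_ofReal ?_)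
            have h4 := bb_le hs1 hτ
            nlinarith [mul_le_mul_of_nonneg_right h4 hL0]
        _ = _ := by
            rw [← ENNReal.ofReal_mul (exp_pos _).le, ← ENNReal.ofReal_mul (by positivity),
              ← ENNReal.ofReal_mul (by positivity),
              ← ENNReal.ofReal_add (by positivity) (by positivity)]
            congr 1
            ring
    refine (lintegral_mono_ae e3).trans ?_
    have hmp : Measurable fun τ => ENNReal.ofReal (exp ((m : ℝ) * Lam τ) * pp τ) :=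
      (((measurable_Lam.const_mul _).exp).mul hpp).ennreal_ofReal
    rw [lintegral_add_left (hme.const_mul _), lintegral_const_mul _ hme,
      lintegral_const_mul _ hmp]
    have h5 := T1_le hm
    have h6 : ((m : ℝ) + 1) = N := by rw [hN]; push_cast; ring
    rw [h6] at h5
    exact add_le_add le_rfl (mul_le_mul' le_rfl h5)
  calc _ ≤ (JJ m)⁻¹ * (ENNReal.ofReal (2 * L * pp s.1 + 1 / N ^ 2) * JJ m +
        ENNReal.ofReal (2 * L) * ENNReal.ofReal (1728 / N ^ 2)) := by gcongr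
    _ = (JJ m)⁻¹ * JJ m * ENNReal.ofReal (2 * L * pp s.1 + 1 / N ^ 2) +
        (JJ m)⁻¹ * (ENNReal.ofReal (2 * L) * ENNReal.ofReal (1728 / N ^ 2)) := by ring
    _ ≤ 1 * ENNReal.ofReal (2 * L * pp s.1 + 1 / N ^ 2) +
        1 * (ENNReal.ofReal (2 * L) * ENNReal.ofReal (1728 / N ^ 2)) := by
        rw [ENNReal.inv_mul_cancel (JJ_ne_zero m) (JJ_ne_top hm)]
        gcongr
        exact JJ_inv_le m
    _ = _ := by
        rw [one_mul, one_mul, ← ENNReal.ofReal_mul (by positivity),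
          ← ENNReal.ofReal_add (by positivity) (by positivity)]
        congr 1
        field_simp
        ring

lemma triple_bound {m : ℕ} (hm : 1 ≤ m) {i j k : Fin (m + 1)} (hij : i ≠ j) (hik : i ≠ k)
    (hjk : j ≠ k) :
    ∫⁻ z, ENNReal.ofReal (ph (z i).1 (z j).1) * ENNReal.ofReal (ph (z i).1 (z k).1)
      ∂(Measure.pi fun _ : Fin (m + 1) => kap m) ≤
      ENNReal.ofReal (30000000 * (1 + log ((m + 1 : ℕ) : ℝ)) ^ 2 / ((m + 1 : ℕ) : ℝ) ^ 4) := by
  have hprob := kap_prob hm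
  have hn1 : 1 ≤ m + 1 := by omega
  have hnr : (1 : ℝ) ≤ ((m + 1 : ℕ) : ℝ) := by exact_mod_cast hn1
  have hL0 : 0 ≤ log ((m + 1 : ℕ) : ℝ) := log_nonneg hnr
  have hpp := measurable_pp
  have hg : Measurable (Function.uncurry fun s t : ZZ => ENNReal.ofReal (ph s.1 t.1)) := by
    have h1 : Measurable fun p : ZZ × ZZ => ((p.1.1, p.2.1) : (ℝ × E3) × (ℝ × E3)) :=
      (measurable_fst.comp measurable_fst).prodMk (measurable_fst.comp measurable_snd)
    have h2 := (measurable_ph.comp h1).ennreal_ofReal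
    exact h2
  rw [triple_int hij hik hjk (g := fun s t : ZZ => ENNReal.ofReal (ph s.1 t.1)) hg]
  set L := log ((m + 1 : ℕ) : ℝ) with hL
  set N := ((m + 1 : ℕ) : ℝ) with hN
  have hN0 : 0 < N := by linarith
  set B := (1 + 3456 * L) / N ^ 2 with hB
  have hB0 : 0 ≤ B := by positivity
  have e1 : ∫⁻ s, (∫⁻ t : ZZ, ENNReal.ofReal (ph s.1 t.1) ∂(kap m)) ^ 2 ∂(kap m) ≤
      ∫⁻ s, ENNReal.ofReal (8 * L ^ 2 * pp s.1.1 ^ 2 + 2 * B ^ 2) ∂(kap m) := by
    refine lintegral_mono_ae ?_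
    filter_upwards [kap_ae (m := m)] with s hs
    have hp := pp_pos hs.1.1
    have h1 := G1_bound hm hs.1.1 hs.1.2
    calc (∫⁻ t : ZZ, ENNReal.ofReal (ph s.1 t.1) ∂(kap m)) ^ 2 ≤
          ENNReal.ofReal (2 * L * pp s.1.1 + B) ^ 2 := by gcongr
      _ = ENNReal.ofReal ((2 * L * pp s.1.1 + B) ^ 2) := by
          rw [← ENNReal.ofReal_pow (by positivity)]
      _ ≤ _ := by
          refine ENNReal.ofReal_le_ofReal ?_
          nlinarith [sq_nonneg (2 * L * pp s.1.1 - B)]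
  refine e1.trans ?_
  have hmF : Measurable fun y : ℝ × E3 =>
      ENNReal.ofReal (8 * L ^ 2 * pp y.1 ^ 2 + 2 * B ^ 2) := by
    have h1 := hpp.comp (measurable_fst : Measurable (Prod.fst : ℝ × E3 → ℝ))
    exact (((h1.pow_const 2).const_mul _).add_const _).ennreal_ofReal
  have hme : Measurable fun r => ENNReal.ofReal (exp ((m : ℝ) * Lam r)) :=
    ((measurable_Lam.const_mul _).exp).ennreal_ofReal
  rw [kap_int_y m (F := fun y : ℝ × E3 => ENNReal.ofReal (8 * L ^ 2 * pp y.1 ^ 2 + 2 * B ^ 2)) hmF]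
  have e2 : ∫⁻ y : ℝ × E3, ENNReal.ofReal (exp ((m : ℝ) * Lam y.1)) *
      ENNReal.ofReal (8 * L ^ 2 * pp y.1 ^ 2 + 2 * B ^ 2) ∂(mu (m + 1)) =
      ENNReal.ofReal (8 * L ^ 2) * ∫⁻ r, ENNReal.ofReal (exp ((m : ℝ) * Lam r) * pp r ^ 2)
        ∂(rho (m + 1)) + ENNReal.ofReal (2 * B ^ 2) * JJ m := by
    have hmr : Measurable fun r : ℝ => ENNReal.ofReal (exp ((m : ℝ) * Lam r)) *
      ENNReal.ofReal (8 * L ^ 2 * pp r ^ 2 + 2 * B ^ 2) :=
      hme.mul (((hpp.pow_const 2).const_mul _).add_const _).ennreal_ofReal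
    have h3 := mu_int_r (m + 1) hmr
    rw [h3]
    have hmq : Measurable fun r => ENNReal.ofReal (exp ((m : ℝ) * Lam r) * pp r ^ 2) :=
      (((measurable_Lam.const_mul _).exp).mul (hpp.pow_const 2)).ennreal_ofReal
    have h4 : JJ m = ∫⁻ r, ENNReal.ofReal (exp ((m : ℝ) * Lam r)) ∂(rho (m + 1)) := rfl
    rw [h4, ← lintegral_const_mul _ hmq, ← lintegral_const_mul _ hme,
      ← lintegral_add_left (hmq.const_mul _)]
    refine lintegral_congr fun r => ?_
    rw [← ENNReal.ofReal_mul (exp_pos _).le, ← ENNReal.ofReal_mul (by positivity),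
      ← ENNReal.ofReal_mul (by positivity), ← ENNReal.ofReal_add (by positivity) (by positivity)]
    congr 1
    ring
  rw [e2]
  have h5 := T2_le hm
  have h6 : ((m : ℝ) + 1) = N := by rw [hN]; push_cast; ring
  rw [h6] at h5
  calc _ ≤ (JJ m)⁻¹ * (ENNReal.ofReal (8 * L ^ 2) * ENNReal.ofReal (746496 / N ^ 4) +
        ENNReal.ofReal (2 * B ^ 2) * JJ m) := by gcongr
    _ = (JJ m)⁻¹ * (ENNReal.ofReal (8 * L ^ 2) * ENNReal.ofReal (746496 / N ^ 4)) +
        (JJ m)⁻¹ * JJ m * ENNReal.ofReal (2 * B ^ 2) := by ring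
    _ ≤ 1 * (ENNReal.ofReal (8 * L ^ 2) * ENNReal.ofReal (746496 / N ^ 4)) +
        1 * ENNReal.ofReal (2 * B ^ 2) := by
        rw [ENNReal.inv_mul_cancel (JJ_ne_zero m) (JJ_ne_top hm)]
        gcongr
        exact JJ_inv_le m
    _ = ENNReal.ofReal (8 * L ^ 2 * (746496 / N ^ 4) + 2 * B ^ 2) := by
        rw [one_mul, one_mul, ← ENNReal.ofReal_mul (by positivity),
          ← ENNReal.ofReal_add (by positivity) (by positivity)]
    _ ≤ _ := by
        refine ENNReal.ofReal_le_ofReal ?_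
        have h7 : 8 * L ^ 2 * (746496 / N ^ 4) + 2 * B ^ 2 =
            (5971968 * L ^ 2 + 2 * (1 + 3456 * L) ^ 2) / N ^ 4 := by
          rw [hB]
          field_simp
          ring
        rw [h7]
        gcongr
        nlinarith

/-- Contribution of one cherry. -/
lemma cherry_bound {m : ℕ} (hm : 1 ≤ m) {i j k : Fin (m + 1)} (hij : i ≠ j) (hik : i ≠ k)
    (hjk : j ≠ k) :
    Kc (m + 1) * ∫⁻ y, (ENNReal.ofReal (ph (y i) (y j)) * ENNReal.ofReal (ph (y i) (y k))) *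
      PA (m + 1) y ∂(Measure.pi fun _ : Fin (m + 1) => mu (m + 1)) ≤
      ENNReal.ofReal (exp 23888000 * 30000000 * ((m + 1 - 3).factorial : ℝ) *
        (1 + log ((m + 1 : ℕ) : ℝ)) ^ 2) := by
  have hprob := kap_prob hm
  have hgm : ∀ a b : Fin (m + 1), Measurable fun y : Fin (m + 1) → ℝ × E3 =>
      ENNReal.ofReal (ph (y a) (y b)) := fun a b => by
    have h1 : Measurable fun y : Fin (m + 1) → ℝ × E3 => (y a, y b) :=
      (measurable_pi_apply a).prodMk (measurable_pi_apply b)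
    have h2 := (measurable_ph.comp h1).ennreal_ofReal
    exact h2
  have hG : Measurable fun y : Fin (m + 1) → ℝ × E3 =>
      ENNReal.ofReal (ph (y i) (y j)) * ENNReal.ofReal (ph (y i) (y k)) :=
    (hgm i j).mul (hgm i k)
  have h1 := star hm hG
  refine h1.trans ?_
  have hGz : Measurable fun z : Fin (m + 1) → ZZ =>
      ENNReal.ofReal (ph (z i).1 (z j).1) * ENNReal.ofReal (ph (z i).1 (z k).1) := by
    have h2 : Measurable fun z : Fin (m + 1) → ZZ => (fun i => (z i).1) :=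
      measurable_pi_lambda _ fun i => measurable_fst.comp (measurable_pi_apply i)
    have h3 := hG.comp h2
    exact h3
  have hv : Measurable fun z : ZZ => vv (m + 1) z.2 := (measurable_vv (m + 1)).comp measurable_snd
  have hM : ∀ᵐ z ∂(kap m), ‖vv (m + 1) z.2‖ ^ 2 ≤ ((m + 1 : ℕ) : ℝ) := by
    filter_upwards [kap_ae (m := m)] with z hz
    rw [norm_vv_sq hz.2]
  have hcard : Module.finrank ℂ (EuclideanSpace ℂ (Fin (m + 1))) = Fintype.card (Fin (m + 1)) := by
    simp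
  have hA : ({i, j, k} : Finset (Fin (m + 1))).card = 3 := by
    rw [Finset.card_insert_of_notMem (by simp [hij, hik]), Finset.card_pair hjk]
  have h4 := three_bound' (μ := kap m) hv (kap_iso hm (m + 1)) hcard ((m + 1 : ℕ) : ℝ) hM
    (A := {i, j, k}) hGz (by
      intro l hl y t
      have l1 : i ≠ l := fun h => hl (by simp [h])
      have l2 : j ≠ l := fun h => hl (by simp [h])
      have l3 : k ≠ l := fun h => hl (by simp [h])
      rw [Function.update_of_ne l1, Function.update_of_ne l2, Function.update_of_ne l3])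
  rw [hA, Fintype.card_fin] at h4
  have hN0 : (0 : ℝ) < ((m + 1 : ℕ) : ℝ) := by positivity
  calc _ ≤ JJ m ^ (m + 1) * ((((m + 1 - 3).factorial : ℕ) : ℝ≥0∞) *
        ENNReal.ofReal (((m + 1 : ℕ) : ℝ) ^ 3) *
          ∫⁻ z, ENNReal.ofReal (ph (z i).1 (z j).1) * ENNReal.ofReal (ph (z i).1 (z k).1)
            ∂(Measure.pi fun _ : Fin (m + 1) => kap m)) := by gcongr
    _ ≤ ENNReal.ofReal (exp 23888000 * ((m : ℝ) + 1)) * ((((m + 1 - 3).factorial : ℕ) : ℝ≥0∞) *
        ENNReal.ofReal (((m + 1 : ℕ) : ℝ) ^ 3) * ENNReal.ofReal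
          (30000000 * (1 + log ((m + 1 : ℕ) : ℝ)) ^ 2 / ((m + 1 : ℕ) : ℝ) ^ 4)) := by
        gcongr
        · exact JJ_pow_le hm
        · exact triple_bound hm hij hik hjk
    _ = _ := by
        have h5 : (((m + 1 - 3).factorial : ℕ) : ℝ≥0∞) =
            ENNReal.ofReal ((m + 1 - 3).factorial : ℝ) := by
          rw [ENNReal.ofReal_natCast]
        rw [h5, ← ENNReal.ofReal_mul (by positivity), ← ENNReal.ofReal_mul (by positivity),
          ← ENNReal.ofReal_mul (by positivity)]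
        congr 1
        push_cast
        field_simp

end Pool.Agent.Helper44.Ball3
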