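import Mathlib
import Pool.Agent.Helper44.Ball3.CherryBound

set_option autoImplicit false
set_option maxHeartbeats 4000000
set_option synthInstance.maxHeartbeats 400000

open MeasureTheory Set Real
open scoped ENNReal InnerProductSpace

namespace Pool.Agent.Helper44.Ball3

lemma mu_int_x (n : ℕ) {F : E3 → ℝ≥0∞} (hF : Measurable F) :
    ∫⁻ y, F y.2 ∂(mu n) = ∫⁻ x, F x ∂sig := by
  unfold mu
  have h3 : Measurable fun y : ℝ × E3 => F y.2 := hF.comp measurable_snd
  rw [lintegral_prod _ h3.aemeasurable]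
  simp

lemma mu_iso (n : ℕ) : Isotropic (mu n) (fun y : ℝ × E3 => vv n y.2) := by
  intro u
  have h1 := isotropic_vv n u
  rw [← h1]
  have hmm : Measurable fun w : E3 => ENNReal.ofReal (‖⟪u, vv n w⟫_ℂ‖ ^ 2) :=
    ENNReal.measurable_ofReal.comp ((measurable_const.inner (measurable_vv n)).norm.pow_const 2)
  exact mu_int_x n hmm

lemma mu_ae_good (n : ℕ) : ∀ᵐ y ∂(Measure.pi fun _ : Fin n => mu n),
    ∀ i, (y i).1 ∈ Ioo (0 : ℝ) 1 ∧ (y i).2 ∈ Good :=
  ae_pi (ν := fun _ : Fin n => mu n) (p := fun y => y.1 ∈ Ioo (0 : ℝ) 1 ∧ y.2 ∈ Good)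
    (fun _ => mu_ae n)

lemma mu_ae_dist (n : ℕ) : ∀ᵐ y ∂(Measure.pi fun _ : Fin n => mu n),
    ∀ e ∈ edges n, (y e.1).2 ≠ (y e.2).2 := by
  rw [Filter.eventually_all_finset]
  intro e he
  have hne : e.1 ≠ e.2 := (mem_edges.mp he).ne
  have hms : MeasurableSet {p : (ℝ × E3) × (ℝ × E3) | p.1.2 = p.2.2} :=
    measurableSet_eq_fun (measurable_snd.comp measurable_fst) (measurable_snd.comp measurable_snd)
  have := pair_int (fun _ : Fin n => mu n) hne
    (g := fun s t => {p : (ℝ × E3) × (ℝ × E3) | p.1.2 = p.2.2}.indicator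
      (fun _ => (1 : ℝ≥0∞)) (s, t)) (measurable_const.indicator hms)
  have h0 : ∫⁻ s, ∫⁻ t, {p : (ℝ × E3) × (ℝ × E3) | p.1.2 = p.2.2}.indicator
      (fun _ => (1 : ℝ≥0∞)) (s, t) ∂(mu n) ∂(mu n) = 0 := by
    rw [lintegral_congr_ae (g := fun _ => 0), lintegral_zero]
    filter_upwards [mu_ae n] with s hs
    rw [lintegral_congr_ae (g := fun _ => 0), lintegral_zero]
    have h1 : ∀ᵐ t ∂(mu n), t.2 ≠ s.2 := by
      unfold mu
      exact Measure.quasiMeasurePreserving_snd.ae (sig_singleton hs.2.1)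
    filter_upwards [h1] with t ht
    rw [indicator_of_notMem]
    exact fun h => ht h.symm
  rw [h0, lintegral_eq_zero_iff] at this
  · filter_upwards [this] with x hx hxx
    simp [hxx] at hx
  · have hm0 : Measurable fun x : Fin n → ℝ × E3 => (x e.1, x e.2) :=
      (measurable_pi_apply _).prodMk (measurable_pi_apply _)
    exact (measurable_const.indicator hms).comp hm0

/-- The determinantal density of directions. -/
noncomputable def DA (n : ℕ) (y : Fin n → ℝ × E3) : ℝ≥0∞ :=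
  DD (fun y : ℝ × E3 => vv n y.2) Finset.univ y

lemma measurable_DA (n : ℕ) : Measurable (DA n) :=
  measurable_DD ((measurable_vv n).comp measurable_snd) _

lemma KPA_eq {n : ℕ} {y : Fin n → ℝ × E3} (hy : ∀ i, (y i).1 ∈ Ioo (0 : ℝ) 1 ∧ (y i).2 ∈ Good)
    (hd : ∀ e ∈ edges n, (y e.1).2 ≠ (y e.2).2) :
    Kc n * PA n y = DA n y * ENNReal.ofReal (∏ e ∈ edges n, (1 + ff (y e.1) (y e.2))) := by
  unfold DA
  rw [DD_eq (d := fun y : ℝ × E3 => y.2) (fun i => (hy i).2), mul_assoc]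
  congr 1
  unfold QQ PA
  have h1 : 0 ≤ ∏ e ∈ edges n, ‖(y e.1).2 - (y e.2).2‖ ^ 2 / 4 :=
    Finset.prod_nonneg fun e _ => by positivity
  rw [← ENNReal.ofReal_mul h1, ← Finset.prod_mul_distrib]
  congr 1
  refine Finset.prod_congr rfl fun e he => ?_
  have h2 : 0 < ‖(y e.1).2 - (y e.2).2‖ := norm_pos_iff.mpr (sub_ne_zero.mpr (hd e he))
  unfold AB ff
  field_simp

lemma ff_nonneg {y z : ℝ × E3} (h1 : y.1 ∈ Ioo (0 : ℝ) 1) (h2 : z.1 ∈ Ioo (0 : ℝ) 1) :
    0 ≤ ff y z := by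
  unfold ff
  have := bb_nonneg h1.1 h2.1
  positivity

lemma ph_eq {y z : ℝ × E3} (h1 : y.1 ∈ Ioo (0 : ℝ) 1) (h2 : z.1 ∈ Ioo (0 : ℝ) 1)
    (hd : y.2 ≠ z.2) : ff y z / (1 + ff y z) = ph y z := by
  have h3 : 0 < ‖y.2 - z.2‖ := norm_pos_iff.mpr (sub_ne_zero.mpr hd)
  have hb := bb_nonneg h1.1 h2.1
  unfold ff ph AB
  have h4 : ‖y.2 - z.2‖ ^ 2 + bb y.1 z.1 ≠ 0 := by positivity
  have h5 : 1 + bb y.1 z.1 / ‖y.2 - z.2‖ ^ 2 ≠ 0 := by positivity
  field_simp

lemma ph_nonneg {y z : ℝ × E3} (h1 : y.1 ∈ Ioo (0 : ℝ) 1) (h2 : z.1 ∈ Ioo (0 : ℝ) 1) :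
    0 ≤ ph y z := by
  unfold ph AB
  have := bb_nonneg h1.1 h2.1
  positivity

lemma adj_cases {n : ℕ} {p : (Fin n × Fin n) × (Fin n × Fin n)} (hp : p ∈ adj n) :
    ∃ i j k : Fin n, i ≠ j ∧ i ≠ k ∧ j ≠ k ∧ ∀ y : Fin n → ℝ × E3,
      ENNReal.ofReal (ph (y p.1.1) (y p.1.2)) * ENNReal.ofReal (ph (y p.2.1) (y p.2.2)) =
      ENNReal.ofReal (ph (y i) (y j)) * ENNReal.ofReal (ph (y i) (y k)) := by
  obtain ⟨hp1, hp2, hp3⟩ := Finset.mem_filter.mp hp
  obtain ⟨ha, hb⟩ := Finset.mem_product.mp hp1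
  have la := mem_edges.mp ha
  have lb := mem_edges.mp hb
  obtain ⟨⟨a, b⟩, ⟨c, d⟩⟩ := p
  simp only at la lb hp2 hp3
  by_cases h1 : a = c
  · subst h1
    refine ⟨a, b, d, la.ne, lb.ne, ?_, fun y => rfl⟩
    rintro rfl
    exact hp2 rfl
  by_cases h2 : a = d
  · subst h2
    refine ⟨a, b, c, la.ne, lb.ne', ?_, fun y => ?_⟩
    · rintro rfl
      exact absurd la lb.not_gt
    · simp only
      rw [ph_symm (y c) (y a)]
  by_cases h3 : b = c
  · subst h3
    refine ⟨b, a, d, la.ne', lb.ne, h2, fun y => ?_⟩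
    simp only
    rw [ph_symm (y a) (y b)]
  by_cases h4 : b = d
  · subst h4
    refine ⟨b, a, c, la.ne', lb.ne', h1, fun y => ?_⟩
    simp only
    rw [ph_symm (y a) (y b), ph_symm (y c) (y b)]
  · exact absurd ⟨h1, h2, h3, h4⟩ hp3

/-- Upper bound. -/
lemma upper {m : ℕ} (hm : 2 ≤ m) :
    Kc (m + 1) * ∫⁻ y, PA (m + 1) y ∂(Measure.pi fun _ : Fin (m + 1) => mu (m + 1)) ≤
      ENNReal.ofReal (((m + 1).factorial : ℝ) * exp (cn (m + 1) / 2)) +
      ENNReal.ofReal (((m + 1).factorial : ℝ) * (exp 23888000 * 540000000 *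
        (1 + log ((m + 1 : ℕ) : ℝ)) ^ 2)) := by
  have hm1 : 1 ≤ m := by omega
  set n := m + 1 with hn
  have hcn : 0 ≤ cn n := by
    unfold cn
    have := harm_nonneg (n - 1)
    positivity
  have hv : Measurable fun z : ℝ × E3 => vv n z.2 := (measurable_vv n).comp measurable_snd
  have hcard : Module.finrank ℂ (EuclideanSpace ℂ (Fin n)) = Fintype.card (Fin n) := by simp
  have hgm : ∀ a b : Fin n, Measurable fun y : Fin n → ℝ × E3 =>
      ENNReal.ofReal (ph (y a) (y b)) := fun a b => by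
    have h1 : Measurable fun y : Fin n → ℝ × E3 => (y a, y b) :=
      (measurable_pi_apply a).prodMk (measurable_pi_apply b)
    have h2 := (measurable_ph.comp h1).ennreal_ofReal
    exact h2
  have hfm : ∀ a b : Fin n, Measurable fun y : Fin n → ℝ × E3 =>
      ENNReal.ofReal (ff (y a) (y b)) := fun a b => by
    have h1 : Measurable fun y : Fin n → ℝ × E3 => (y a, y b) :=
      (measurable_pi_apply a).prodMk (measurable_pi_apply b)
    have h2 := (measurable_ff.comp h1).ennreal_ofReal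
    exact h2
  rw [← lintegral_const_mul _ (measurable_PA n)]
  have hpt : ∀ᵐ y ∂(Measure.pi fun _ : Fin n => mu n), Kc n * PA n y ≤
      ∑ S ∈ mats n, DA n y * ∏ e ∈ S, ENNReal.ofReal (ff (y e.1) (y e.2)) +
      ∑ p ∈ adj n, Kc n * ((ENNReal.ofReal (ph (y p.1.1) (y p.1.2)) *
        ENNReal.ofReal (ph (y p.2.1) (y p.2.2))) * PA n y) := by
    filter_upwards [mu_ae_good n, mu_ae_dist n] with y hy hd
    have hf : ∀ e : Fin n × Fin n, 0 ≤ ff (y e.1) (y e.2) := fun e =>
      ff_nonneg (hy e.1).1 (hy e.2).1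
    have hexp := expansion (fun e : Fin n × Fin n => ff (y e.1) (y e.2)) hf
    have hprod0 : 0 ≤ ∏ e ∈ edges n, (1 + ff (y e.1) (y e.2)) :=
      Finset.prod_nonneg fun e _ => by linarith [hf e]
    have hph : ∀ p ∈ adj n, (ff (y p.1.1) (y p.1.2) / (1 + ff (y p.1.1) (y p.1.2))) *
        (ff (y p.2.1) (y p.2.2) / (1 + ff (y p.2.1) (y p.2.2))) *
          ∏ e ∈ edges n, (1 + ff (y e.1) (y e.2)) =
        (ph (y p.1.1) (y p.1.2) * ph (y p.2.1) (y p.2.2)) *
          ∏ e ∈ edges n, (1 + ff (y e.1) (y e.2)) := by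
      intro p hp
      obtain ⟨hp1, _⟩ := Finset.mem_filter.mp hp
      obtain ⟨ha, hb⟩ := Finset.mem_product.mp hp1
      rw [ph_eq (hy _).1 (hy _).1 (hd _ ha), ph_eq (hy _).1 (hy _).1 (hd _ hb)]
    rw [Finset.sum_congr rfl hph] at hexp
    have hKPA := KPA_eq hy hd
    have hphn : ∀ p : (Fin n × Fin n) × (Fin n × Fin n),
        0 ≤ ph (y p.1.1) (y p.1.2) * ph (y p.2.1) (y p.2.2) := fun p =>
      mul_nonneg (ph_nonneg (hy _).1 (hy _).1) (ph_nonneg (hy _).1 (hy _).1)
    calc Kc n * PA n y = DA n y * ENNReal.ofReal (∏ e ∈ edges n, (1 + ff (y e.1) (y e.2))) := hKPA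
      _ ≤ DA n y * ENNReal.ofReal (∑ S ∈ mats n, ∏ e ∈ S, ff (y e.1) (y e.2) +
          ∑ p ∈ adj n, (ph (y p.1.1) (y p.1.2) * ph (y p.2.1) (y p.2.2)) *
          ∏ e ∈ edges n, (1 + ff (y e.1) (y e.2))) :=
          mul_le_mul' le_rfl (ENNReal.ofReal_le_ofReal hexp)
      _ = _ := by
          rw [ENNReal.ofReal_add, ENNReal.ofReal_sum_of_nonneg, ENNReal.ofReal_sum_of_nonneg,
            mul_add, Finset.mul_sum, Finset.mul_sum]
          · congr 1
            · refine Finset.sum_congr rfl fun S _ => ?_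
              rw [ENNReal.ofReal_prod_of_nonneg (fun e _ => hf e)]
            · refine Finset.sum_congr rfl fun p _ => ?_
              rw [ENNReal.ofReal_mul (hphn p), ENNReal.ofReal_mul (ph_nonneg (hy _).1 (hy _).1)]
              calc _ = (ENNReal.ofReal (ph (y p.1.1) (y p.1.2)) *
                    ENNReal.ofReal (ph (y p.2.1) (y p.2.2))) * (DA n y *
                    ENNReal.ofReal (∏ e ∈ edges n, (1 + ff (y e.1) (y e.2)))) := by ring
                _ = _ := by rw [← hKPA]; ring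
          · intro p _
            exact mul_nonneg (hphn p) hprod0
          · intro S _
            exact Finset.prod_nonneg fun e _ => hf e
          · exact Finset.sum_nonneg fun S _ => Finset.prod_nonneg fun e _ => hf e
          · exact Finset.sum_nonneg fun p _ => mul_nonneg (hphn p) hprod0
  refine (lintegral_mono_ae hpt).trans ?_
  have hm1' : ∀ S ∈ mats n, Measurable fun y : Fin n → ℝ × E3 =>
      DA n y * ∏ e ∈ S, ENNReal.ofReal (ff (y e.1) (y e.2)) := fun S _ =>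
    (measurable_DA n).mul (Finset.measurable_fun_prod _ fun e _ => hfm e.1 e.2)
  have hm2' : ∀ p ∈ adj n, Measurable fun y : Fin n → ℝ × E3 =>
      Kc n * ((ENNReal.ofReal (ph (y p.1.1) (y p.1.2)) *
        ENNReal.ofReal (ph (y p.2.1) (y p.2.2))) * PA n y) := fun p _ =>
    (((hgm _ _).mul (hgm _ _)).mul (measurable_PA n)).const_mul _
  rw [lintegral_add_left (Finset.measurable_fun_sum _ hm1'), lintegral_finsetSum _ hm1',
    lintegral_finsetSum _ hm2']
  refine add_le_add ?_ ?_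
  · -- matchings
    have h1 : ∀ S ∈ mats n, ∫⁻ y, DA n y * ∏ e ∈ S, ENNReal.ofReal (ff (y e.1) (y e.2))
        ∂(Measure.pi fun _ : Fin n => mu n) ≤
        ENNReal.ofReal (((n - 2 * S.card).factorial : ℝ) * cn n ^ S.card) := by
      intro S hS
      classical
      have hSm : IsMat S := by
        unfold mats at hS
        exact (Finset.mem_filter.mp hS).2
      have h2 := matching_bound (μ := mu n) hv (mu_iso n) hcard hSm
        (F := fun s t => ENNReal.ofReal (ff s t)) measurable_ff.ennreal_ofReal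
      rw [pair_c, Fintype.card_fin] at h2
      refine h2.trans (le_of_eq ?_)
      rw [← ENNReal.ofReal_natCast, ← ENNReal.ofReal_pow hcn, ← ENNReal.ofReal_mul (by positivity)]
    refine (Finset.sum_le_sum h1).trans ?_
    rw [← ENNReal.ofReal_sum_of_nonneg (fun S _ => by positivity)]
    exact ENNReal.ofReal_le_ofReal (mats_sum_le n hcn)
  · -- cherries
    have h1 : ∀ p ∈ adj n, ∫⁻ y, Kc n * ((ENNReal.ofReal (ph (y p.1.1) (y p.1.2)) *
        ENNReal.ofReal (ph (y p.2.1) (y p.2.2))) * PA n y)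
        ∂(Measure.pi fun _ : Fin n => mu n) ≤
        ENNReal.ofReal (exp 23888000 * 30000000 * ((n - 3).factorial : ℝ) *
          (1 + log (n : ℝ)) ^ 2) := by
      intro p hp
      obtain ⟨i, j, k, hij, hik, hjk, hall⟩ := adj_cases hp
      simp only [hall]
      have hmm : Measurable fun y : Fin n → ℝ × E3 => (ENNReal.ofReal (ph (y i) (y j)) *
          ENNReal.ofReal (ph (y i) (y k))) * PA n y :=
        ((hgm i j).mul (hgm i k)).mul (measurable_PA n)
      rw [lintegral_const_mul _ hmm]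
      exact cherry_bound hm1 hij hik hjk
    refine (Finset.sum_le_sum h1).trans ?_
    rw [Finset.sum_const, nsmul_eq_mul]
    have hcardadj : ((adj n).card : ℝ≥0∞) ≤ ENNReal.ofReal (4 * (n : ℝ) ^ 3) := by
      have h2 := card_adj_le n
      rw [← ENNReal.ofReal_natCast]
      refine ENNReal.ofReal_le_ofReal ?_
      exact_mod_cast h2
    refine (mul_le_mul' hcardadj le_rfl).trans ?_
    rw [← ENNReal.ofReal_mul (by positivity)]
    refine ENNReal.ofReal_le_ofReal ?_
    -- n^3 (n-3)! ≤ (9/2) n!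
    obtain ⟨k, hk⟩ : ∃ k, n = k + 3 := ⟨n - 3, by omega⟩
    have hfac : (n : ℝ) ^ 3 * ((n - 3).factorial : ℝ) ≤ 9 / 2 * (n.factorial : ℝ) := by
      rw [hk]
      have h3 : k + 3 - 3 = k := by omega
      rw [h3, show k + 3 = (k + 1 + 1) + 1 by ring, Nat.factorial_succ (k + 1 + 1),
        Nat.factorial_succ (k + 1), Nat.factorial_succ k]
      push_cast
      have hk0 : (0 : ℝ) ≤ k := by positivity
      have hkf : (0 : ℝ) < (k.factorial : ℝ) := by positivity
      have h4 : ((k : ℝ) + 1 + 1 + 1) ^ 3 ≤ 9 / 2 * (((k : ℝ) + 1 + 1 + 1) *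
          (((k : ℝ) + 1 + 1) * ((k : ℝ) + 1))) := by
        nlinarith [mul_nonneg hk0 hk0, mul_nonneg (mul_nonneg hk0 hk0) hk0]
      calc ((k : ℝ) + 1 + 1 + 1) ^ 3 * (k.factorial : ℝ) ≤ (9 / 2 * (((k : ℝ) + 1 + 1 + 1) *
          (((k : ℝ) + 1 + 1) * ((k : ℝ) + 1)))) * (k.factorial : ℝ) := by gcongr
        _ = _ := by ring
    calc 4 * (n : ℝ) ^ 3 * (exp 23888000 * 30000000 * ((n - 3).factorial : ℝ) *
          (1 + log (n : ℝ)) ^ 2) = (120000000 * exp 23888000 * (1 + log (n : ℝ)) ^ 2) *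
            ((n : ℝ) ^ 3 * ((n - 3).factorial : ℝ)) := by ring
      _ ≤ (120000000 * exp 23888000 * (1 + log (n : ℝ)) ^ 2) * (9 / 2 * (n.factorial : ℝ)) := by
          gcongr
      _ = _ := by ring

lemma card_edges (n : ℕ) : 2 * ((edges n).card : ℝ) = ((n : ℝ) - 1) * n := by
  have h := edges_sum (n := n) (fun _ => 1)
  simp only [Finset.sum_const, nsmul_eq_mul, Finset.card_univ, Fintype.card_fin, mul_one] at h
  linarith

/-- Lower bound. -/
lemma lower {n : ℕ} (hn : 2 ≤ n) (h0 : 0 ≤ cn n - (16 * log n + 1 / 2) / n) :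
    ENNReal.ofReal ((n.factorial : ℝ) * exp ((cn n - (16 * log n + 1 / 2) / n) / 2)) ≤
      Kc n * ∫⁻ y, PA n y ∂(Measure.pi fun _ : Fin n => mu n) := by
  have hn1 : 1 ≤ n := by omega
  have hv : Measurable fun z : ℝ × E3 => vv n z.2 := (measurable_vv n).comp measurable_snd
  have hcard : Module.finrank ℂ (EuclideanSpace ℂ (Fin n)) = Fintype.card (Fin n) := by simp
  have htot : ∫⁻ y, DA n y ∂(Measure.pi fun _ : Fin n => mu n) = ((n.factorial : ℕ) : ℝ≥0∞) := by
    have := total_mass (μ := mu n) (δ := Fin n) hv (mu_iso n) hcard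
    rw [Fintype.card_fin] at this
    exact this
  have hfac0 : ((n.factorial : ℕ) : ℝ≥0∞) ≠ 0 := by
    exact_mod_cast (Nat.factorial_pos n).ne'
  have hfact : ((n.factorial : ℕ) : ℝ≥0∞) ≠ ∞ := ENNReal.natCast_ne_top _
  set P : Measure (Fin n → ℝ × E3) := (Measure.pi fun _ : Fin n => mu n).withDensity
    (fun y => ((n.factorial : ℕ) : ℝ≥0∞)⁻¹ * DA n y) with hP
  have hPint : ∀ {F : (Fin n → ℝ × E3) → ℝ≥0∞}, Measurable F → ∫⁻ y, F y ∂P =
      ((n.factorial : ℕ) : ℝ≥0∞)⁻¹ * ∫⁻ y, DA n y * F y ∂(Measure.pi fun _ : Fin n => mu n) := by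
    intro F hF
    have hmm : Measurable fun y => DA n y * F y := (measurable_DA n).mul hF
    rw [hP, lintegral_withDensity_eq_lintegral_mul _ ((measurable_DA n).const_mul _) hF,
      ← lintegral_const_mul _ hmm]
    refine lintegral_congr fun y => ?_
    simp only [Pi.mul_apply]
    rw [mul_assoc]
  have hPprob : IsProbabilityMeasure P := by
    constructor
    have h1 := hPint (F := fun _ => 1) measurable_const
    simp only [mul_one, lintegral_const, one_mul] at h1
    rw [h1, htot, ENNReal.inv_mul_cancel hfac0 hfact]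
  have hPac : P ≪ (Measure.pi fun _ : Fin n => mu n) := withDensity_absolutelyContinuous _ _
  have hgm : ∀ a b : Fin n, Measurable fun y : Fin n → ℝ × E3 => ph (y a) (y b) := fun a b => by
    have h1 : Measurable fun y : Fin n → ℝ × E3 => (y a, y b) :=
      (measurable_pi_apply a).prodMk (measurable_pi_apply b)
    have h2 := (measurable_ph.comp h1)
    exact h2
  have hfm : ∀ a b : Fin n, Measurable fun y : Fin n → ℝ × E3 => ff (y a) (y b) := fun a b => by
    have h1 : Measurable fun y : Fin n → ℝ × E3 => (y a, y b) :=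
      (measurable_pi_apply a).prodMk (measurable_pi_apply b)
    have h2 := (measurable_ff.comp h1)
    exact h2
  set G : (Fin n → ℝ × E3) → ℝ := fun y => ∑ e ∈ edges n, ph (y e.1) (y e.2) with hG
  have hGm : Measurable G := Finset.measurable_fun_sum _ fun e _ => hgm e.1 e.2
  have hG0 : ∀ᵐ y ∂P, 0 ≤ G y := by
    filter_upwards [hPac.ae_le (mu_ae_good n)] with y hy
    exact Finset.sum_nonneg fun e _ => ph_nonneg (hy _).1 (hy _).1
  set I2 := ∫⁻ y, ∫⁻ z, D2 (fun y : ℝ × E3 => vv n y.2) y z * ENNReal.ofReal (ph y z)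
    ∂(mu n) ∂(mu n) with hI2
  have hMG : ENNReal.ofReal ((cn n - (16 * log n + 1 / 2) / n) / 2) ≤
      ∫⁻ y, ENNReal.ofReal (G y) ∂P := by
    have e1 : ∫⁻ y, ENNReal.ofReal (G y) ∂P =
        ∑ e ∈ edges n, ∫⁻ y, ENNReal.ofReal (ph (y e.1) (y e.2)) ∂P := by
      rw [← lintegral_finsetSum _ (fun e _ => (hgm e.1 e.2).ennreal_ofReal)]
      refine lintegral_congr_ae ?_
      filter_upwards [hPac.ae_le (mu_ae_good n)] with y hy
      simp only [hG]
      rw [ENNReal.ofReal_sum_of_nonneg]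
      intro e _
      exact ph_nonneg (hy _).1 (hy _).1
    have e2 : ∀ e ∈ edges n, ∫⁻ y, ENNReal.ofReal (ph (y e.1) (y e.2)) ∂P =
        ((n.factorial : ℕ) : ℝ≥0∞)⁻¹ * ((((n - 2).factorial : ℕ) : ℝ≥0∞) * I2) := by
      intro e he
      have hne : e.1 ≠ e.2 := (mem_edges.mp he).ne
      have h1 := pair_integral (μ := mu n) hv (mu_iso n) hcard hne
        (F := fun s t => ENNReal.ofReal (ph s t)) measurable_ph.ennreal_ofReal
      rw [Fintype.card_fin] at h1
      have h2 : ∫⁻ y, DA n y * ENNReal.ofReal (ph (y e.1) (y e.2))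
          ∂(Measure.pi fun _ : Fin n => mu n) = (((n - 2).factorial : ℕ) : ℝ≥0∞) * I2 := h1
      rw [hPint (hgm e.1 e.2).ennreal_ofReal, h2]
    rw [e1, Finset.sum_congr rfl e2, Finset.sum_const, nsmul_eq_mul]
    have hpl := pair_lower hn1
    have herr0 : 0 ≤ (16 * log (n : ℝ) + 1 / 2) / n := by
      have hnr : (1 : ℝ) ≤ n := by exact_mod_cast hn1
      have := log_nonneg hnr
      positivity
    have hI2l : ENNReal.ofReal (cn n - (16 * log n + 1 / 2) / n) ≤ I2 := by
      have h3 : ENNReal.ofReal (cn n - (16 * log n + 1 / 2) / n) +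
          ENNReal.ofReal ((16 * log (n : ℝ) + 1 / 2) / n) ≤
          I2 + ENNReal.ofReal ((16 * log (n : ℝ) + 1 / 2) / n) := by
        rw [← ENNReal.ofReal_add h0 herr0, sub_add_cancel]
        exact hpl
      exact (ENNReal.add_le_add_iff_right ENNReal.ofReal_ne_top).mp h3
    have hcst : ((edges n).card : ℝ≥0∞) * (((n.factorial : ℕ) : ℝ≥0∞)⁻¹ *
        (((n - 2).factorial : ℕ) : ℝ≥0∞)) = ENNReal.ofReal (1 / 2) := by
      obtain ⟨k, hk⟩ : ∃ k, n = k + 2 := ⟨n - 2, by omega⟩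
      have h5 : ((n.factorial : ℕ) : ℝ≥0∞)⁻¹ = ENNReal.ofReal ((n.factorial : ℝ)⁻¹) := by
        rw [ENNReal.ofReal_inv_of_pos (by positivity), ENNReal.ofReal_natCast]
      rw [h5, ← ENNReal.ofReal_natCast, ← ENNReal.ofReal_natCast,
        ← ENNReal.ofReal_mul (by positivity), ← ENNReal.ofReal_mul (by positivity)]
      congr 1
      have h6 := card_edges n
      have h7 : (n.factorial : ℝ) = n * ((n : ℝ) - 1) * ((n - 2).factorial : ℝ) := by
        rw [hk]
        rw [show k + 2 - 2 = k by omega, show k + 2 = (k + 1) + 1 by ring,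
          Nat.factorial_succ (k + 1), Nat.factorial_succ k]
        push_cast
        ring
      rw [h7]
      have h8 : ((n - 2).factorial : ℝ) ≠ 0 := by positivity
      have h9 : (n : ℝ) ≠ 0 := by positivity
      have h10 : (n : ℝ) - 1 ≠ 0 := by
        have : (2 : ℝ) ≤ n := by exact_mod_cast hn
        linarith
      have h11 : ((edges n).card : ℝ) = ((n : ℝ) - 1) * n / 2 := by linarith
      rw [h11]
      field_simp
    calc ENNReal.ofReal ((cn n - (16 * log n + 1 / 2) / n) / 2) =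
          ENNReal.ofReal (1 / 2) * ENNReal.ofReal (cn n - (16 * log n + 1 / 2) / n) := by
          rw [← ENNReal.ofReal_mul (by norm_num)]
          congr 1
          ring
      _ ≤ ENNReal.ofReal (1 / 2) * I2 := by gcongr
      _ = _ := by rw [← hcst]; ring
  have hJ := jensen_pos hGm (by positivity) hMG hG0
  have hfin : ∫⁻ y, ENNReal.ofReal (exp (G y)) ∂P ≤ ((n.factorial : ℕ) : ℝ≥0∞)⁻¹ *
      (Kc n * ∫⁻ y, PA n y ∂(Measure.pi fun _ : Fin n => mu n)) := by
    rw [hPint (by fun_prop), ← lintegral_const_mul _ (measurable_PA n)]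
    refine mul_le_mul' le_rfl ?_
    refine lintegral_mono_ae ?_
    filter_upwards [mu_ae_good n, mu_ae_dist n] with y hy hd
    rw [KPA_eq hy hd]
    refine mul_le_mul' le_rfl (ENNReal.ofReal_le_ofReal ?_)
    simp only [hG]
    rw [exp_sum]
    refine Finset.prod_le_prod (fun e _ => (exp_pos _).le) fun e he => ?_
    have h1 := ff_nonneg (hy e.1).1 (hy e.2).1
    have h2 : 0 < 1 + ff (y e.1) (y e.2) := by linarith
    rw [← ph_eq (hy e.1).1 (hy e.2).1 (hd e he)]
    have h3 := one_sub_inv_le_log_of_pos h2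
    have h4 : ff (y e.1) (y e.2) / (1 + ff (y e.1) (y e.2)) =
        1 - (1 + ff (y e.1) (y e.2))⁻¹ := by
      field_simp
      ring
    rw [h4]
    calc exp (1 - (1 + ff (y e.1) (y e.2))⁻¹) ≤ exp (log (1 + ff (y e.1) (y e.2))) :=
          exp_le_exp.mpr h3
      _ = _ := exp_log h2
  have hend := hJ.trans hfin
  calc ENNReal.ofReal ((n.factorial : ℝ) * exp ((cn n - (16 * log n + 1 / 2) / n) / 2)) =
        ((n.factorial : ℕ) : ℝ≥0∞) *
          ENNReal.ofReal (exp ((cn n - (16 * log n + 1 / 2) / n) / 2)) := by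
        rw [ENNReal.ofReal_mul (by positivity), ENNReal.ofReal_natCast]
    _ ≤ ((n.factorial : ℕ) : ℝ≥0∞) * (((n.factorial : ℕ) : ℝ≥0∞)⁻¹ *
      (Kc n * ∫⁻ y, PA n y ∂(Measure.pi fun _ : Fin n => mu n))) := by gcongr
    _ = _ := by rw [← mul_assoc, ENNReal.mul_inv_cancel hfac0 hfact, one_mul]

end Pool.Agent.Helper44.Ball3
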