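import Mathlib
import Pool.Agent.Helper44.Ball3.UpLow

set_option autoImplicit false
set_option maxHeartbeats 4000000
set_option synthInstance.maxHeartbeats 400000

open MeasureTheory Set Real
open scoped ENNReal InnerProductSpace

namespace Pool.Agent.Helper44.Ball3

/-- Base measure in polar coordinates. -/
noncomputable def base : Measure (ℝ × E3) := (volume.restrict (Ioo (0 : ℝ) 1)).prod sig

/-- Jacobian weight. -/
noncomputable def w1 (y : ℝ × E3) : ℝ≥0∞ := ENNReal.ofReal (4 * π * y.1 ^ 2)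

/-- Radial weight. -/
noncomputable def w2 (n : ℕ) (y : ℝ × E3) : ℝ≥0∞ := ENNReal.ofReal (((n : ℝ) + 2) * y.1 ^ (n + 1))

instance : IsFiniteMeasure base := by unfold base; infer_instance

lemma measurable_w1 : Measurable w1 := by unfold w1; fun_prop

lemma measurable_w2 (n : ℕ) : Measurable (w2 n) := by unfold w2; fun_prop

lemma base_ae : ∀ᵐ y ∂base, y.1 ∈ Ioo (0 : ℝ) 1 ∧ y.2 ∈ Good := by
  unfold base
  have h1 : ∀ᵐ y ∂((volume.restrict (Ioo (0 : ℝ) 1)).prod sig), y.1 ∈ Ioo (0 : ℝ) 1 :=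
    Measure.quasiMeasurePreserving_fst.ae (ae_restrict_mem measurableSet_Ioo)
  have h2 : ∀ᵐ y ∂((volume.restrict (Ioo (0 : ℝ) 1)).prod sig), y.2 ∈ Good :=
    Measure.quasiMeasurePreserving_snd.ae ae_good
  filter_upwards [h1, h2] with y h1 h2
  exact ⟨h1, h2⟩

lemma mu_eq (n : ℕ) : mu n = base.withDensity (w2 n) := by
  unfold mu rho base
  rw [prod_withDensity_left (by fun_prop)]
  rfl

instance : IsFiniteMeasure (base.withDensity w1) := by
  refine isFiniteMeasure_withDensity ?_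
  have h : ∫⁻ y, w1 y ∂base ≤ ∫⁻ _y, ENNReal.ofReal (4 * π) ∂base := by
    refine lintegral_mono_ae ?_
    filter_upwards [base_ae] with y hy
    refine ENNReal.ofReal_le_ofReal ?_
    have h1 := hy.1.1
    have h2 := hy.1.2
    have : y.1 ^ 2 ≤ 1 := by nlinarith
    nlinarith [pi_pos]
  refine ne_top_of_le_ne_top ?_ h
  rw [lintegral_const]
  exact ENNReal.mul_ne_top ENNReal.ofReal_ne_top (measure_ne_top _ _)

lemma measurable_smulp : Measurable fun y : ℝ × E3 => y.1 • y.2 :=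
  measurable_fst.smul measurable_snd

lemma ball_map : (volume : Measure E3).restrict (Metric.closedBall 0 1) =
    (base.withDensity w1).map (fun y : ℝ × E3 => y.1 • y.2) := by
  refine Measure.ext_of_lintegral _ fun F hF => ?_
  have hFs : Measurable fun y : ℝ × E3 => F (y.1 • y.2) := hF.comp measurable_smulp
  rw [lintegral_map hF measurable_smulp, lintegral_ball hF,
    lintegral_withDensity_eq_lintegral_mul _ measurable_w1 hFs]
  have hm : Measurable fun y : ℝ × E3 => w1 y * F (y.1 • y.2) := measurable_w1.mul hFs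
  have e : ∫⁻ y, (w1 * fun y : ℝ × E3 => F (y.1 • y.2)) y ∂base =
      ∫⁻ y : ℝ × E3, w1 y * F (y.1 • y.2) ∂base := rfl
  rw [e]
  unfold base
  rw [lintegral_prod _ hm.aemeasurable]
  refine lintegral_congr fun r => ?_
  have h1 : ∀ w : E3, w1 (r, w) * F ((r, w).1 • (r, w).2) =
      ENNReal.ofReal (4 * π * r ^ 2) * F (r • w) := fun w => rfl
  simp only [h1]
  rw [lintegral_const_mul]
  exact hF.comp (measurable_const_smul r)

lemma pi_base_int {n : ℕ} {w : ℝ × E3 → ℝ≥0∞} (hw : Measurable w)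
    [hfin : SigmaFinite (base.withDensity w)] {F : (Fin n → ℝ × E3) → ℝ≥0∞} (hF : Measurable F) :
    ∫⁻ y, F y ∂(Measure.pi fun _ : Fin n => base.withDensity w) =
      ∫⁻ y, (∏ i, w (y i)) * F y ∂(Measure.pi fun _ : Fin n => base) := by
  have h := pi_withDensity (fun _ : Fin n => base) (f := fun _ => w) (fun _ => hw)
  have h2 : (Measure.pi fun _ : Fin n => base.withDensity w) =
      (Measure.pi fun _ : Fin n => base).withDensity (fun y => ∏ i, w (y i)) := h
  rw [h2, lintegral_withDensity_eq_lintegral_mul _ _ hF]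
  · rfl
  · exact Finset.measurable_fun_prod _ fun i _ => hw.comp (measurable_pi_apply i)

/-- The ball integral in polar form. -/
lemma ball_int {n : ℕ} {F : (Fin n → E3) → ℝ≥0∞} (hF : Measurable F) :
    ∫⁻ x in {x : Fin n → E3 | ∀ i, ‖x i‖ ≤ 1}, F x =
      ∫⁻ y, (∏ i, w1 (y i)) * F (fun i => (y i).1 • (y i).2)
        ∂(Measure.pi fun _ : Fin n => base) := by
  have hset : {x : Fin n → E3 | ∀ i, ‖x i‖ ≤ 1} =
      Set.univ.pi (fun _ : Fin n => Metric.closedBall (0 : E3) 1) := by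
    ext x
    simp
  rw [hset, volume_pi, Measure.restrict_pi_pi, ball_map]
  have hmap := Measure.pi_map_pi (ι := Fin n) (μ := fun _ => base.withDensity w1)
    (f := fun _ (y : ℝ × E3) => y.1 • y.2) (fun _ => measurable_smulp.aemeasurable)
  rw [← hmap]
  have hms : Measurable fun y : Fin n → ℝ × E3 => (fun i => (y i).1 • (y i).2) :=
    measurable_pi_lambda _ fun i => measurable_smulp.comp (measurable_pi_apply i)
  rw [lintegral_map hF hms]
  have hFs : Measurable fun y : Fin n → ℝ × E3 => F (fun i => (y i).1 • (y i).2) := hF.comp hms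
  rw [pi_base_int measurable_w1 hFs]

lemma prod_edges_pow {n : ℕ} {r : Fin n → ℝ} (hr : ∀ i, 0 < r i) :
    ∏ e ∈ edges n, (r e.1 * r e.2) = ∏ i, r i ^ (n - 1) := by
  rcases Nat.eq_zero_or_pos n with h0 | h0
  · subst h0
    rw [Finset.univ_eq_empty, Finset.prod_empty]
    refine Finset.prod_eq_one fun e _ => ?_
    exact Fin.elim0 e.1
  have h1 := edges_sum (fun i => log (r i))
  have h2 : exp (∑ e ∈ edges n, (log (r e.1) + log (r e.2))) =
      exp (((n : ℝ) - 1) * ∑ i, log (r i)) := by rw [h1]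
  rw [exp_sum, Finset.mul_sum, exp_sum] at h2
  have h3 : ((n - 1 : ℕ) : ℝ) = (n : ℝ) - 1 := by
    rw [Nat.cast_sub h0]; simp
  calc _ = ∏ e ∈ edges n, exp (log (r e.1) + log (r e.2)) := by
        refine Finset.prod_congr rfl fun e _ => ?_
        rw [exp_add, exp_log (hr _), exp_log (hr _)]
    _ = _ := h2
    _ = _ := by
        refine Finset.prod_congr rfl fun i _ => ?_
        rw [← h3, exp_nat_mul, exp_log (hr i)]

lemma dist_polar {y z : ℝ × E3} (h1 : y.1 ∈ Ioo (0 : ℝ) 1) (h2 : z.1 ∈ Ioo (0 : ℝ) 1)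
    (g1 : ‖y.2‖ = 1) (g2 : ‖z.2‖ = 1) :
    ‖y.1 • y.2 - z.1 • z.2‖ ^ 2 = (y.1 * z.1) * AB y z := by
  have hy := h1.1
  have hz := h2.1
  unfold AB bb
  rw [norm_sub_sq_real, norm_sub_sq_real, norm_smul, norm_smul, g1, g2, inner_smul_left,
    inner_smul_right, norm_of_nonneg hy.le, norm_of_nonneg hz.le]
  simp only [RCLike.conj_to_real]
  field_simp
  ring

/-- The integral over the ball in terms of the normalised model. -/
lemma ball_ident (n : ℕ) (hn : 1 ≤ n) :
    ∫⁻ x in {x : Fin n → E3 | ∀ i, ‖x i‖ ≤ 1},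
      ENNReal.ofReal (∏ i, ∏ j ∈ Finset.Ioi i, ‖x j - x i‖ ^ 2) =
    ENNReal.ofReal ((4 * π / ((n : ℝ) + 2)) ^ n * 4 ^ (edges n).card) *
      ∫⁻ y, PA n y ∂(Measure.pi fun _ : Fin n => mu n) := by
  have hFm : Measurable fun x : Fin n → E3 =>
      ENNReal.ofReal (∏ i, ∏ j ∈ Finset.Ioi i, ‖x j - x i‖ ^ 2) := by
    refine ENNReal.measurable_ofReal.comp ?_
    refine Finset.measurable_fun_prod _ fun i _ => Finset.measurable_fun_prod _ fun j _ => ?_
    fun_prop
  rw [ball_int hFm]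
  have hmu : (Measure.pi fun _ : Fin n => mu n) =
      Measure.pi fun _ : Fin n => base.withDensity (w2 n) := by rw [← mu_eq]
  have hsf : SigmaFinite (base.withDensity (w2 n)) := by
    rw [← mu_eq]; infer_instance
  have hw2m : Measurable fun y : Fin n → ℝ × E3 => (∏ i, w2 n (y i)) * PA n y :=
    (Finset.measurable_fun_prod _ fun i _ =>
      (measurable_w2 n).comp (measurable_pi_apply i)).mul (measurable_PA n)
  rw [hmu, pi_base_int (measurable_w2 n) (measurable_PA n), ← lintegral_const_mul _ hw2m]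
  refine lintegral_congr_ae ?_
  have hae : ∀ᵐ y ∂(Measure.pi fun _ : Fin n => base),
      ∀ i, (y i).1 ∈ Ioo (0 : ℝ) 1 ∧ (y i).2 ∈ Good := by
    rw [ae_all_iff]
    intro i
    exact (Measure.quasiMeasurePreserving_eval (fun _ : Fin n => base) i).ae base_ae
  filter_upwards [hae] with y hy
  have hr : ∀ i, 0 < (y i).1 := fun i => (hy i).1.1
  have hABnn : ∀ i j, 0 ≤ AB (y i) (y j) := fun i j => by
    unfold AB
    have := bb_nonneg (hr i) (hr j)
    positivity
  have e1 : ∏ i, ∏ j ∈ Finset.Ioi i, ‖(y j).1 • (y j).2 - (y i).1 • (y i).2‖ ^ 2 =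
      (∏ i, (y i).1 ^ (n - 1)) * (4 ^ (edges n).card *
        ∏ e ∈ edges n, AB (y e.1) (y e.2) / 4) := by
    rw [prod_edges (fun i j => ‖(y j).1 • (y j).2 - (y i).1 • (y i).2‖ ^ 2),
      ← prod_edges_pow hr, ← Finset.prod_const, ← Finset.prod_mul_distrib,
      ← Finset.prod_mul_distrib]
    refine Finset.prod_congr rfl fun e _ => ?_
    rw [dist_polar (hy _).1 (hy _).1 (hy _).2.1 (hy _).2.1, AB_symm (y e.2) (y e.1)]
    ring
  have hPnn : 0 ≤ ∏ e ∈ edges n, AB (y e.1) (y e.2) / 4 :=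
    Finset.prod_nonneg fun e _ => div_nonneg (hABnn _ _) (by norm_num)
  have e2 : ∏ i, w1 (y i) = ENNReal.ofReal (∏ i, (4 * π * (y i).1 ^ 2)) := by
    unfold w1
    rw [ENNReal.ofReal_prod_of_nonneg (fun i _ => by have := hr i; positivity)]
  have e3 : ∏ i, w2 n (y i) = ENNReal.ofReal (∏ i, (((n : ℝ) + 2) * (y i).1 ^ (n + 1))) := by
    unfold w2
    rw [ENNReal.ofReal_prod_of_nonneg (fun i _ => by have := hr i; positivity)]
  rw [e1, e2, e3]
  unfold PA
  have hp1 : 0 ≤ ∏ i, (4 * π * (y i).1 ^ 2) :=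
    Finset.prod_nonneg fun i _ => by have := hr i; positivity
  have hp2 : 0 ≤ ∏ i, (((n : ℝ) + 2) * (y i).1 ^ (n + 1)) :=
    Finset.prod_nonneg fun i _ => by have := hr i; positivity
  rw [← ENNReal.ofReal_mul hp1, ← ENNReal.ofReal_mul hp2, ← ENNReal.ofReal_mul (by positivity)]
  congr 1
  have e4 : (∏ i, (4 * π * (y i).1 ^ 2)) * ∏ i, (y i).1 ^ (n - 1) =
      (4 * π / ((n : ℝ) + 2)) ^ n * ∏ i, (((n : ℝ) + 2) * (y i).1 ^ (n + 1)) := by
    rw [← Finset.prod_mul_distrib]
    have h5 : (4 * π / ((n : ℝ) + 2)) ^ n = ∏ _i : Fin n, (4 * π / ((n : ℝ) + 2)) := by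
      rw [Finset.prod_const, Finset.card_univ, Fintype.card_fin]
    rw [h5, ← Finset.prod_mul_distrib]
    refine Finset.prod_congr rfl fun i _ => ?_
    obtain ⟨k, rfl⟩ : ∃ k, n = k + 1 := ⟨n - 1, by omega⟩
    rw [Nat.add_sub_cancel]
    have : ((k + 1 : ℕ) : ℝ) + 2 ≠ 0 := by positivity
    field_simp
    ring
  calc (∏ i, (4 * π * (y i).1 ^ 2)) * ((∏ i, (y i).1 ^ (n - 1)) * (4 ^ (edges n).card *
        ∏ e ∈ edges n, AB (y e.1) (y e.2) / 4))
      = ((∏ i, (4 * π * (y i).1 ^ 2)) * (∏ i, (y i).1 ^ (n - 1))) * (4 ^ (edges n).card *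
        ∏ e ∈ edges n, AB (y e.1) (y e.2) / 4) := by ring
    _ = _ := by rw [e4]; ring

lemma cc_prod (n : ℕ) (hn : 1 ≤ n) : (∏ k : Fin n, cc n k ^ 2) *
    ∏ k ∈ Finset.range n, ((k.factorial : ℝ)) ^ 2 = (n.factorial : ℝ) ^ n := by
  have h1 : ∏ k : Fin n, cc n k ^ 2 = ∏ k ∈ Finset.range n, ((n : ℝ) * ((n - 1).choose k : ℝ)) := by
    rw [Finset.prod_range]
    exact Finset.prod_congr rfl fun k _ => cc_sq n k
  have h2 : ∏ k ∈ Finset.range n, ((k.factorial : ℝ)) ^ 2 =
      ∏ k ∈ Finset.range n, ((k.factorial : ℝ) * ((n - 1 - k).factorial : ℝ)) := by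
    rw [Finset.prod_mul_distrib, Finset.prod_range_reflect (fun k => (k.factorial : ℝ)) n,
      ← Finset.prod_mul_distrib]
    exact Finset.prod_congr rfl fun k _ => by ring
  rw [h1, h2, ← Finset.prod_mul_distrib]
  have h3 : (n.factorial : ℝ) ^ n = ∏ _k ∈ Finset.range n, (n.factorial : ℝ) := by
    rw [Finset.prod_const, Finset.card_range]
  rw [h3]
  refine Finset.prod_congr rfl fun k hk => ?_
  have hk' : k ≤ n - 1 := by have := Finset.mem_range.mp hk; omega
  have h4 := Nat.choose_mul_factorial_mul_factorial hk'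
  have h5 : n.factorial = n * (n - 1).factorial := (Nat.mul_factorial_pred (by omega)).symm
  rw [h5, ← h4]
  push_cast
  ring

end Pool.Agent.Helper44.Ball3
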