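import Mathlib
import Pool.Agent.Helper44.Ball3.Ident

set_option autoImplicit false
set_option maxHeartbeats 4000000
set_option synthInstance.maxHeartbeats 400000

open MeasureTheory Set Real Filter Topology
open scoped ENNReal InnerProductSpace

namespace Pool.Agent.Helper44.Ball3

/-- The real ball integral. -/
noncomputable def FB (n : ℕ) : ℝ :=
  ∫ x in {x : Fin n → E3 | ∀ i, ‖x i‖ ≤ 1}, ∏ i, ∏ j ∈ Finset.Ioi i, ‖x j - x i‖ ^ 2

/-- Normalised partition function. -/
noncomputable def EE (n : ℕ) : ℝ :=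
  (∏ k : Fin n, cc n k ^ 2) *
    (∫⁻ y, PA n y ∂(Measure.pi fun _ : Fin n => mu n)).toReal / (n.factorial : ℝ)

lemma FB_eq (n : ℕ) (hn : 1 ≤ n) : FB n = (4 * π / ((n : ℝ) + 2)) ^ n * 4 ^ (edges n).card *
    (∫⁻ y, PA n y ∂(Measure.pi fun _ : Fin n => mu n)).toReal := by
  unfold FB
  have hm : Measurable fun x : Fin n → E3 => ∏ i, ∏ j ∈ Finset.Ioi i, ‖x j - x i‖ ^ 2 := by
    refine Finset.measurable_fun_prod _ fun i _ => Finset.measurable_fun_prod _ fun j _ => ?_
    fun_prop
  rw [integral_eq_lintegral_of_nonneg_ae (ae_of_all _ fun x => by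
    exact Finset.prod_nonneg fun i _ => Finset.prod_nonneg fun j _ => by positivity)
    hm.aestronglyMeasurable, ball_ident n hn, ENNReal.toReal_mul, ENNReal.toReal_ofReal
    (by positivity)]

lemma Kpos (n : ℕ) (hn : 1 ≤ n) : 0 < ∏ k : Fin n, cc n k ^ 2 := by
  refine Finset.prod_pos fun k _ => ?_
  rw [cc_sq]
  have h1 := Nat.choose_pos (show k.1 ≤ n - 1 by have := k.2; omega)
  have h2 : (0 : ℝ) < n := by exact_mod_cast hn
  positivity

/-- The closed form. -/
noncomputable def CF (n : ℕ) : ℝ :=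
  exp (eulerMascheroniConstant / 4 - 2) * (n : ℝ) ^ ((1 : ℝ) / 4 - n) * 2 ^ (n * (n + 1)) * π ^ n *
    (n.factorial : ℝ) ^ (1 - (n : ℤ)) * ∏ k ∈ Finset.range n, ((k.factorial : ℝ)) ^ 2

lemma two_card_edges (n : ℕ) : 2 * (edges n).card = n * (n - 1) := by
  rcases Nat.eq_zero_or_pos n with h | h
  · subst h; simp [edges]
  have := card_edges n
  have h2 : ((2 * (edges n).card : ℕ) : ℝ) = ((n * (n - 1) : ℕ) : ℝ) := by
    push_cast [Nat.cast_sub h]
    linarith
  exact_mod_cast h2

lemma ratio_eq (n : ℕ) (hn : 1 ≤ n) : FB n / CF n =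
    (EE n * exp (-(log n + eulerMascheroniConstant) / 4)) *
      (exp 2 / (1 + 2 / (n : ℝ)) ^ n) := by
  have hn0 : (0 : ℝ) < n := by exact_mod_cast hn
  have hK := Kpos n hn
  have hcc := cc_prod n hn
  have hprod : 0 < ∏ k ∈ Finset.range n, ((k.factorial : ℝ)) ^ 2 :=
    Finset.prod_pos fun k _ => by positivity
  have hfac : (0 : ℝ) < (n.factorial : ℝ) := by positivity
  rw [FB_eq n hn]
  unfold CF EE
  set I := (∫⁻ y, PA n y ∂(Measure.pi fun _ : Fin n => mu n)).toReal with hI
  set K := ∏ k : Fin n, cc n k ^ 2 with hKd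
  set R := ∏ k ∈ Finset.range n, ((k.factorial : ℝ)) ^ 2 with hR
  have h4 : (4 : ℝ) ^ (edges n).card = 2 ^ (n * (n - 1)) := by
    rw [← two_card_edges, pow_mul]; norm_num
  have h2 : (2 : ℝ) ^ (n * (n + 1)) = 4 ^ n * 2 ^ (n * (n - 1)) := by
    have : (4 : ℝ) ^ n = 2 ^ (2 * n) := by rw [pow_mul]; norm_num
    rw [this, ← pow_add]
    congr 1
    obtain ⟨k, rfl⟩ : ∃ k, n = k + 1 := ⟨n - 1, by omega⟩
    rw [Nat.add_sub_cancel]
    ring
  have h5 : (n : ℝ) ^ ((1 : ℝ) / 4 - n) = exp (log n / 4) / (n : ℝ) ^ n := by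
    rw [rpow_sub hn0, rpow_natCast]
    congr 1
    rw [rpow_def_of_pos hn0]
    congr 1
    ring
  have h6 : (n.factorial : ℝ) ^ (1 - (n : ℤ)) = (n.factorial : ℝ) / (n.factorial : ℝ) ^ n := by
    rw [zpow_sub₀ hfac.ne', zpow_one, zpow_natCast]
  have h7 : exp (eulerMascheroniConstant / 4 - 2) = exp (eulerMascheroniConstant / 4) / exp 2 := by
    rw [exp_sub]
  have h8 : exp (-(log n + eulerMascheroniConstant) / 4) =
      1 / (exp (log n / 4) * exp (eulerMascheroniConstant / 4)) := by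
    rw [← exp_add, one_div, ← exp_neg]
    congr 1
    ring
  have h9 : (1 + 2 / (n : ℝ)) ^ n = ((n : ℝ) + 2) ^ n / (n : ℝ) ^ n := by
    rw [← div_pow]
    congr 1
    field_simp
  have h10 : (4 * π / ((n : ℝ) + 2)) ^ n = 4 ^ n * π ^ n / ((n : ℝ) + 2) ^ n := by
    rw [div_pow, mul_pow]
  have h11 : R = (n.factorial : ℝ) ^ n / K := by
    rw [eq_div_iff hK.ne']
    linarith
  rw [h4, h2, h5, h6, h7, h8, h9, h10, h11]
  have hp2 : ((n : ℝ) + 2) ≠ 0 := by positivity
  have hpi := pi_pos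
  field_simp

lemma EE_upper (m : ℕ) (hm : 2 ≤ m) : EE (m + 1) ≤ exp (cn (m + 1) / 2) +
    exp 23888000 * 540000000 * (1 + log ((m + 1 : ℕ) : ℝ)) ^ 2 := by
  have h := upper hm
  have hfac : (0 : ℝ) < ((m + 1).factorial : ℝ) := by positivity
  have hK := Kpos (m + 1) (by omega)
  rw [← ENNReal.ofReal_add (by positivity) (by positivity)] at h
  have h2 := ENNReal.toReal_mono ENNReal.ofReal_ne_top h
  rw [ENNReal.toReal_mul, ENNReal.toReal_ofReal (by positivity)] at h2
  have h3 : (Kc (m + 1)).toReal = ∏ k : Fin (m + 1), cc (m + 1) k ^ 2 := by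
    unfold Kc
    rw [ENNReal.toReal_ofReal hK.le]
  rw [h3] at h2
  unfold EE
  rw [div_le_iff₀ hfac]
  refine h2.trans (le_of_eq ?_)
  ring

lemma PA_ne_top (m : ℕ) (hm : 2 ≤ m) :
    ∫⁻ y, PA (m + 1) y ∂(Measure.pi fun _ : Fin (m + 1) => mu (m + 1)) ≠ ∞ := by
  have h := upper hm
  have hK := Kpos (m + 1) (by omega)
  rw [← ENNReal.ofReal_add (by positivity) (by positivity)] at h
  intro htop
  rw [htop, ENNReal.mul_top] at h
  · exact absurd h (by simp)
  · unfold Kc
    rw [Ne, ENNReal.ofReal_eq_zero, not_le]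
    exact hK

lemma EE_lower (m : ℕ) (hm : 2 ≤ m)
    (h0 : 0 ≤ cn (m + 1) - (16 * log ((m + 1 : ℕ) : ℝ) + 1 / 2) / ((m + 1 : ℕ) : ℝ)) :
    exp ((cn (m + 1) - (16 * log ((m + 1 : ℕ) : ℝ) + 1 / 2) / ((m + 1 : ℕ) : ℝ)) / 2) ≤
      EE (m + 1) := by
  have h := lower (n := m + 1) (by omega) h0
  have hfac : (0 : ℝ) < ((m + 1).factorial : ℝ) := by positivity
  have hK := Kpos (m + 1) (by omega)
  have hne : Kc (m + 1) * ∫⁻ y, PA (m + 1) y ∂(Measure.pi fun _ : Fin (m + 1) => mu (m + 1)) ≠ ∞ :=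
    ENNReal.mul_ne_top (by unfold Kc; exact ENNReal.ofReal_ne_top) (PA_ne_top m hm)
  have h2 := ENNReal.toReal_mono hne h
  rw [ENNReal.toReal_mul, ENNReal.toReal_ofReal (by positivity)] at h2
  have h3 : (Kc (m + 1)).toReal = ∏ k : Fin (m + 1), cc (m + 1) k ^ 2 := by
    unfold Kc
    rw [ENNReal.toReal_ofReal hK.le]
  rw [h3] at h2
  unfold EE
  rw [le_div_iff₀ hfac]
  linarith

lemma tendsto_log_div : Tendsto (fun n : ℕ => log (n : ℝ) / n) atTop (𝓝 0) := by
  have h := Real.isLittleO_log_id_atTop.tendsto_div_nhds_zero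
  exact h.comp tendsto_natCast_atTop_atTop

lemma tendsto_logp (k : ℕ) (s : ℝ) (hs : 0 < s) :
    Tendsto (fun n : ℕ => (log (n : ℝ)) ^ k / (n : ℝ) ^ s) atTop (𝓝 0) := by
  have h := (isLittleO_log_rpow_rpow_atTop (k : ℝ) hs).tendsto_div_nhds_zero
  have h2 := h.comp tendsto_natCast_atTop_atTop
  refine h2.congr fun n => ?_
  simp only [Function.comp_apply, rpow_natCast]

lemma cn_tendsto : Tendsto (fun n : ℕ => cn n / 2 - (log n + eulerMascheroniConstant) / 4) atTop
    (𝓝 0) := by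
  have h1 : Tendsto (fun n : ℕ => (harmonic n : ℝ) - log n - eulerMascheroniConstant) atTop
      (𝓝 0) := by
    have := Real.tendsto_harmonic_sub_log.sub_const eulerMascheroniConstant
    simpa using this
  have h2 : Tendsto (fun n : ℕ => (1 : ℝ) / n) atTop (𝓝 0) := tendsto_one_div_atTop_nhds_zero_nat
  -- error from replacing the rational prefactor
  have h3 : Tendsto (fun n : ℕ => (1 - (n : ℝ) ^ 2 / (((n : ℝ) + 1) * ((n : ℝ) + 3))) *
      (harmonic (n - 1) : ℝ)) atTop (𝓝 0) := by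
    have hb : Tendsto (fun n : ℕ => 4 * ((1 : ℝ) / n) + 4 * (log (n : ℝ) / n)) atTop (𝓝 0) := by
      have := (h2.const_mul 4).add (tendsto_log_div.const_mul 4)
      simpa using this
    refine squeeze_zero' ?_ ?_ hb
    · filter_upwards [eventually_ge_atTop 1] with n hn
      have hn0 : (0 : ℝ) < n := by exact_mod_cast hn
      have h4 : (n : ℝ) ^ 2 / (((n : ℝ) + 1) * ((n : ℝ) + 3)) ≤ 1 := by
        rw [div_le_one (by positivity)]
        nlinarith
      exact mul_nonneg (by linarith) (harm_nonneg _)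
    · filter_upwards [eventually_ge_atTop 1] with n hn
      have hn0 : (0 : ℝ) < n := by exact_mod_cast hn
      have hn1 : (1 : ℝ) ≤ n := by exact_mod_cast hn
      have h4 : 1 - (n : ℝ) ^ 2 / (((n : ℝ) + 1) * ((n : ℝ) + 3)) ≤ 4 / n := by
        have : 1 - (n : ℝ) ^ 2 / (((n : ℝ) + 1) * ((n : ℝ) + 3)) =
            (4 * n + 3) / (((n : ℝ) + 1) * ((n : ℝ) + 3)) := by
          field_simp
          ring
        rw [this, div_le_div_iff₀ (by positivity) hn0]
        nlinarith
      have h5 : (harmonic (n - 1) : ℝ) ≤ 1 + log n := by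
        have h6 := harmonic_le_one_add_log (n - 1)
        refine h6.trans ?_
        rcases Nat.eq_or_lt_of_le hn with h7 | h7
        · rw [← h7]; simp
        · have h8 : (0 : ℝ) < ((n - 1 : ℕ) : ℝ) := by
            have : 0 < n - 1 := by omega
            exact_mod_cast this
          have h9 : ((n - 1 : ℕ) : ℝ) ≤ n := by exact_mod_cast Nat.sub_le n 1
          have := log_le_log h8 h9
          linarith
      have h10 : 0 ≤ log (n : ℝ) := log_nonneg hn1
      calc _ ≤ 4 / n * (1 + log n) :=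
            mul_le_mul h4 h5 (harm_nonneg _) (by positivity)
        _ = _ := by ring
  have h4 : Tendsto (fun n : ℕ => ((harmonic n : ℝ) - log n - eulerMascheroniConstant) -
      (1 : ℝ) / n - (1 - (n : ℝ) ^ 2 / (((n : ℝ) + 1) * ((n : ℝ) + 3))) *
      (harmonic (n - 1) : ℝ)) atTop (𝓝 0) := by
    have := (h1.sub h2).sub h3
    simpa using this
  have h5 := h4.const_mul (1 / 4)
  rw [mul_zero] at h5
  refine h5.congr' ?_
  filter_upwards [eventually_ge_atTop 1] with n hn
  have hn0 : (0 : ℝ) < n := by exact_mod_cast hn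
  obtain ⟨k, rfl⟩ : ∃ k, n = k + 1 := ⟨n - 1, by omega⟩
  have h6 : (harmonic (k + 1) : ℝ) = (harmonic k : ℝ) + 1 / ((k + 1 : ℕ) : ℝ) := by
    rw [harmonic_succ]
    push_cast
    ring
  rw [h6]
  unfold cn
  rw [Nat.add_sub_cancel]
  have hk1 : ((k + 1 : ℕ) : ℝ) + 1 ≠ 0 := by positivity
  have hk3 : ((k + 1 : ℕ) : ℝ) + 3 ≠ 0 := by positivity
  field_simp
  ring

/-- Asymptotics of the ball integral. -/
theorem ball_asymp : Tendsto (fun n : ℕ => FB n / CF n) atTop (𝓝 1) := by
  -- the second factor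
  have hA : Tendsto (fun n : ℕ => exp 2 / (1 + 2 / (n : ℝ)) ^ n) atTop (𝓝 1) := by
    have h1 := Real.tendsto_one_add_div_pow_exp 2
    have h2 := (tendsto_const_nhds (x := exp 2)).div h1 (exp_pos 2).ne'
    rw [div_self (exp_pos 2).ne'] at h2
    exact h2
  have hlogn : Tendsto (fun n : ℕ => log (n : ℝ) / n) atTop (𝓝 0) := tendsto_log_div
  have h1n : Tendsto (fun n : ℕ => (1 : ℝ) / n) atTop (𝓝 0) := tendsto_one_div_atTop_nhds_zero_nat
  have herr : Tendsto (fun n : ℕ => (16 * log (n : ℝ) + 1 / 2) / n) atTop (𝓝 0) := by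
    have := (hlogn.const_mul 16).add (h1n.const_mul (1 / 2))
    simp only [mul_zero, add_zero] at this
    refine this.congr fun n => ?_
    ring
  -- upper comparison function
  have hU : Tendsto (fun n : ℕ => (exp (cn n / 2) +
      exp 23888000 * 540000000 * (1 + log (n : ℝ)) ^ 2) *
      exp (-(log n + eulerMascheroniConstant) / 4)) atTop (𝓝 1) := by
    have u1 : Tendsto (fun n : ℕ => exp (cn n / 2 - (log n + eulerMascheroniConstant) / 4)) atTop
        (𝓝 1) := by
      have := (continuous_exp.tendsto 0).comp cn_tendsto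
      rw [exp_zero] at this
      exact this
    have u2 : Tendsto (fun n : ℕ => (exp 23888000 * 540000000 *
        exp (-eulerMascheroniConstant / 4)) * ((log (n : ℝ)) ^ 0 / (n : ℝ) ^ ((1 : ℝ) / 4) +
          2 * ((log (n : ℝ)) ^ 1 / (n : ℝ) ^ ((1 : ℝ) / 4)) +
          (log (n : ℝ)) ^ 2 / (n : ℝ) ^ ((1 : ℝ) / 4))) atTop (𝓝 0) := by
      have := (((tendsto_logp 0 (1 / 4) (by norm_num)).add
        ((tendsto_logp 1 (1 / 4) (by norm_num)).const_mul 2)).add
        (tendsto_logp 2 (1 / 4) (by norm_num))).const_mul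
        (exp 23888000 * 540000000 * exp (-eulerMascheroniConstant / 4))
      simpa only [mul_zero, add_zero] using this
    have u3 := u1.add u2
    rw [add_zero] at u3
    refine u3.congr' ?_
    filter_upwards [eventually_ge_atTop 1] with n hn
    have hn0 : (0 : ℝ) < n := by exact_mod_cast hn
    have e1 : exp (cn n / 2 - (log n + eulerMascheroniConstant) / 4) =
        exp (cn n / 2) * exp (-(log n + eulerMascheroniConstant) / 4) := by
      rw [← exp_add]; congr 1; ring
    have e2 : exp (-(log n + eulerMascheroniConstant) / 4) =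
        exp (-eulerMascheroniConstant / 4) / (n : ℝ) ^ ((1 : ℝ) / 4) := by
      rw [rpow_def_of_pos hn0, ← exp_sub]; congr 1; ring
    rw [e1, add_mul]
    congr 1
    rw [e2]
    ring
  have hL : Tendsto (fun n : ℕ => exp ((cn n - (16 * log (n : ℝ) + 1 / 2) / n) / 2) *
      exp (-(log n + eulerMascheroniConstant) / 4)) atTop (𝓝 1) := by
    have u0 : Tendsto (fun n : ℕ => (cn n / 2 - (log n + eulerMascheroniConstant) / 4) -
        1 / 2 * ((16 * log (n : ℝ) + 1 / 2) / n)) atTop (𝓝 0) := by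
      have := cn_tendsto.sub (herr.const_mul (1 / 2))
      simpa using this
    have := (continuous_exp.tendsto 0).comp u0
    rw [exp_zero] at this
    refine this.congr fun n => ?_
    simp only [Function.comp_apply]
    rw [← exp_add]
    congr 1
    ring
  -- eventually the lower exponent is nonnegative
  have hcn_top : Tendsto (fun n : ℕ => cn n - (16 * log (n : ℝ) + 1 / 2) / n) atTop atTop := by
    have h1 : Tendsto (fun n : ℕ => (log (n : ℝ) + eulerMascheroniConstant) / 2) atTop atTop := by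
      have h2 : Tendsto (fun n : ℕ => log (n : ℝ)) atTop atTop :=
        tendsto_log_atTop.comp tendsto_natCast_atTop_atTop
      exact (h2.atTop_add (tendsto_const_nhds (x := eulerMascheroniConstant))).atTop_div_const
        (by norm_num)
    have h3 : Tendsto (fun n : ℕ => 2 * (cn n / 2 - (log n + eulerMascheroniConstant) / 4) -
        (16 * log (n : ℝ) + 1 / 2) / n) atTop (𝓝 0) := by
      have := (cn_tendsto.const_mul 2).sub herr
      simpa using this
    have h4 := h1.atTop_add h3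
    refine h4.congr fun n => ?_
    ring
  have hE : Tendsto (fun n : ℕ => EE n * exp (-(log n + eulerMascheroniConstant) / 4)) atTop
      (𝓝 1) := by
    refine tendsto_of_tendsto_of_tendsto_of_le_of_le' hL hU ?_ ?_
    · filter_upwards [eventually_ge_atTop 3, hcn_top.eventually_ge_atTop 0] with n hn h0
      obtain ⟨m, rfl⟩ : ∃ m, n = m + 1 := ⟨n - 1, by omega⟩
      exact mul_le_mul_of_nonneg_right (EE_lower m (by omega) h0) (exp_pos _).le
    · filter_upwards [eventually_ge_atTop 3] with n hn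
      obtain ⟨m, rfl⟩ : ∃ m, n = m + 1 := ⟨n - 1, by omega⟩
      exact mul_le_mul_of_nonneg_right (EE_upper m (by omega)) (exp_pos _).le
  have hfin := hE.mul hA
  rw [one_mul] at hfin
  refine hfin.congr' ?_
  filter_upwards [eventually_ge_atTop 1] with n hn
  exact (ratio_eq n hn).symm

end Pool.Agent.Helper44.Ball3
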