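import Mathlib
import Pool.Agent.Helper44.Ball3.Final

set_option autoImplicit false
set_option maxHeartbeats 4000000
set_option synthInstance.maxHeartbeats 400000

open MeasureTheory Set Real Filter Topology Asymptotics
open scoped ENNReal InnerProductSpace

namespace Pool.Agent.Helper44.Ball3

lemma one_le_log {n : ℕ} (hn : 3 ≤ n) : 1 ≤ log (n : ℝ) := by
  have hn3 : (3 : ℝ) ≤ n := by exact_mod_cast hn
  rw [Real.le_log_iff_exp_le (by linarith)]
  have := Real.exp_one_lt_d9
  linarith

lemma cn_rate {n : ℕ} (hn : 3 ≤ n) :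
    |cn n / 2 - (log n + eulerMascheroniConstant) / 4| ≤ 3 * (log n / n) := by
  have hL := one_le_log hn
  have hn3 : (3 : ℝ) ≤ n := by exact_mod_cast hn
  have hn0 : (0 : ℝ) < n := by linarith
  obtain ⟨k, rfl⟩ : ∃ k, n = k + 1 := ⟨n - 1, by omega⟩
  have h6 : (harmonic (k + 1) : ℝ) = (harmonic k : ℝ) + 1 / ((k + 1 : ℕ) : ℝ) := by
    rw [harmonic_succ]
    push_cast
    ring
  set N := ((k + 1 : ℕ) : ℝ) with hN
  have hid : cn (k + 1) / 2 - (log N + eulerMascheroniConstant) / 4 =
      1 / 4 * (((harmonic (k + 1) : ℝ) - log N - eulerMascheroniConstant) -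
      (1 : ℝ) / N - (1 - N ^ 2 / ((N + 1) * (N + 3))) * (harmonic k : ℝ)) := by
    rw [h6]
    unfold cn
    rw [Nat.add_sub_cancel, ← hN]
    have hk1 : N + 1 ≠ 0 := by positivity
    have hk3 : N + 3 ≠ 0 := by positivity
    field_simp
    ring
  have b1 : 0 ≤ (harmonic (k + 1) : ℝ) - log N - eulerMascheroniConstant := by
    have := eulerMascheroniConstant_lt_eulerMascheroniSeq' (k + 1)
    unfold eulerMascheroniSeq' at this
    rw [if_neg (by omega)] at this
    linarith
  have b2 : (harmonic (k + 1) : ℝ) - log N - eulerMascheroniConstant ≤ 1 / N := by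
    have := eulerMascheroniSeq_lt_eulerMascheroniConstant (k + 1)
    unfold eulerMascheroniSeq at this
    have h7 : log (N + 1) - log N ≤ 1 / N := by
      rw [← log_div (by positivity) (by positivity)]
      have h8 := log_le_sub_one_of_pos (show 0 < (N + 1) / N by positivity)
      have h9 : (N + 1) / N - 1 = 1 / N := by field_simp; ring
      linarith
    linarith
  have b3 : 0 ≤ 1 - N ^ 2 / ((N + 1) * (N + 3)) := by
    have : N ^ 2 / ((N + 1) * (N + 3)) ≤ 1 := by
      rw [div_le_one (by positivity)]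
      nlinarith
    linarith
  have b4 : 1 - N ^ 2 / ((N + 1) * (N + 3)) ≤ 4 / N := by
    have : 1 - N ^ 2 / ((N + 1) * (N + 3)) = (4 * N + 3) / ((N + 1) * (N + 3)) := by
      field_simp
      ring
    rw [this, div_le_div_iff₀ (by positivity) hn0]
    nlinarith
  have b5 : (harmonic k : ℝ) ≤ 1 + log N := by
    have h6 := harmonic_le_one_add_log k
    refine h6.trans ?_
    have h8 : (0 : ℝ) < (k : ℝ) := by
      have : 0 < k := by omega
      exact_mod_cast this
    have h9 : (k : ℝ) ≤ N := by rw [hN]; push_cast; linarith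
    have := log_le_log h8 h9
    linarith
  have b6 : 0 ≤ (1 - N ^ 2 / ((N + 1) * (N + 3))) * (harmonic k : ℝ) :=
    mul_nonneg b3 (harm_nonneg k)
  have b7 : (1 - N ^ 2 / ((N + 1) * (N + 3))) * (harmonic k : ℝ) ≤ 8 * (log N / N) := by
    calc _ ≤ 4 / N * (1 + log N) := mul_le_mul b4 b5 (harm_nonneg k) (by positivity)
      _ ≤ 4 / N * (log N + log N) := by gcongr
      _ = _ := by ring
  have b8 : 1 / N ≤ log N / N := by gcongr
  have b9 : 0 < 1 / N := by positivity
  rw [hid, abs_le]
  constructor <;> linarith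

/-- Error scale. -/
noncomputable def gs (n : ℕ) : ℝ := (log n) ^ 2 / (n : ℝ) ^ ((1 : ℝ) / 4)

lemma log_div_le_gs {n : ℕ} (hn : 3 ≤ n) : log n / n ≤ gs n := by
  have hL := one_le_log hn
  have hn3 : (3 : ℝ) ≤ n := by exact_mod_cast hn
  unfold gs
  have h1 : (n : ℝ) ^ ((1 : ℝ) / 4) ≤ n := by
    calc (n : ℝ) ^ ((1 : ℝ) / 4) ≤ (n : ℝ) ^ (1 : ℝ) :=
          rpow_le_rpow_of_exponent_le (by linarith) (by norm_num)
      _ = n := rpow_one _
  have h2 : 0 < (n : ℝ) ^ ((1 : ℝ) / 4) := by positivity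
  gcongr
  nlinarith

lemma Y_rate {n : ℕ} (hn : 3 ≤ n) : |exp 2 / (1 + 2 / (n : ℝ)) ^ n - 1| ≤ 4 * (log n / n) := by
  have hL := one_le_log hn
  have hn3 : (3 : ℝ) ≤ n := by exact_mod_cast hn
  have hn0 : (0 : ℝ) < n := by linarith
  have h0 : 0 < 1 + 2 / (n : ℝ) := by positivity
  have h1 : exp 2 / (1 + 2 / (n : ℝ)) ^ n = exp (2 - n * log (1 + 2 / (n : ℝ))) := by
    rw [exp_sub, exp_nat_mul, exp_log h0]
  have h2 : 0 ≤ 2 - n * log (1 + 2 / (n : ℝ)) := by
    have h3 := log_le_sub_one_of_pos h0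
    have h4 : (n : ℝ) * log (1 + 2 / (n : ℝ)) ≤ n * (2 / n) := by
      gcongr
      linarith
    have h5 : (n : ℝ) * (2 / n) = 2 := by field_simp
    linarith
  have h3 : 2 - n * log (1 + 2 / (n : ℝ)) ≤ 2 / n := by
    -- log (1+x) ≥ x - x^2/2
    have h4 : 2 / (n : ℝ) - (2 / (n : ℝ)) ^ 2 / 2 ≤ log (1 + 2 / (n : ℝ)) := by
      set x := 2 / (n : ℝ) with hx
      have hx0 : 0 ≤ x := by positivity
      have hmono : MonotoneOn (fun x : ℝ => log (1 + x) - (x - x ^ 2 / 2)) (Ici 0) := by
        have hd : ∀ x ∈ Ici (0 : ℝ), HasDerivAt (fun x : ℝ => log (1 + x) - (x - x ^ 2 / 2))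
            (x ^ 2 / (1 + x)) x := by
          intro x hx
          have hx' : (0 : ℝ) ≤ x := hx
          have a1 : HasDerivAt (fun x : ℝ => 1 + x) 1 x := (hasDerivAt_id x).const_add 1
          have a2 := a1.log (show 1 + x ≠ 0 by positivity)
          have a3 := (hasDerivAt_id x).sub ((hasDerivAt_pow 2 x).div_const 2)
          refine (a2.sub a3).congr_deriv ?_
          have : 1 + x ≠ 0 := by positivity
          field_simp
          ring
        refine monotoneOn_of_deriv_nonneg (convex_Ici 0)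
          (fun x hx => (hd x hx).continuousAt.continuousWithinAt) ?_ ?_
        · intro x hx
          rw [interior_Ici] at hx
          exact (hd x (mem_Ici.mpr (mem_Ioi.mp hx).le)).differentiableAt.differentiableWithinAt
        · intro x hx
          rw [interior_Ici] at hx
          rw [(hd x (mem_Ici.mpr (mem_Ioi.mp hx).le)).deriv]
          have hx' : (0 : ℝ) < x := hx
          positivity
      have h5 := hmono (mem_Ici.mpr (le_refl (0 : ℝ))) (mem_Ici.mpr hx0) hx0
      simp only [add_zero, log_one] at h5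
      norm_num at h5
      linarith
    have h6 : (n : ℝ) * (2 / (n : ℝ) - (2 / (n : ℝ)) ^ 2 / 2) ≤ n * log (1 + 2 / (n : ℝ)) := by
      gcongr
    have h7 : (n : ℝ) * (2 / (n : ℝ) - (2 / (n : ℝ)) ^ 2 / 2) = 2 - 2 / n := by
      field_simp
    linarith
  rw [h1]
  have h8 : |2 - n * log (1 + 2 / (n : ℝ))| ≤ 1 := by
    rw [abs_of_nonneg h2]
    refine h3.trans ?_
    rw [div_le_one hn0]
    linarith
  refine (abs_exp_sub_one_le h8).trans ?_
  rw [abs_of_nonneg h2]
  calc 2 * (2 - n * log (1 + 2 / (n : ℝ))) ≤ 2 * (2 / n) := by gcongr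
    _ = 4 * (1 / n) := by ring
    _ ≤ 4 * (log n / n) := by gcongr

lemma ball_rate : (fun n : ℕ => FB n / CF n - 1) =O[atTop] gs := by
  have hlogn : Tendsto (fun n : ℕ => log (n : ℝ) / n) atTop (𝓝 0) := tendsto_log_div
  have hlogG : (fun n : ℕ => log (n : ℝ) / n) =O[atTop] gs := by
    refine IsBigO.of_bound 1 ?_
    filter_upwards [eventually_ge_atTop 3] with n hn
    have h1 := log_div_le_gs hn
    have hL := one_le_log hn
    have h2 : 0 ≤ log (n : ℝ) / n := by positivity
    rw [norm_of_nonneg h2, norm_of_nonneg (h2.trans h1), one_mul]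
    exact h1
  -- lower sequence
  set a : ℕ → ℝ := fun n => (cn n / 2 - (log n + eulerMascheroniConstant) / 4) -
        1 / 2 * ((16 * log (n : ℝ) + 1 / 2) / n) with ha
  set b : ℕ → ℝ := fun n => cn n / 2 - (log n + eulerMascheroniConstant) / 4 with hb
  have hbO : b =O[atTop] (fun n : ℕ => log (n : ℝ) / n) := by
    refine IsBigO.of_bound 3 ?_
    filter_upwards [eventually_ge_atTop 3] with n hn
    have hL := one_le_log hn
    rw [norm_of_nonneg (show 0 ≤ log (n : ℝ) / n by positivity)]
    exact cn_rate hn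
  have haO : a =O[atTop] (fun n : ℕ => log (n : ℝ) / n) := by
    refine hbO.sub (IsBigO.of_bound 9 ?_)
    filter_upwards [eventually_ge_atTop 3] with n hn
    have hL := one_le_log hn
    have hn0 : (0 : ℝ) < n := by
      have : 0 < n := by omega
      exact_mod_cast this
    rw [norm_of_nonneg (show 0 ≤ log (n : ℝ) / n by positivity), norm_of_nonneg (by positivity)]
    rw [mul_div_assoc', mul_div_assoc', div_le_div_iff_of_pos_right hn0]
    linarith
  have hexpO : ∀ {u : ℕ → ℝ}, u =O[atTop] (fun n : ℕ => log (n : ℝ) / n) →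
      (fun n => exp (u n) - 1) =O[atTop] gs := by
    intro u hu
    have hu0 : Tendsto u atTop (𝓝 0) := hu.trans_tendsto hlogn
    have h1 : (fun n => exp (u n) - 1) =O[atTop] u := by
      refine IsBigO.of_bound 2 ?_
      have h2 : ∀ᶠ n in atTop, |u n| ≤ 1 := by
        have := hu0.abs
        rw [abs_zero] at this
        exact this.eventually_le_const one_pos
      filter_upwards [h2] with n hn
      exact abs_exp_sub_one_le hn
    exact (h1.trans hu).trans hlogG
  have hLrate := hexpO haO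
  have hU1 := hexpO hbO
  have hU2 : (fun n : ℕ => (exp 23888000 * 540000000 * (1 + log (n : ℝ)) ^ 2) *
      exp (-(log n + eulerMascheroniConstant) / 4)) =O[atTop] gs := by
    refine IsBigO.of_bound (exp 23888000 * 540000000 * 4 * exp (-eulerMascheroniConstant / 4)) ?_
    filter_upwards [eventually_ge_atTop 3] with n hn
    have hL := one_le_log hn
    have hn0 : (0 : ℝ) < n := by
      have : 0 < n := by omega
      exact_mod_cast this
    have e2 : exp (-(log n + eulerMascheroniConstant) / 4) =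
        exp (-eulerMascheroniConstant / 4) / (n : ℝ) ^ ((1 : ℝ) / 4) := by
      rw [rpow_def_of_pos hn0, ← exp_sub]; congr 1; ring
    have hg : 0 ≤ gs n := by unfold gs; positivity
    rw [norm_of_nonneg (by positivity), norm_of_nonneg hg, e2]
    unfold gs
    have h3 : (1 + log (n : ℝ)) ^ 2 ≤ 4 * (log (n : ℝ)) ^ 2 := by nlinarith
    have h4 : 0 < (n : ℝ) ^ ((1 : ℝ) / 4) := by positivity
    calc exp 23888000 * 540000000 * (1 + log (n : ℝ)) ^ 2 *
          (exp (-eulerMascheroniConstant / 4) / (n : ℝ) ^ ((1 : ℝ) / 4)) ≤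
          exp 23888000 * 540000000 * (4 * (log (n : ℝ)) ^ 2) *
          (exp (-eulerMascheroniConstant / 4) / (n : ℝ) ^ ((1 : ℝ) / 4)) := by gcongr
      _ = _ := by ring
  have hcn_top : Tendsto (fun n : ℕ => cn n - (16 * log (n : ℝ) + 1 / 2) / n) atTop atTop := by
    have h1n : Tendsto (fun n : ℕ => (1 : ℝ) / n) atTop (𝓝 0) :=
      tendsto_one_div_atTop_nhds_zero_nat
    have herr : Tendsto (fun n : ℕ => (16 * log (n : ℝ) + 1 / 2) / n) atTop (𝓝 0) := by
      have := (hlogn.const_mul 16).add (h1n.const_mul (1 / 2))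
      simp only [mul_zero, add_zero] at this
      refine this.congr fun n => ?_
      ring
    have h1 : Tendsto (fun n : ℕ => (log (n : ℝ) + eulerMascheroniConstant) / 2) atTop atTop := by
      have h2 : Tendsto (fun n : ℕ => log (n : ℝ)) atTop atTop :=
        tendsto_log_atTop.comp tendsto_natCast_atTop_atTop
      exact (h2.atTop_add (tendsto_const_nhds (x := eulerMascheroniConstant))).atTop_div_const
        (by norm_num)
    have h3 : Tendsto (fun n : ℕ => 2 * (cn n / 2 - (log n + eulerMascheroniConstant) / 4) -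
        (16 * log (n : ℝ) + 1 / 2) / n) atTop (𝓝 0) := by
      have := (cn_tendsto.const_mul 2).sub herr
      simpa using this
    have h4 := h1.atTop_add h3
    refine h4.congr fun n => ?_
    ring
  -- the first factor
  have hX : (fun n : ℕ => EE n * exp (-(log n + eulerMascheroniConstant) / 4) - 1) =O[atTop] gs := by
    have hsum := (hLrate.norm_left.add hU1.norm_left).add hU2.norm_left
    refine IsBigO.trans (IsBigO.of_bound 1 ?_) hsum
    filter_upwards [eventually_ge_atTop 3, hcn_top.eventually_ge_atTop 0] with n hn h0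
    obtain ⟨m, rfl⟩ : ∃ m, n = m + 1 := ⟨n - 1, by omega⟩
    have hlo := mul_le_mul_of_nonneg_right (EE_lower m (by omega) h0)
      (exp_pos (-(log ((m + 1 : ℕ) : ℝ) + eulerMascheroniConstant) / 4)).le
    have hup := mul_le_mul_of_nonneg_right (EE_upper m (by omega))
      (exp_pos (-(log ((m + 1 : ℕ) : ℝ) + eulerMascheroniConstant) / 4)).le
    have el : exp ((cn (m + 1) - (16 * log ((m + 1 : ℕ) : ℝ) + 1 / 2) / ((m + 1 : ℕ) : ℝ)) / 2) *
        exp (-(log ((m + 1 : ℕ) : ℝ) + eulerMascheroniConstant) / 4) = exp (a (m + 1)) := by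
      rw [← exp_add]
      congr 1
      simp only [ha]
      ring
    have eu : (exp (cn (m + 1) / 2) +
        exp 23888000 * 540000000 * (1 + log ((m + 1 : ℕ) : ℝ)) ^ 2) *
        exp (-(log ((m + 1 : ℕ) : ℝ) + eulerMascheroniConstant) / 4) = exp (b (m + 1)) +
        (exp 23888000 * 540000000 * (1 + log ((m + 1 : ℕ) : ℝ)) ^ 2) *
        exp (-(log ((m + 1 : ℕ) : ℝ) + eulerMascheroniConstant) / 4) := by
      rw [add_mul]
      congr 1
      rw [← exp_add]
      congr 1
      simp only [hb]
      ring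
    rw [el] at hlo
    rw [eu] at hup
    set X := EE (m + 1) * exp (-(log ((m + 1 : ℕ) : ℝ) + eulerMascheroniConstant) / 4) with hXd
    set T := (exp 23888000 * 540000000 * (1 + log ((m + 1 : ℕ) : ℝ)) ^ 2) *
        exp (-(log ((m + 1 : ℕ) : ℝ) + eulerMascheroniConstant) / 4) with hT
    have q1 := neg_abs_le (exp (a (m + 1)) - 1)
    have q2 := le_abs_self (exp (b (m + 1)) - 1)
    have q3 := le_abs_self T
    have q4 := abs_nonneg (exp (a (m + 1)) - 1)
    have q5 := abs_nonneg (exp (b (m + 1)) - 1)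
    have q6 := abs_nonneg T
    rw [one_mul, norm_eq_abs, norm_eq_abs (‖_‖ + ‖_‖ + ‖_‖)]
    simp only [norm_eq_abs]
    rw [abs_of_nonneg (show 0 ≤ |exp (a (m + 1)) - 1| + |exp (b (m + 1)) - 1| + |T| by positivity),
      abs_le]
    constructor <;> linarith
  -- the second factor
  have hY : (fun n : ℕ => exp 2 / (1 + 2 / (n : ℝ)) ^ n - 1) =O[atTop] gs := by
    refine IsBigO.trans (IsBigO.of_bound 4 ?_) hlogG
    filter_upwards [eventually_ge_atTop 3] with n hn
    have hL := one_le_log hn
    rw [norm_of_nonneg (show 0 ≤ log (n : ℝ) / n by positivity)]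
    exact Y_rate hn
  have hYb : (fun n : ℕ => exp 2 / (1 + 2 / (n : ℝ)) ^ n) =O[atTop] (fun _ => (1 : ℝ)) := by
    have h1 := Real.tendsto_one_add_div_pow_exp 2
    have h2 := (tendsto_const_nhds (x := exp 2)).div h1 (exp_pos 2).ne'
    exact h2.isBigO_one ℝ
  have hXY := hX.mul hYb
  simp only [mul_one] at hXY
  have hprod := hXY.add hY
  refine hprod.congr' ?_ (EventuallyEq.refl _ _)
  filter_upwards [eventually_ge_atTop 1] with n hn
  rw [ratio_eq n hn]
  ring

end Pool.Agent.Helper44.Ball3
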